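import Pool.Agent.Lib.MP_5d3e93_al.Bg.Defs

/-! Lattices with a covolume are modular; perspective intervals; doubling. -/

open MulAction

namespace Pool.Agent.Lib.MP_5d3e93_al.Bg

universe w w'

variable {X : Type w'} [Lattice X] (B : Bl X)

theorem Bl.eq_of_le {x y : X} (h : x ≤ y) (e : B.cov y ≤ B.cov x) : x = y :=
  h.eq_or_lt.resolve_right fun c => (B.mono c).not_ge e

include B in
/-- cov of both sides agree, and one side is below the other. -/
theorem Bl.modular : IsModularLattice X := ⟨fun {x} y {z} h => by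
  refine (B.eq_of_le (sup_le (le_inf le_sup_left h) (inf_le_inf_right _ le_sup_right)) ?_).ge
  have a := B.mod x (y ⊓ z)
  have b := B.mod (x ⊔ y) z
  have c := B.mod x y
  have d := B.mod y z
  rw [inf_left_comm, inf_eq_left.2 h, inf_comm y x] at a
  rw [sup_right_comm, sup_eq_right.2 h, sup_comm z y] at b
  omega⟩

theorem lat_succ (π : X ≃o X) (m : ℤ) (x : X) : (π ^ (m + 1)) x = π ((π ^ m) x) := by
  rw [add_comm, zpow_one_add]
  rfl

theorem Bl.cov_zpow (m : ℤ) (x : X) : B.cov ((B.π ^ m) x) = B.cov x - m * B.n := by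
  induction m using Int.induction_on with
  | zero => simp
  | succ n ih => rw [lat_succ, B.sh, ih]; ring
  | pred n ih =>
    have := B.sh ((B.π ^ (-(n : ℤ) - 1)) x)
    rw [← lat_succ, sub_add_cancel, ih] at this
    linarith

theorem Bl.zpow_anti {m k : ℤ} (h : m ≤ k) (x : X) : (B.π ^ k) x ≤ (B.π ^ m) x := by
  induction k, h using Int.leInduction with
  | base => exact le_rfl
  | succ n _ ih => rw [lat_succ]; exact (B.le _).trans ih

/-- submodularity -/
theorem Bl.sub {p q : X} (h : p ≤ q) (y : X) :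
    B.cov (q ⊔ y) - B.cov q ≤ B.cov (p ⊔ y) - B.cov p := by
  have a := B.mod p y
  have b := B.mod q y
  have c := B.mono.monotone (inf_le_inf_right y h)
  omega

theorem lat_gap {D U U' : X} (h : D ≤ U) (p1 : U ≤ D ⊔ U') :
    B.cov U + B.cov (U' ⊓ D) = B.cov D + B.cov (U' ⊓ U) := by
  have := B.modular
  have a := B.mod D (U' ⊓ U)
  rwa [← sup_inf_assoc_of_le _ h, inf_eq_right.2 p1, inf_left_comm, inf_eq_left.2 h] at a

/-- m = U ⊓ U', U = D ⊔ m; gap = cov m - cov (U' ⊓ D) ≤ cov m - cov (m ⊓ D') ≤ gap'. -/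
theorem Bl.gap_le {D U D' U' : X} (h : D ≤ U) (h' : D' ≤ U') (p1 : U ≤ D ⊔ U') (p3 : U ⊓ D' ≤ D) :
    B.cov U - B.cov D ≤ B.cov U' - B.cov D' := by
  have a := lat_gap B h p1
  have b := B.mod (U' ⊓ U) D'
  have c := B.mono.monotone (sup_le inf_le_left h' : U' ⊓ U ⊔ D' ≤ U')
  have d := B.mono.monotone (le_inf (inf_le_left.trans inf_le_left)
    ((inf_le_inf_right _ inf_le_right).trans p3) : U' ⊓ U ⊓ D' ≤ U' ⊓ D)
  omega

theorem Bl.per_of {D U D' U' : X} (h : D ≤ U) (h' : D' ≤ U') (p1 : U ≤ D ⊔ U') (p3 : U ⊓ D' ≤ D)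
    (e : B.cov U' - B.cov D' ≤ B.cov U - B.cov D) : Per D U D' U' := by
  have a := lat_gap B h p1
  have b := B.mod (U' ⊓ U) D'
  have c : U' ⊓ U ⊔ D' ≤ U' := sup_le inf_le_left h'
  have d : U' ⊓ U ⊓ D' ≤ U' ⊓ D := le_inf (inf_le_left.trans inf_le_left)
    ((inf_le_inf_right _ inf_le_right).trans p3)
  have c' := B.mono.monotone c
  have d' := B.mono.monotone d
  exact ⟨p1, (B.eq_of_le c (by omega)).ge.trans (sup_le (inf_le_right.trans le_sup_right)
    le_sup_left), p3, (B.eq_of_le d (by omega)).ge.trans inf_le_right⟩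

theorem Per.symm {D U D' U' : X} (h : Per D U D' U') : Per D' U' D U :=
  ⟨h.2.1, h.1, h.2.2.2, h.2.2.1⟩

/-- The shift of the double. -/
def latD (π : X ≃o X) : X × Xᵒᵈ ≃o X × Xᵒᵈ where
  toEquiv := π.toEquiv.prodCongr π.symm.dual.toEquiv
  map_rel_iff' := and_congr π.map_rel_iff π.symm.dual.map_rel_iff

theorem latD_pow (π : X ≃o X) (m : ℕ) (x y : X) :
    (latD π ^ m) (x, OrderDual.toDual y) = ((π ^ m) x, OrderDual.toDual ((π⁻¹ ^ m) y)) := by
  induction m with
  | zero => rfl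
  | succ n ih => rw [pow_succ', pow_succ', pow_succ', RelIso.mul_apply, ih]; rfl

/-- Doubling: X × dual X, shift (π, π⁻¹), covolume cov y - cov x. -/
theorem ex_bl {G : Type w} [Group G] [MulAction G X] [Nonempty X] (π : X ≃o X) (cov : X → ℤ)
    (χ : G → ℤ) (N : ℕ) (hN : 0 < N) (h1 : ∀ (g : G) (x y : X), x ≤ y → g • x ≤ g • y)
    (h2 : ∀ (g : G) x, π (g • x) = g • π x) (h3 : ∀ x, π x ≤ x)
    (h4 : ∀ x y, ∃ m : ℕ, (π ^ m) x ≤ y) (h5 : StrictAnti cov)
    (h6 : ∀ x y, cov (x ⊔ y) + cov (x ⊓ y) = cov x + cov y) (h7 : ∀ x, cov (π x) = cov x + N)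
    (h8 : ∀ (g : G) x, cov (g • x) = cov x + χ g) :
    ∃ (X' : Type w') (_ : Lattice X') (_ : Nonempty X') (_ : MulAction G X') (B : Bl X'),
      B.Ac G ∧ ∀ z : X', ∃ x : X, ∀ g : G, g • z = z → g • x = x := by
  have an : ∀ {m k : ℕ}, m ≤ k → ∀ x, (π ^ k) x ≤ (π ^ m) x := fun h x => by
    induction h with
    | refl => exact le_rfl
    | step _ ih => rw [pow_succ']; exact (h3 _).trans ih
  refine ⟨X × Xᵒᵈ, inferInstance, inferInstance, inferInstance,
    ⟨2 * N, by omega, latD π, fun z => cov (OrderDual.ofDual z.2) - cov z.1, fun z =>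
      ⟨h3 _, π.le_symm_apply.2 (h3 _)⟩, fun z z' h => ?_, fun z z' => ?_, fun z => ?_,
      fun z z' => ?_⟩,
    ⟨fun g z z' h => ⟨h1 g _ _ h.1, h1 g (OrderDual.ofDual z'.2) (OrderDual.ofDual z.2) h.2⟩,
      fun g z => Prod.ext (h2 g _) ?_, fun g z => ?_⟩,
    fun z => ⟨z.1, fun g e => congrArg Prod.fst e⟩⟩
  · have a := h5.antitone h.le.1
    have b : cov (OrderDual.ofDual z.2) ≤ cov (OrderDual.ofDual z'.2) := h5.antitone h.le.2
    rcases Prod.lt_iff.1 h with c | c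
    · have := h5 c.1
      dsimp only
      omega
    · have : cov (OrderDual.ofDual z.2) < cov (OrderDual.ofDual z'.2) := h5 c.2
      dsimp only
      omega
  · have a := h6 z.1 z'.1
    have b := h6 (OrderDual.ofDual z.2) (OrderDual.ofDual z'.2)
    change cov (OrderDual.ofDual z.2 ⊓ OrderDual.ofDual z'.2) - cov (z.1 ⊔ z'.1) +
      (cov (OrderDual.ofDual z.2 ⊔ OrderDual.ofDual z'.2) - cov (z.1 ⊓ z'.1)) = _
    omega
  · have a := h7 z.1
    have b := h7 (π.symm (OrderDual.ofDual z.2))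
    rw [π.apply_symm_apply] at b
    change cov (π.symm (OrderDual.ofDual z.2)) - cov (π z.1) = _
    push_cast
    omega
  · obtain ⟨m, a⟩ := h4 z.1 z'.1
    obtain ⟨k, b⟩ := h4 (OrderDual.ofDual z'.2) (OrderDual.ofDual z.2)
    refine ⟨m + k, (latD_pow π _ z.1 (OrderDual.ofDual z.2)).le.trans
      ⟨(an (Nat.le_add_right _ _) _).trans a, ?_⟩⟩
    rw [inv_pow]
    exact (π ^ (m + k)).le_symm_apply.2 ((an (Nat.le_add_left _ _) _).trans b)
  · change π.symm (g • OrderDual.ofDual z.2) = g • π.symm (OrderDual.ofDual z.2)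
    rw [π.symm_apply_eq, h2, π.apply_symm_apply]
  · have a := h8 g z.1
    have b := h8 g (OrderDual.ofDual z.2)
    change cov (g • OrderDual.ofDual z.2) - cov (g • z.1) =
      cov (OrderDual.ofDual z.2) - cov z.1
    omega

end Pool.Agent.Lib.MP_5d3e93_al.Bg
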