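import Pool.Agent.Lib.MP_5d3e93_al.Bg.Defs

/-! Chains on typed flag complexes: the boundary squares to zero, cones, acyclicity. -/

namespace Pool.Agent.Lib.MP_5d3e93_al.Bg

universe w w' w''

section Chn

open Finsupp

variable {V : Type w'} (K : Fg V)

theorem acy_lin {M : Type*} [AddCommGroup M] (T : (List V →₀ ℤ) →ₗ[ℤ] M) {N : Submodule ℤ M}
    {s : Set (List V)} {c : List V →₀ ℤ} (hc : c ∈ supported ℤ ℤ s)
    (h : ∀ l ∈ s, T (single l 1) ∈ N) : T c ∈ N := by
  rw [supported_eq_span_single] at hc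
  have : Submodule.span ℤ ((fun i => single i (1 : ℤ)) '' s) ≤ N.comap T :=
    Submodule.span_le.2 (by rintro _ ⟨l, hl, rfl⟩; exact h l hl)
  exact this hc

theorem acy_eq {M : Type*} [AddCommGroup M] (T T' : (List V →₀ ℤ) →ₗ[ℤ] M)
    {s : Set (List V)} {c : List V →₀ ℤ} (hc : c ∈ supported ℤ ℤ s)
    (h : ∀ l ∈ s, T (single l 1) = T' (single l 1)) : T c = T' c := by
  have := acy_lin (T - T') (N := ⊥) hc fun l hl => by
    rw [Submodule.mem_bot, LinearMap.sub_apply, h l hl, sub_self]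
  rwa [Submodule.mem_bot, LinearMap.sub_apply, sub_eq_zero] at this

theorem acy_all (c : List V →₀ ℤ) : c ∈ supported ℤ ℤ (Set.univ : Set (List V)) := by
  rw [supported_univ]; trivial

theorem Fg.dC_single (l : List V) : Fg.dC (single l 1) = Fg.bd l := by
  rw [Fg.dC, linearCombination_single, one_smul]

theorem Fg.dC_cons (x : V) (c : List V →₀ ℤ) :
    Fg.dC (mapDomain (x :: ·) c) = c - mapDomain (x :: ·) (Fg.dC c) := by
  have := acy_eq (Fg.dC ∘ₗ lmapDomain ℤ ℤ (x :: ·))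
    (LinearMap.id - lmapDomain ℤ ℤ (x :: ·) ∘ₗ Fg.dC) (acy_all c) fun l _ => by
      simp only [LinearMap.comp_apply, lmapDomain_apply, mapDomain_single, LinearMap.sub_apply,
        LinearMap.id_apply, Fg.dC_single, Fg.bd]
  simpa only [LinearMap.comp_apply, lmapDomain_apply, LinearMap.sub_apply, LinearMap.id_apply]
    using this

theorem Fg.dd_bd (l : List V) : Fg.dC (Fg.bd l) = 0 := by
  induction l with
  | nil => rw [Fg.bd, map_zero]
  | cons x l ih => rw [Fg.bd, map_sub, Fg.dC_cons, ih, Fg.dC_single, mapDomain_zero]; simp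

theorem Fg.dd (c : List V →₀ ℤ) : Fg.dC (Fg.dC c) = 0 :=
  acy_eq (Fg.dC ∘ₗ Fg.dC) 0 (acy_all c) fun l _ => by
    rw [LinearMap.comp_apply, Fg.dC_single, Fg.dd_bd, LinearMap.zero_apply]

theorem acy_single {s : Set (List V)} {l : List V} (h : l ∈ s) :
    single l (1 : ℤ) ∈ supported ℤ ℤ s := single_mem_supported ℤ 1 h

theorem Fg.bd_mem (l : List V) :
    Fg.bd l ∈ supported ℤ ℤ {m | m.Sublist l ∧ m.length + 1 = l.length} := by
  induction l with
  | nil => exact zero_mem _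
  | cons x l ih =>
    refine sub_mem (acy_single ⟨List.sublist_cons_self _ _, rfl⟩) ?_
    refine acy_lin (lmapDomain ℤ ℤ (x :: ·)) ih fun m hm => ?_
    rw [lmapDomain_apply, mapDomain_single]
    exact acy_single ⟨hm.1.cons_cons x, by simp [hm.2]⟩

theorem Fg.d_mem {P P' : List V → Prop} (h : ∀ l l', K.Sx l → P l → l'.Sublist l → P' l') {k : ℕ}
    {c : List V →₀ ℤ} (hc : c ∈ K.Cn P (k + 1)) : Fg.dC c ∈ K.Cn P' k :=
  acy_lin Fg.dC hc fun l hl => by
    rw [Fg.dC_single]
    refine supported_mono (fun m hm => ?_) (Fg.bd_mem l)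
    exact ⟨List.Pairwise.sublist hm.1 hl.1, by have := hl.2.1; have := hm.2; omega,
      h l m hl.1 hl.2.2 hm.1⟩

/-- Signed sorted insertion. -/
noncomputable def Fg.cone (y : V) : List V → List V →₀ ℤ
  | [] => single [y] 1
  | x :: l => if K.ty y < K.ty x then single (y :: x :: l) 1 else if K.ty y = K.ty x then 0 else
      - mapDomain (x :: ·) (Fg.cone y l)

/-- The cone operator. -/
noncomputable def Fg.cL (y : V) : (List V →₀ ℤ) →ₗ[ℤ] (List V →₀ ℤ) :=
  linearCombination ℤ (K.cone y)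

theorem Fg.cL_single (y : V) (l : List V) : K.cL y (single l 1) = K.cone y l := by
  rw [Fg.cL, linearCombination_single, one_smul]

theorem Fg.cone_lt {y : V} {l : List V} (h : ∀ x ∈ l, K.ty y < K.ty x) :
    K.cone y l = single (y :: l) 1 := by
  cases l with
  | nil => rfl
  | cons x l => rw [Fg.cone, if_pos (h x (List.mem_cons_self ..))]

theorem Fg.cone_id {y : V} {l : List V} (hl : K.Sx l) (ha : ∀ x ∈ l, K.adj y x) :
    Fg.dC (K.cone y l) + K.cL y (Fg.bd l) = single l 1 := by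
  induction l with
  | nil => simp [Fg.cone, Fg.dC_single, Fg.bd]
  | cons x l ih =>
    obtain ⟨h1, h2⟩ := List.pairwise_cons.1 hl
    by_cases a : K.ty y < K.ty x
    · have e : K.cL y (Fg.bd (x :: l)) = lmapDomain ℤ ℤ (y :: ·) (Fg.bd (x :: l)) :=
        acy_eq _ _ (Fg.bd_mem _) fun m hm => by
          rw [Fg.cL_single, lmapDomain_apply, mapDomain_single]
          refine K.cone_lt fun z hz => ?_
          rcases List.mem_cons.1 (hm.1.subset hz) with rfl | b
          · exact a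
          · exact a.trans (h1 z b).2
      rw [Fg.cone, if_pos a, Fg.dC_single, e, lmapDomain_apply]
      conv_lhs => enter [1]; rw [Fg.bd]
      rw [sub_add_cancel]
    · by_cases b : K.ty y = K.ty x
      · obtain rfl := K.eq (ha x (List.mem_cons_self ..)) b
        have e : (K.cL y ∘ₗ lmapDomain ℤ ℤ (y :: ·)) (Fg.bd l) =
            (0 : (List V →₀ ℤ) →ₗ[ℤ] (List V →₀ ℤ)) (Fg.bd l) :=
          acy_eq _ _ (acy_all _) fun m _ => by
            rw [LinearMap.comp_apply, lmapDomain_apply, mapDomain_single, Fg.cL_single, Fg.cone,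
              if_neg a, if_pos rfl, LinearMap.zero_apply]
        rw [LinearMap.comp_apply, lmapDomain_apply, LinearMap.zero_apply] at e
        rw [Fg.cone, if_neg a, if_pos rfl, map_zero, zero_add, Fg.bd, map_sub, e, sub_zero,
          Fg.cL_single, K.cone_lt fun z hz => (h1 z hz).2]
      · have e : (K.cL y ∘ₗ lmapDomain ℤ ℤ (x :: ·)) (Fg.bd l) =
            (-(lmapDomain ℤ ℤ (x :: ·) ∘ₗ K.cL y)) (Fg.bd l) :=
          acy_eq _ _ (acy_all _) fun m _ => by
            rw [LinearMap.comp_apply, lmapDomain_apply, mapDomain_single, Fg.cL_single, Fg.cone,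
              if_neg a, if_neg b, LinearMap.neg_apply, LinearMap.comp_apply, Fg.cL_single,
              lmapDomain_apply]
        rw [LinearMap.comp_apply, lmapDomain_apply, LinearMap.neg_apply, LinearMap.comp_apply,
          lmapDomain_apply] at e
        have i := congrArg (mapDomain (x :: ·)) (ih h2 fun z hz => ha z (List.mem_cons_of_mem _ hz))
        rw [mapDomain_add, mapDomain_single] at i
        rw [Fg.cone, if_neg a, if_neg b, map_neg, Fg.dC_cons, Fg.bd, map_sub, e, Fg.cL_single, ← i]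
        abel

theorem Fg.cone_mem {y : V} {l : List V} (hl : K.Sx l) (ha : ∀ x ∈ l, K.adj y x) :
    K.cone y l ∈ K.Cn (fun m => ∀ x ∈ m, x = y ∨ x ∈ l) (l.length + 1) := by
  induction l with
  | nil => exact acy_single ⟨List.pairwise_singleton .., rfl, by simp⟩
  | cons x l ih =>
    obtain ⟨h1, h2⟩ := List.pairwise_cons.1 hl
    rw [Fg.cone]
    split_ifs with a b
    · refine acy_single ⟨List.pairwise_cons.2 ⟨fun z hz => ⟨ha z hz, ?_⟩, hl⟩, rfl,
        fun z hz => List.mem_cons.1 hz⟩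
      rcases List.mem_cons.1 hz with rfl | b
      · exact a
      · exact a.trans (h1 z b).2
    · exact zero_mem _
    · refine neg_mem (acy_lin (lmapDomain ℤ ℤ (x :: ·))
        (ih h2 fun z hz => ha z (List.mem_cons_of_mem _ hz)) fun m hm => ?_)
      rw [lmapDomain_apply, mapDomain_single]
      refine acy_single ⟨List.pairwise_cons.2 ⟨fun z hz => ?_, hm.1⟩, by simp [hm.2.1], fun z hz => ?_⟩
      · rcases hm.2.2 z hz with rfl | c
        · exact ⟨K.symm (ha x (List.mem_cons_self ..)), by omega⟩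
        · exact h1 z c
      · rcases List.mem_cons.1 hz with rfl | c
        · exact Or.inr (List.mem_cons_self ..)
        · exact (hm.2.2 z c).imp_right (List.mem_cons_of_mem _)

theorem Fg.cL_mem {y : V} {P P' : List V → Prop} {k : ℕ} {c : List V →₀ ℤ} (hc : c ∈ K.Cn P k)
    (ha : ∀ l, K.Sx l → P l → ∀ x ∈ l, K.adj y x)
    (h : ∀ l m, P l → (∀ x ∈ m, x = y ∨ x ∈ l) → P' m) : K.cL y c ∈ K.Cn P' (k + 1) :=
  acy_lin (K.cL y) hc fun l hl => by
    rw [Fg.cL_single]
    refine supported_mono (fun m hm => ?_) (K.cone_mem hl.1 (ha l hl.1 hl.2.2))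
    exact ⟨hm.1, hl.2.1 ▸ hm.2.1, h l m hl.2.2 hm.2.2⟩

theorem Fg.cL_id {y : V} {P : List V → Prop} {k : ℕ} {c : List V →₀ ℤ} (hc : c ∈ K.Cn P k)
    (ha : ∀ l, K.Sx l → P l → ∀ x ∈ l, K.adj y x) :
    Fg.dC (K.cL y c) + K.cL y (Fg.dC c) = c :=
  acy_eq (Fg.dC ∘ₗ K.cL y + K.cL y ∘ₗ Fg.dC) LinearMap.id hc fun l hl => by
    rw [LinearMap.add_apply, LinearMap.comp_apply, LinearMap.comp_apply, Fg.cL_single,
      Fg.dC_single, LinearMap.id_apply]
    exact K.cone_id hl.1 (ha l hl.1 hl.2.2)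

theorem Fg.Cn_mono {P P' : List V → Prop} {k : ℕ} (h : ∀ l, K.Sx l → l.length = k → P l → P' l) :
    K.Cn P k ≤ K.Cn P' k := supported_mono fun l hl => ⟨hl.1, hl.2.1, h l hl.1 hl.2.1 hl.2.2⟩

theorem Fg.Sx.adj {K : Fg V} {l : List V} (h : K.Sx l) {x y : V} (hx : x ∈ l) (hy : y ∈ l) :
    K.adj x y := by
  induction l with
  | nil => cases hx
  | cons z l ih =>
    obtain ⟨h1, h2⟩ := List.pairwise_cons.1 h
    rcases List.mem_cons.1 hx with rfl | a <;> rcases List.mem_cons.1 hy with rfl | b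
    · exact K.refl _
    · exact (h1 _ b).1
    · exact K.symm (h1 _ a).1
    · exact ih h2 a b

/-- Pushing one vertex. -/
theorem Fg.push {B : Set V} {z z' : V} (hz : z' ∈ B) (ha : ∀ y ∈ insert z B, K.adj y z → K.adj z' y)
    {k : ℕ} {c : List V →₀ ℤ} (hc : c ∈ K.Cn (fun l => ∀ x ∈ l, x ∈ insert z B) k)
    (e : Fg.dC c = 0) : ∃ b ∈ K.Cn (fun l => ∀ x ∈ l, x ∈ insert z B) (k + 1),
      c - Fg.dC b ∈ K.Cn (fun l => ∀ x ∈ l, x ∈ B) k := by
  classical
  cases k with
  | zero =>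
    refine ⟨0, zero_mem _, ?_⟩
    rw [map_zero, sub_zero]
    exact K.Cn_mono (fun l _ h _ x hx => by rw [List.length_eq_zero_iff.1 h] at hx; cases hx) hc
  | succ k =>
    have hc' := (mem_supported ℤ c).1 hc
    have h1 : c.filter (z ∈ ·) ∈
        K.Cn (fun l => ∀ x ∈ l, x ∈ insert z B ∧ K.adj z' x) (k + 1) :=
      (mem_supported ℤ _).2 fun l hl => by
        rw [support_filter, Finset.mem_coe, Finset.mem_filter] at hl
        obtain ⟨a, b, d⟩ := hc' hl.1
        exact ⟨a, b, fun x hx => ⟨d x hx, ha x (d x hx) (a.adj hx hl.2)⟩⟩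
    have h0 : c.filter (fun l => ¬ z ∈ l) ∈ K.Cn (fun l => ∀ x ∈ l, x ∈ B) (k + 1) :=
      (mem_supported ℤ _).2 fun l hl => by
        rw [support_filter, Finset.mem_coe, Finset.mem_filter] at hl
        obtain ⟨a, b, d⟩ := hc' hl.1
        exact ⟨a, b, fun x hx => (d x hx).resolve_left fun f => hl.2 (f ▸ hx)⟩
    have s := filter_pos_add_filter_neg c (z ∈ ·)
    have d1 := K.d_mem (P' := fun l => ∀ x ∈ l, K.adj z' x)
      (fun l l' _ a b x hx => (a x (b.subset hx)).2) h1
    have d0 := K.d_mem (P' := fun l => ∀ x ∈ l, x ∈ B) (fun l l' _ a b x hx => a x (b.subset hx)) h0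
    have e1 : Fg.dC (c.filter (z ∈ ·)) = - Fg.dC (c.filter (fun l => ¬ z ∈ l)) := by
      rw [eq_neg_iff_add_eq_zero, ← map_add, s, e]
    have d2 : Fg.dC (c.filter (z ∈ ·)) ∈ K.Cn (fun l => ∀ x ∈ l, x ∈ B ∧ K.adj z' x) k :=
      (mem_supported ℤ _).2 fun l hl => by
        have a := (mem_supported ℤ _).1 d1 hl
        have b := (mem_supported ℤ _).1 (e1 ▸ neg_mem d0) hl
        exact ⟨a.1, a.2.1, fun x hx => ⟨b.2.2 x hx, a.2.2 x hx⟩⟩
    refine ⟨K.cL z' (c.filter (z ∈ ·)), K.cL_mem h1 (fun l _ a x hx => (a x hx).2)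
      fun l m a b x hx => ?_, ?_⟩
    · rcases b x hx with rfl | f
      · exact Or.inr hz
      · exact (a x f).1
    · have i := K.cL_id h1 fun l _ a x hx => (a x hx).2
      have : c - Fg.dC (K.cL z' (c.filter (z ∈ ·))) =
          c.filter (fun l => ¬ z ∈ l) + K.cL z' (Fg.dC (c.filter (z ∈ ·))) := by
        rw [← eq_sub_iff_add_eq] at i
        rw [i]
        nth_rewrite 1 [← s]
        abel
      rw [this]
      refine add_mem h0 (K.cL_mem d2 (fun l _ a x hx => (a x hx).2) fun l m a b x hx => ?_)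
      rcases b x hx with rfl | f
      · exact hz
      · exact (a x f).1

theorem Fg.acyc {A : Set V} (h : K.Dm A) {k : ℕ} {c : List V →₀ ℤ}
    (hc : c ∈ K.Cn (fun l => ∀ x ∈ l, x ∈ A) k) (e : Fg.dC c = 0) :
    ∃ b ∈ K.Cn (fun l => ∀ x ∈ l, x ∈ A) (k + 1), Fg.dC b = c := by
  classical
  obtain ⟨a, ha, μ, h0, h1⟩ := h
  have key : ∀ (n : ℕ) (S : Finset V), (∀ z ∈ S, z ∈ A ∧ μ z ≤ n) → ∀ c : List V →₀ ℤ,
      c ∈ K.Cn (fun l => ∀ x ∈ l, x ∈ (S : Set V) ∪ {x | x ∈ A ∧ μ x < n}) k → Fg.dC c = 0 →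
      ∃ b ∈ K.Cn (fun l => ∀ x ∈ l, x ∈ A) (k + 1), Fg.dC b = c := by
    intro n
    induction n with
    | zero =>
      intro S hS c hc e
      have f : ∀ l : List V, (∀ x ∈ l, x ∈ (S : Set V) ∪ {x | x ∈ A ∧ μ x < 0}) → ∀ x ∈ l, x = a :=
        fun l hl x hx => (hl x hx).elim
          (fun b => h0 x (hS x b).1 (Nat.le_zero.1 (hS x b).2)) fun b => absurd b.2 (Nat.not_lt_zero _)
      have g : ∀ l, K.Sx l → (∀ x ∈ l, x ∈ (S : Set V) ∪ {x | x ∈ A ∧ μ x < 0}) →
          ∀ x ∈ l, K.adj a x := fun l _ hl x hx => f l hl x hx ▸ K.refl _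
      refine ⟨K.cL a c, K.cL_mem hc g fun l m hl b x hx => ?_, ?_⟩
      · rcases b x hx with rfl | d
        · exact ha
        · exact f l hl x d ▸ ha
      · have := K.cL_id hc g
        rwa [e, map_zero, add_zero] at this
    | succ n ih =>
      intro S
      induction S using Finset.induction_on with
      | empty =>
        intro _ c hc e
        have hc' := (mem_supported ℤ c).1 hc
        refine ih (c.support.biUnion List.toFinset) (fun z hz => ?_) c
          ((mem_supported ℤ _).2 fun l hl => ⟨(hc' hl).1, (hc' hl).2.1, fun x hx =>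
            Or.inl (Finset.mem_biUnion.2 ⟨l, hl, List.mem_toFinset.2 hx⟩)⟩) e
        obtain ⟨l, hl, hz⟩ := Finset.mem_biUnion.1 hz
        rcases (hc' hl).2.2 z (List.mem_toFinset.1 hz) with b | b
        · simp at b
        · exact ⟨b.1, Nat.lt_succ_iff.1 b.2⟩
      | insert z S _ ihS =>
        intro hS c hc e
        have hS' : ∀ y ∈ S, y ∈ A ∧ μ y ≤ n + 1 := fun y hy => hS y (Finset.mem_insert_of_mem hy)
        obtain ⟨z1, z2⟩ := hS z (Finset.mem_insert_self ..)
        rw [Finset.coe_insert, Set.insert_union] at hc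
        rcases z2.lt_or_eq with z3 | z3
        · refine ihS hS' c (K.Cn_mono (fun l _ _ f x hx => ?_) hc) e
          rcases f x hx with rfl | b
          · exact Or.inr ⟨z1, z3⟩
          · exact b
        · obtain ⟨z', a1, a2, a3⟩ := h1 z z1 (by omega)
          have sub : ∀ y ∈ insert z ((S : Set V) ∪ {x | x ∈ A ∧ μ x < n + 1}),
              y ∈ A ∧ μ y ≤ n + 1 := by
            rintro y (rfl | b | b)
            · exact ⟨z1, z2⟩
            · exact hS' y b
            · exact ⟨b.1, b.2.le⟩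
          obtain ⟨b, b1, b2⟩ := K.push (z' := z') (Or.inr ⟨a1, z3 ▸ a2⟩)
            (fun y hy f => a3 y (sub y hy).1 f (z3 ▸ (sub y hy).2)) hc e
          obtain ⟨b', c1, c2⟩ := ihS hS' _ b2 (by rw [map_sub, e, Fg.dd, sub_zero])
          exact ⟨b + b', add_mem (K.Cn_mono (fun l _ _ f x hx => (sub x (f x hx)).1) b1) c1,
            by rw [map_add, c2]; abel⟩
  have hc' := (mem_supported ℤ c).1 hc
  refine key ((c.support.biUnion List.toFinset).sup μ) (c.support.biUnion List.toFinset)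
    (fun z hz => ⟨?_, Finset.le_sup hz⟩) c
    ((mem_supported ℤ _).2 fun l hl => ⟨(hc' hl).1, (hc' hl).2.1, fun x hx =>
      Or.inl (Finset.mem_biUnion.2 ⟨l, hl, List.mem_toFinset.2 hx⟩)⟩) e
  obtain ⟨l, hl, hz⟩ := Finset.mem_biUnion.1 hz
  exact (hc' hl).2.2 z (List.mem_toFinset.1 hz)

end Chn

end Pool.Agent.Lib.MP_5d3e93_al.Bg
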