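import Pool.Agent.Lib.MP_5d3e93_al.Bg.Defs

/-! Comparison of the visible covolume along a push. -/

namespace Pool.Agent.Lib.MP_5d3e93_al.Bg

universe w w'

open Finset

theorem cm_add (f : ℤ → ℤ) {a b c : ℤ} (h : a ≤ b) (k : b ≤ c) :
    ∑ i ∈ Ioc a c, f i = ∑ i ∈ Ioc a b, f i + ∑ i ∈ Ioc b c, f i := by
  rw [← Ioc_union_Ioc_eq_Ioc h k, sum_union (Ioc_disjoint_Ioc_of_le le_rfl)]

theorem cm_one (f : ℤ → ℤ) (a : ℤ) : ∑ i ∈ Ioc (a - 1) a, f i = f a := by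
  rw [show Ioc (a - 1) a = {a} by ext; simp; omega, sum_singleton]

theorem cm_tel (F : ℤ → ℤ) {a b : ℤ} (h : a ≤ b) :
    ∑ i ∈ Ioc a b, (F i - F (i - 1)) = F b - F a := by
  induction b, h using Int.leInduction with
  | base => simp
  | succ b h ih =>
    have := cm_one (fun i => F i - F (i - 1)) (b + 1)
    rw [add_sub_cancel_right] at this
    rw [cm_add _ h (b.le_add_one le_rfl), ih, this]
    ring

theorem cm_range (f : ℤ → ℤ) (n : ℕ) : ∑ i ∈ range n, f i = ∑ i ∈ Ioc (-1 : ℤ) (n - 1), f i := by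
  induction n with
  | zero => simp
  | succ n ih =>
    rw [sum_range_succ, ih, show ((n + 1 : ℕ) : ℤ) - 1 = n by omega,
      cm_add f (b := n - 1) (c := n) (by omega) (by omega), cm_one]

theorem cm_per {f : ℤ → ℤ} {n : ℕ} (h : ∀ i, f (i + n) = f i) (c : ℤ) :
    ∑ i ∈ Ioc c (c + n), f i = ∑ i ∈ range n, f i := by
  have key (c : ℤ) : ∑ i ∈ Ioc (c + 1) (c + 1 + n), f i = ∑ i ∈ Ioc c (c + n), f i := by
    have a := cm_add f (a := c) (b := c + 1) (c := c + 1 + n) (by omega) (by omega)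
    have b := cm_add f (a := c) (b := c + n) (c := c + 1 + n) (by omega) (by omega)
    have d := cm_one f (c + 1)
    have e := cm_one f (c + 1 + n)
    rw [add_sub_cancel_right] at d
    rw [show c + 1 + n - 1 = c + n by ring, h] at e
    omega
  rw [cm_range, show (n : ℤ) - 1 = -1 + n by ring]
  induction c using Int.inductionOn' (b := -1) with
  | zero => rfl
  | succ c _ ih => rw [key, ih]
  | pred c _ ih => rw [← key, sub_add_cancel, ih]

theorem cm_blocks (f : ℤ → ℤ) {b : ℤ → ℤ} (hb : Monotone b) {s t : ℤ} (h : s ≤ t) :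
    ∑ u ∈ Ioc s t, ∑ i ∈ Ioc (b (u - 1)) (b u), f i = ∑ i ∈ Ioc (b s) (b t), f i := by
  induction t, h using Int.leInduction with
  | base => simp
  | succ t h ih =>
    have := cm_one (fun u => ∑ i ∈ Ioc (b (u - 1)) (b u), f i) (t + 1)
    rw [add_sub_cancel_right] at this
    rw [cm_add _ h (t.le_add_one le_rfl), ih, this, ← cm_add f (hb h) (hb (t.le_add_one le_rfl))]

theorem cm_sum {f g b : ℤ → ℤ} {n : ℕ} (hn : 0 < n) (hf : ∀ i, f (i + n) = f i)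
    (hg : ∀ i, g (i + n) = g i) (hb : Monotone b) (pb : ∀ s, b (s + n) = b s + n)
    (h : ∀ s, ∑ i ∈ Ioc (b (s - 1)) (b s), f i ≤ g s) :
    ∑ i ∈ range n, f i ≤ ∑ i ∈ range n, g i ∧ (∑ i ∈ range n, g i ≤ ∑ i ∈ range n, f i →
      ∀ s, g s = ∑ i ∈ Ioc (b (s - 1)) (b s), f i) := by
  have key (c : ℤ) : ∑ i ∈ range n, f i =
      ∑ u ∈ Ioc c (c + n), ∑ i ∈ Ioc (b (u - 1)) (b u), f i := by
    rw [cm_blocks f hb (by omega), pb, cm_per hf]
  refine ⟨by rw [key 0, ← cm_per hg 0]; exact sum_le_sum fun s _ => h s, fun e s => ?_⟩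
  rw [key (s - 1), ← cm_per hg (s - 1)] at e
  exact ((sum_eq_sum_iff_of_le fun s _ => h s).1 (le_antisymm (sum_le_sum fun s _ => h s) e) s
    (by simp; omega)).symm

variable {X : Type w'} [Lattice X] {B : Bl X} {k ρ : X → X} {w v : ℤ → X}

namespace Bl

theorem cm_eq {x y : X} (h : x ≤ y) (e : B.cov y ≤ B.cov x) : x = y :=
  h.eq_or_lt.resolve_right fun a => (B.mono a).not_ge e

theorem Chn.cm_cov (hw : B.Chn w) (i : ℤ) : B.cov (w (i + B.n)) = B.cov (w i) + B.n := by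
  rw [← hw.per i, B.sh]
  ring

theorem Chn.cm_ko (hw : B.Chn w) (hk : B.Ko k) : B.Chn fun i => k (w i) :=
  ⟨hk.mono.comp hw.mono, fun i => by rw [← hk.pi, hw.per]⟩

theorem Chn.cm_pred (hw : B.Chn w) (i : ℤ) : w (i - 1) ≤ w i := hw.mono (by omega)

theorem Chn.cm_mem (hw : B.Chn w) (hk : B.Ko k) : B.Chn (mem k w) :=
  ⟨fun i j h => sup_le_sup (hw.mono (by omega)) (hk.mono (hw.mono h)), fun i => by
    rw [mem, mem, map_sup, ← hk.pi, hw.per, add_sub_right_comm, hw.per]⟩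

theorem Chn.cm_le (hw : B.Chn w) (hk : B.Ko k) (i : ℤ) : mem k w i ≤ w i :=
  sup_le (hw.cm_pred i) (hk.le _)

theorem Chn.cm_gap (hw : B.Chn w) (hk : B.Ko k) (i : ℤ) :
    B.cov (mem k w (i + B.n)) - B.cov (w (i + B.n - 1)) =
      B.cov (mem k w i) - B.cov (w (i - 1)) := by
  rw [add_sub_right_comm, hw.cm_cov, (hw.cm_mem hk).cm_cov]
  ring

theorem Chn.cm_co (hw : B.Chn w) (k : X → X) :
    ∑ i ∈ range B.n, (B.cov (mem k w i) - B.cov (w i)) = B.E k w - B.n := by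
  have a := cm_tel (fun i => B.cov (w i)) (a := -1) (b := B.n - 1) (by omega)
  rw [← cm_range (fun i => B.cov (w i) - B.cov (w (i - 1))),
    show (B.n : ℤ) - 1 = -1 + B.n by ring, hw.cm_cov, add_sub_cancel_left] at a
  rw [← a, E, ← sum_sub_distrib]
  exact sum_congr rfl fun _ _ => by ring

theorem Chn.cm_max (hw : B.Chn w) {y : X} (h : ∃ a, w a ≤ y) :
    ∃ a, w a ≤ y ∧ ∀ a', w a' ≤ y → a' ≤ a := by
  have key (m : ℕ) : B.cov (w 0) + m ≤ B.cov (w (m * B.n)) := by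
    induction m with
    | zero => simp
    | succ m ih =>
      have := B.pos
      rw [Nat.cast_succ, add_mul, one_mul, hw.cm_cov]
      omega
  refine Int.exists_greatest_of_bdd ⟨((B.cov y - B.cov (w 0)).toNat + 1 : ℕ) * B.n, fun a c => ?_⟩ h
  by_contra d
  have := (key _).trans (B.mono.monotone ((hw.mono (not_le.1 d).le).trans c))
  omega

theorem Chn.cm_ex (hw : B.Chn w) (hv : B.Chn v) (h : ∀ s, ∃ a, w a ≤ v s) :
    ∃ a : ℤ → ℤ, Monotone a ∧ (∀ s, a (s + B.n) = a s + B.n) ∧ (∀ s, w (a s) ≤ v s) ∧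
      ∀ s a', w a' ≤ v s → a' ≤ a s := by
  choose a p q using fun s => hw.cm_max (h s)
  have e (i s) : w (i + B.n) ≤ v (s + B.n) ↔ w i ≤ v s := by
    rw [← B.π.le_iff_le, hw.per, hv.per]
  refine ⟨a, fun s t c => q t _ ((p s).trans (hv.mono c)), fun s => le_antisymm ?_
    (q _ _ ((e ..).2 (p s))), p, q⟩
  have := q s (a (s + B.n) - B.n) ((e ..).1 (by rw [sub_add_cancel]; exact p _))
  omega

theorem ex_ab (hρ : B.Ko ρ) (hw : B.Chn w) (hv : B.Chn v) (h : Push ρ w v) :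
    ∃ a b : ℤ → ℤ, Monotone a ∧ Monotone b ∧ (∀ s, a s ≤ b s) ∧ (∀ s, a (s + B.n) = a s + B.n) ∧
      (∀ s, b (s + B.n) = b s + B.n) ∧ ∀ s, v s = w (a s) ⊔ ρ (w (b s)) := by
  obtain ⟨a, a1, a2, a3, a4⟩ := hw.cm_ex hv fun s => by
    obtain ⟨a, b, e⟩ := h s
    exact ⟨a, e ▸ le_sup_left⟩
  obtain ⟨b, b1, b2, b3, b4⟩ := (hw.cm_ko hρ).cm_ex hv fun s => by
    obtain ⟨a, b, e⟩ := h s
    exact ⟨b, e ▸ le_sup_right⟩
  refine ⟨a, b, a1, b1, fun s => b4 s _ ((hρ.le _).trans (a3 s)), a2, b2, fun s =>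
    le_antisymm ?_ (sup_le (a3 s) (b3 s))⟩
  obtain ⟨i, j, e⟩ := h s
  exact e.le.trans (sup_le_sup (hw.mono (a4 s i (e ▸ le_sup_left)))
    (hρ.mono (hw.mono (b4 s j (e ▸ le_sup_right)))))

theorem cm_lo (hk : B.Ko k) (hρ : B.Ko ρ) (hw : B.Chn w) {a b : ℤ → ℤ}
    (hb : Monotone b) (ab : ∀ s, a s ≤ b s) (h : ∀ s, v s = w (a s) ⊔ ρ (w (b s)))
    (c : ∀ z, k z ≤ k (ρ z)) (s : ℤ) :
    ∑ i ∈ Ioc (b (s - 1)) (b s), (B.cov (mem k w i) - B.cov (w (i - 1))) ≤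
      B.cov (mem k v s) - B.cov (v (s - 1)) ∧ (B.cov (mem k v s) - B.cov (v (s - 1)) =
      ∑ i ∈ Ioc (b (s - 1)) (b s), (B.cov (mem k w i) - B.cov (w (i - 1))) →
      ∀ i ∈ Ioc (b (s - 1)) (b s), w i ⊓ mem k v s ≤ mem k w i) := by
  let p : ℤ → X := fun i => v (s - 1) ⊔ k (w i)
  have b01 : b (s - 1) ≤ b s := hb (by omega)
  have v0 : v (s - 1) ≤ w (b (s - 1)) := (h _).le.trans (sup_le (hw.mono (ab _)) (hρ.le _))
  have p0 : p (b (s - 1)) = v (s - 1) := sup_eq_left.2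
    ((c _).trans ((hk.le _).trans ((h _).ge.trans' le_sup_right)))
  have p1 : p (b s) ≤ mem k v s :=
    sup_le_sup_left ((c _).trans (hk.mono ((h _).ge.trans' le_sup_right))) _
  have q (i) (m : i ∈ Ioc (b (s - 1)) (b s)) : v (s - 1) ≤ w (i - 1) :=
    v0.trans (hw.mono (by have := (mem_Ioc.1 m).1; omega))
  have p2 (i) (m : i ∈ Ioc (b (s - 1)) (b s)) : p (i - 1) ≤ p i ⊓ w (i - 1) :=
    le_inf (sup_le_sup_left (hk.mono (hw.cm_pred i)) _) (sup_le (q i m) (hk.le _))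
  have p3 (i) (m : i ∈ Ioc (b (s - 1)) (b s)) : B.cov (mem k w i) - B.cov (w (i - 1)) =
      B.cov (p i) - B.cov (p i ⊓ w (i - 1)) := by
    have := B.mod (p i) (w (i - 1))
    rw [show p i ⊔ w (i - 1) = mem k w i by
      rw [sup_right_comm, sup_eq_right.2 (q i m), mem]] at this
    omega
  have p4 (i) (m : i ∈ Ioc (b (s - 1)) (b s)) : B.cov (mem k w i) - B.cov (w (i - 1)) ≤
      B.cov (p i) - B.cov (p (i - 1)) := by
    have := B.mono.monotone (p2 i m)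
    rw [p3 i m]
    omega
  have t := cm_tel (fun i => B.cov (p i)) b01
  have t1 := sum_le_sum p4
  have t2 := B.mono.monotone p1
  rw [p0] at t
  refine ⟨by omega, fun e i m => ?_⟩
  have t3 := (sum_eq_sum_iff_of_le p4).1 (by omega)
  have key (j) (u : i ≤ j) : j ≤ b s → w i ⊓ p j ≤ p i := by
    induction j, u using Int.leInduction with
    | base => exact fun _ => inf_le_right
    | succ j u ih =>
      intro r
      have m' : j + 1 ∈ Ioc (b (s - 1)) (b s) := mem_Ioc.2 ⟨by have := (mem_Ioc.1 m).1; omega, r⟩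
      have := cm_eq (B := B) (p2 _ m') (by have := t3 _ m'; have := p3 _ m'; omega)
      rw [add_sub_cancel_right] at this
      exact (le_inf inf_le_left ((inf_le_inf_right _ (hw.mono u)).trans
        ((inf_comm ..).le.trans this.ge))).trans (ih (by omega))
  rw [← cm_eq (B := B) p1 (by omega)]
  exact (key _ (mem_Ioc.1 m).2 le_rfl).trans (sup_le_sup_right (q i m) _)

theorem cm_hi (hk : B.Ko k) (hw : B.Chn w) (hv : B.Chn v) {a b : ℤ → ℤ}
    (ha : Monotone a) (h : ∀ s, v s = w (a s) ⊔ ρ (w (b s)))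
    (c : ∀ z, ρ z ≤ k (ρ z)) (s : ℤ) :
    ∑ i ∈ Ioc (a (s - 1)) (a s), (B.cov (mem k w i) - B.cov (w i)) ≤
      B.cov (mem k v s) - B.cov (v s) ∧ (B.cov (mem k v s) - B.cov (v s) =
      ∑ i ∈ Ioc (a (s - 1)) (a s), (B.cov (mem k w i) - B.cov (w i)) →
      ∀ i ∈ Ioc (a (s - 1)) (a s), w i ⊓ mem k v s ≤ mem k w i) := by
  let q : ℤ → X := fun i => mem k v s ⊔ w i
  have a01 : a (s - 1) ≤ a s := ha (by omega)
  have wv (s) : w (a s) ≤ v s := (h _).ge.trans' le_sup_left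
  have q0 : q (a (s - 1)) = mem k v s := sup_eq_left.2 ((wv _).trans le_sup_left)
  have q1 : q (a s) = v s := le_antisymm (sup_le (hv.cm_le hk s) (wv s))
    ((h s).le.trans (sup_le le_sup_right (le_sup_of_le_left (le_sup_of_le_right
      ((c _).trans (hk.mono ((h _).ge.trans' le_sup_right)))))))
  have q2 (i) (m : i ∈ Ioc (a (s - 1)) (a s)) : mem k w i ≤ q (i - 1) ⊓ w i :=
    le_inf (sup_le le_sup_right (le_sup_of_le_left (le_sup_of_le_right
      (hk.mono ((hw.mono (mem_Ioc.1 m).2).trans (wv s)))))) (hw.cm_le hk i)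
  have q3 (i) : B.cov (q (i - 1) ⊓ w i) - B.cov (w i) = -B.cov (q i) - -B.cov (q (i - 1)) := by
    have := B.mod (q (i - 1)) (w i)
    rw [show q (i - 1) ⊔ w i = q i by rw [sup_assoc, sup_eq_right.2 (hw.cm_pred i)]] at this
    omega
  have q4 (i) (m : i ∈ Ioc (a (s - 1)) (a s)) : B.cov (mem k w i) - B.cov (w i) ≤
      -B.cov (q i) - -B.cov (q (i - 1)) := by
    have := B.mono.monotone (q2 i m)
    have := q3 i
    omega
  have t := cm_tel (fun i => -B.cov (q i)) a01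
  have t1 := sum_le_sum q4
  rw [q0, q1] at t
  refine ⟨by omega, fun e i m => ?_⟩
  have t3 := (sum_eq_sum_iff_of_le q4).1 (by omega) i m
  rw [cm_eq (B := B) (q2 i m) (by have := q3 i; omega)]
  exact le_inf (inf_le_right.trans le_sup_left) inf_le_left

theorem Chn.cm_gap' (hw : B.Chn w) (hk : B.Ko k) (i : ℤ) :
    B.cov (mem k w (i + B.n)) - B.cov (w (i + B.n)) = B.cov (mem k w i) - B.cov (w i) := by
  rw [hw.cm_cov, (hw.cm_mem hk).cm_cov]
  ring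

theorem E_mono (hk : B.Ko k) (hρ : B.Ko ρ) (hw : B.Chn w) (hv : B.Chn v) (h : Push ρ w v)
    (c : (∀ z, k z ≤ k (ρ z)) ∨ ∀ z, ρ z ≤ k (ρ z)) : B.E k w ≤ B.E k v := by
  obtain ⟨a, b, ha, hb, ab, pa, pb, e⟩ := ex_ab hρ hw hv h
  obtain c | c := c
  · exact (cm_sum B.pos (hw.cm_gap hk) (hv.cm_gap hk) hb pb
      fun s => (cm_lo hk hρ hw hb ab e c s).1).1
  · have := (cm_sum B.pos (hw.cm_gap' hk) (hv.cm_gap' hk) ha pa
      fun s => (cm_hi hk hw hv ha e c s).1).1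
    rw [hw.cm_co, hv.cm_co] at this
    omega

theorem E_le (hk : B.Ko k) (hw : B.Chn w) : 0 ≤ B.E k w ∧ B.E k w ≤ B.n :=
  ⟨sum_nonneg fun _ _ => sub_nonneg.2 (B.mono.monotone le_sup_left), sub_nonpos.1 (hw.cm_co k ▸
    sum_nonpos fun _ _ => sub_nonpos.2 (B.mono.monotone (hw.cm_le hk _)))⟩

theorem E_op {k' : X → X} (h : ∀ z, k z ≤ k' z) (w : ℤ → X) : B.E k w ≤ B.E k' w :=
  sum_le_sum fun _ _ => sub_le_sub_right (B.mono.monotone (sup_le_sup_left (h _) _)) _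

theorem mem_eq {k' : X → X} (hk : B.Ko k) (hk' : B.Ko k') (hw : B.Chn w) (h : ∀ z, k z ≤ k' z)
    (e : B.E k' w ≤ B.E k w) : mem k w = mem k' w := by
  have l (s) : mem k w s ≤ mem k' w s := sup_le_sup_left (h _) _
  have := (cm_sum (f := fun i => B.cov (mem k w i) - B.cov (w (i - 1)))
    (g := fun i => B.cov (mem k' w i) - B.cov (w (i - 1))) (b := id) B.pos (hw.cm_gap hk)
    (hw.cm_gap hk') monotone_id (fun _ => rfl)
    fun s => (cm_one _ s).trans_le (sub_le_sub_right (B.mono.monotone (l s)) _)).2 e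
  funext s
  have := (this s).trans (cm_one _ s)
  exact cm_eq (B := B) (l s) (by omega)

/-- Equality, low levels. -/
theorem blk_lo (hk : B.Ko k) (hρ : B.Ko ρ) (hw : B.Chn w) (hv : B.Chn v) {a b : ℤ → ℤ}
    (hb : Monotone b) (ab : ∀ s, a s ≤ b s) (pb : ∀ s, b (s + B.n) = b s + B.n)
    (h : ∀ s, v s = w (a s) ⊔ ρ (w (b s))) (c : ∀ z, k z ≤ k (ρ z)) (e : B.E k v ≤ B.E k w)
    (s : ℤ) : B.cov (mem k v s) - B.cov (v (s - 1)) =
      ∑ i ∈ Finset.Ioc (b (s - 1)) (b s), (B.cov (mem k w i) - B.cov (w (i - 1))) ∧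
      ∀ i ∈ Finset.Ioc (b (s - 1)) (b s), w i ⊓ mem k v s ≤ mem k w i :=
  have := (cm_sum B.pos (hw.cm_gap hk) (hv.cm_gap hk) hb pb
    fun s => (cm_lo hk hρ hw hb ab h c s).1).2 e s
  ⟨this, (cm_lo hk hρ hw hb ab h c s).2 this⟩

/-- Equality, high levels. -/
theorem blk_hi (hk : B.Ko k) (hρ : B.Ko ρ) (hw : B.Chn w) (hv : B.Chn v) {a b : ℤ → ℤ}
    (ha : Monotone a) (pa : ∀ s, a (s + B.n) = a s + B.n)
    (h : ∀ s, v s = w (a s) ⊔ ρ (w (b s))) (c : ∀ z, ρ z ≤ k (ρ z)) (e : B.E k v ≤ B.E k w)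
    (s : ℤ) : B.cov (v s) - B.cov (mem k v s) =
      ∑ i ∈ Finset.Ioc (a (s - 1)) (a s), (B.cov (w i) - B.cov (mem k w i)) ∧
      ∀ i ∈ Finset.Ioc (a (s - 1)) (a s), w i ⊓ mem k v s ≤ mem k w i := by
  have _ := hρ
  have := (cm_sum B.pos (hw.cm_gap' hk) (hv.cm_gap' hk) ha pa
    fun s => (cm_hi hk hw hv ha h c s).1).2 (by rw [hw.cm_co, hv.cm_co]; omega) s
  refine ⟨?_, (cm_hi hk hw hv ha h c s).2 this⟩
  rw [← neg_sub, this, ← sum_neg_distrib]
  exact sum_congr rfl fun _ _ => by ring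

end Bl

end Pool.Agent.Lib.MP_5d3e93_al.Bg

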