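import Pool.Agent.Lib.MP_5d3e93_al.Bg.DatA

/-! Transfer data from controlled retractions of a flag complex. -/

namespace Pool.Agent.Lib.MP_5d3e93_al.Bg

universe w w' w''

open Finsupp

variable {V : Type w'} {K : Fg V}

theorem dat_H {A A' : List V → Set V}
    (h1 : ∀ l, K.Sx l → l ≠ [] → (∀ x ∈ l, x ∈ A l) ∧ A' l ⊆ A l ∧ K.Dm (A l) ∧ K.Dm (A' l))
    (h2 : ∀ l l', K.Sx l → l'.Sublist l → A l' ⊆ A l ∧ A' l' ⊆ A' l) :
    ∃ H : (List V →₀ ℤ) →ₗ[ℤ] (List V →₀ ℤ), ∀ l, K.Sx l →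
      H (single l 1) ∈ K.Cn (fun m => (l = [] → m = []) ∧ ∀ x ∈ m, x ∈ A l) (l.length + 1) ∧
      single l 1 - Fg.dC (H (single l 1)) - H (Fg.dC (single l 1)) ∈
        K.Cn (fun m => (l = [] → m = []) ∧ ∀ x ∈ m, x ∈ A' l) l.length := by
  refine K.ex_htpy _ _ (fun l hl => ⟨id, fun x hx => (h1 l hl (List.ne_nil_of_mem hx)).1 x hx⟩)
    (fun l l' m hl s _ => ⟨fun a => ⟨fun e => a.1 (List.sublist_nil.1 (e ▸ s)), fun x hx =>
      (h2 l l' hl s).1 (a.2 x hx)⟩, fun a => ⟨fun e => a.1 (List.sublist_nil.1 (e ▸ s)),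
        fun x hx => (h2 l l' hl s).2 (a.2 x hx)⟩⟩) fun l hl c hc hd => ?_
  rcases l with _ | ⟨y, l⟩
  · refine ⟨0, Submodule.zero_mem _, ?_⟩
    rw [map_zero, sub_zero]
    exact dat_mono (fun m _ _ p => ⟨p.1, by simp [p.1 rfl]⟩) hc
  · obtain ⟨_, a, b, b'⟩ := h1 _ hl (List.cons_ne_nil y l)
    obtain ⟨c', k, e⟩ := K.acyc b' (dat_mono (fun _ _ _ p => p.2) hd) (Fg.dd c)
    obtain ⟨t, k', e'⟩ := K.acyc b (Submodule.sub_mem _ (dat_mono (fun _ _ _ p => p.2) hc)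
      (dat_mono (fun _ _ _ p x hx => a (p x hx)) k)) (by rw [map_sub, e, sub_self])
    refine ⟨t, dat_mono (fun _ _ _ p => ⟨by simp, p⟩) k', ?_⟩
    rw [e', sub_sub_cancel]
    exact dat_mono (fun _ _ _ p => ⟨by simp, p⟩) k

theorem dat_κ {Q : Set V} (dQ : K.Dm Q) : ∃ κ : (List V →₀ ℤ) →ₗ[ℤ] (List V →₀ ℤ),
    ∀ l, K.Sx l → (∀ x ∈ l, x ∈ Q) → κ (single l 1) ∈ K.Cn (fun m => ∀ x ∈ m, x ∈ Q) (l.length + 1) ∧
      single l 1 = Fg.dC (κ (single l 1)) + κ (Fg.dC (single l 1)) := by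
  obtain ⟨κ, h⟩ := K.ex_htpy (fun l m => (∀ x ∈ l, x ∈ Q) → ∀ x ∈ m, x ∈ Q)
    (fun l _ => ¬ ∀ x ∈ l, x ∈ Q) (fun _ _ => id) (fun l l' m _ s _ =>
      ⟨fun a b => a fun x hx => b x (s.subset hx), fun a b => a fun x hx => b x (s.subset hx)⟩)
    fun l _ c hc hd => by
      by_cases e : ∀ x ∈ l, x ∈ Q
      · obtain ⟨b, k, e'⟩ := K.acyc dQ (dat_mono (fun _ _ _ p => p e) hc)
          (dat_zero hd fun _ _ _ p => p e)
        exact ⟨b, dat_mono (fun _ _ _ p _ => p) k, by rw [e', sub_self]; exact Submodule.zero_mem _⟩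
      · refine ⟨0, Submodule.zero_mem _, ?_⟩
        rw [map_zero, sub_zero]
        exact dat_mono (fun _ _ _ _ => e) hc
  refine ⟨κ, fun l hl e => ⟨dat_mono (fun _ _ _ p => p e) (h l hl).1, ?_⟩⟩
  have := dat_zero (h l hl).2 fun _ _ _ p => p e
  rwa [sub_sub, sub_eq_zero] at this

theorem dat_η {n : List V → List V → Prop} (n0 : ∀ l, n l l)
    (n1 : ∀ {a b c}, n a b → n b c → n a c) {Q : Set V} {Λ : Type} (A A' : Λ → List V → Set V)
    (h1 : ∀ i l, K.Sx l → l ≠ [] → (∀ x ∈ l, x ∈ A i l) ∧ A' i l ⊆ A i l ∧ A' i l ⊆ Q ∧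
      K.Dm (A i l) ∧ K.Dm (A' i l) ∧ ((∀ x ∈ l, x ∈ Q) → A i l ⊆ Q))
    (h2 : ∀ i l l', K.Sx l → l'.Sublist l → A i l' ⊆ A i l ∧ A' i l' ⊆ A' i l)
    (h3 : ∀ l, K.Sx l → l ≠ [] → ∃ i, ∀ m m', K.Sx m → m ≠ [] → K.Sx m' → m' ≠ [] →
      n l m → (∀ x ∈ m', x ∈ A i m) → n l m') :
    (∀ l l', K.Sx l → l'.Sublist l → l' ≠ [] → n l l') ∧
    ∃ η : (List V →₀ ℤ) →ₗ[ℤ] (List V →₀ ℤ), ∀ l, K.Sx l →
      η (single l 1) ∈ K.Cn (fun m => (m = [] ∨ l ≠ [] ∧ n l m) ∧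
        ((∀ x ∈ l, x ∈ Q) → ∀ x ∈ m, x ∈ Q)) (l.length + 1) ∧
      single l 1 - Fg.dC (η (single l 1)) - η (Fg.dC (single l 1)) ∈
        K.Cn (fun m => (m = [] ∨ l ≠ [] ∧ n l m) ∧ ∀ x ∈ m, x ∈ Q) l.length := by
  have sub : ∀ l l', K.Sx l → l'.Sublist l → l' ≠ [] → n l l' := fun l l' hl s e => by
    have e' : l ≠ [] := fun a => e (List.sublist_nil.1 (a ▸ s))
    obtain ⟨i, hi⟩ := h3 l hl e'
    exact hi l l' hl e' (List.Pairwise.sublist s hl) e (n0 l) fun x hx =>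
      (h1 i l hl e').1 x (s.subset hx)
  have mo : ∀ l l' m, K.Sx l → l'.Sublist l → (m = [] ∨ l' ≠ [] ∧ n l' m) →
      (m = [] ∨ l ≠ [] ∧ n l m) := fun l l' m hl s a => a.imp_right fun a =>
    ⟨fun e => a.1 (List.sublist_nil.1 (e ▸ s)), n1 (sub l l' hl s a.1) a.2⟩
  refine ⟨sub, K.ex_htpy _ _ (fun l _ => ⟨(em (l = [])).imp_right fun e => ⟨e, n0 l⟩, id⟩)
    (fun l l' m hl s _ => ⟨fun a => ⟨mo l l' m hl s a.1, fun b => a.2 fun x hx => b x (s.subset hx)⟩,
      fun a => ⟨mo l l' m hl s a.1, a.2⟩⟩) fun l hl c hc hd => ?_⟩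
  by_cases e : l = []
  · subst e
    refine ⟨0, Submodule.zero_mem _, ?_⟩
    rw [map_zero, sub_zero]
    exact dat_mono (fun m _ _ p => ⟨p.1, p.2 (by simp)⟩) hc
  obtain ⟨i, hi⟩ := h3 l hl e
  obtain ⟨H, hH⟩ := dat_H (A := A i) (A' := A' i) (fun l a b => ⟨(h1 i l a b).1, (h1 i l a b).2.1,
    (h1 i l a b).2.2.2.1, (h1 i l a b).2.2.2.2.1⟩) (h2 i)
  have lp : 0 < l.length := List.length_pos_iff.2 e
  have key : ∀ m, K.Sx m → (m = [] ∨ l ≠ [] ∧ n l m) → H (single m 1) ∈ K.Cn (fun m' =>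
      (m' = [] ∨ l ≠ [] ∧ n l m') ∧ ((∀ x ∈ m, x ∈ Q) → ∀ x ∈ m', x ∈ Q)) (m.length + 1) :=
    fun m hm p => dat_mono (fun m' hm' e' q => by
      have a : m' ≠ [] := by rintro rfl; simp at e'
      have b : m ≠ [] := fun b => a (q.1 b)
      exact ⟨.inr ⟨e, hi m m' hm b hm' a (p.resolve_left b).2 q.2⟩, fun k x hx =>
        (h1 i m hm b).2.2.2.2.2 k (q.2 x hx)⟩) (hH m hm).1
  refine ⟨H c, dat_map _ _ (fun m hm e' p => ?_) hc, ?_⟩
  · rw [← e']
    exact dat_mono (fun _ _ _ q => ⟨q.1, fun k => q.2 (p.2 k)⟩) (key m hm p.1)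
  · have a := dat_map (LinearMap.id - Fg.dC ∘ₗ H - H ∘ₗ Fg.dC) (K.Cn (fun m =>
        (m = [] ∨ l ≠ [] ∧ n l m) ∧ ∀ x ∈ m, x ∈ Q) l.length) (fun m hm e' p => by
      have b : m ≠ [] := by rintro rfl; simp at e'; omega
      rw [← e']
      refine dat_mono (fun m' hm' e'' q => ?_) (hH m hm).2
      have a : m' ≠ [] := by rintro rfl; exact b (List.length_eq_zero_iff.1 e''.symm)
      exact ⟨.inr ⟨e, hi m m' hm b hm' a (p.1.resolve_left b).2 fun x hx =>
        (h1 i m hm b).2.1 (q.2 x hx)⟩, fun x hx => (h1 i m hm b).2.2.1 (q.2 x hx)⟩) hc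
    have b := dat_map H (K.Cn (fun m => (m = [] ∨ l ≠ [] ∧ n l m) ∧ ∀ x ∈ m, x ∈ Q) l.length)
      (fun m hm e' p => by
        have : l.length = m.length + 1 := by omega
        rw [this]
        exact dat_mono (fun _ _ _ q => ⟨q.1, q.2 p.2⟩) (key m hm p.1)) hd
    simpa using Submodule.add_mem _ a b

variable (K) in
/-- The nonempty simplices with vertices in `Q`. -/
def Fg.datT (Q : Set V) : Type w' := {l : List V // K.Sx l ∧ l ≠ [] ∧ ∀ x ∈ l, x ∈ Q}

theorem dat_fin {Q : Set V} (hQ : Q.Finite) : Finite (K.datT Q) := by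
  classical
  have := hQ.to_subtype
  refine Set.Finite.subset ((List.finite_length_le Q hQ.toFinset.card).image
    (List.map Subtype.val)) ?_
  rintro l ⟨a, -, b⟩
  refine ⟨l.attachWith _ b, ?_, by simp⟩
  have n : l.Nodup := List.Pairwise.imp (fun h e => by subst e; exact h.2.false) a
  simp only [Set.mem_setOf_eq, List.length_attachWith]
  rw [← List.toFinset_card_of_nodup n]
  exact Finset.card_le_card fun x hx => hQ.mem_toFinset.2 (b x (List.mem_toFinset.1 hx))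

section Mat

variable {Q : Set V} [Fintype (K.datT Q)]

theorem dat_sum {k : ℕ} {c : List V →₀ ℤ} (hc : c ∈ K.Cn (fun m => ∀ x ∈ m, x ∈ Q) k)
    (β : (List V →₀ ℤ) →ₗ[ℤ] (List V →₀ ℤ)) (r : List V) :
    ∑ q : K.datT Q, c q.1 * β (single q.1 1) r = β c r - c [] * β (single [] 1) r := by
  classical
  have := dat_map (∑ q : K.datT Q, (β (single q.1 1) r) • lapply q.1 - lapply r ∘ₗ β +
      (β (single [] 1) r) • lapply (R := ℤ) ([] : List V)) ⊥ (fun m hm _ p => by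
    by_cases e : m = []
    · subst e
      have : ∀ q : K.datT Q, (single ([] : List V) (1 : ℤ)) q.1 = 0 := fun q =>
        single_eq_of_ne q.2.2.1
      simp [LinearMap.sum_apply, this]
    · have : ∀ q : K.datT Q, (single m (1 : ℤ)) q.1 = if q = ⟨m, hm, e, p⟩ then 1 else 0 :=
        fun q => by
          rw [single_apply]
          exact if_congr ⟨fun a => Subtype.ext a.symm, fun a => by rw [a]⟩ rfl rfl
      simp only [Submodule.mem_bot, LinearMap.add_apply, LinearMap.sub_apply, LinearMap.sum_apply,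
        LinearMap.smul_apply, lapply_apply, LinearMap.comp_apply, smul_eq_mul, this, mul_ite,
        mul_one, mul_zero, single_eq_of_ne' e, add_zero, sub_eq_zero]
      exact (Finset.sum_ite_eq' _ _ _).trans (if_pos (Finset.mem_univ _))) hc
  simp only [Submodule.mem_bot, LinearMap.add_apply, LinearMap.sub_apply, LinearMap.sum_apply,
    LinearMap.smul_apply, lapply_apply, LinearMap.comp_apply, smul_eq_mul] at this
  simp only [mul_comm (c _)]
  linarith

variable (K Q) in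
/-- The matrix of a linear map; rows are images of basis elements. -/
noncomputable def Fg.datM (α : (List V →₀ ℤ) →ₗ[ℤ] (List V →₀ ℤ)) : Matrix (K.datT Q) (K.datT Q) ℤ :=
  fun p q => α (single p.1 1) q.1

theorem dat_mul {α β : (List V →₀ ℤ) →ₗ[ℤ] (List V →₀ ℤ)}
    (h : ∀ p : K.datT Q, ∃ k, α (single p.1 1) ∈ K.Cn (fun m => ∀ x ∈ m, x ∈ Q) k)
    (z : ∀ q : K.datT Q, β (single [] 1) q.1 = 0) :
    K.datM Q α * K.datM Q β = K.datM Q (β ∘ₗ α) := by
  ext p r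
  obtain ⟨k, e⟩ := h p
  have := dat_sum e β r.1
  rw [z, mul_zero, sub_zero] at this
  exact this

end Mat

variable {G : Type w} [Group G] [MulAction G V] {Y : Type w''} [MulAction G Y]

/-- The action on chains. -/
noncomputable def datA (V : Type w') [MulAction G V] (g : G) : (List V →₀ ℤ) →ₗ[ℤ] (List V →₀ ℤ) :=
  lmapDomain ℤ ℤ (List.map (g • ·))

theorem datA_single (g : G) (l : List V) : datA V g (single l 1) = single (l.map (g • ·)) 1 :=
  mapDomain_single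

theorem datA_bd (g : G) (l : List V) : Fg.bd (l.map (g • ·)) = datA V g (Fg.bd l) := by
  induction l with
  | nil => simp [Fg.bd]
  | cons x l ih =>
    rw [List.map_cons, Fg.bd, Fg.bd, ih, map_sub, datA_single]
    simp only [datA, lmapDomain_apply, ← mapDomain_comp]
    rfl

theorem datA_d (g : G) (c : List V →₀ ℤ) : Fg.dC (datA V g c) = datA V g (Fg.dC c) := by
  have : Fg.dC ∘ₗ datA V g = datA V g ∘ₗ Fg.dC := by
    refine lhom_ext' fun l => LinearMap.ext_ring ?_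
    simp only [LinearMap.comp_apply, lsingle_apply, datA_single, Fg.dC, linearCombination_single,
      one_smul, datA_bd]
  exact LinearMap.congr_fun this c

theorem datA_mul (g h : G) (c : List V →₀ ℤ) : datA V (g * h) c = datA V g (datA V h c) := by
  simp only [datA, lmapDomain_apply, ← mapDomain_comp]
  congr 1
  exact funext fun l => by simp [mul_smul]

theorem datA_one (c : List V →₀ ℤ) : datA V (1 : G) c = c := by
  simp [datA, mapDomain_id, show (List.map fun x : V => x) = id from List.map_id_fun']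

variable (K) in
/-- Three uses of ex_htpy, see the page. -/
theorem Fg.td (hty : ∀ (g : G) x, K.ty (g • x) = K.ty x)
    (hadj : ∀ (g : G) x y, K.adj x y → K.adj (g • x) (g • y)) (ν : Nv G Y) {Ω : Y → Prop}
    {F : Set G} {Q : Set V} (hQ : Q.Finite) (dQ : K.Dm Q) {Λ : Type} (A A' : Λ → List V → Set V)
    (loc : List V → Y)
    (h1 : ∀ i l, K.Sx l → l ≠ [] → (∀ x ∈ l, x ∈ A i l) ∧ A' i l ⊆ A i l ∧ A' i l ⊆ Q ∧
      K.Dm (A i l) ∧ K.Dm (A' i l) ∧ ((∀ x ∈ l, x ∈ Q) → A i l ⊆ Q))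
    (h2 : ∀ i l l', K.Sx l → l'.Sublist l → A i l' ⊆ A i l ∧ A' i l' ⊆ A' i l)
    (h3 : ∀ l, K.Sx l → l ≠ [] → ∃ i, ∀ m m', K.Sx m → m ≠ [] → K.Sx m' → m' ≠ [] →
      ν.n 0 (loc l) (loc m) → (∀ x ∈ m', x ∈ A i m) → ν.n 0 (loc l) (loc m'))
    (h4 : ∀ g ∈ F, ∀ l, K.Sx l → l ≠ [] → ν.n 1 (loc (l.map (g • ·))) (g • loc l))
    (h5 : ∀ l, Ω (loc l)) :
    ∃ (T : Type w') (_ : Fintype T) (_ : DecidableEq T), Nonempty (Td ν Ω F T) := by
  classical
  have := dat_fin (K := K) hQ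
  have := Fintype.ofFinite (K.datT Q)
  obtain ⟨κ, hκ⟩ := dat_κ dQ
  obtain ⟨sub, η, hη⟩ := dat_η (n := fun l m => ν.n 0 (loc l) (loc m)) (fun _ => ν.refl ..)
    (fun a b => ν.trans a b) A A' h1 h2 h3
  have sx : ∀ (g : G) l, K.Sx l → K.Sx (l.map (g • ·)) := fun g l h =>
    List.pairwise_map.2 (h.imp fun a => ⟨hadj g _ _ a.1, by rw [hty, hty]; exact a.2⟩)
  have η0 : η (single [] 1) = 0 := dat_zero (hη [] List.Pairwise.nil).1 fun m _ e p => by
    rcases p.1 with rfl | a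
    · simp at e
    · exact a.1 rfl
  obtain ⟨φ, hφ⟩ : ∃ φ : G → (List V →₀ ℤ) →ₗ[ℤ] (List V →₀ ℤ), ∀ g, φ g =
    (LinearMap.id - dC ∘ₗ η - η ∘ₗ dC) ∘ₗ datA V g⁻¹ := ⟨_, fun _ => rfl⟩
  have φa : ∀ g c, φ g c = datA V g⁻¹ c - dC (η (datA V g⁻¹ c)) - η (dC (datA V g⁻¹ c)) :=
    fun g c => by rw [hφ]; rfl
  have φ0 : ∀ g, φ g (single [] 1) = single [] 1 := fun g => by
    rw [φa, datA_single, List.map_nil, η0, dat_nil, map_zero, map_zero, sub_zero, sub_zero]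
  have φd : ∀ g c, dC (φ g c) = φ g (dC c) := fun g c => by
    simp only [φa, map_sub, dd, datA_d, map_zero, sub_zero]
  have n1 : ∀ g ∈ F, ∀ l, K.Sx l → l ≠ [] → ∀ {r} {y : Y}, ν.n r (loc (l.map (g⁻¹ • ·))) y →
      ν.n (1 + r) (loc l) (g • y) := fun g hg l hl e r y a => by
    have := h4 g hg _ (sx g⁻¹ l hl) (by simpa using e)
    simp only [List.map_map, Function.comp_def, smul_inv_smul, List.map_id'] at this
    exact ν.trans this (ν.smul g a)
  have φm : ∀ g l, K.Sx l → l ≠ [] → φ g (single l 1) ∈ K.Cn (fun m => (∀ x ∈ m, x ∈ Q) ∧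
      (g ∈ F → ν.n 1 (loc l) (g • loc m))) l.length := fun g l hl e => by
    have := (hη _ (sx g⁻¹ l hl)).2
    rw [List.length_map] at this
    rw [φa, datA_single]
    refine dat_mono (fun m _ e' p => ⟨p.2, fun hg => n1 g hg l hl e (p.1.resolve_left ?_).2⟩) this
    rintro rfl
    exact e (List.length_eq_zero_iff.1 e'.symm)
  have Hm : ∀ g h l, K.Sx l → l ≠ [] → φ h (η (datA V g⁻¹ (single l 1))) ∈ K.Cn (fun m =>
      (∀ x ∈ m, x ∈ Q) ∧ (g ∈ F → h ∈ F → ν.n 2 (loc l) ((g * h) • loc m))) (l.length + 1) :=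
    fun g h l hl e => by
    have := (hη _ (sx g⁻¹ l hl)).1
    rw [List.length_map] at this
    rw [datA_single]
    refine dat_map _ _ (fun m hm e' p => ?_) this
    have a : m ≠ [] := by rintro rfl; simp at e'
    rw [← e']
    refine dat_mono (fun q _ _ k => ⟨k.1, fun hg hh => ?_⟩) (φm h m hm a)
    rw [mul_smul]
    exact n1 g hg l hl e (ν.trans (p.1.resolve_left a).2 (k.2 hh))
  have dm : ∀ p : K.datT Q, dC (single p.1 1) ∈ K.Cn (fun m => ∀ x ∈ m, x ∈ Q) (p.1.length - 1) :=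
    fun p => dat_mono (fun _ _ _ a x hx => p.2.2.2 x (a.1.subset hx)) (dat_sub p.2.1)
  have φq : ∀ g (p : K.datT Q), φ g (single p.1 1) ∈ K.Cn (fun m => ∀ x ∈ m, x ∈ Q) p.1.length :=
    fun g p => dat_mono (fun _ _ _ a => a.1) (φm g _ p.2.1 p.2.2.1)
  have d0 : ∀ q : K.datT Q, dC (single ([] : List V) 1) q.1 = 0 := fun q => by rw [dat_nil]; rfl
  have s0 : ∀ q : K.datT Q, single ([] : List V) (1 : ℤ) q.1 = 0 := fun q =>
    single_eq_of_ne q.2.2.1
  have one : ∀ p q : K.datT Q, (1 : Matrix (K.datT Q) (K.datT Q) ℤ) p q = single p.1 (1 : ℤ) q.1 :=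
    fun p q => by
      rw [single_apply, Matrix.one_apply]
      exact if_congr Subtype.ext_iff rfl rfl
  have κ0 := hκ [] List.Pairwise.nil (by simp)
  rw [dat_nil, map_zero, add_zero] at κ0
  have par : ∀ {a b : ℕ}, (Odd a ↔ Odd b) → b ≠ a + 1 ∧ b + 1 ≠ a := fun h => by
    simp only [Nat.odd_iff] at h
    omega
  refine ⟨K.datT Q, inferInstance, inferInstance, ⟨{
    ev := fun p => Odd p.1.length
    loc := fun p => loc p.1
    on := fun p => h5 _
    d := K.datM Q dC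
    η := K.datM Q η
    κ := K.datM Q κ
    φ := fun g => K.datM Q (φ g)
    H := fun g h => K.datM Q (φ h ∘ₗ η ∘ₗ datA V g⁻¹)
    ε := fun p => dC (single p.1 1) []
    b := fun q => κ (single [] 1) q.1
    dd := ?_
    dφ := fun g => ?_
    φφ := fun g h => ?_
    φ1 := ?_
    con := ?_
    φε := fun g => ?_
    dε := ?_
    bd := ?_
    bε := ?_
    od := fun p q h => ⟨?_, ?_, ?_, fun g h' => ?_⟩
    evφ := fun g p q h => ?_
    evε := fun p h => ⟨?_, ?_⟩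
    cd := fun p q h => ?_
    cφ := fun g hg p q h => (dat_supp (φm g _ p.2.1 p.2.2.1) h).2.2.2 hg
    cH := fun g hg h hh p q k => (dat_supp (Hm g h _ p.2.1 p.2.2.1) k).2.2.2 hg hh }⟩⟩
  · rw [dat_mul (fun p => ⟨_, dm p⟩) d0]
    ext p q
    exact DFunLike.congr_fun (dd (single p.1 1)) q.1
  · rw [dat_mul (fun p => ⟨_, dm p⟩) fun q => by rw [φ0, s0], dat_mul (fun p => ⟨_, φq g p⟩) d0]
    ext p q
    exact DFunLike.congr_fun (φd g (single p.1 1)).symm q.1
  · rw [dat_mul (fun p => ⟨_, φq g p⟩) fun q => by rw [φ0, s0], dat_mul (fun p => ⟨_, dm p⟩)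
      fun q => by simp [datA_single, η0], dat_mul (fun p => ⟨_, dat_mono (fun _ _ _ a => a.1)
        (Hm g h _ p.2.1 p.2.2.1)⟩) d0]
    ext p q
    have : φ (g * h) (single p.1 1) = φ h (datA V g⁻¹ (single p.1 1)) := by
      rw [φa, φa, mul_inv_rev, datA_mul]
    simp only [datM, Matrix.sub_apply, Matrix.add_apply, LinearMap.comp_apply, this, φd,
      φa g, map_sub, ← datA_d, Finsupp.sub_apply]
    ring
  · rw [dat_mul (fun p => ⟨_, dm p⟩) fun q => by simp [η0], dat_mul (fun p => ⟨_, dat_mono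
      (fun _ _ _ a => a.2 p.2.2.2) (hη _ p.2.1).1⟩) d0]
    ext p q
    simp only [datM, Matrix.sub_apply, Matrix.add_apply, LinearMap.comp_apply, φa, inv_one,
      datA_one, one, Finsupp.sub_apply]
    ring
  · rw [dat_mul (fun p => ⟨_, (hκ _ p.2.1 p.2.2.2).1⟩) d0]
    ext p q
    have a := dat_sum (dm p) κ q.1
    have b := DFunLike.congr_fun (hκ _ p.2.1 p.2.2.2).2 q.1
    simp only [datM, Matrix.sub_apply, Matrix.add_apply, LinearMap.comp_apply, one,
      Matrix.mul_apply, Matrix.vecMulVec_apply, a, Finsupp.add_apply] at b ⊢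
    linarith
  · ext p
    have a := dat_sum (φq g p) dC []
    rw [dat_nil, φd] at a
    have b := dat_map (lapply [] ∘ₗ φ g - lapply (R := ℤ) []) ⊥ (fun m hm _ _ => by
      by_cases e : m = []
      · simp [e, φ0]
      · have : φ g (single m 1) [] = 0 := by
          by_contra k
          exact e (List.length_eq_zero_iff.1 (dat_supp (φm g m hm e) k).2.1.symm)
        simp [this, single_eq_of_ne' e]) (dm p)
    simp only [Submodule.mem_bot, LinearMap.sub_apply, LinearMap.comp_apply, lapply_apply,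
      sub_eq_zero] at b
    exact a.trans (by simp [b])
  · ext p
    have a := dat_sum (dm p) dC []
    rw [dat_nil, dd] at a
    exact a.trans (by simp)
  · ext r
    have a := dat_sum κ0.1 dC r.1
    rw [dat_nil, ← κ0.2, s0] at a
    exact a.trans (by simp)
  · have a := dat_sum κ0.1 dC []
    rw [dat_nil, ← κ0.2] at a
    exact a.trans (by simp)
  · by_contra k
    exact (par h).2 (dat_supp (dat_sub p.2.1) k).2.2.2
  · by_contra k
    exact (par h).1 (dat_supp (hη _ p.2.1).1 k).2.1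
  · by_contra k
    exact (par h).1 (dat_supp (hκ _ p.2.1 p.2.2.2).1 k).2.1
  · by_contra k
    exact (par h).1 (dat_supp (Hm g h' _ p.2.1 p.2.2.1) k).2.1
  · by_contra k
    exact h (by rw [(dat_supp (φq g p) k).2.1])
  · by_contra k
    exact h (by rw [← (dat_supp (dat_sub p.2.1) k).2.2.2]; exact odd_one)
  · by_contra k
    exact h (by rw [(dat_supp κ0.1 k).2.1]; exact odd_one)
  · rcases h with h | h
    · exact sub _ _ p.2.1 (dat_supp (dat_sub p.2.1) h).2.2.1 q.2.2.1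
    · exact ((dat_supp (hη _ p.2.1).1 h).2.2.1.resolve_left q.2.2.1).2

end Pool.Agent.Lib.MP_5d3e93_al.Bg
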