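import Pool.Agent.Lib.MP_5d3e93_al.Bg.Acy

/-! Controlled chain homotopies on flag complexes, by recursion on the length. -/

namespace Pool.Agent.Lib.MP_5d3e93_al.Bg

universe w w' w''

open Finsupp

variable {V : Type w'} (K : Fg V)

theorem dat_rec {α β : Type*} [Zero β] (μ : α → ℕ) (st : α → (α → β) → β) :
    ∃ H : α → β, ∀ l, H l = st l fun m => if μ m < μ l then H m else 0 :=
  ⟨(measure μ).wf.fix fun l g => st l fun m => if h : μ m < μ l then g m h else 0, fun l => by
    rw [WellFounded.fix_eq]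
    congr 1⟩

variable {K}

theorem dat_map {M : Type*} [AddCommGroup M] {P : List V → Prop} {k : ℕ}
    (T : (List V →₀ ℤ) →ₗ[ℤ] M) (N : Submodule ℤ M)
    (h : ∀ m, K.Sx m → m.length = k → P m → T (single m 1) ∈ N) {c : List V →₀ ℤ}
    (hc : c ∈ K.Cn P k) : T c ∈ N := by
  have : K.Cn P k ≤ N.comap T := by
    rw [Fg.Cn, supported_eq_span_single, Submodule.span_le]
    rintro _ ⟨m, hm, rfl⟩
    exact h m hm.1 hm.2.1 hm.2.2
  exact this hc

theorem dat_mono {P P' : List V → Prop} {k : ℕ} (h : ∀ m, K.Sx m → m.length = k → P m → P' m)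
    {c : List V →₀ ℤ} (hc : c ∈ K.Cn P k) : c ∈ K.Cn P' k :=
  supported_mono (fun m hm => by exact ⟨hm.1, hm.2.1, h m hm.1 hm.2.1 hm.2.2⟩) hc

theorem dat_single {P : List V → Prop} {l : List V} (h : K.Sx l) (p : P l) :
    single l 1 ∈ K.Cn P l.length := single_mem_supported ℤ _ ⟨h, rfl, p⟩

theorem dat_supp {P : List V → Prop} {k : ℕ} {c : List V →₀ ℤ} (hc : c ∈ K.Cn P k) {m : List V}
    (h : c m ≠ 0) : K.Sx m ∧ m.length = k ∧ P m :=
  (mem_supported ℤ c).1 hc (mem_support_iff.2 h)

theorem dat_zero {P : List V → Prop} {k : ℕ} {c : List V →₀ ℤ} (hc : c ∈ K.Cn P k)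
    (h : ∀ m, K.Sx m → m.length = k → ¬ P m) : c = 0 := by
  ext m
  by_contra e
  exact h m (dat_supp hc e).1 (dat_supp hc e).2.1 (dat_supp hc e).2.2

theorem dat_nil : Fg.dC (single ([] : List V) 1) = 0 := by simp [Fg.dC, Fg.bd]

theorem dat_sub {l : List V} (h : K.Sx l) :
    Fg.dC (single l 1) ∈ K.Cn (fun m => m.Sublist l ∧ m.length + 1 = l.length) (l.length - 1) := by
  rcases l with _ | ⟨x, l⟩
  · rw [dat_nil]
    exact Submodule.zero_mem _
  · exact dat_mono (fun m _ e p => ⟨p, congrArg (· + 1) e⟩)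
      (K.d_mem (P := (· = x :: l)) (fun _ _ _ e p => e ▸ p) (dat_single h rfl))

variable (K)

/-- Recursion on the length. -/
theorem Fg.ex_htpy (R R' : List V → List V → Prop) (h0 : ∀ l, K.Sx l → R l l)
    (h1 : ∀ l l' m, K.Sx l → l'.Sublist l → K.Sx m → (R l' m → R l m) ∧ (R' l' m → R' l m))
    (h2 : ∀ l, K.Sx l → ∀ c ∈ K.Cn (R l) l.length, Fg.dC c ∈ K.Cn (R' l) (l.length - 1) →
      ∃ b ∈ K.Cn (R l) (l.length + 1), c - Fg.dC b ∈ K.Cn (R' l) l.length) :
    ∃ H : (List V →₀ ℤ) →ₗ[ℤ] (List V →₀ ℤ), ∀ l, K.Sx l →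
      H (Finsupp.single l 1) ∈ K.Cn (R l) (l.length + 1) ∧
      Finsupp.single l 1 - Fg.dC (H (Finsupp.single l 1)) - H (Fg.dC (Finsupp.single l 1)) ∈
        K.Cn (R' l) l.length := by
  classical
  obtain ⟨H, hH⟩ := dat_rec (β := List V →₀ ℤ) List.length fun l g => Classical.epsilon fun b =>
    b ∈ K.Cn (R l) (l.length + 1) ∧
      single l 1 - linearCombination ℤ g (Fg.dC (single l 1)) - Fg.dC b ∈ K.Cn (R' l) l.length
  refine ⟨linearCombination ℤ H, fun l => ?_⟩
  induction e : l.length using Nat.strong_induction_on generalizing l with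
  | _ n ih =>
  subst e
  intro hl
  have s := dat_sub hl
  have a : linearCombination ℤ (fun m => if m.length < l.length then H m else 0)
      (Fg.dC (single l 1)) = linearCombination ℤ H (Fg.dC (single l 1)) := by
    rw [← sub_eq_zero, ← LinearMap.sub_apply, ← Submodule.mem_bot ℤ]
    refine dat_map _ _ (fun m _ _ p => ?_) s
    have : m.length < l.length := by omega
    simp [this]
  have b := h2 l hl (single l 1 - linearCombination ℤ H (Fg.dC (single l 1)))
    (Submodule.sub_mem _ (dat_single hl (h0 l hl)) (dat_map _ _ (fun m hm _ p => by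
      have := (ih _ (by omega) m rfl hm).1
      rw [p.2] at this
      exact dat_mono (fun m' k _ => (h1 l m m' hl p.1 k).1) this) s)) (by
    have := dat_map (LinearMap.id - Fg.dC ∘ₗ linearCombination ℤ H - linearCombination ℤ H ∘ₗ Fg.dC)
      (K.Cn (R' l) (l.length - 1)) (fun m hm e p => by
        have := (ih _ (by omega) m rfl hm).2
        rw [e] at this
        exact dat_mono (fun m' k _ => (h1 l m m' hl p.1 k).2) this) s
    simpa only [LinearMap.sub_apply, LinearMap.id_apply, LinearMap.comp_apply, Fg.dd, map_zero,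
      sub_zero, map_sub] using this)
  have e := hH l
  rw [a] at e
  rw [linearCombination_single, one_smul, sub_right_comm, e]
  exact Classical.epsilon_spec b

end Pool.Agent.Lib.MP_5d3e93_al.Bg
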