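import Mathlib

/-! Lattices with a shift, shuffles, lattice words, towers, flag complexes, transfer data. -/

namespace Pool.Agent.Lib.MP_5d3e93_al.Bg

universe w w' w''

/-- Lattices with a shift and a covolume. -/
structure Bl (X : Type w') [Lattice X] where
  n : ℕ
  pos : 0 < n
  π : X ≃o X
  cov : X → ℤ
  le : ∀ x, π x ≤ x
  mono : StrictMono cov
  mod : ∀ x y, cov (x ⊔ y) + cov (x ⊓ y) = cov x + cov y
  sh : ∀ x, cov (π x) = cov x - n
  arch : ∀ x y, ∃ m : ℕ, (π ^ m) x ≤ y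

/-- Actions that preserve the structure. -/
class Bl.Ac {X : Type w'} [Lattice X] (B : Bl X) (G : Type w) [Group G] [MulAction G X] :
    Prop where
  hm : ∀ (g : G) (x y : X), x ≤ y → g • x ≤ g • y
  hπ : ∀ (g : G) x, B.π (g • x) = g • B.π x
  hc : ∀ (g : G) x, B.cov (g • x) = B.cov x

section Shuffle

variable {κ : Type}

/-- Periodic shuffles of copies of the integers. -/
structure Wd (ℓ : κ → ℕ) (r : κ × ℤ → κ × ℤ → Prop) : Prop where
  pos : ∀ c, 0 < ℓ c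
  irr : ∀ ν, ¬ r ν ν
  trans : ∀ {a b c}, r a b → r b c → r a c
  tot : ∀ a b, a ≠ b → r a b ∨ r b a
  idx : ∀ c a, r (c, a) (c, a + 1)
  per : ∀ c a c' a', r (c, a + ℓ c) (c', a' + ℓ c') ↔ r (c, a) (c', a')
  arch : ∀ ν c, (∃ a, r (c, a) ν) ∧ ∃ a, r ν (c, a)

/-- The weak order on shuffles. -/
def Sb [LinearOrder κ] (r r' : κ × ℤ → κ × ℤ → Prop) : Prop :=
  ∀ a b, a.1 < b.1 → r a b → r' a b

/-- Orders with unique factorisation over shuffles. -/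
structure Wp (Γ : Type w) [Group Γ] (Y : Type w') [Preorder Y] [MulAction Γ Y] [LinearOrder κ]
    (ℓ : κ → ℕ) where
  bf : Y → κ × ℤ → κ × ℤ → Prop
  wd : ∀ y, Wd ℓ (bf y)
  χ : κ → Γ → ℤ
  mul : ∀ c a b, χ c (a * b) = χ c a + χ c b
  hm : ∀ (g : Γ) (x y : Y), x ≤ y → g • x ≤ g • y
  smul : ∀ (g : Γ) y c a c' a', bf (g • y) (c, a + χ c g) (c', a' + χ c' g) ↔ bf y (c, a) (c', a')
  mono : ∀ {x y}, x ≤ y → Sb (bf x) (bf y)
  fac : ∀ {x z q}, x ≤ z → Wd ℓ q → Sb (bf x) q → Sb q (bf z) → ∃ y, x ≤ y ∧ y ≤ z ∧ bf y = q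
  uniq : ∀ {x y y' z}, x ≤ y → y ≤ z → x ≤ y' → y' ≤ z → bf y = bf y' → y = y'

/-- Towers of boxes in one direction. -/
structure Twr {Γ : Type w} [Group Γ] (χ : κ → Γ → ℤ) (s : κ → ℤ) (Y : Type w')
    [MulAction Γ Y] where
  Le : Y × ℤ → Y × ℤ → Prop
  Bx : ℕ → Y × ℤ → Prop
  Bk : ℕ → Y × ℤ → Y × ℤ → Prop
  refl : ∀ p, Le p p
  trans : ∀ {p q r}, Le p q → Le q r → Le p r
  sLe : ∀ (g : Γ) (m : ℤ), (∀ c, χ c g = m * s c) → ∀ {p q}, Le p q →
    Le (g • p.1, m + p.2) (g • q.1, m + q.2)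
  sBx : ∀ (g : Γ) (m : ℤ), (∀ c, χ c g = m * s c) → ∀ {d p}, Bx d p → Bx d (g • p.1, m + p.2)
  mono : ∀ {d p}, Bx d p → Bx (d + 1) p
  ex : ∀ {d p q}, Le p q → q.2 = p.2 + 1 → Bx (d + 1) p → Bx (d + 1) q → ∃ r, Le p r ∧ Bk d q r
  bk : ∀ {d q r}, Bk d q r → Le r q ∧ r.2 = q.2 ∧ Bx d r
  un : ∀ {d x r r' z}, Le x r → Le x r' → Bk d z r → Bk d z r' → r = r'
  u0 : ∀ {x r r' z}, Le x r → Le x r' → Le r z → Le r' z → Bx 0 r → Bx 0 r' → r.2 = r'.2 → r = r'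

/-- Orders with potentials and towers in all directions. -/
structure Op (Γ : Type w) [Group Γ] (Y : Type w') [Preorder Y] [MulAction Γ Y] (κ : Type) where
  χ : κ → Γ → ℤ
  mul : ∀ c a b, χ c (a * b) = χ c a + χ c b
  hm : ∀ (g : Γ) (x y : Y), x ≤ y → g • x ≤ g • y
  flat : ∃ l : Y → ℤ, ∀ (g : Γ) x y, (∀ c, χ c g = 0) → x ≤ g • y →
    l x ≤ l y ∧ (l x = l y → x = g • y)
  line : ∀ s : κ → ℤ, ∃ l : Y → ℤ, (∀ (g : Γ) x y, (∀ c, χ c g = s c) → x ≤ g • y → l x ≤ l y) ∧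
    ∀ t : Finset Y, ∃ T : Twr χ s Y, (∃ d, ∀ y ∈ t, T.Bx d (y, 0)) ∧
      ∀ (g : Γ) x y, (∀ c, χ c g = s c) → x ≤ g • y → l x = l y → T.Le (x, 0) (g • y, 1)

end Shuffle

section Word

variable {X : Type w'} [Lattice X] {κ : Type}

/-- Periodic chains with coloured and numbered steps. -/
@[ext] structure Cw (B : Bl X) (ℓ : κ → ℕ) where
  U : κ × ℤ → X
  D : κ × ℤ → X
  ne : Nonempty κ
  lt : ∀ ν, D ν < U ν
  tot : ∀ ν ν', ν ≠ ν' → U ν ≤ D ν' ∨ U ν' ≤ D ν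
  idx : ∀ c a, U (c, a) ≤ D (c, a + 1)
  perU : ∀ c a, B.π (U (c, a + ℓ c)) = U (c, a)
  perD : ∀ c a, B.π (D (c, a + ℓ c)) = D (c, a)
  sat : ∀ ν, ∃ ν', U ν' = D ν

/-- Perspective intervals. -/
def Per (D U D' U' : X) : Prop := U ≤ D ⊔ U' ∧ U' ≤ D' ⊔ U ∧ U ⊓ D' ≤ D ∧ U' ⊓ D ≤ D'

variable {B : Bl X} {ℓ : κ → ℕ} {G : Type w} [Group G] [MulAction G X]

namespace Cw

/-- The order of the letters. -/
def bf (x : Cw B ℓ) (ν ν' : κ × ℤ) : Prop := x.U ν ≤ x.D ν'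

/-- The order on words. -/
def le [LinearOrder κ] (x z : Cw B ℓ) : Prop :=
  Sb x.bf z.bf ∧ ∀ ν, Per (x.D ν) (x.U ν) (z.D ν) (z.U ν)

/-- Translation by a group element, with a renumbering. -/
def act [h : B.Ac G] (g : G) (k : κ → ℤ) (x : Cw B ℓ) : Cw B ℓ where
  U ν := g • x.U (ν.1, ν.2 - k ν.1)
  D ν := g • x.D (ν.1, ν.2 - k ν.1)
  ne := x.ne
  lt ν := (h.hm g _ _ (x.lt _).le).lt_of_ne fun e => (x.lt _).ne (MulAction.injective g e)
  tot ν ν' e := (x.tot (ν.1, ν.2 - k ν.1) (ν'.1, ν'.2 - k ν'.1) fun a => e (by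
    obtain ⟨c, i⟩ := ν
    obtain ⟨c', i'⟩ := ν'
    obtain ⟨rfl, b⟩ := Prod.mk.inj a
    simpa using b)).imp (h.hm g _ _) (h.hm g _ _)
  idx c a := h.hm g _ _ (by rw [add_sub_right_comm]; exact x.idx ..)
  perU c a := by rw [h.hπ, add_sub_right_comm, x.perU]
  perD c a := by rw [h.hπ, add_sub_right_comm, x.perD]
  sat ν := by
    obtain ⟨ν', e⟩ := x.sat (ν.1, ν.2 - k ν.1)
    exact ⟨(ν'.1, ν'.2 + k ν'.1), by simp [e]⟩

instance [B.Ac G] : MulAction (G × Multiplicative (κ → ℤ)) (Cw B ℓ) where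
  smul g x := x.act g.1 g.2.toAdd
  one_smul x := Cw.ext (funext fun ν => show (1 : G) • x.U (ν.1, ν.2 - 0) = _ by simp)
    (funext fun ν => show (1 : G) • x.D (ν.1, ν.2 - 0) = _ by simp)
  mul_smul a b x := Cw.ext
    (funext fun ν => show (a.1 * b.1) • x.U (ν.1, ν.2 - (a.2.toAdd ν.1 + b.2.toAdd ν.1)) =
      a.1 • b.1 • x.U (ν.1, ν.2 - a.2.toAdd ν.1 - b.2.toAdd ν.1) by rw [mul_smul, sub_sub])
    (funext fun ν => show (a.1 * b.1) • x.D (ν.1, ν.2 - (a.2.toAdd ν.1 + b.2.toAdd ν.1)) =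
      a.1 • b.1 • x.D (ν.1, ν.2 - a.2.toAdd ν.1 - b.2.toAdd ν.1) by rw [mul_smul, sub_sub])

/-- Renumbering. -/
def sh (k : κ → ℤ) (x : Cw B ℓ) : Cw B ℓ where
  U ν := x.U (ν.1, ν.2 - k ν.1)
  D ν := x.D (ν.1, ν.2 - k ν.1)
  ne := x.ne
  lt ν := x.lt _
  tot ν ν' e := x.tot (ν.1, ν.2 - k ν.1) (ν'.1, ν'.2 - k ν'.1) fun a => e (by
    obtain ⟨c, i⟩ := ν
    obtain ⟨c', i'⟩ := ν'
    obtain ⟨rfl, b⟩ := Prod.mk.inj a
    simpa using b)
  idx c a := by rw [add_sub_right_comm]; exact x.idx ..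
  perU c a := by rw [add_sub_right_comm, x.perU]
  perD c a := by rw [add_sub_right_comm, x.perD]
  sat ν := by
    obtain ⟨ν', e⟩ := x.sat (ν.1, ν.2 - k ν.1)
    exact ⟨(ν'.1, ν'.2 + k ν'.1), by simp [e]⟩

end Cw

variable (B) in
/-- Words with at most `N` colours. -/
structure YL (N : ℕ) where
  ℓ : Fin N → ℕ
  x : Cw B fun c : {c // 0 < ℓ c} => ℓ c

variable {N : ℕ}

/-- The order on words up to renumbering. -/
def YL.le (x z : YL B N) : Prop := ∑ c, z.ℓ c < ∑ c, x.ℓ c ∨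
  ∃ ℓ x' z' k, x = ⟨ℓ, x'⟩ ∧ z = ⟨ℓ, z'⟩ ∧ x'.le (z'.sh k)

instance [B.Ac G] : MulAction G (YL B N) where
  smul g x := ⟨x.ℓ, x.x.act g 0⟩
  one_smul x := congrArg (YL.mk x.ℓ) (one_smul (G × Multiplicative ({c // 0 < x.ℓ c} → ℤ)) x.x)
  mul_smul a b x := congrArg (YL.mk x.ℓ)
    (mul_smul ((a, 1) : G × Multiplicative ({c // 0 < x.ℓ c} → ℤ)) (b, 1) x.x)

namespace Bl

variable (B)

/-- Periodic chains. -/
structure Chn (w : ℤ → X) : Prop where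
  mono : Monotone w
  per : ∀ i, B.π (w (i + B.n)) = w i

/-- Decreasing monotone operators that commute with the shift. -/
structure Ko (k : X → X) : Prop where
  mono : Monotone k
  le : ∀ z, k z ≤ z
  pi : ∀ z, k (B.π z) = B.π (k z)

/-- Increasing sequences of operators from the shift to the identity. -/
structure Ks (N : ℕ) (k : ℕ → X → X) : Prop where
  ko : ∀ c, B.Ko (k c)
  step : ∀ c z, k c z ≤ k (c + 1) z
  bot : ∀ z, k 0 z ≤ B.π z
  top : ∀ z, k N z = z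

/-- The visible part of a step. -/
def mem (k : X → X) (w : ℤ → X) (i : ℤ) : X := w (i - 1) ⊔ k (w i)

/-- The visible covolume in one period. -/
def E (k : X → X) (w : ℤ → X) : ℤ :=
  ∑ i ∈ Finset.range B.n, (B.cov (mem k w i) - B.cov (w (i - 1)))

/-- The chain `v` is obtained from `w` by pushing with `ρ`. -/
def Push (ρ : X → X) (w v : ℤ → X) : Prop := ∀ s, ∃ a b, v s = w a ⊔ ρ (w b)

variable {B} in
/-- The word is a numbering of the refined chain. -/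
def Rep (k : ℕ → X → X) (w : ℤ → X) (x : YL B N) : Prop :=
  ∃ e : {c // 0 < x.ℓ c} → ℤ → ℤ, (∀ c, StrictMono (e c)) ∧
    (∀ c a, e c (a + x.ℓ c) = e c a + B.n) ∧
    (∀ c a, x.x.D (c, a) = mem (k c) w (e c a) ∧ x.x.U (c, a) = mem (k (c + 1)) w (e c a)) ∧
    ∀ (c : Fin N) i, mem (k c) w i ≠ mem (k (c + 1)) w i → ∃ h a, e ⟨c, h⟩ a = i

/-- Filtrations by kernel operators of finite type. -/
structure Fl (F : Set G) (ρ : ℕ → X → X) : Prop where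
  ko : ∀ k, B.Ko (ρ k)
  step : ∀ k z, ρ k z ≤ ρ (k + 1) z
  idem : ∀ k z, ρ k (ρ k z) = ρ k z
  fin : ∀ k, {z | ρ k z = z ∧ 0 ≤ B.cov z ∧ B.cov z < B.n}.Finite
  lip : ∀ g ∈ F, ∀ k z, g • ρ k z ≤ ρ (k + 1) (g • z) ∧ ρ k (g • z) ≤ g • ρ (k + 1) z

end Bl

end Word

section Control

variable {G : Type w} [Group G]

/-- Equivariant control relations. -/
structure Nv (G : Type w) (Y : Type w') [Group G] [MulAction G Y] where
  n : ℕ → Y → Y → Prop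
  mono : ∀ {r s x y}, n r x y → r ≤ s → n s x y
  refl : ∀ r x, n r x x
  trans : ∀ {r s x y z}, n r x y → n s y z → n (r + s) x z
  smul : ∀ {r x y} (g : G), n r x y → n r (g • x) (g • y)

/-- Families of invariant preorders. -/
structure Pf (G : Type w) (W : Type w') [Group G] [MulAction G W] (J : Type) where
  le : J → W → W → Prop
  refl : ∀ L x, le L x x
  trans : ∀ {L x y z}, le L x y → le L y z → le L x z
  smul : ∀ {L x y} (g : G), le L x y → le L (g • x) (g • y)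

/-- Formal locations. -/
@[ext] structure Pt (n : ℕ) (W : Type w') where
  t : Fin n → ℕ
  w : W

variable {n : ℕ} {W : Type w'} [MulAction G W]

instance : MulAction G (Pt n W) where
  smul g p := ⟨p.t, g • p.w⟩
  one_smul p := Pt.ext rfl (one_smul G p.w)
  mul_smul a b p := Pt.ext rfl (mul_smul a b p.w)

/-- The levels. -/
def lv (h : ℕ) (i : Fin (n + 1)) : ℕ := (4 * i + 3) * h

/-- Admissible sets of levels. -/
def Adm (h r : ℕ) (t t' : Fin n → ℕ) (L : Finset (Fin (n + 1))) : Prop :=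
  (∀ i ∈ L, ∀ j, t j + r < lv h i ∨ lv h i + r < t' j) ∧
    ∀ i ∉ L, ∃ j, lv h i + r < t' j + 2 * h ∧ t j + r < lv h i + 2 * h

theorem Adm.of {h r s : ℕ} {t t' a a' : Fin n → ℕ} {L} (k : Adm h r t t' L)
    (e : ∀ j, a j + s ≤ t j + r) (e' : ∀ j, t' j + s ≤ a' j + r) : Adm h s a a' L :=
  ⟨fun i m j => by have := k.1 i m j; have := e j; have := e' j; omega, fun i m => by
    obtain ⟨j, b⟩ := k.2 i m
    exact ⟨j, by have := e j; have := e' j; omega⟩⟩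

/-- The intersection of some of the preorders. -/
def Pf.cap {J : Type} (P : Pf G W J) (A : Set J) : Nv G W where
  n _ x z := ∀ L ∈ A, P.le L x z
  mono h _ := h
  refl _ _ _ _ := P.refl ..
  trans a b L k := P.trans (a L k) (b L k)
  smul g a L k := P.smul g (a L k)

/-- One-sided control on formal locations. -/
def Pf.nv (P : Pf G W (Finset (Fin (n + 1)))) (h : ℕ) : Nv G (Pt n W) where
  n r x z := (∀ j, z.t j ≤ x.t j + r) ∧ ∀ L, Adm h r x.t z.t L → P.le L x.w z.w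
  mono a b := ⟨fun j => by have := a.1 j; omega, fun L k => a.2 L
    (k.of (fun _ => by omega) fun _ => by omega)⟩
  refl _ _ := ⟨fun _ => by omega, fun _ _ => P.refl ..⟩
  trans a b := ⟨fun j => by have := a.1 j; have := b.1 j; omega, fun L k => P.trans
    (a.2 L (k.of (fun _ => by omega) fun j => by have := b.1 j; omega))
    (b.2 L (k.of (fun j => by have := a.1 j; omega) fun _ => by omega))⟩
  smul g a := ⟨a.1, fun L k => P.smul g (a.2 L k)⟩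

open Matrix in
/-- Transfer data: a finite contractible based complex with a controlled homotopy action.
Rows are images of basis elements. -/
structure Td {Y : Type w'} [MulAction G Y] (ν : Nv G Y) (Ω : Y → Prop) (F : Set G) (Q : Type w'')
    [Fintype Q] [DecidableEq Q] where
  ev : Q → Prop
  loc : Q → Y
  on : ∀ q, Ω (loc q)
  d : Matrix Q Q ℤ
  η : Matrix Q Q ℤ
  κ : Matrix Q Q ℤ
  φ : G → Matrix Q Q ℤ
  H : G → G → Matrix Q Q ℤ
  ε : Q → ℤ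
  b : Q → ℤ
  dd : d * d = 0
  dφ : ∀ g, d * φ g = φ g * d
  φφ : ∀ g h, φ (g * h) - φ g * φ h = d * H g h + H g h * d
  φ1 : 1 - φ 1 = d * η + η * d
  con : 1 - vecMulVec ε b = d * κ + κ * d
  φε : ∀ g, φ g *ᵥ ε = ε
  dε : d *ᵥ ε = 0
  bd : b ᵥ* d = 0
  bε : b ⬝ᵥ ε = 1
  od : ∀ p q, (ev p ↔ ev q) → d p q = 0 ∧ η p q = 0 ∧ κ p q = 0 ∧ ∀ g h, H g h p q = 0
  evφ : ∀ g p q, ¬ (ev p ↔ ev q) → φ g p q = 0
  evε : ∀ p, ¬ ev p → ε p = 0 ∧ b p = 0
  cd : ∀ p q, d p q ≠ 0 ∨ η p q ≠ 0 → ν.n 0 (loc p) (loc q)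
  cφ : ∀ g ∈ F, ∀ p q, φ g p q ≠ 0 → ν.n 1 (loc p) (g • loc q)
  cH : ∀ g ∈ F, ∀ h ∈ F, ∀ p q, H g h p q ≠ 0 → ν.n 2 (loc p) ((g * h) • loc q)

end Control

/-- Typed flag complexes. -/
structure Fg (V : Type w') where
  ty : V → ℤ
  adj : V → V → Prop
  refl : ∀ x, adj x x
  symm : ∀ {x y}, adj x y → adj y x
  eq : ∀ {x y}, adj x y → ty x = ty y → x = y

namespace Fg

variable {V : Type w'} (K : Fg V)

/-- Simplices, as sorted lists; the empty list is one. -/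
def Sx (l : List V) : Prop := l.Pairwise fun x y => K.adj x y ∧ K.ty x < K.ty y

/-- Dismantlable sets of vertices. -/
def Dm (A : Set V) : Prop := ∃ a ∈ A, ∃ μ : V → ℕ, (∀ z ∈ A, μ z = 0 → z = a) ∧
  ∀ z ∈ A, 0 < μ z → ∃ z' ∈ A, μ z' < μ z ∧ ∀ y ∈ A, K.adj y z → μ y ≤ μ z → K.adj z' y

/-- The boundary of a list. -/
noncomputable def bd : List V → List V →₀ ℤ
  | [] => 0
  | x :: l => Finsupp.single l 1 - Finsupp.mapDomain (x :: ·) (bd l)

/-- The boundary operator of the augmented chain complex. -/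
noncomputable def dC : (List V →₀ ℤ) →ₗ[ℤ] (List V →₀ ℤ) := Finsupp.linearCombination ℤ bd

/-- Chains on simplices of a given length with a property. -/
def Cn (P : List V → Prop) (k : ℕ) : Submodule ℤ (List V →₀ ℤ) :=
  Finsupp.supported ℤ ℤ {l | K.Sx l ∧ l.length = k ∧ P l}

end Fg

end Pool.Agent.Lib.MP_5d3e93_al.Bg
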