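import Pool.Agent.Lib.MP_5d3e93_al.Bg.Defs

/-! The weak order on periodic shuffles: last letters, antisymmetry, meets. -/

namespace Pool.Agent.Lib.MP_5d3e93_al.Bg

section Shf

variable {κ : Type} {ℓ : κ → ℕ} {q r s : κ × ℤ → κ × ℤ → Prop}

theorem Wd.asymm (h : Wd ℓ r) {a b : κ × ℤ} (x : r a b) : ¬ r b a :=
  fun y => h.irr _ (h.trans x y)

theorem Wd.of_lt (h : Wd ℓ r) (c : κ) {a b : ℤ} (x : a < b) : r (c, a) (c, b) := by
  induction b, (Int.add_one_le_of_lt x) using Int.leInduction with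
  | base => exact h.idx c a
  | succ n hn ih => exact h.trans (ih (by omega)) (h.idx c n)

theorem Wd.same (h : Wd ℓ r) (c : κ) (a b : ℤ) : r (c, a) (c, b) ↔ a < b := by
  refine ⟨fun x => ?_, h.of_lt c⟩
  rcases lt_trichotomy a b with y | rfl | y
  · exact y
  · exact (h.irr _ x).elim
  · exact (h.asymm x (h.of_lt c y)).elim

theorem Wd.of_not (h : Wd ℓ r) {a b : κ × ℤ} (n : a ≠ b) (x : ¬ r b a) : r a b :=
  (h.tot a b n).resolve_right x

/-- two shuffles agree on letters of the same colour. -/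
theorem Wd.congr (hq : Wd ℓ q) (hr : Wd ℓ r) {a b : κ × ℤ} (e : a.1 = b.1) (x : q a b) :
    r a b := by
  obtain ⟨c, a⟩ := a
  obtain ⟨c', b⟩ := b
  obtain rfl : c = c' := e
  exact (hr.same ..).2 ((hq.same ..).1 x)

/-- The last letter of each colour up to a given letter. -/
theorem Wd.ex_last (h : Wd ℓ r) : ∃ f : κ × ℤ → κ → ℤ,
    ∀ ν c a, a ≤ f ν c ↔ (c, a) = ν ∨ r (c, a) ν := by
  have key : ∀ ν c, ∃ m : ℤ, ∀ a, a ≤ m ↔ (c, a) = ν ∨ r (c, a) ν := by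
    intro ν c
    obtain ⟨⟨a₀, h₀⟩, b, hb⟩ := h.arch ν c
    obtain ⟨m, hm, hm'⟩ := Int.exists_greatest_of_bdd (P := fun a => (c, a) = ν ∨ r (c, a) ν)
      ⟨b, fun a ha => by
        rcases ha with rfl | ha
        · exact ((h.same ..).1 hb).le
        · exact ((h.same ..).1 (h.trans ha hb)).le⟩ ⟨a₀, .inr h₀⟩
    refine ⟨m, fun a => ⟨fun x => ?_, hm' a⟩⟩
    rcases x.eq_or_lt with rfl | x
    · exact hm
    · rcases hm with rfl | hm
      · exact .inr (h.of_lt c x)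
      · exact .inr (h.trans (h.of_lt c x) hm)
  choose f hf using key
  exact ⟨f, hf⟩

variable [LinearOrder κ]

theorem Sb.refl (q : κ × ℤ → κ × ℤ → Prop) : Sb q q := fun _ _ _ x => x

theorem Sb.trans (a : Sb q r) (b : Sb r s) : Sb q s := fun x y h k => b x y h (a x y h k)

/-- inversions pass down in the weak order. -/
theorem Sb.inv (hq : Wd ℓ q) (hr : Wd ℓ r) (a : Sb q r) {x y : κ × ℤ} (c : y.1 ≤ x.1)
    (k : r x y) : q x y := by
  rcases c.eq_or_lt with e | c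
  · exact hr.congr hq e.symm k
  · exact hq.of_not (fun e => c.ne' (congrArg Prod.fst e)) fun z => hr.asymm k (a _ _ c z)

theorem Sb.antisymm (hq : Wd ℓ q) (hr : Wd ℓ r) (a : Sb q r) (b : Sb r q) : q = r := by
  ext x y
  rcases lt_or_ge x.1 y.1 with c | c
  · exact ⟨a _ _ c, b _ _ c⟩
  · exact ⟨b.inv hr hq c, a.inv hq hr c⟩

/-- the common inversions. -/
def Iv (q r : κ × ℤ → κ × ℤ → Prop) : κ × ℤ → κ × ℤ → Prop :=
  Relation.TransGen fun μ μ' => μ'.1 ≤ μ.1 ∧ (q μ μ' ∨ r μ μ')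

theorem Iv.col {μ μ' : κ × ℤ} (h : Iv q r μ μ') : μ'.1 ≤ μ.1 := by
  induction h with
  | single h => exact h.1
  | tail _ h ih => exact h.1.trans ih

theorem Iv.tr {a b c : κ × ℤ} (h : Iv q r a b) (k : Iv q r b c) : Iv q r a c :=
  Relation.TransGen.trans h k

theorem Iv.sub {t : κ × ℤ → κ × ℤ → Prop} (hq : Wd ℓ q) (hr : Wd ℓ r) (ht : Wd ℓ t) (a : Sb t q)
    (b : Sb t r) {μ μ' : κ × ℤ} (h : Iv q r μ μ') : t μ μ' := by
  induction h with
  | single h => exact h.2.elim (a.inv ht hq h.1) (b.inv ht hr h.1)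
  | tail _ h ih => exact ht.trans ih (h.2.elim (a.inv ht hq h.1) (b.inv ht hr h.1))

theorem Iv.key (hq : Wd ℓ q) (hr : Wd ℓ r) {μ μ' : κ × ℤ} (h : Iv q r μ μ') (ν : κ × ℤ)
    (c : μ'.1 ≤ ν.1) (c' : ν.1 ≤ μ.1) : μ = ν ∨ Iv q r μ ν ∨ Iv q r ν μ' := by
  have base : ∀ {μ μ' : κ × ℤ}, (q μ μ' ∨ r μ μ') → μ'.1 ≤ ν.1 → ν.1 ≤ μ.1 →
      μ = ν ∨ Iv q r μ ν ∨ Iv q r ν μ' := by
    intro μ μ' h c c'
    by_cases e : μ = ν
    · exact .inl e
    rcases h with h | h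
    · exact .inr ((hq.tot _ _ e).imp (fun x => .single ⟨c', .inl x⟩)
        fun x => .single ⟨c, .inl (hq.trans x h)⟩)
    · exact .inr ((hr.tot _ _ e).imp (fun x => .single ⟨c', .inr x⟩)
        fun x => .single ⟨c, .inr (hr.trans x h)⟩)
  induction h with
  | single h => exact base h.2 c c'
  | @tail l m h k ih =>
    rcases le_total l.1 ν.1 with d | d
    · exact (ih d).imp_right fun x => x.imp_right fun y => .tail y k
    · rcases base k.2 c d with rfl | x | x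
      · exact .inr (.inl h)
      · exact .inr (.inl (Iv.tr h x))
      · exact .inr (.inr x)

theorem Iv.map {f : κ × ℤ → κ × ℤ} (hf : ∀ x, (f x).1 = x.1) (h1 : ∀ x y, q x y → q (f x) (f y))
    (h2 : ∀ x y, r x y → r (f x) (f y)) {x y : κ × ℤ} (h : Iv q r x y) : Iv q r (f x) (f y) := by
  induction h with
  | single k => exact .single ⟨by rw [hf, hf]; exact k.1, k.2.imp (h1 _ _) (h2 _ _)⟩
  | tail _ k ih => exact .tail ih ⟨by rw [hf, hf]; exact k.1, k.2.imp (h1 _ _) (h2 _ _)⟩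

theorem Iv.per (hq : Wd ℓ q) (hr : Wd ℓ r) (c : κ) (a : ℤ) (c' : κ) (a' : ℤ) :
    Iv q r (c, a + ℓ c) (c', a' + ℓ c') ↔ Iv q r (c, a) (c', a') := by
  constructor
  · intro h
    simpa using h.map (f := fun ν => (ν.1, ν.2 - ℓ ν.1)) (fun _ => rfl)
      (fun x y z => (hq.per ..).1 (by simpa using z)) fun x y z => (hr.per ..).1 (by simpa using z)
  · exact Iv.map (f := fun ν => (ν.1, ν.2 + ℓ ν.1)) (fun _ => rfl)
      (fun x y z => (hq.per ..).2 z) fun x y z => (hr.per ..).2 z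

/-- S μ μ' := col μ' ≤ col μ ∧ (q μ μ' ∨ r μ μ'), T := TransGen S,
m ν ν' := T ν ν' ∨ (col ν < col ν' ∧ ¬ T ν' ν). -/
theorem Wd.meet (hq : Wd ℓ q) (hr : Wd ℓ r) (hs : Wd ℓ s) (a : Sb s q) (b : Sb s r) :
    ∃ m, Wd ℓ m ∧ Sb m q ∧ Sb m r ∧ ∀ t, Wd ℓ t → Sb t q → Sb t r → Sb t m := by
  have top : ∀ t, Wd ℓ t → Sb t q → Sb t r →
      Sb t fun ν ν' => Iv q r ν ν' ∨ (ν.1 < ν'.1 ∧ ¬ Iv q r ν' ν) :=
    fun t ht c d x y h k => .inr ⟨h, fun z => ht.asymm k (z.sub hq hr ht c d)⟩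
  refine ⟨fun ν ν' => Iv q r ν ν' ∨ (ν.1 < ν'.1 ∧ ¬ Iv q r ν' ν), ⟨hq.pos, ?_, ?_, ?_,
    fun c i => .inl (.single ⟨le_rfl, .inl (hq.idx c i)⟩), fun c i c' i' => ?_, fun ν c => ?_⟩,
    fun x y h k => ?_, fun x y h k => ?_, top⟩
  · rintro ν (h | h)
    · exact hs.irr _ (h.sub hq hr hs a b)
    · exact h.1.false
  · rintro x y z (h | h) (k | k)
    · exact .inl (h.tr k)
    · rcases lt_or_ge x.1 z.1 with c | c
      · exact .inr ⟨c, fun u => k.2 (u.tr h)⟩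
      · rcases h.key hq hr z k.1.le c with rfl | u | u
        · exact (k.2 h).elim
        · exact .inl u
        · exact (k.2 u).elim
    · rcases lt_or_ge x.1 z.1 with c | c
      · exact .inr ⟨c, fun u => h.2 (k.tr u)⟩
      · rcases k.key hq hr x c h.1.le with rfl | u | u
        · exact h.1.false.elim
        · exact (h.2 u).elim
        · exact .inl u
    · refine .inr ⟨h.1.trans k.1, fun u => ?_⟩
      rcases u.key hq hr y h.1.le k.1.le with rfl | v | v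
      · exact k.1.false
      · exact k.2 v
      · exact h.2 v
  · intro x y n
    rcases lt_trichotomy x.1 y.1 with c | c | c
    · exact (em (Iv q r y x)).symm.imp (fun u => .inr ⟨c, u⟩) .inl
    · exact (hq.tot x y n).imp (fun u => .inl (.single ⟨c.ge, .inl u⟩))
        fun u => .inl (.single ⟨c.le, .inl u⟩)
    · exact (em (Iv q r x y)).imp .inl fun u => .inr ⟨c, u⟩
  · rw [Iv.per hq hr, Iv.per hq hr]
  · obtain ⟨⟨i, hi⟩, j, hj⟩ := hq.arch ν c
    obtain ⟨⟨i', hi'⟩, j', hj'⟩ := hs.arch ν c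
    constructor
    · rcases lt_or_ge c ν.1 with d | d
      · exact ⟨i', top s hs a b _ _ d hi'⟩
      · exact ⟨i, .inl (.single ⟨d, .inl hi⟩)⟩
    · rcases lt_or_ge ν.1 c with d | d
      · exact ⟨j', top s hs a b _ _ d hj'⟩
      · exact ⟨j, .inl (.single ⟨d, .inl hj⟩)⟩
  · exact hq.of_not (fun e => h.ne (congrArg Prod.fst e)) fun z =>
      (k.resolve_left fun u => u.col.not_gt h).2 (.single ⟨h.le, .inl z⟩)
  · exact hr.of_not (fun e => h.ne (congrArg Prod.fst e)) fun z =>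
      (k.resolve_left fun u => u.col.not_gt h).2 (.single ⟨h.le, .inr z⟩)

end Shf

end Pool.Agent.Lib.MP_5d3e93_al.Bg
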