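import Pool.Agent.Lib.MP_5d3e93_al.Bg.Wrd
import Pool.Agent.Lib.MP_5d3e93_al.Bg.Shf

/-! Factorisation of words over shuffles. -/

namespace Pool.Agent.Lib.MP_5d3e93_al.Bg

universe w w'

variable {X : Type w'} [Lattice X] {B : Bl X} {κ : Type} {ℓ : κ → ℕ}

theorem Wd.fac_lt {q : κ × ℤ → κ × ℤ → Prop} (hq : Wd ℓ q) (c : κ) {a b : ℤ} (h : a < b) :
    q (c, a) (c, b) := by
  induction b, h using Int.leInduction with
  | base => exact hq.idx c a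
  | succ n _ ih => exact hq.trans ih (hq.idx c n)

theorem Wd.fac_as {q : κ × ℤ → κ × ℤ → Prop} (hq : Wd ℓ q) {μ ν : κ × ℤ} (a : q μ ν) : ¬q ν μ :=
  fun b => hq.irr _ (hq.trans a b)

theorem Wd.fac_or [LinearOrder κ] {p q r : κ × ℤ → κ × ℤ → Prop} (hp : Wd ℓ p) (hq : Wd ℓ q)
    (a : Sb p q) (b : Sb q r) {μ ν : κ × ℤ} (h : q μ ν) : p μ ν ∨ r μ ν := by
  have n : μ ≠ ν := fun e => hq.irr ν (e ▸ h)
  rcases lt_trichotomy μ.1 ν.1 with k | k | k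
  · exact .inr (b _ _ k h)
  · obtain ⟨c, i⟩ := μ
    obtain ⟨c', j⟩ := ν
    obtain rfl : c = c' := k
    rcases lt_trichotomy i j with e | e | e
    · exact .inl (hp.fac_lt c e)
    · exact absurd (congrArg _ e) n
    · exact absurd (hq.fac_lt c e) (hq.fac_as h)
  · exact .inl ((hp.tot _ _ n).resolve_right fun e => hq.fac_as h (a _ _ k e))

/-- The last letters strictly before a given letter. -/
theorem Wd.fac_last {q : κ × ℤ → κ × ℤ → Prop} (hq : Wd ℓ q) :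
    ∃ f : κ × ℤ → κ → ℤ, ∀ ν c a, a ≤ f ν c ↔ q (c, a) ν := by
  classical
  obtain ⟨f, hf⟩ := hq.ex_last
  refine ⟨fun ν c => if c = ν.1 then ν.2 - 1 else f ν c, fun ν c a => ?_⟩
  obtain ⟨c', j⟩ := ν
  dsimp only
  split_ifs with e
  · subst e
    refine ⟨fun h => hq.fac_lt c (by omega), fun h => ?_⟩
    by_contra k
    rcases (show j ≤ a by omega).eq_or_lt with rfl | k
    · exact hq.irr _ h
    · exact hq.fac_as h (hq.fac_lt c k)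
  · rw [hf]
    exact or_iff_right fun h => e (congrArg Prod.fst h)

theorem Wd.fac_pred [Finite κ] {q : κ × ℤ → κ × ℤ → Prop} (hq : Wd ℓ q) (ν : κ × ℤ) :
    ∃ ν', ∀ μ, q μ ν ↔ μ = ν' ∨ q μ ν' := by
  obtain ⟨f, hf⟩ := hq.fac_last
  let r : κ → κ → Prop := fun c c' => q (c', f ν c') (c, f ν c)
  have : IsTrans κ r := ⟨fun _ _ _ a b => hq.trans b a⟩
  have : Std.Irrefl r := ⟨fun _ => hq.irr _⟩
  obtain ⟨c, -, hc⟩ := (Finite.wellFounded_of_trans_of_irrefl r).has_min Set.univ ⟨ν.1, trivial⟩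
  have h0 : q (c, f ν c) ν := (hf ..).1 le_rfl
  refine ⟨(c, f ν c), fun ⟨d, a⟩ => ⟨fun h => ?_, fun h => h.elim (· ▸ h0) (hq.trans · h0)⟩⟩
  have h1 : (d, f ν d) = (c, f ν c) ∨ q (d, f ν d) (c, f ν c) := by
    by_contra k
    rw [not_or] at k
    exact hc d trivial ((hq.tot _ _ k.1).resolve_left k.2)
  rcases ((hf ..).2 h).eq_or_lt with rfl | k
  · exact h1
  · exact .inr (h1.elim (· ▸ hq.fac_lt d k) (hq.trans (hq.fac_lt d k)))

theorem Cw.fac_mono (x : Cw B ℓ) (c : κ) {a b : ℤ} (h : a ≤ b) : x.U (c, a) ≤ x.U (c, b) := by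
  rcases h.eq_or_lt with rfl | k
  · exact le_rfl
  · exact (x.wd.fac_lt c k).trans (x.lt _).le

theorem Cw.fac_per {x z : Cw B ℓ} {q : κ × ℤ → κ × ℤ → Prop} (hq : Wd ℓ q)
    (h : ∀ ν, Per (x.D ν) (x.U ν) (z.D ν) (z.U ν)) (o : ∀ μ ν, q μ ν → x.bf μ ν ∨ z.bf μ ν)
    {D : κ × ℤ → X} (hD : ∀ ν t, D ν ≤ t ↔ ∀ μ, q μ ν → x.U μ ⊓ z.U μ ≤ t) (ν : κ × ℤ) :
    D ν < D ν ⊔ x.U ν ⊓ z.U ν ∧ Per (x.D ν) (x.U ν) (D ν) (D ν ⊔ x.U ν ⊓ z.U ν) := by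
  have := B.modular
  have h1 : ∀ μ, x.U μ = x.D μ ⊔ x.U μ ⊓ z.U μ := fun μ => by
    rw [inf_comm, ← sup_inf_assoc_of_le _ (x.lt μ).le, right_eq_inf]
    exact (h μ).1
  have h2 : x.U ν ⊓ D ν ≤ x.D ν := by
    have : D ν ≤ x.D ν ⊔ z.D ν := (hD ..).2 fun μ k => (o _ _ k).elim
      (fun e => inf_le_left.trans (le_sup_of_le_left e)) fun e => inf_le_right.trans (le_sup_of_le_right e)
    refine (inf_le_inf_left _ this).trans ?_
    rw [inf_comm, sup_inf_assoc_of_le _ (x.lt ν).le, inf_comm]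
    exact sup_le le_rfl (h ν).2.2.1
  have h3 : ∀ μ, x.bf μ ν → x.U μ ⊓ z.D ν ≤ D ν := fun μ => by
    refine x.ind (D ν) (P := fun μ => x.bf μ ν → x.U μ ⊓ z.D ν ≤ D ν)
      (fun μ e _ => inf_le_left.trans e) (fun μ μ' e ih k => ?_) μ
    have k1 : x.D μ ⊓ z.D ν ≤ D ν := e ▸ ih (e.le.trans ((x.lt μ).le.trans k))
    have n : μ ≠ ν := fun e => x.wd.irr ν (e ▸ k)
    rcases z.tot μ ν n with k2 | k2
    · have k3 : q μ ν := (hq.tot _ _ n).resolve_right fun e =>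
        (o _ _ e).elim (x.wd.fac_as k) (z.wd.fac_as k2)
      rw [h1 μ, sup_comm, sup_inf_assoc_of_le _ (inf_le_right.trans k2)]
      exact sup_le ((hD ..).1 le_rfl μ k3) k1
    · exact (le_inf ((inf_le_inf_left _ ((z.lt ν).le.trans k2)).trans (h μ).2.2.1) inf_le_right).trans k1
  have h4 : x.D ν ⊓ z.D ν ≤ D ν := by
    obtain ⟨μ, e⟩ := x.sat ν
    exact e ▸ h3 μ e.le
  refine ⟨left_lt_sup.2 fun k => (x.lt ν).not_ge ?_, B.per_of (x.lt ν).le le_sup_left ?_ h2 ?_⟩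
  · rw [h1 ν]
    exact sup_le le_rfl ((le_inf inf_le_left k).trans h2)
  · exact (h1 ν).le.trans (sup_le_sup_left le_sup_right _)
  · have e1 := B.mod (D ν) (x.U ν ⊓ z.U ν)
    have e2 := B.mod (x.D ν) (x.U ν ⊓ z.U ν)
    have e3 : B.cov (x.D ν ⊓ (x.U ν ⊓ z.U ν)) ≤ B.cov (D ν ⊓ (x.U ν ⊓ z.U ν)) :=
      B.mono.monotone (le_inf ((le_inf inf_le_left
        ((le_inf (inf_le_right.trans inf_le_right) inf_le_left).trans (h ν).2.2.2)).trans h4) inf_le_right)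
    rw [← h1 ν] at e2
    omega

variable [LinearOrder κ] [Fintype κ]
variable {G : Type w} [Group G] [MulAction G X]

theorem Cw.fac {x z : Cw B ℓ} {q : κ × ℤ → κ × ℤ → Prop} (h : x.le z) (hq : Wd ℓ q)
    (a : Sb x.bf q) (b : Sb q z.bf) : ∃ y : Cw B ℓ, x.le y ∧ y.le z ∧ y.bf = q := by
  have := x.ne
  obtain ⟨f, hf⟩ := hq.fac_last
  have o : ∀ μ ν, q μ ν → x.bf μ ν ∨ z.bf μ ν := fun _ _ => x.wd.fac_or hq a b
  obtain ⟨D, hD⟩ : ∃ D : κ × ℤ → X, ∀ ν t, D ν ≤ t ↔ ∀ μ, q μ ν → x.U μ ⊓ z.U μ ≤ t :=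
    ⟨fun ν => Finset.univ.sup' Finset.univ_nonempty fun c => x.U (c, f ν c) ⊓ z.U (c, f ν c),
      fun ν t => by
        rw [Finset.sup'_le_iff]
        exact ⟨fun k μ e => (inf_le_inf (x.fac_mono _ ((hf ..).2 e)) (z.fac_mono _ ((hf ..).2 e))).trans
          (k μ.1 (Finset.mem_univ _)), fun k c _ => k _ ((hf ..).1 le_rfl)⟩⟩
  have p1 := fac_per hq h.2 o hD
  have p2 := fac_per hq (fun ν => (h.2 ν).symm) (fun μ ν e => (o μ ν e).symm) (D := D)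
    (fun ν t => by simpa only [inf_comm] using hD ν t)
  have hU : ∀ ν t, D ν ⊔ x.U ν ⊓ z.U ν ≤ t ↔ ∀ μ, μ = ν ∨ q μ ν → x.U μ ⊓ z.U μ ≤ t := fun ν t => by
    rw [sup_le_iff, hD]
    exact ⟨fun k μ e => e.elim (· ▸ k.2) (k.1 μ), fun k => ⟨fun μ e => k μ (.inr e), k ν (.inl rfl)⟩⟩
  have h1 : ∀ μ ν, q μ ν → D μ ⊔ x.U μ ⊓ z.U μ ≤ D ν := fun μ ν e => (hU ..).2 fun μ' k =>
    (hD ..).1 le_rfl μ' (k.elim (· ▸ e) (hq.trans · e))
  have h2 : ∀ c i, B.π (x.U (c, i + ℓ c) ⊓ z.U (c, i + ℓ c)) = x.U (c, i) ⊓ z.U (c, i) := fun c i => by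
    rw [map_inf, x.perU, z.perU]
  have h3 : ∀ c i, B.π (D (c, i + ℓ c)) = D (c, i) := fun c i => eq_of_forall_ge_iff fun t => by
    rw [← B.π.le_symm_apply, hD, hD]
    refine ⟨fun k ⟨d, j⟩ e => ?_, fun k ⟨d, j⟩ e => ?_⟩
    · rw [← h2, ← B.π.le_symm_apply]
      exact k _ ((hq.per ..).2 e)
    · obtain ⟨j, rfl⟩ : ∃ j', j = j' + ℓ d := ⟨j - ℓ d, by ring⟩
      rw [B.π.le_symm_apply, h2]
      exact k _ ((hq.per ..).1 e)
  let y : Cw B ℓ :=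
    { U := fun ν => D ν ⊔ x.U ν ⊓ z.U ν
      D := D
      ne := x.ne
      lt := fun ν => (p1 ν).1
      tot := fun ν ν' n => (hq.tot ν ν' n).imp (h1 _ _) (h1 _ _)
      idx := fun c i => h1 _ _ (hq.idx c i)
      perU := fun c i => by rw [map_sup, h2, h3]
      perD := h3
      sat := fun ν => by
        obtain ⟨ν', k⟩ := hq.fac_pred ν
        exact ⟨ν', eq_of_forall_ge_iff fun t => by simp only [hU, hD, k]⟩ }
  have e : y.bf = q := by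
    ext μ ν
    refine ⟨fun k => ?_, h1 μ ν⟩
    by_contra k1
    have n : μ ≠ ν := fun e => y.wd.irr ν (e ▸ k)
    exact y.wd.fac_as k (h1 _ _ ((hq.tot _ _ n).resolve_left k1))
  refine ⟨y, ⟨e ▸ a, fun ν => (p1 ν).2⟩, ⟨e ▸ b, fun ν => ?_⟩, e⟩
  have := (p2 ν).2.symm
  rwa [inf_comm] at this

variable (B ℓ G) in
theorem Cw.wp [B.Ac G] : Nonempty (Wp (G × Multiplicative (κ → ℤ)) (Cw B ℓ) ℓ) :=
  ⟨{ bf := Cw.bf
     wd := Cw.wd
     χ := fun c g => g.2.toAdd c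
     mul := fun _ _ _ => rfl
     hm := fun g _ _ h => Cw.le_act g.1 g.2.toAdd h
     smul := fun g y c a c' a' => by
       change g.1 • y.U (c, a + g.2.toAdd c - g.2.toAdd c) ≤
         g.1 • y.D (c', a' + g.2.toAdd c' - g.2.toAdd c') ↔ y.U (c, a) ≤ y.D (c', a')
       rw [add_sub_cancel_right, add_sub_cancel_right]
       exact ⟨fun h => by simpa using Bl.Ac.hm (B := B) g.1⁻¹ _ _ h, Bl.Ac.hm (B := B) g.1 _ _⟩
     mono := fun h => h.1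
     fac := Cw.fac
     uniq := Cw.uniq }⟩

end Pool.Agent.Lib.MP_5d3e93_al.Bg
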