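import Pool.Agent.Lib.MP_5d3e93_al.Bg.Lat

/-! Filtrations of finite type, the building and its periodic chains. -/

namespace Pool.Agent.Lib.MP_5d3e93_al.Bg

universe w w'

section Fil
variable {X : Type w'} [Lattice X] (B : Bl X) {G : Type w} [Group G] [MulAction G X]

theorem Bl.fl_add (a b : ℤ) (x : X) : (B.π ^ a) ((B.π ^ b) x) = (B.π ^ (a + b)) x := by
  rw [zpow_add]
  rfl

theorem Bl.fl_zero (x : X) : (B.π ^ (0 : ℤ)) x = x := by
  rw [zpow_zero]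
  rfl

theorem Bl.fl_ex (a z : X) : ∃ m : ℤ, ∀ k : ℤ, (B.π ^ k) a ≤ z ↔ m ≤ k := by
  have hn : (1 : ℤ) ≤ B.n := by exact_mod_cast B.pos
  obtain ⟨m, h1, h2⟩ := Int.exists_least_of_bdd (P := fun k => (B.π ^ k) a ≤ z)
    ⟨-|B.cov z - B.cov a|, fun k hk => by
      have h := B.mono.monotone hk
      rw [B.cov_zpow] at h
      by_contra hc
      nlinarith [le_abs_self (B.cov z - B.cov a), abs_nonneg (B.cov z - B.cov a)]⟩
    (by
      obtain ⟨m, hm⟩ := B.arch a z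
      exact ⟨m, by rwa [zpow_natCast]⟩)
  exact ⟨m, fun k => ⟨h2 k, fun h => (B.zpow_anti h a).trans h1⟩⟩

/-- The least exponent with `π ^ m a ≤ z`. -/
noncomputable def Bl.mn (a z : X) : ℤ := (B.fl_ex a z).choose

theorem Bl.mn_iff {a z : X} {k : ℤ} : (B.π ^ k) a ≤ z ↔ B.mn a z ≤ k := (B.fl_ex a z).choose_spec k

theorem Bl.mn_le (a z : X) : (B.π ^ B.mn a z) a ≤ z := B.mn_iff.2 le_rfl

theorem Bl.mn_zpow (a z : X) (j : ℤ) : B.mn a ((B.π ^ j) z) = j + B.mn a z := by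
  refine eq_of_forall_ge_iff fun k => ?_
  rw [← B.mn_iff, ← le_sub_iff_add_le', ← B.mn_iff, ← (B.π ^ j).le_iff_le (x := (B.π ^ (k - j)) a),
    B.fl_add, add_sub_cancel]

/-- A group element as an order isomorphism. -/
def Bl.iso [h : B.Ac G] (g : G) : X ≃o X :=
  { MulAction.toPerm g with
    map_rel_iff' := fun {x y} => ⟨fun k => by simpa using h.hm g⁻¹ _ _ k, h.hm g x y⟩ }

theorem Bl.zpow_smul [h : B.Ac G] (m : ℤ) (g : G) (x : X) :
    (B.π ^ m) (g • x) = g • (B.π ^ m) x := by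
  have c : Commute B.π (B.iso g) := RelIso.ext fun x => h.hπ g x
  exact congrArg (fun σ : X ≃o X => σ x) (c.zpow_left m).eq

theorem Bl.fl_nrm (z : X) : ∃ j : ℤ, 0 ≤ B.cov ((B.π ^ j) z) ∧ B.cov ((B.π ^ j) z) < B.n := by
  have hn : (0 : ℤ) < B.n := by exact_mod_cast B.pos
  refine ⟨B.cov z / B.n, ?_⟩
  rw [B.cov_zpow, mul_comm, ← Int.emod_def]
  exact ⟨Int.emod_nonneg _ hn.ne', Int.emod_lt_of_pos _ hn⟩

/-- The kernel operator of a finite set. -/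
noncomputable def Bl.rho (S : Finset X) (hS : S.Nonempty) (z : X) : X :=
  S.sup' hS fun s => (B.π ^ B.mn s z) s

section rho
variable {S S' : Finset X} {hS : S.Nonempty} {hS' : S'.Nonempty}

theorem Bl.rho_le (z : X) : B.rho S hS z ≤ z := Finset.sup'_le _ _ fun s _ => B.mn_le s z

theorem Bl.le_rho {s z : X} (hs : s ∈ S) {m : ℤ} (h : (B.π ^ m) s ≤ z) :
    (B.π ^ m) s ≤ B.rho S hS z :=
  (B.zpow_anti (B.mn_iff.1 h) s).trans (Finset.le_sup' (fun s => (B.π ^ B.mn s z) s) hs)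

theorem Bl.rho_tr (σ : X ≃o X) (hc : ∀ (m : ℤ) x, σ ((B.π ^ m) x) = (B.π ^ m) (σ x))
    (h : ∀ s ∈ S, ∃ s' ∈ S', ∃ j : ℤ, σ s = (B.π ^ j) s') (z : X) :
    σ (B.rho S hS z) ≤ B.rho S' hS' (σ z) := by
  rw [← σ.le_symm_apply]
  refine Finset.sup'_le _ _ fun s hs => σ.le_symm_apply.2 ?_
  obtain ⟨s', hs', j, e⟩ := h s hs
  have k := σ.monotone (B.mn_le s z)
  rw [hc, e, B.fl_add] at k ⊢
  exact B.le_rho hs' k

theorem Bl.rho_zpow (j : ℤ) (z : X) : (B.π ^ j) (B.rho S hS z) ≤ B.rho S hS ((B.π ^ j) z) :=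
  B.rho_tr _ (fun m x => by rw [B.fl_add, B.fl_add, add_comm]) (fun s hs => ⟨s, hs, j, rfl⟩) z

theorem Bl.rho_ko : B.Ko (B.rho S hS) where
  mono _ z' h := Finset.sup'_le _ _ fun s hs => B.le_rho hs ((B.mn_le s _).trans h)
  le := B.rho_le
  pi z := by
    have h1 := B.rho_zpow (hS := hS) 1 z
    have h2 := (B.π ^ (1 : ℤ)).monotone (B.rho_zpow (hS := hS) (-1) ((B.π ^ (1 : ℤ)) z))
    rw [B.fl_add, B.fl_add, add_neg_cancel, neg_add_cancel, B.fl_zero, B.fl_zero] at h2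
    rw [zpow_one] at h1 h2
    exact le_antisymm h2 h1

theorem Bl.rho_idem (z : X) : B.rho S hS (B.rho S hS z) = B.rho S hS z :=
  le_antisymm (B.rho_le _) (Finset.sup'_le _ _ fun s hs => B.le_rho hs (B.le_rho hs (B.mn_le s z)))

theorem Bl.rho_fin : {z | B.rho S hS z = z ∧ 0 ≤ B.cov z ∧ B.cov z < B.n}.Finite := by
  have hn : (1 : ℤ) ≤ B.n := by exact_mod_cast B.pos
  refine Set.Finite.of_finite_image (f := fun z (s : S) => B.mn s z) ((Set.Finite.pi' fun s : S =>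
    Set.finite_Icc (-|B.cov s| - 1) (|B.cov (S.sup' hS id)| + S.sup' hS (B.mn s))).subset ?_) ?_
  · rintro _ ⟨z, ⟨e, h0, h1⟩, rfl⟩ s
    constructor
    · have h := B.mono.monotone (B.mn_le s z)
      rw [B.cov_zpow] at h
      by_contra hc
      nlinarith [neg_abs_le (B.cov s), abs_nonneg (B.cov s)]
    · obtain ⟨t, ht, hm⟩ := S.exists_min_image (fun s => B.mn s z) hS
      have h2 : z ≤ (B.π ^ B.mn t z) (S.sup' hS id) := e.symm.trans_le
        (Finset.sup'_le _ _ fun u hu => (B.zpow_anti (hm u hu) u).trans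
          ((B.π ^ B.mn t z).monotone (Finset.le_sup' id hu)))
      have h3 := B.mono.monotone h2
      rw [B.cov_zpow] at h3
      have h4 : B.mn t z ≤ |B.cov (S.sup' hS id)| := by
        by_contra hc
        nlinarith [le_abs_self (B.cov (S.sup' hS id)), abs_nonneg (B.cov (S.sup' hS id))]
      have h5 : B.mn s z ≤ B.mn t z + B.mn s t := B.mn_iff.1 (by
        rw [← B.fl_add]
        exact ((B.π ^ B.mn t z).monotone (B.mn_le s t)).trans (B.mn_le t z))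
      exact h5.trans (add_le_add h4 (Finset.le_sup' (B.mn s) ht))
  · rintro z ⟨e, -⟩ z' ⟨e', -⟩ h
    rw [← e, ← e']
    exact Finset.sup'_congr hS rfl fun s hs => by rw [show B.mn s z = _ from congrFun h ⟨s, hs⟩]

end rho

theorem Bl.ex_fl [Nonempty X] [B.Ac G] {F : Set G} (hF : F.Finite) : ∃ ρ, B.Fl F ρ := by
  classical
  obtain ⟨x₀⟩ := ‹Nonempty X›
  let S : ℕ → Finset X := fun k => Nat.rec {x₀}
    (fun _ T => T ∪ hF.toFinset.biUnion fun g => T.image (g • ·) ∪ T.image (g⁻¹ • ·)) k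
  have h1 : ∀ k, S k ⊆ S (k + 1) := fun k => Finset.subset_union_left
  have h2 : ∀ g ∈ F, ∀ k, ∀ s ∈ S k, g • s ∈ S (k + 1) ∧ g⁻¹ • s ∈ S (k + 1) :=
    fun g hg k s hs =>
    ⟨Finset.mem_union_right _ (Finset.mem_biUnion.2 ⟨g, hF.mem_toFinset.2 hg,
      Finset.mem_union_left _ (Finset.mem_image_of_mem _ hs)⟩),
    Finset.mem_union_right _ (Finset.mem_biUnion.2 ⟨g, hF.mem_toFinset.2 hg,
      Finset.mem_union_right _ (Finset.mem_image_of_mem _ hs)⟩)⟩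
  have h0 : ∀ k, (S k).Nonempty := fun k => by
    induction k with
    | zero => exact Finset.singleton_nonempty _
    | succ k ih => exact ih.mono (h1 k)
  have tr : ∀ (g : G) k, (∀ s ∈ S k, g • s ∈ S (k + 1)) → ∀ z,
      g • B.rho (S k) (h0 k) z ≤ B.rho (S (k + 1)) (h0 (k + 1)) (g • z) := fun g k h z =>
    B.rho_tr (B.iso g) (fun m x => (B.zpow_smul m g x).symm)
      (fun s hs => ⟨_, h s hs, 0, (B.fl_zero _).symm⟩) z
  refine ⟨fun k => B.rho (S k) (h0 k), fun k => B.rho_ko, fun k z => ?_, fun k => B.rho_idem,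
    fun k => B.rho_fin, fun g hg k z => ⟨tr g k (fun s hs => (h2 g hg k s hs).1) z, ?_⟩⟩
  · simpa only [one_smul] using tr 1 k (fun s hs => by rw [one_smul]; exact h1 k hs) z
  · simpa only [smul_inv_smul, inv_smul_smul] using
      Bl.Ac.hm (B := B) g _ _ (tr g⁻¹ k (fun s hs => (h2 g hg k s hs).2) (g • z))

/-- Normalised vertices. -/
def Bl.Vx : Type w' := {z : X // 0 ≤ B.cov z ∧ B.cov z < B.n}

instance [h : B.Ac G] : MulAction G B.Vx where
  smul g z := ⟨g • z.1, by rw [h.hc]; exact z.2⟩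
  one_smul z := Subtype.ext (one_smul G z.1)
  mul_smul a b z := Subtype.ext (mul_smul a b z.1)

theorem Bl.fl_symm {x y : X} (h : ∃ m : ℤ, (B.π ^ (m + 1)) x ≤ y ∧ y ≤ (B.π ^ m) x) :
    ∃ m : ℤ, (B.π ^ (m + 1)) y ≤ x ∧ x ≤ (B.π ^ m) y := by
  obtain ⟨m, h1, h2⟩ := h
  have a := (B.π ^ (-m)).monotone h2
  have b := (B.π ^ (-(m + 1))).monotone h1
  rw [B.fl_add, neg_add_cancel, B.fl_zero] at a b
  exact ⟨-(m + 1), by rwa [show -(m + 1) + 1 = -m by ring], b⟩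

/-- The building. -/
def Bl.fg : Fg B.Vx where
  ty z := B.cov z.1
  adj x y := ∃ m : ℤ, (B.π ^ (m + 1)) x.1 ≤ y.1 ∧ y.1 ≤ (B.π ^ m) x.1
  refl x := ⟨0, by rw [zero_add, zpow_one]; exact B.le _, (B.fl_zero _).ge⟩
  symm := B.fl_symm
  eq := by
    rintro x y ⟨m, h1, h2⟩ e
    have hn : (1 : ℤ) ≤ B.n := by exact_mod_cast B.pos
    have a := B.mono.monotone h1
    have b := B.mono.monotone h2
    rw [B.cov_zpow] at a b
    have c : m ≤ 0 := by nlinarith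
    have d : -1 ≤ m := by nlinarith
    obtain rfl | rfl : m = 0 ∨ m = -1 := by omega
    · rw [B.fl_zero] at h2
      exact Subtype.ext (B.eq_of_le h2 e.le).symm
    · rw [neg_add_cancel, B.fl_zero] at h1
      exact Subtype.ext (B.eq_of_le h1 e.ge)

theorem Bl.adj_smul [B.Ac G] (g : G) (x y : B.Vx) (h : B.fg.adj x y) :
    B.fg.adj (g • x) (g • y) := by
  obtain ⟨m, h1, h2⟩ := h
  refine ⟨m, ?_, ?_⟩
  · change (B.π ^ (m + 1)) (g • x.1) ≤ g • y.1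
    rw [B.zpow_smul]
    exact Bl.Ac.hm (B := B) g _ _ h1
  · change g • y.1 ≤ (B.π ^ m) (g • x.1)
    rw [B.zpow_smul]
    exact Bl.Ac.hm (B := B) g _ _ h2

/-- Adjacency can be tested after shifts. -/
theorem Bl.fl_adj {x y : X} (j k : ℤ) (h1 : B.π x ≤ (B.π ^ k) y) (h2 : (B.π ^ k) y ≤ x) :
    ∃ m : ℤ, (B.π ^ (m + 1)) ((B.π ^ j) x) ≤ y ∧ y ≤ (B.π ^ m) ((B.π ^ j) x) := by
  have a := (B.π ^ (-k)).monotone (show (B.π ^ (1 : ℤ)) x ≤ (B.π ^ k) y by rwa [zpow_one])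
  have b := (B.π ^ (-k)).monotone h2
  rw [B.fl_add, B.fl_add, neg_add_cancel, B.fl_zero] at a
  rw [B.fl_add, neg_add_cancel, B.fl_zero] at b
  refine ⟨-k - j, ?_, ?_⟩
  · rwa [B.fl_add, show -k - j + 1 + j = -k + 1 by ring]
  · rwa [B.fl_add, sub_add_cancel]

/-- The lemma of Nakayama. -/
theorem Bl.fl_nak {z y : X} (hy : B.π y ≤ y) (h : z ≤ B.π z ⊔ y) : z ≤ y := by
  have k : ∀ m : ℕ, z ≤ (B.π ^ m) z ⊔ y := fun m => by
    induction m with
    | zero => exact le_sup_left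
    | succ m ih =>
      refine h.trans (sup_le ((B.π.monotone ih).trans ?_) le_sup_right)
      rw [map_sup, pow_succ']
      exact sup_le_sup le_rfl hy
  obtain ⟨m, hm⟩ := B.arch z y
  exact (k m).trans (sup_le hm le_rfl)

theorem Bl.dm {A : Set X} (h0 : A.Nonempty) (h1 : ∀ x ∈ A, ∀ y ∈ A, x ⊔ y ∈ A)
    (h2 : ∀ x ∈ A, ∀ m : ℤ, (B.π ^ m) x ∈ A) : B.fg.Dm {z | z.1 ∈ A} := by
  have hn : (1 : ℤ) ≤ B.n := by exact_mod_cast B.pos
  obtain ⟨a, ha, hv⟩ : ∃ a ∈ A, 0 ≤ B.cov a ∧ B.cov a < B.n := by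
    obtain ⟨a, ha⟩ := h0
    obtain ⟨j, hj⟩ := B.fl_nrm a
    exact ⟨_, h2 a ha j, hj⟩
  let ν : X → ℤ := fun x => B.cov x - B.cov ((B.π ^ B.mn a x) a)
  have n0 : ∀ x, 0 ≤ ν x := fun x => sub_nonneg.2 (B.mono.monotone (B.mn_le a x))
  have n1 : ∀ (j : ℤ) x, ν ((B.π ^ j) x) = ν x := fun j x => by
    simp only [ν, B.mn_zpow, B.cov_zpow]
    ring
  refine ⟨⟨a, hv⟩, ha, fun z => (ν z.1).toNat, fun z _ hz => ?_, fun z hz hp => ?_⟩
  · have e : B.cov z.1 ≤ B.cov ((B.π ^ B.mn a z.1) a) := sub_nonpos.1 (Int.toNat_eq_zero.1 hz)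
    have e1 := B.eq_of_le (B.mn_le a z.1) e
    have e2 := congrArg B.cov e1
    rw [B.cov_zpow] at e2
    have e3 : B.mn a z.1 = 0 := by
      obtain ⟨p, q⟩ := z.2
      obtain ⟨r, s⟩ := hv
      have : B.mn a z.1 < 1 := by nlinarith
      have : -1 < B.mn a z.1 := by nlinarith
      omega
    rw [e3, B.fl_zero] at e1
    exact Subtype.ext e1.symm
  · beta_reduce at hp
    set m := B.mn a z.1 with hm
    have l0 : (B.π ^ m) a ≤ z.1 := B.mn_le a z.1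
    have l1 : B.π z.1 ⊔ (B.π ^ m) a ≤ z.1 := sup_le (B.le _) l0
    have l2 : B.mn a (B.π z.1 ⊔ (B.π ^ m) a) = m :=
      le_antisymm (B.mn_iff.1 le_sup_right) (B.mn_iff.1 ((B.mn_le a _).trans l1))
    have l3 : B.π z.1 ⊔ (B.π ^ m) a < z.1 := l1.lt_of_ne fun e => by
      have := B.mono.monotone (B.fl_nak (B.le _) e.ge)
      have : ν z.1 ≤ 0 := sub_nonpos.2 this
      omega
    obtain ⟨j, hj⟩ := B.fl_nrm (B.π z.1 ⊔ (B.π ^ m) a)
    refine ⟨⟨_, hj⟩, h2 _ (h1 _ (by simpa using h2 _ hz 1) _ (h2 _ ha m)) j, ?_, ?_⟩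
    · have := B.mono l3
      have e : ν (B.π z.1 ⊔ (B.π ^ m) a) < ν z.1 := by
        simp only [ν, l2, ← hm]
        omega
      have := n0 (B.π z.1 ⊔ (B.π ^ m) a)
      simp only [n1]
      omega
    · rintro y - ⟨k, k1, k2⟩ hμ
      beta_reduce at hμ
      have k3 : B.π z.1 ≤ (B.π ^ (k + 1)) y.1 := by
        rw [add_comm, ← B.fl_add, zpow_one]
        exact B.π.monotone k2
      by_cases hc : (B.π ^ m) a ≤ (B.π ^ (k + 1)) y.1
      · refine B.fl_adj j (1 + (k + 1)) ?_ ?_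
        · rw [← B.fl_add, zpow_one]
          exact B.π.monotone (sup_le k3 hc)
        · rw [← B.fl_add, zpow_one]
          exact (B.π.monotone k1).trans le_sup_left
      · have e : B.mn a ((B.π ^ (k + 1)) y.1) = 1 + m := by
          refine le_antisymm (B.mn_iff.1 ?_) (by rw [B.mn_iff] at hc; omega)
          rw [← B.fl_add, zpow_one]
          exact (B.π.monotone l0).trans k3
        have e1 : ν ((B.π ^ (k + 1)) y.1) ≤ ν z.1 := by
          have := n0 z.1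
          rw [n1]
          omega
        have e2 : B.π z.1 = (B.π ^ (k + 1)) y.1 := B.eq_of_le k3 (by
          simp only [ν, e, ← hm] at e1
          rw [B.cov_zpow (1 + m), B.cov_zpow m] at e1
          rw [B.sh]
          linarith)
        exact B.fl_adj j (k + 1) (e2 ▸ B.π.monotone l1) (e2 ▸ le_sup_left)

/-- All shifts of the vertices of a list. -/
def Bl.Orb (l : List B.Vx) : Set X := {z | ∃ x ∈ l, ∃ m : ℤ, z = (B.π ^ m) x.1}

theorem Bl.orb_chain {l : List B.Vx} (h : B.fg.Sx l) : IsChain (· ≤ ·) (B.Orb l) := by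
  rintro _ ⟨x, hx, a, rfl⟩ _ ⟨y, hy, b, rfl⟩ -
  obtain ⟨m, h1, h2⟩ : B.fg.adj x y :=
    haveI : Std.Symm B.fg.adj := ⟨fun _ _ => B.fg.symm⟩
    List.Pairwise.forall_of_forall (R := B.fg.adj)
      (fun x _ => B.fg.refl x) (List.Pairwise.imp (fun k => k.1) h) hx hy
  have c := (B.π ^ b).monotone h1
  have d := (B.π ^ b).monotone h2
  rw [B.fl_add] at c d
  rcases le_or_gt a (b + m) with k | k
  · exact Or.inr (d.trans (B.zpow_anti k _))
  · exact Or.inl ((B.zpow_anti (by omega) _).trans c)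

theorem Bl.orb_zpow {l : List B.Vx} {z : X} (h : z ∈ B.Orb l) (j : ℤ) : (B.π ^ j) z ∈ B.Orb l := by
  obtain ⟨x, hx, m, rfl⟩ := h
  exact ⟨x, hx, j + m, B.fl_add ..⟩

theorem Bl.orb_smul [B.Ac G] (g : G) (l : List B.Vx) (z : X) :
    g • z ∈ B.Orb (l.map (g • ·)) ↔ z ∈ B.Orb l := by
  constructor
  · rintro ⟨_, hx, m, e⟩
    obtain ⟨x, hx', rfl⟩ := List.mem_map.1 hx
    exact ⟨x, hx', m, MulAction.injective g (e.trans (B.zpow_smul m g x.1))⟩
  · rintro ⟨x, hx, m, rfl⟩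
    exact ⟨g • x, List.mem_map.2 ⟨x, hx, rfl⟩, m, (B.zpow_smul m g x.1).symm⟩

theorem Bl.orb_top {l : List B.Vx} (h : B.fg.Sx l) (h0 : l ≠ []) (i : ℤ) :
    ∃ z, IsGreatest {y | y ∈ B.Orb l ∧ B.cov y ≤ i} z := by
  have hn : (1 : ℤ) ≤ B.n := by exact_mod_cast B.pos
  obtain ⟨x, hx⟩ := List.exists_mem_of_ne_nil l h0
  obtain ⟨_, ⟨z, hz, rfl⟩, k⟩ := Int.exists_greatest_of_bdd
    (P := fun t => ∃ y ∈ {y | y ∈ B.Orb l ∧ B.cov y ≤ i}, B.cov y = t)
    ⟨i, by rintro _ ⟨y, hy, rfl⟩; exact hy.2⟩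
    ⟨_, (B.π ^ |B.cov x.1 - i|) x.1, ⟨⟨x, hx, _, rfl⟩, by
      rw [B.cov_zpow]
      nlinarith [le_abs_self (B.cov x.1 - i), abs_nonneg (B.cov x.1 - i)]⟩, rfl⟩
  refine ⟨z, hz, fun y hy => ?_⟩
  rcases (B.orb_chain h).total hy.1 hz.1 with c | c
  · exact c
  · exact (B.eq_of_le c (k _ ⟨y, hy, rfl⟩)).ge

theorem Bl.ex_chn [Nonempty X] [B.Ac G] :
    ∃ w : List B.Vx → ℤ → X, (∀ l, B.fg.Sx l → l ≠ [] →
    B.Chn (w l) ∧ Set.range (w l) = B.Orb l ∧ ∀ g : G, w (l.map (g • ·)) = fun i => g • w l i) := by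
  choose! w hw using fun l : List B.Vx => B.orb_top (l := l)
  refine ⟨w, fun l h h0 => ⟨⟨fun i j k => (hw l h h0 j).2 ⟨(hw l h h0 i).1.1,
    (hw l h h0 i).1.2.trans k⟩, fun i => ?_⟩, ?_, fun g => funext fun i => ?_⟩⟩
  · refine ((hw l h h0 i).unique
      ⟨⟨by simpa using B.orb_zpow (hw l h h0 (i + B.n)).1.1 1, ?_⟩, fun y hy => ?_⟩).symm
    · have := (hw l h h0 (i + B.n)).1.2
      rw [B.sh]
      omega
    · have k := (B.π ^ (1 : ℤ)).monotone ((hw l h h0 (i + B.n)).2 ⟨B.orb_zpow hy.1 (-1), by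
        have := hy.2
        rw [B.cov_zpow]
        omega⟩)
      rwa [B.fl_add, add_neg_cancel, B.fl_zero, zpow_one] at k
  · ext z
    refine ⟨by rintro ⟨i, rfl⟩; exact (hw l h h0 i).1.1, fun hz => ⟨B.cov z, ?_⟩⟩
    exact (B.eq_of_le ((hw l h h0 _).2 ⟨hz, le_rfl⟩) (hw l h h0 _).1.2).symm
  · have h' : B.fg.Sx (l.map (g • ·)) := List.Pairwise.map _ (fun x y k =>
      ⟨B.adj_smul g x y k.1, by
        change B.cov (g • x.1) < B.cov (g • y.1)
        rw [Bl.Ac.hc, Bl.Ac.hc]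
        exact k.2⟩) h
    refine (hw _ h' (by simpa using h0) i).unique ⟨⟨(B.orb_smul g l _).2 (hw l h h0 i).1.1, ?_⟩,
      fun y hy => ?_⟩
    · rw [Bl.Ac.hc]
      exact (hw l h h0 i).1.2
    · rw [← smul_inv_smul g y] at hy ⊢
      exact Bl.Ac.hm (B := B) g _ _ ((hw l h h0 i).2 ⟨(B.orb_smul g l _).1 hy.1, by
        have := hy.2
        rwa [Bl.Ac.hc] at this⟩)

end Fil

end Pool.Agent.Lib.MP_5d3e93_al.Bg
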