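import Pool.Agent.Lib.MP_5d3e93_al.Bg.Lat

/-! Lattice words and their order. -/

namespace Pool.Agent.Lib.MP_5d3e93_al.Bg

universe w w'

variable {X : Type w'} [Lattice X] {B : Bl X} {κ : Type} {ℓ : κ → ℕ}
variable {G : Type w} [Group G] [MulAction G X]

theorem Wd.wr_asymm {r : κ × ℤ → κ × ℤ → Prop} (h : Wd ℓ r) {a b} (k : r a b) : ¬ r b a :=
  fun k' => h.irr _ (h.trans k k')

theorem Wd.wr_lt {r : κ × ℤ → κ × ℤ → Prop} (h : Wd ℓ r) (c : κ) {a b : ℤ} (k : a < b) :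
    r (c, a) (c, b) := by
  induction b, (show a + 1 ≤ b from k) using Int.leInduction with
  | base => exact h.idx c a
  | succ b hb ih => exact h.trans (ih (by omega)) (h.idx c b)

theorem Wd.wr_iff {r : κ × ℤ → κ × ℤ → Prop} (h : Wd ℓ r) (c : κ) {a b : ℤ} :
    r (c, a) (c, b) ↔ a < b := by
  refine ⟨fun k => ?_, h.wr_lt c⟩
  rcases lt_trichotomy a b with e | rfl | e
  · exact e
  · exact (h.irr _ k).elim
  · exact (h.wr_asymm k (h.wr_lt c e)).elim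

/-- between two shuffles. -/
theorem Wd.wr_mid [LinearOrder κ] {p q r : κ × ℤ → κ × ℤ → Prop} (hp : Wd ℓ p) (hq : Wd ℓ q)
    (h : Sb p q) (k : Sb q r) {μ ν} (e : q μ ν) : p μ ν ∨ r μ ν := by
  rcases lt_trichotomy μ.1 ν.1 with a | a | a
  · exact Or.inr (k _ _ a e)
  · obtain ⟨c, i⟩ := μ
    obtain ⟨c', j⟩ := ν
    obtain rfl : c = c' := a
    exact Or.inl (hp.wr_lt c ((hq.wr_iff c).1 e))
  · rcases hp.tot μ ν (fun b => a.ne (by rw [b])) with b | b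
    · exact Or.inl b
    · exact (hq.wr_asymm e (h _ _ a b)).elim

/-- a group element as an order isomorphism. -/
def Bl.wrIso (B : Bl X) [h : B.Ac G] (g : G) : X ≃o X where
  toEquiv := MulAction.toPerm g
  map_rel_iff' {x y} := ⟨fun k => by simpa using h.hm g⁻¹ _ _ k, h.hm g x y⟩

theorem Per.wr_map (e : X ≃o X) {D U D' U' : X} (h : Per D U D' U') :
    Per (e D) (e U) (e D') (e U') := by
  refine ⟨?_, ?_, ?_, ?_⟩
  · rw [← map_sup]; exact e.monotone h.1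
  · rw [← map_sup]; exact e.monotone h.2.1
  · rw [← map_inf]; exact e.monotone h.2.2.1
  · rw [← map_inf]; exact e.monotone h.2.2.2

namespace Cw

theorem powU (x : Cw B ℓ) (m : ℕ) (c : κ) (a : ℤ) :
    (B.π ^ m) (x.U (c, a + m * ℓ c)) = x.U (c, a) := by
  induction m with
  | zero => simp
  | succ m ih =>
    rw [pow_succ, RelIso.mul_apply, show a + ((m + 1 : ℕ) : ℤ) * ℓ c = a + m * ℓ c + ℓ c by
      push_cast; ring]
    exact (congrArg (B.π ^ m) (x.perU c _)).trans ih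

theorem powD (x : Cw B ℓ) (m : ℕ) (c : κ) (a : ℤ) :
    (B.π ^ m) (x.D (c, a + m * ℓ c)) = x.D (c, a) := by
  induction m with
  | zero => simp
  | succ m ih =>
    rw [pow_succ, RelIso.mul_apply, show a + ((m + 1 : ℕ) : ℤ) * ℓ c = a + m * ℓ c + ℓ c by
      push_cast; ring]
    exact (congrArg (B.π ^ m) (x.perD c _)).trans ih

theorem ex_low (x : Cw B ℓ) (c : κ) (y : X) : ∃ a, x.U (c, a) ≤ y := by
  obtain ⟨m, hm⟩ := B.arch (x.U (c, 0)) y
  refine ⟨-(m * ℓ c), ?_⟩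
  rw [← x.powU m, neg_add_cancel]
  exact hm

theorem ex_high (x : Cw B ℓ) (c : κ) (y : X) : ∃ a, y ≤ x.D (c, a) := by
  obtain ⟨m, hm⟩ := B.arch y (x.D (c, 0))
  rw [← x.powD m] at hm
  exact ⟨_, (B.π ^ m).map_rel_iff.1 hm⟩

theorem wd (x : Cw B ℓ) : Wd ℓ x.bf := by
  refine ⟨fun c => Nat.pos_of_ne_zero fun h => ?_, fun ν h => (x.lt ν).not_ge h,
    fun a b => a.trans ((x.lt _).le.trans b), x.tot, x.idx, fun c a c' a' => ?_,
    fun ν c => ⟨x.ex_low c _, x.ex_high c _⟩⟩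
  · have h1 := congrArg B.cov (x.perU c 0)
    have h2 := B.pos
    rw [B.sh, h] at h1
    simp only [Nat.cast_zero, add_zero] at h1
    omega
  · rw [bf, bf, ← x.perU c a, ← x.perD c' a', B.π.le_iff_le]

/-- induction along the word: strong induction on cov (U μ), base by arch -/
theorem ind (x : Cw B ℓ) (y : X) {P : κ × ℤ → Prop} (h0 : ∀ μ, x.U μ ≤ y → P μ)
    (h1 : ∀ μ μ', x.U μ' = x.D μ → P μ' → P μ) (μ : κ × ℤ) : P μ := by
  obtain ⟨a, ha⟩ := x.ex_low μ.1 y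
  generalize (μ.1, a) = ν at ha
  have key : ∀ n : ℕ, ∀ μ, B.cov (x.U μ) ≤ B.cov (x.U ν) + n → P μ := by
    intro n
    induction n with
    | zero =>
      intro μ h
      by_cases e : μ = ν
      · exact h0 μ (e ▸ ha)
      rcases x.tot μ ν e with b | b
      · exact h0 μ (b.trans ((x.lt ν).le.trans ha))
      · have := B.mono (b.trans_lt (x.lt μ))
        omega
    | succ n ih =>
      intro μ h
      obtain ⟨μ', e⟩ := x.sat μ
      have := B.mono (x.lt μ)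
      exact h1 μ μ' e (ih μ' (by rw [e]; omega))
  exact key (B.cov (x.U μ) - B.cov (x.U ν)).toNat μ (by omega)

theorem sat' (x : Cw B ℓ) (ν : κ × ℤ) : ∃ ν', x.D ν' = x.U ν := by
  have key : ∀ μ, x.U ν ≤ x.D μ → ∃ ν', x.D ν' = x.U ν := by
    refine x.ind (x.U ν) (fun μ a b => ?_) fun μ μ' e ih b => ?_
    · exact ((x.lt μ).not_ge (a.trans b)).elim
    by_cases h : ν = μ'
    · exact ⟨μ, by rw [h, e]⟩
    rcases x.tot ν μ' h with c | c
    · exact ih c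
    · exact ((x.lt ν).not_ge (b.trans (e ▸ c))).elim
  obtain ⟨a, ha⟩ := x.ex_high ν.1 (x.U ν)
  exact key _ ha

theorem ind' (x : Cw B ℓ) (y : X) {P : κ × ℤ → Prop} (h0 : ∀ μ, y ≤ x.D μ → P μ)
    (h1 : ∀ μ μ', x.D μ' = x.U μ → P μ' → P μ) (μ : κ × ℤ) : P μ := by
  obtain ⟨a, ha⟩ := x.ex_high μ.1 y
  generalize (μ.1, a) = ν at ha
  have key : ∀ n : ℕ, ∀ μ, B.cov (x.D ν) ≤ B.cov (x.D μ) + n → P μ := by
    intro n
    induction n with
    | zero =>
      intro μ h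
      by_cases e : ν = μ
      · exact h0 μ (e ▸ ha)
      rcases x.tot ν μ e with b | b
      · exact h0 μ (ha.trans ((x.lt ν).le.trans b))
      · have := B.mono ((x.lt μ).trans_le b)
        omega
    | succ n ih =>
      intro μ h
      obtain ⟨μ', e⟩ := x.sat' μ
      have := B.mono (x.lt μ)
      exact h1 μ μ' e (ih μ' (by rw [e]; omega))
  exact key (B.cov (x.D ν) - B.cov (x.D μ)).toNat μ (by omega)

variable [LinearOrder κ] {x y y' z : Cw B ℓ}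

theorem le_rf (x : Cw B ℓ) : x.le x :=
  ⟨fun _ _ _ h => h, fun _ => ⟨le_sup_right, le_sup_right, inf_le_right, inf_le_right⟩⟩

theorem desc (h : x.le y) (k : y.le z) (ν : κ × ℤ) : y.D ν ≤ x.D ν ⊔ z.D ν := by
  have key : ∀ μ, y.bf μ ν → y.U μ ≤ x.D ν ⊔ z.D ν := by
    refine y.ind (x.D ν ⊔ z.D ν) (fun μ a _ => a) fun μ μ' e ih b => ?_
    have h1 : y.D μ ≤ x.D ν ⊔ z.D ν := e ▸ ih (e.le.trans ((y.lt μ).le.trans b))
    rcases x.wd.wr_mid y.wd h.1 k.1 b with c | c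
    · exact (h.2 μ).2.1.trans (sup_le h1 (le_sup_of_le_left c))
    · exact (k.2 μ).1.trans (sup_le h1 (le_sup_of_le_right c))
  obtain ⟨μ, e⟩ := y.sat ν
  exact e ▸ key μ e.le

theorem asc (h : x.le y) (k : y.le z) (ν : κ × ℤ) : x.U ν ⊓ z.U ν ≤ y.U ν := by
  have key : ∀ μ, y.bf ν μ → x.U ν ⊓ z.U ν ≤ y.D μ := by
    refine y.ind' (x.U ν ⊓ z.U ν) (fun μ a _ => a) fun μ μ' e ih b => ?_
    have h1 : x.U ν ⊓ z.U ν ≤ y.U μ := e ▸ ih (le_trans b ((y.lt μ).le.trans e.ge))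
    rcases x.wd.wr_mid y.wd h.1 k.1 b with c | c
    · exact (le_inf h1 (inf_le_of_left_le c)).trans (h.2 μ).2.2.2
    · exact (le_inf h1 (inf_le_of_right_le c)).trans (k.2 μ).2.2.1
  obtain ⟨μ, e⟩ := y.sat' ν
  exact e ▸ key μ e.ge

theorem gap_ge (h : x.le y) (ν : κ × ℤ) :
    B.cov (y.U ν) - B.cov (y.D ν) ≤ B.cov (x.U ν) - B.cov (x.D ν) :=
  B.gap_le (y.lt ν).le (x.lt ν).le (h.2 ν).2.1 (h.2 ν).2.2.2

/-- y μ ν gives x μ ν or z μ ν. Descent: D y ν ≤ D x ν ⊔ D z ν (ind along y).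
Ascent: U x ν ⊓ U z ν ≤ U y ν (ind' along y). Then per_of. -/
theorem le_tr (h : x.le y) (k : y.le z) : x.le z := by
  refine ⟨fun a b c d => k.1 a b c (h.1 a b c d), fun ν => B.per_of (x.lt ν).le (z.lt ν).le ?_ ?_
    ((gap_ge k ν).trans (gap_ge h ν))⟩
  · refine (h.2 ν).1.trans (sup_le le_sup_left ((k.2 ν).1.trans (sup_le ?_ le_sup_right)))
    exact (desc h k ν).trans (sup_le_sup_left (z.lt ν).le _)
  · have h1 : x.U ν ⊓ z.D ν ≤ y.U ν := (inf_le_inf_left _ (z.lt ν).le).trans (asc h k ν)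
    exact (le_inf inf_le_left ((le_inf h1 inf_le_right).trans (k.2 ν).2.2.1)).trans (h.2 ν).2.2.1

theorem U_eq (a : x.le y) (b : y.le z) (μ : κ × ℤ) : y.D μ ⊔ x.U μ ⊓ z.U μ = y.U μ := by
  have := B.modular
  have h1 : x.U μ ≤ x.D μ ⊔ (y.D μ ⊔ x.U μ ⊓ z.U μ) := by
    refine le_trans ?_ (sup_le_sup_left le_sup_right _)
    rw [inf_comm, ← sup_inf_assoc_of_le _ (x.lt μ).le]
    exact le_inf ((le_tr a b).2 μ).1 le_rfl
  have h2 := B.gap_le (x.lt μ).le le_sup_left h1 (a.2 μ).2.2.1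
  have h3 := gap_ge a μ
  exact B.eq_of_le (sup_le (y.lt μ).le (asc a b μ)) (by omega)

theorem U_le (a : x.le y) (b : y.le z) (c : x.le y') (d : y'.le z) (e : y.bf = y'.bf)
    (ν : κ × ℤ) : y.U ν ≤ y'.U ν := by
  have key : ∀ μ, μ = ν ∨ y.bf μ ν → y.U μ ≤ y'.U ν := by
    refine y.ind (y'.U ν) (fun μ h _ => h) fun μ μ' h ih k => ?_
    rw [← U_eq a b μ]
    refine sup_le (h ▸ ih (Or.inr ?_)) ((asc c d μ).trans ?_)
    · rcases k with rfl | k
      · exact h.le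
      · exact h.le.trans ((y.lt μ).le.trans k)
    · rcases k with rfl | k
      · exact le_rfl
      · rw [e] at k
        exact le_trans k (y'.lt ν).le
  exact key ν (Or.inl rfl)

/-- U y μ = D y μ ⊔ (U x μ ⊓ U z μ) by cov, U x μ ⊓ U z μ ≤ U y' μ; ind gives U y ≤ U y'. -/
theorem uniq (a : x.le y) (b : y.le z) (c : x.le y') (d : y'.le z) (e : y.bf = y'.bf) :
    y = y' := by
  have hU : y.U = y'.U := funext fun ν => le_antisymm (U_le a b c d e ν) (U_le c d a b e.symm ν)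
  refine Cw.ext hU (funext fun ν => le_antisymm ?_ ?_)
  · obtain ⟨μ, h⟩ := y.sat ν
    have k : y'.bf μ ν := e ▸ h.le
    rw [← h, hU]
    exact k
  · obtain ⟨μ, h⟩ := y'.sat ν
    have k : y.bf μ ν := e ▸ h.le
    rw [← h, ← hU]
    exact k

theorem sh_uniq {k k' : κ → ℤ} (a : x.le (z.sh k)) (b : x.le (z.sh k')) : k = k' := by
  have key : ∀ {k k' : κ → ℤ}, x.le (z.sh k) → x.le (z.sh k') → ∀ c, k' c ≤ k c := by
    intro k k' a b c
    by_contra h
    have h1 : z.U (c, 0 - k' c) ≤ z.D (c, 0 - k c) := z.wd.wr_lt c (by omega)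
    have h2 := B.gap_le (x.lt (c, 0)).le (le_refl (z.D (c, 0 - k c)))
      ((b.2 (c, 0)).1.trans (sup_le_sup_left h1 _)) (a.2 (c, 0)).2.2.1
    have h3 := B.mono (x.lt (c, 0))
    omega
  exact funext fun c => le_antisymm (key b a c) (key a b c)

theorem le_act [B.Ac G] (g : G) (k : κ → ℤ) (h : x.le z) : (x.act g k).le (z.act g k) :=
  ⟨fun a b c d => (B.wrIso g).monotone (h.1 (a.1, a.2 - k a.1) (b.1, b.2 - k b.1) c
    ((B.wrIso g).le_iff_le.1 d)), fun ν => (h.2 (ν.1, ν.2 - k ν.1)).wr_map (B.wrIso g)⟩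

theorem le_sh (k : κ → ℤ) (h : x.le z) : (x.sh k).le (z.sh k) :=
  ⟨fun a b c d => h.1 (a.1, a.2 - k a.1) (b.1, b.2 - k b.1) c d,
    fun ν => h.2 (ν.1, ν.2 - k ν.1)⟩

omit [LinearOrder κ] in
theorem stab [B.Ac G] {g : G} {k : κ → ℤ} (h : x.act g k = x) :
    k = 0 ∧ ∀ ν, g • x.U ν = x.U ν := by
  have h1 : ∀ ν : κ × ℤ, g • x.U (ν.1, ν.2 - k ν.1) = x.U ν := congrFun (congrArg Cw.U h)
  have h2 : k = 0 := funext fun c => by
    have h3 := congrArg B.cov (h1 (c, 0))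
    rw [Bl.Ac.hc] at h3
    have h4 : ∀ {a b : ℤ}, a < b → B.cov (x.U (c, a)) < B.cov (x.U (c, b)) := fun e =>
      B.mono (lt_of_le_of_lt (x.wd.wr_lt c e) (x.lt _))
    rcases lt_trichotomy (0 - k c) 0 with e | e | e
    · exact ((h4 e).ne h3).elim
    · simpa using e
    · exact ((h4 e).ne' h3).elim
  exact ⟨h2, fun ν => by simpa [h2] using h1 ν⟩

instance : Preorder (Cw B ℓ) where
  le := Cw.le
  le_refl := le_rf
  le_trans _ _ _ := le_tr

omit [LinearOrder κ] in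
theorem sh_zero (x : Cw B ℓ) : x.sh 0 = x :=
  Cw.ext (funext fun ν => by simp [sh]) (funext fun ν => by simp [sh])

omit [LinearOrder κ] in
theorem sh_sh (x : Cw B ℓ) (k k' : κ → ℤ) : (x.sh k').sh k = x.sh (k + k') :=
  Cw.ext (funext fun ν => by simp [sh, sub_sub]) (funext fun ν => by simp [sh, sub_sub])

omit [LinearOrder κ] in
theorem act_sh [B.Ac G] (x : Cw B ℓ) (g : G) (k : κ → ℤ) :
    (x.act g 0).sh k = (x.sh k).act g 0 :=
  Cw.ext (funext fun ν => by simp [sh, act]) (funext fun ν => by simp [sh, act])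

end Cw

variable {N : ℕ}

theorem YL.le_rf (x : YL B N) : x.le x :=
  Or.inr ⟨x.ℓ, x.x, x.x, 0, rfl, rfl, by rw [Cw.sh_zero]; exact x.x.le_rf⟩

theorem YL.le_tr {x y z : YL B N} (h : x.le y) (k : y.le z) : x.le z := by
  rcases h with h | ⟨ℓ, x', y', a, rfl, rfl, h⟩
  · rcases k with k | ⟨ℓ, y', z', b, rfl, rfl, -⟩
    · exact Or.inl (k.trans h)
    · exact Or.inl h
  · rcases k with k | ⟨ℓ', y'', z', b, e, rfl, k⟩
    · exact Or.inl k
    · cases e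
      exact Or.inr ⟨_, x', z', a + b, rfl, rfl, Cw.sh_sh z' a b ▸ Cw.le_tr h (Cw.le_sh a k)⟩

theorem YL.le_smul [B.Ac G] (g : G) {x y : YL B N} (h : x.le y) : (g • x).le (g • y) := by
  rcases h with h | ⟨ℓ, x', y', a, rfl, rfl, h⟩
  · exact Or.inl h
  · exact Or.inr ⟨ℓ, x'.act g 0, y'.act g 0, a, rfl, rfl, by
      rw [Cw.act_sh]; exact Cw.le_act g 0 h⟩

variable (B G N) in
/-- The coordinate preorders. -/
def YL.pf [B.Ac G] (J : Type) : Pf G (J → YL B N) J where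
  le L x z := (x L).le (z L)
  refl _ _ := YL.le_rf _
  trans := YL.le_tr
  smul g := YL.le_smul g

end Pool.Agent.Lib.MP_5d3e93_al.Bg
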