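import Pool.Agent.Lib.MP_5d3e93_al.Bg.Rep
import Pool.Agent.Lib.MP_5d3e93_al.Bg.Fil
import Pool.Agent.Lib.MP_5d3e93_al.Bg.Dat
import Pool.Agent.Lib.MP_5d3e93_al.Bg.Wrd
import Pool.Agent.Lib.MP_5d3e93_al.Bg.Cmp
import Pool.Agent.Lib.MP_5d3e93_al.Bg.Lat

/-! Transfer data from the building. -/

namespace Pool.Agent.Lib.MP_5d3e93_al.Bg

universe w w'

variable {X : Type w'} [Lattice X] {B : Bl X} {G : Type w} [Group G] [MulAction G X]

theorem geo_zpow {k : X → X} (hk : B.Ko k) (m : ℤ) (z : X) :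
    k ((B.π ^ m) z) = (B.π ^ m) (k z) := by
  induction m using Int.induction_on generalizing z with
  | zero => simp
  | succ m ih =>
    rw [zpow_add_one]
    exact (ih (B.π z)).trans (congrArg _ (hk.pi z))
  | pred m ih =>
    rw [zpow_sub_one]
    refine (ih (B.π⁻¹ z)).trans (congrArg _ (B.π.injective ?_))
    have e : ∀ y, B.π (B.π⁻¹ y) = y := fun y => B.π.apply_symm_apply y
    rw [← hk.pi, e]
    exact (e _).symm

theorem geo_bot {k : X → X} (hk : ∀ z, k z ≤ B.π z) {w : ℤ → X} (hw : B.Chn w) :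
    Bl.mem k w = fun i => w (i - 1) := by
  funext i
  refine sup_eq_left.2 ((hk _).trans ?_)
  have e := hw.per (i - B.n)
  rw [sub_add_cancel] at e
  have := B.pos
  exact e.le.trans (hw.mono (by omega))

theorem geo_E_bot {k : X → X} (hk : ∀ z, k z ≤ B.π z) {w : ℤ → X} (hw : B.Chn w) :
    B.E k w = 0 := by
  simp [Bl.E, geo_bot hk hw]

theorem geo_E_top {w : ℤ → X} (hw : B.Chn w) : B.E (fun z => z) w = B.n := by
  have e : ∀ i : ℕ, B.cov (Bl.mem (fun z => z) w i) - B.cov (w (i - 1)) =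
      B.cov (w (((i + 1 : ℕ) : ℤ) - 1)) - B.cov (w ((i : ℤ) - 1)) := fun i => by
    rw [Bl.mem, sup_eq_right.2 (hw.mono (by omega))]
    simp
  rw [Bl.E, Finset.sum_congr rfl fun i _ => e i,
    Finset.sum_range_sub fun i : ℕ => B.cov (w ((i : ℤ) - 1))]
  have h := B.sh (w (-1 + B.n))
  rw [hw.per] at h
  rw [show (B.n : ℤ) - 1 = -1 + B.n by ring, show ((0 : ℕ) : ℤ) - 1 = -1 by simp, h]
  ring

theorem geo_sup [h : B.Ac G] (g : G) (x y : X) : g • (x ⊔ y) = g • x ⊔ g • y := by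
  refine le_antisymm ?_ (sup_le (h.hm g _ _ le_sup_left) (h.hm g _ _ le_sup_right))
  have : x ⊔ y ≤ g⁻¹ • (g • x ⊔ g • y) := sup_le
    ((inv_smul_smul g x).ge.trans (h.hm _ _ _ le_sup_left))
    ((inv_smul_smul g y).ge.trans (h.hm _ _ _ le_sup_right))
  exact (h.hm g _ _ this).trans (smul_inv_smul g _).le

theorem geo_E_smul [h : B.Ac G] (g : G) (k : X → X) (w : ℤ → X) :
    B.E (fun z => g • k (g⁻¹ • z)) (fun i => g • w i) = B.E k w := by
  refine Finset.sum_congr rfl fun i _ => ?_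
  simp only [Bl.mem, inv_smul_smul]
  rw [← geo_sup (B := B), h.hc, h.hc]

theorem geo_ko_smul [h : B.Ac G] (g : G) {k : X → X} (hk : B.Ko k) :
    B.Ko fun z => g • k (g⁻¹ • z) :=
  ⟨fun _ _ a => h.hm _ _ _ (hk.mono (h.hm _ _ _ a)),
    fun z => (h.hm g _ _ (hk.le _)).trans (smul_inv_smul g z).le,
    fun z => by rw [← h.hπ, hk.pi, h.hπ]⟩

theorem geo_ko_id : B.Ko fun z => z := ⟨fun _ _ a => a, fun _ => le_rfl, fun _ => rfl⟩

theorem geo_orb {l : List B.Vx} {z : X} (h : z ∈ B.Orb l) (m : ℤ) : (B.π ^ m) z ∈ B.Orb l := by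
  obtain ⟨x, a, k, rfl⟩ := h
  exact ⟨x, a, m + k, by rw [zpow_add]; rfl⟩

theorem geo_chain {l : List B.Vx} (h : B.fg.Sx l) {k : X → X} (hk : Monotone k) {x y : X}
    (a : x ∈ B.Orb l) (b : y ∈ B.Orb l) : x ⊔ y ∈ B.Orb l ∧ k x ⊔ k y = k (x ⊔ y) := by
  rcases (B.orb_chain h).total a b with c | c
  · rw [sup_eq_right.2 c, sup_eq_right.2 (hk c)]
    exact ⟨b, rfl⟩
  · rw [sup_eq_left.2 c, sup_eq_left.2 (hk c)]
    exact ⟨a, rfl⟩

theorem geo_gap {n h : ℕ} (t : Fin n → ℕ) :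
    ∃ i : Fin (n + 1), ∀ j, ¬(lv h i < t j + 2 * h ∧ t j < lv h i + 2 * h) := by
  by_contra c
  push Not at c
  choose f hf using c
  have k : ∀ i i' : Fin (n + 1), f i = f i' → ¬i < i' := fun i i' e l => by
    have a := (hf i).2
    have b := (hf i').1
    rw [e] at a
    have l' : (i : ℕ) + 1 ≤ i' := l
    have := Nat.mul_le_mul_right h l'
    simp only [lv] at a b
    nlinarith
  have := Fintype.card_le_of_injective f fun i i' e =>
    le_antisymm (not_lt.1 (k i' i e.symm)) (not_lt.1 (k i i' e))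
  simp at this

/-- The highest level of `L` below `c`. -/
def geoM {n : ℕ} (h : ℕ) (L : Finset (Fin (n + 1))) (c : ℕ) : ℕ :=
  (L.filter fun i => i.1 < c).sup (lv h)

theorem geoM_mem {n h : ℕ} {L : Finset (Fin (n + 1))} {c : ℕ} (e : geoM h L c ≠ 0) :
    ∃ i ∈ L, geoM h L c = lv h i := by
  rcases (L.filter fun i => i.1 < c).eq_empty_or_nonempty with a | a
  · exact absurd (by simp [geoM, a]) e
  · obtain ⟨i, b, d⟩ := Finset.exists_mem_eq_sup _ a (lv h)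
    exact ⟨i, (Finset.mem_filter.1 b).1, d⟩

theorem geoM_mono {n h : ℕ} (L : Finset (Fin (n + 1))) (c : ℕ) : geoM h L c ≤ geoM h L (c + 1) :=
  Finset.sup_mono fun _ a => Finset.mem_filter.2
    ⟨(Finset.mem_filter.1 a).1, (Finset.mem_filter.1 a).2.trans c.lt_succ_self⟩

variable (B) in
/-- The operators attached to a set of levels. -/
def geoK (ρ : ℕ → X → X) (h : ℕ) (L : Finset (Fin (B.n + 1))) (c : ℕ) : X → X :=
  if B.n + 2 ≤ c then fun z => z else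
    if geoM h L c = 0 then fun z => B.π (ρ 0 z) else ρ (geoM h L c)

variable (B) in
/-- The formal coordinates of a chain. -/
noncomputable def geoT (ρ : ℕ → X → X) (h : ℕ) (w : ℤ → X) (j : Fin B.n) : ℕ :=
  sInf {k | (j : ℤ) < B.E (ρ k) w ∨ (4 * B.n + 5) * h < k}

variable {F : Set G} {ρ : ℕ → X → X} {h : ℕ}

theorem geoT_mem (w : ℤ → X) (j : Fin B.n) : (j : ℤ) < B.E (ρ (geoT B ρ h w j)) w ∨
    (4 * B.n + 5) * h < geoT B ρ h w j :=
  Nat.sInf_mem (s := {k | (j : ℤ) < B.E (ρ k) w ∨ (4 * B.n + 5) * h < k})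
    ⟨_, Or.inr (Nat.lt_succ_self _)⟩

theorem geoT_le {w : ℤ → X} {j : Fin B.n} {k : ℕ}
    (a : (j : ℤ) < B.E (ρ k) w ∨ (4 * B.n + 5) * h < k) : geoT B ρ h w j ≤ k := Nat.sInf_le a

theorem geo_lv (i : Fin (B.n + 1)) : lv h i + 2 * h ≤ (4 * B.n + 5) * h := by
  have := Nat.mul_le_mul_right h (Nat.lt_succ_iff.1 i.2)
  simp only [lv]
  nlinarith

namespace Bl.Fl

variable (hρ : B.Fl F ρ)
include hρ

theorem geo_mono {k k' : ℕ} (a : k ≤ k') (z : X) : ρ k z ≤ ρ k' z :=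
  monotone_nat_of_le_succ (f := fun k => ρ k z) (fun k => hρ.step k z) a

theorem geo_lo {k k' : ℕ} (a : k ≤ k') (z : X) : ρ k z ≤ ρ k (ρ k' z) :=
  (hρ.idem k z).ge.trans ((hρ.ko k).mono (hρ.geo_mono a z))

theorem geo_hi {k k' : ℕ} (a : k' ≤ k) (z : X) : ρ k' z ≤ ρ k (ρ k' z) :=
  (hρ.idem k' z).ge.trans (hρ.geo_mono a _)

theorem geo_ks (L : Finset (Fin (B.n + 1))) : B.Ks (B.n + 2) (geoK B ρ h L) where
  ko c := by
    unfold geoK
    split_ifs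
    · exact geo_ko_id
    · exact ⟨fun _ _ a => B.π.monotone ((hρ.ko 0).mono a),
        fun z => (B.le _).trans ((hρ.ko 0).le z), fun z => by rw [(hρ.ko 0).pi]⟩
    · exact hρ.ko _
  step c z := by
    have := geoM_mono (h := h) L c
    unfold geoK
    split_ifs
    · exact le_rfl
    · omega
    · omega
    · exact (B.le _).trans ((hρ.ko 0).le z)
    · exact le_rfl
    · exact (B.le _).trans (hρ.geo_mono (Nat.zero_le _) z)
    · exact (hρ.ko _).le z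
    · omega
    · exact hρ.geo_mono this z
  bot z := by
    have : geoM h L 0 = 0 := by simp [geoM]
    simp only [geoK, this]
    exact B.π.monotone ((hρ.ko 0).le z)
  top z := by simp [geoK]

theorem geo_lt {w : ℤ → X} {j : Fin B.n} {k : ℕ} (a : k ≤ (4 * B.n + 5) * h)
    (b : B.E (ρ k) w ≤ j) : k < geoT B ρ h w j := by
  by_contra c
  rcases geoT_mem (ρ := ρ) (h := h) w j with d | d
  · have := Bl.E_op (B := B) (hρ.geo_mono (not_lt.1 c)) w
    omega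
  · omega

/-- A jump of the visible covolume is seen by a coordinate. -/
theorem geo_jump {w v : ℤ → X} (hw : B.Chn w) (hv : B.Chn v) {k k' : ℕ}
    (a : k ≤ (4 * B.n + 5) * h) (c : B.E (ρ k) w < B.E (ρ k') v) :
    ∃ j, k < geoT B ρ h w j ∧ geoT B ρ h v j ≤ k' := by
  have p := (Bl.E_le (hρ.ko k) hw).1
  have q := (Bl.E_le (hρ.ko k') hv).2
  refine ⟨⟨(B.E (ρ k) w).toNat, by omega⟩, hρ.geo_lt a ?_, geoT_le (Or.inl ?_)⟩
  · simp
  · simp only [Int.toNat_of_nonneg p]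
    exact c

theorem geo_push {w v : ℤ → X} (hw : B.Chn w) (hv : B.Chn v) {k : ℕ} (p : Bl.Push (ρ k) w v)
    (j : Fin B.n) : geoT B ρ h v j ≤ geoT B ρ h w j :=
  geoT_le ((geoT_mem w j).imp_left fun a => a.trans_le (Bl.E_mono (hρ.ko _) (hρ.ko k) hw hv p
    ((le_total _ k).imp (fun b => hρ.geo_lo b) fun b => hρ.geo_hi b)))

theorem geo_rep (hh : 2 ≤ h) {w v : ℤ → X} (hw : B.Chn w) (hv : B.Chn v)
    {L : Finset (Fin (B.n + 1))} {i : Fin (B.n + 1)} (hi : i ∈ L) (p : Bl.Push (ρ (lv h i)) w v)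
    (ad : Adm h 0 (geoT B ρ h w) (geoT B ρ h v) L) {x z : YL B (B.n + 2)}
    (a : Bl.Rep (geoK B ρ h L) w x) (b : Bl.Rep (geoK B ρ h L) v z) : x.le z := by
  have i2 := i.2
  refine Bl.rep_le (hρ.geo_ks L) (hρ.ko _) (i + 1) (fun c l z => ?_) (fun c l z => ?_) hw hv p
    (fun c _ => ?_) a b
  · have : geoM h L c ≤ lv h i := Finset.sup_le fun i' d => Nat.mul_le_mul_right h (by
      have := (Finset.mem_filter.1 d).2
      omega)
    unfold geoK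
    split_ifs
    · omega
    · exact B.π.monotone (hρ.geo_lo (Nat.zero_le _) z)
    · exact hρ.geo_lo this z
  · have : lv h i ≤ geoM h L c := Finset.le_sup (f := lv h) (Finset.mem_filter.2 ⟨hi, l⟩)
    have : 0 < lv h i := Nat.mul_pos (by omega) (by omega)
    unfold geoK
    split_ifs
    · exact le_rfl
    · omega
    · exact hρ.geo_hi ‹_› z
  · unfold geoK
    split_ifs with d e
    · rw [geo_E_top hw, geo_E_top hv]
    · rw [geo_E_bot (fun z => B.π.monotone ((hρ.ko 0).le z)) hw,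
        geo_E_bot (fun z => B.π.monotone ((hρ.ko 0).le z)) hv]
    · obtain ⟨i', m, e⟩ := geoM_mem e
      rw [e]
      by_contra d
      have := geo_lv (h := h) i'
      obtain ⟨j, r, s⟩ := hρ.geo_jump (h := h) hw hv (by omega) (not_le.1 d)
      have := ad.1 i' m j
      omega

theorem geo_lip [B.Ac G] {g : G} (hg : g ∈ F) (k : ℕ) (z : X) :
    ρ k z ≤ g • ρ (k + 1) (g⁻¹ • z) := by
  simpa using (hρ.lip g hg k (g⁻¹ • z)).2

theorem geo_t_smul [hG : B.Ac G] {g : G} (hg : g ∈ F) (w : ℤ → X) (j : Fin B.n) :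
    geoT B ρ h w j ≤ geoT B ρ h (fun i => g • w i) j + 1 :=
  geoT_le ((geoT_mem (fun i => g • w i) j).imp (fun a => a.trans_le
    ((Bl.E_op (hρ.geo_lip hg _) _).trans (geo_E_smul g _ w).le)) fun a => a.trans (by omega))

theorem geo_rep_smul [hG : B.Ac G] (hh : 2 ≤ h) {g : G} (hg : g ∈ F) {w : ℤ → X} (hw : B.Chn w)
    (hv : B.Chn fun i => g • w i) {L : Finset (Fin (B.n + 1))}
    (ad : Adm h 1 (geoT B ρ h fun i => g • w i) (geoT B ρ h w) L) {x z : YL B (B.n + 2)}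
    (a : Bl.Rep (geoK B ρ h L) (fun i => g • w i) x) (b : Bl.Rep (geoK B ρ h L) w z) :
    x.le (g • z) := by
  refine Bl.rep_le (hρ.geo_ks L) geo_ko_id (B.n + 2) (fun _ _ _ => le_rfl)
    (fun c l z => by simp [geoK, l]) hv hv (fun s => ⟨s, s, (sup_idem _).symm⟩)
    (fun _ _ => le_rfl) a (Bl.Rep.congr (fun c _ => ?_) (b.smul g))
  unfold geoK
  split_ifs with d e
  · simp
  · rw [geo_bot (fun z => B.π.monotone ((hρ.ko 0).le z)) hv, geo_bot (fun z => ?_) hv]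
    rw [← hG.hπ]
    exact B.π.monotone ((geo_ko_smul g (hρ.ko 0)).le z)
  · obtain ⟨i, m, e⟩ := geoM_mem e
    rw [e]
    have := geo_lv (h := h) i
    obtain ⟨k, hk⟩ : ∃ k, lv h i = k + 1 :=
      Nat.exists_eq_succ_of_ne_zero (Nat.mul_pos (by omega) (by omega)).ne'
    have key : B.E (ρ (k + 1 + 1)) w ≤ B.E (ρ k) fun i => g • w i := by
      by_contra d
      obtain ⟨j, r, s⟩ := hρ.geo_jump (h := h) hv hw (by omega) (not_le.1 d)
      have := ad.1 i m j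
      omega
    rw [← geo_E_smul g] at key
    rw [hk, ← Bl.mem_eq (hρ.ko k) (geo_ko_smul g (hρ.ko (k + 1))) hv (hρ.geo_lip hg k)
      ((Bl.E_op (fun z => hG.hm g _ _ (hρ.step _ _)) _).trans key),
      Bl.mem_eq (hρ.ko k) (hρ.ko (k + 1)) hv (hρ.step k)
        ((Bl.E_op (hρ.geo_lip hg _) _).trans key)]

end Bl.Fl

variable (B)

theorem Bl.td [Nonempty X] [B.Ac G] {F : Set G} (hF : F.Finite) {h : ℕ} (hh : 2 ≤ h) :
    ∃ (T : Type w') (_ : Fintype T) (_ : DecidableEq T),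
      Nonempty (Td ((YL.pf B G (B.n + 2) (Finset (Fin (B.n + 1)))).nv h)
        (fun y => ∀ j, y.t j ≤ (4 * B.n + 6) * h) F T) := by
  have hG : B.Ac G := inferInstance
  obtain ⟨ρ, hρ⟩ := B.ex_fl hF
  obtain ⟨w, hw⟩ := B.ex_chn (G := G)
  obtain ⟨x₀⟩ := ‹Nonempty X›
  have hn : (0 : ℤ) < B.n := by exact_mod_cast B.pos
  obtain ⟨v₀⟩ : Nonempty B.Vx := ⟨⟨(B.π ^ (B.cov x₀ / B.n)) x₀, by
    rw [B.cov_zpow, mul_comm, ← Int.emod_def]
    exact ⟨Int.emod_nonneg _ hn.ne', Int.emod_lt_of_pos _ hn⟩⟩⟩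
  obtain ⟨Y, hY⟩ : ∃ Y : List B.Vx → Finset (Fin (B.n + 1)) → YL B (B.n + 2), ∀ l L,
      B.fg.Sx l → l ≠ [] → Bl.Rep (geoK B ρ h L) (w l) (Y l L) := by
    have : ∀ l L, ∃ y : YL B (B.n + 2), B.fg.Sx l → l ≠ [] → Bl.Rep (geoK B ρ h L) (w l) y := by
      intro l L
      by_cases c : B.fg.Sx l ∧ l ≠ []
      · exact (Bl.ex_rep (hρ.geo_ks L) (hw l c.1 c.2).1).imp fun _ a _ _ => a
      · exact (Bl.ex_rep (hρ.geo_ks (h := h) L) (hw [v₀] (List.pairwise_singleton _ _)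
          (List.cons_ne_nil _ _)).1).imp fun _ _ a b => absurd ⟨a, b⟩ c
    choose Y hY using this
    exact ⟨Y, hY⟩
  have qs : ∀ k x y, ρ k x = x → ρ k y = y → ρ k (x ⊔ y) = x ⊔ y := fun k x y a b =>
    le_antisymm ((hρ.ko k).le _) (sup_le (a.ge.trans ((hρ.ko k).mono le_sup_left))
      (b.ge.trans ((hρ.ko k).mono le_sup_right)))
  have qz : ∀ k x (m : ℤ), ρ k x = x → ρ k ((B.π ^ m) x) = (B.π ^ m) x := fun k x m a => by
    rw [geo_zpow (hρ.ko k), a]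
  have ql : ∀ (i : Fin (B.n + 1)) y, ρ ((4 * B.n + 5) * h) (ρ (lv h i) y) = ρ (lv h i) y :=
    fun i y => le_antisymm ((hρ.ko _).le _) (hρ.geo_hi (by have := geo_lv (h := h) i; omega) y)
  have az : ∀ k l z (m : ℤ), (∃ x ∈ B.Orb l, ∃ y ∈ B.Orb l, z = x ⊔ ρ k y) →
      ∃ x ∈ B.Orb l, ∃ y ∈ B.Orb l, (B.π ^ m) z = x ⊔ ρ k y := by
    rintro k l _ m ⟨x, a, y, b, rfl⟩
    exact ⟨_, geo_orb a m, _, geo_orb b m, by rw [map_sup, geo_zpow (hρ.ko k)]⟩
  have o0 : ∀ {l : List B.Vx} {x}, x ∈ l → x.1 ∈ B.Orb l := fun a => ⟨_, a, 0, by simp⟩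
  refine B.fg.td (fun g x => hG.hc g x.1) (B.adj_smul) _
    (Q := {z | z.1 ∈ {z | ρ ((4 * B.n + 5) * h) z = z}}) ?_
    (B.dm ⟨_, hρ.idem _ x₀⟩ (fun x a y b => qs _ x y a b) fun x a m => qz _ x m a)
    (fun (i : Fin (B.n + 1)) l => {z | z.1 ∈ {z | ∃ x ∈ B.Orb l, ∃ y ∈ B.Orb l,
      z = x ⊔ ρ (lv h i) y}})
    (fun i l => {z | z.1 ∈ {z | ∃ y ∈ B.Orb l, z = ρ (lv h i) y}})
    (fun l => ⟨geoT B ρ h (w l), Y l⟩) ?_ ?_ ?_ ?_ ?_
  · exact ((hρ.fin _).preimage Subtype.val_injective.injOn).subset fun z a => ⟨a, z.2⟩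
  · intro i l hl ne
    obtain ⟨x₁, m₁⟩ := List.exists_mem_of_ne_nil l ne
    refine ⟨fun x a => ⟨_, o0 a, _, o0 a, (sup_eq_left.2 ((hρ.ko _).le _)).symm⟩, ?_, ?_,
      B.dm ⟨_, _, o0 m₁, _, o0 m₁, rfl⟩ ?_ fun z a m => az _ l z m a,
      B.dm ⟨_, _, o0 m₁, rfl⟩ ?_ ?_, ?_⟩
    · rintro z ⟨y, a, e⟩
      obtain ⟨m, b⟩ := B.arch y (ρ (lv h i) y)
      exact ⟨_, geo_orb a m, y, a, e.trans (sup_eq_right.2 (by rwa [zpow_natCast])).symm⟩
    · rintro z ⟨y, -, e⟩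
      change ρ _ z.1 = z.1
      rw [e, ql]
    · rintro _ ⟨x, a, y, b, rfl⟩ _ ⟨x', a', y', b', rfl⟩
      exact ⟨_, (geo_chain hl (hρ.ko 0).mono a a').1, _, (geo_chain hl (hρ.ko 0).mono b b').1, by
        rw [← (geo_chain hl (hρ.ko _).mono b b').2, sup_sup_sup_comm]⟩
    · rintro _ ⟨y, b, rfl⟩ _ ⟨y', b', rfl⟩
      exact ⟨_, (geo_chain hl (hρ.ko 0).mono b b').1, (geo_chain hl (hρ.ko _).mono b b').2⟩
    · rintro _ ⟨y, b, rfl⟩ m
      exact ⟨_, geo_orb b m, (geo_zpow (hρ.ko _) m y).symm⟩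
    · rintro c z ⟨_, ⟨x, a, m, rfl⟩, y, -, e⟩
      change ρ _ z.1 = z.1
      rw [e]
      exact qs _ _ _ (qz _ _ m (c x a)) (ql i y)
  · intro i l l' _ s
    have o : B.Orb l' ⊆ B.Orb l := fun _ ⟨x, a, b⟩ => ⟨x, s.subset a, b⟩
    exact ⟨fun _ ⟨x, a, y, b, e⟩ => ⟨x, o a, y, o b, e⟩, fun _ ⟨y, b, e⟩ => ⟨y, o b, e⟩⟩
  · intro l _ _
    obtain ⟨i, hi⟩ := geo_gap (h := h) (geoT B ρ h (w l))
    refine ⟨i, fun m m' hm ne hm' ne' a b => ?_⟩
    obtain ⟨c, r, -⟩ := hw m hm ne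
    obtain ⟨c', r', -⟩ := hw m' hm' ne'
    have p : Bl.Push (ρ (lv h i)) (w m) (w m') := fun s => by
      obtain ⟨x, d, k, e⟩ : w m' s ∈ B.Orb m' := r' ▸ Set.mem_range_self s
      obtain ⟨x', d', y', e', f⟩ := az _ m _ k (b x d)
      rw [← r] at d' e'
      obtain ⟨s₁, rfl⟩ := d'
      obtain ⟨s₂, rfl⟩ := e'
      exact ⟨s₁, s₂, e.trans f⟩
    have t₁ : ∀ j, geoT B ρ h (w m) j ≤ geoT B ρ h (w l) j := a.1
    have t₂ := hρ.geo_push (h := h) c c' p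
    refine ⟨fun j => (t₂ j).trans (t₁ j), fun L (ad : Adm h 0 (geoT B ρ h (w l))
      (geoT B ρ h (w m')) L) => ?_⟩
    have iL : i ∈ L := by
      by_contra d
      obtain ⟨j, e⟩ := ad.2 i d
      have := t₁ j
      have := t₂ j
      exact hi j (by omega)
    exact YL.le_tr (a.2 L (ad.of (fun _ => le_rfl) t₂))
      (hρ.geo_rep hh c c' iL p (ad.of t₁ fun _ => le_rfl) (hY m L hm ne) (hY m' L hm' ne'))
  · intro g hg l hl ne
    obtain ⟨c, -, e⟩ := hw l hl ne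
    have hl' : B.fg.Sx (l.map (g • ·)) := List.Pairwise.map _ (fun x y a =>
      ⟨B.adj_smul g x y a.1, (hG.hc g x.1).trans_lt (a.2.trans_eq (hG.hc g y.1).symm)⟩) hl
    have ne' : l.map (g • ·) ≠ [] := by simpa using ne
    have c' := (hw _ hl' ne').1
    have y' := fun L => hY _ L hl' ne'
    change (∀ j, geoT B ρ h (w l) j ≤ geoT B ρ h (w (l.map (g • ·))) j + 1) ∧ ∀ L,
      Adm h 1 (geoT B ρ h (w (l.map (g • ·)))) (geoT B ρ h (w l)) L →
        (Y (l.map (g • ·)) L).le (g • Y l L)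
    rw [e g] at c' y' ⊢
    exact ⟨hρ.geo_t_smul hg _, fun L ad => hρ.geo_rep_smul hh hg c c' ad (y' L) (hY l L hl ne)⟩
  · intro l j
    exact geoT_le (Or.inr (by nlinarith))

end Pool.Agent.Lib.MP_5d3e93_al.Bg
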