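import Pool.Agent.Lib.MP_5d3e93_al.Bg.Defs

/-! Pull backs and products of orders with towers. -/

namespace Pool.Agent.Lib.MP_5d3e93_al.Bg

universe w w' w''

variable {Γ : Type w} [Group Γ] {Y : Type w'} [Preorder Y] [MulAction Γ Y] {κ : Type}

theorem Op.comap (P : Op Γ Y κ) {Γ' : Type w''} [Group Γ'] [MulAction Γ' Y] (j : Γ' →* Γ)
    (hj : ∀ (g : Γ') (y : Y), g • y = j g • y) :
    ∃ Q : Op Γ' Y κ, ∀ c g, Q.χ c g = P.χ c (j g) := by
  refine ⟨⟨fun c g => P.χ c (j g), fun c a b => by rw [map_mul, P.mul], fun g x y h => ?_, ?_,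
    fun s => ?_⟩, fun _ _ => rfl⟩
  · rw [hj, hj]
    exact P.hm _ _ _ h
  · obtain ⟨l, hl⟩ := P.flat
    exact ⟨l, fun g x y h k => by
      rw [hj] at k ⊢
      exact hl _ _ _ h k⟩
  · obtain ⟨l, h1, h2⟩ := P.line s
    refine ⟨l, fun g x y h k => h1 (j g) x y h (hj g y ▸ k), fun t => ?_⟩
    obtain ⟨T, h3, h4⟩ := h2 t
    refine ⟨⟨T.Le, T.Bx, T.Bk, T.refl, T.trans, fun g m h p q k => ?_, fun g m h d p k => ?_,
      T.mono, T.ex, T.bk, T.un, T.u0⟩, h3, fun g x y h k e => ?_⟩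
    · rw [hj, hj]
      exact T.sLe _ m h k
    · rw [hj]
      exact T.sBx _ m h k
    · rw [hj] at k ⊢
      exact h4 _ x y h k e

omit [Preorder Y] in
theorem Twr.mono' {χ : κ → Γ → ℤ} {s : κ → ℤ} (T : Twr χ s Y) {d d' : ℕ} (h : d ≤ d') {p}
    (k : T.Bx d p) : T.Bx d' p := by
  induction h with
  | refl => exact k
  | step _ ih => exact T.mono ih

/-- the product of towers. -/
def Twr.pi {I : Type} {Z : I → Type w'} [∀ i, MulAction Γ (Z i)] {κ : I → Type}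
    {χ : ∀ i, κ i → Γ → ℤ} {s : (Σ i, κ i) → ℤ} (T : ∀ i, Twr (χ i) (fun c => s ⟨i, c⟩) (Z i)) :
    Twr (fun c : Σ i, κ i => χ c.1 c.2) s (∀ i, Z i) where
  Le p q := ∀ i, (T i).Le (p.1 i, p.2) (q.1 i, q.2)
  Bx d p := ∀ i, (T i).Bx d (p.1 i, p.2)
  Bk d q r := (∀ i, (T i).Bk d (q.1 i, q.2) (r.1 i, r.2)) ∧ r.2 = q.2
  refl _ i := (T i).refl _
  trans a b i := (T i).trans (a i) (b i)
  sLe g m h _ _ k i := (T i).sLe g m (fun c => h ⟨i, c⟩) (k i)
  sBx g m h _ _ k i := (T i).sBx g m (fun c => h ⟨i, c⟩) (k i)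
  mono k i := (T i).mono (k i)
  ex {d p q} a e b c := by
    choose r h1 h2 using fun i => (T i).ex (a i) e (b i) (c i)
    have h3 : ∀ i, ((r i).1, q.2) = r i := fun i => Prod.ext rfl ((T i).bk (h2 i)).2.1.symm
    exact ⟨(fun i => (r i).1, q.2), fun i => by rw [h3]; exact h1 i,
      fun i => by rw [h3]; exact h2 i, rfl⟩
  bk k := ⟨fun i => ((T i).bk (k.1 i)).1, k.2, fun i => ((T i).bk (k.1 i)).2.2⟩
  un a b c d := Prod.ext (funext fun i => congrArg Prod.fst ((T i).un (a i) (b i) (c.1 i) (d.1 i)))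
    (c.2.trans d.2.symm)
  u0 a b c d e f g := Prod.ext
    (funext fun i => congrArg Prod.fst ((T i).u0 (a i) (b i) (c i) (d i) (e i) (f i) g)) g

theorem Op.pi {I : Type} [Fintype I] {Z : I → Type w'} [∀ i, Preorder (Z i)]
    [∀ i, MulAction Γ (Z i)] {κ : I → Type} (P : ∀ i, Op Γ (Z i) (κ i)) :
    Nonempty (Op Γ (∀ i, Z i) (Σ i, κ i)) := by
  classical
  refine ⟨⟨fun c => (P c.1).χ c.2, fun c => (P c.1).mul c.2,
    fun g x y h i => (P i).hm g _ _ (h i), ?_, fun s => ?_⟩⟩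
  · choose l hl using fun i => (P i).flat
    refine ⟨fun y => ∑ i, l i (y i), fun g x y h k => ?_⟩
    have h1 := fun i => hl i g (x i) (y i) (fun c => h ⟨i, c⟩) (k i)
    exact ⟨Finset.sum_le_sum fun i _ => (h1 i).1, fun e => funext fun i => (h1 i).2
      ((Finset.sum_eq_sum_iff_of_le fun i _ => (h1 i).1).1 e i (Finset.mem_univ i))⟩
  · choose l h1 h2 using fun i => (P i).line fun c => s ⟨i, c⟩
    refine ⟨fun y => ∑ i, l i (y i), fun g x y h k =>
      Finset.sum_le_sum fun i _ => h1 i g _ _ (fun c => h ⟨i, c⟩) (k i), fun t => ?_⟩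
    choose T h3 h4 using fun i => h2 i (t.image fun y => y i)
    choose d hd using h3
    refine ⟨Twr.pi T, ⟨Finset.univ.sup d, fun y hy i => (T i).mono'
      (Finset.le_sup (Finset.mem_univ i)) (hd i _ (Finset.mem_image_of_mem _ hy))⟩,
      fun g x y h k e i => h4 i g _ _ (fun c => h ⟨i, c⟩) (k i) ?_⟩
    exact (Finset.sum_eq_sum_iff_of_le fun i _ => h1 i g _ _ (fun c => h ⟨i, c⟩) (k i)).1 e i
      (Finset.mem_univ i)

end Pool.Agent.Lib.MP_5d3e93_al.Bg
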