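import Pool.Agent.Lib.MP_5d3e93_al.PrB
import Pool.Agent.Lib.MP_5d3e93_al.Bg.Opi

/-! Vanishing over orders with potentials and towers. -/

open CategoryTheory Limits MulAction

namespace Pool.Agent.Lib.MP_5d3e93_al.Bg

universe w w' v u

section Step

variable {Γ : Type w} [Group Γ] {Y : Type w'} [MulAction Γ Y] {κ : Type} {χ : κ → Γ → ℤ}
  {s : κ → ℤ} (T : Twr χ s Y) {ω : Ch Γ}

/-- The step relation of a tower. -/
def Twr.R (d : ℕ) (p q : Tm ω Y) : Prop :=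
  T.Le (p.y, p.t) (q.y, q.t) ∧ q.t = p.t + 1 ∧ T.Bx d (p.y, p.t) ∧ T.Bx d (q.y, q.t)

variable {T} (hc : ∀ g c, χ c g = ω g * s c) {d : ℕ}

include hc in
theorem Twr.R.smul (g : Γ) (p q : Tm ω Y) (h : T.R d p q) : T.R d (g • p) (g • q) :=
  ⟨T.sLe g _ (hc g) h.1, show ω g + q.t = ω g + p.t + 1 by rw [h.2.1, add_assoc],
    T.sBx g _ (hc g) h.2.2.1, T.sBx g _ (hc g) h.2.2.2⟩

theorem Twr.pth_le {k : ℕ} :
    ∀ {p q : Tm ω Y}, Pth (T.R d) k p q → T.Le (p.y, p.t) (q.y, q.t) := by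
  induction k with
  | zero => exact fun {p q} h => (show p = q from h) ▸ T.refl _
  | succ k ih => exact fun ⟨_, a, b⟩ => T.trans a.1 (ih b)

omit [MulAction Γ Y] in
theorem kop_ext {p q : Tm ω Y} (h : (p.y, p.t) = (q.y, q.t)) : p = q :=
  Tm.ext (congrArg Prod.fst h) (congrArg Prod.snd h)

theorem Twr.R.uniq (k) (σ τ x y : Tm ω Y) (a : T.R 0 σ τ) (b : T.R 0 σ x)
    (p : Pth (T.R 0) k τ y) (q : Pth (T.R 0) k x y) : τ = x :=
  kop_ext (T.u0 a.1 b.1 (Twr.pth_le p) (Twr.pth_le q) a.2.2.2 b.2.2.2 (a.2.1.trans b.2.1.symm))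

variable {C : Type u} [Category.{v} C] [Preadditive C] {S : GC (Γ × Zi) C} {θ : Nt C} {m : ℕ}

include hc in
theorem Twr.nl_succ (hz : ∃ Z : C, 𝟙 Z = 0)
    (h : S.Nl θ (.fst Γ Zi) (T.R (ω := ω) d) m fun _ => True) :
    S.Nl θ (.fst Γ Zi) (T.R (ω := ω) (d + 1)) m fun _ => True := by
  classical
  have ex (p q : Tm ω Y) (a : T.R (d + 1) p q) :
      ∃ r : Tm ω Y, T.Le (p.y, p.t) (r.y, r.t) ∧ T.Bk d (q.y, q.t) (r.y, r.t) := by
    obtain ⟨r, b⟩ := T.ex a.1 a.2.1 a.2.2.1 a.2.2.2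
    exact ⟨⟨r.1, r.2⟩, b⟩
  choose! k k1 k2 using ex
  refine GC.Nl.back hz (Twr.R.smul hc) k (fun x y y' z a b e f => ?_)
    (fun q r => T.Bk d (q.y, q.t) (r.y, r.t)) k2 (fun x r g y a b => ?_) h
  · exact kop_ext (T.un (T.trans (Twr.pth_le a) (k1 y z e)) (T.trans (Twr.pth_le b) (k1 y' z f))
      (k2 y z e) (k2 y' z f))
  · have e := b.smul hc g⁻¹
    rw [inv_smul_smul] at e
    obtain ⟨-, e2, e3⟩ := T.bk (k2 _ _ e)
    obtain ⟨a1, a2, a3⟩ := T.bk a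
    have e4 : T.Le ((g • g⁻¹ • x).y, (g • g⁻¹ • x).t) _ := T.sLe g _ (hc g) (k1 _ _ e)
    rw [smul_inv_smul] at e4
    refine ⟨T.trans a1 e4, ?_, a3, T.sBx g _ (hc g) e3⟩
    exact show ω g + _ = _ by rw [show (k _ y).t = y.t from e2, show r.t = x.t from a2]; exact b.2.1

end Step

variable {Γ : Type w} [Group Γ] {Y : Type w'} [Preorder Y] [MulAction Γ Y] {κ : Type}
variable {C : Type u} [Category.{v} C] [Preadditive C]
variable [HasBinaryBiproducts C] [HasZeroObject C] {σ : Act Γ C}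

section Line

variable (P : Op Γ Y κ) (hs : Sw σ) (hL : Lcd Y σ) (hY : ∀ y : Y, LocHyper (stabilizer Γ y))
include P hs hL hY

theorem kop_flat (hχ : ∀ g c, P.χ c g = 0) : K1Zero (TwZ σ) := by
  refine K1_of_W' hs.k0 (Subgroup.subtype_injective ⊥) (hs.av (⊥ : Subgroup Γ) 1 inferInstance _) ?_
  obtain ⟨L, hL⟩ := hL.lo
  obtain ⟨l, hl⟩ := P.flat
  have a {x y} {g : Γ} (k : x ≤ g • y) : l x ≤ l y := (hl g x y (hχ g) k).1
  have b {A B} (f : A ⟶ B) : ∃ f0, (L A).Rg (L B) (fun x g y => x = g.1 • y) f0 ∧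
      (L A).Rg (L B) (fun x _ y => l x = l y) f0 ∧
      (L A).Rg (L B) (fun x _ y => l x < l y) (f - f0) := by
    obtain ⟨f0, p, q⟩ := (hL A B f).split fun x _ y => l x = l y
    exact ⟨f0, p.mono fun x g y k => (hl g.1 x y (hχ _) k.1).2 k.2, p.mono fun _ _ _ k => k.2,
      q.mono fun _ _ _ k => (a k.1).lt_of_ne k.2⟩
  have c {A B} {u : A ⟶ B} {v : B ⟶ A} (h : u ≫ v = 𝟙 A) {u0 v0} :=
    GC.diag_inv (L := L A) (M := L B) (u0 := u0) (v0 := v0) l h ((hL _ _ v).mono fun _ _ _ => a)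
  rintro A B u ⟨-, v, -, e1, e2⟩
  obtain ⟨u0, p1, p2, p3⟩ := b u
  obtain ⟨v0, q1, q2, q3⟩ := b v
  let _ : MulAction (Γ × Zi) Y := MulAction.compHom Y (MonoidHom.fst Γ Zi)
  refine GC.tri l (c e1 p2 q2 p3 q3) (c e2 q2 p2 q3 p3) p3 (q2.mono fun _ _ _ => le_of_eq)
    (GC.tr_eq (ok hs.k0).hz (fun y => ?_) p1 q1 (c e1 p2 q2 p3 q3) (c e2 q2 p2 q3 p3))
  rw [show stabilizer (Γ × Zi) y = (stabilizer Γ y).prod ⊤ from
    Subgroup.ext fun g => ⟨fun b => ⟨b, trivial⟩, fun b => b.1⟩]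
  exact W_of_K1 hs.k0 (av_small hs.ih (hY y) _)

theorem kop_gd {ω : Ch Γ} {s : κ → ℤ} (hc : ∀ g c, P.χ c g = ω g * s c) :
    (SZ σ).Gd (SZ σ).nt {g | ω g.1 = 1} := by
  classical
  rintro A x hx ⟨m, hm⟩
  obtain ⟨L, hL⟩ := hL.lo
  obtain ⟨l, hl, hT⟩ := P.line s
  have a {g : Γ} (k : ω g = 1) (c) : P.χ c g = s c := by rw [hc, k, one_mul]
  obtain ⟨x0, p, q⟩ := ((hL A A x).and (GC.Lo.rg_sup hx)).split fun x _ y => l x = l y
  replace q := q.mono (R' := fun x _ y => l x < l y) fun x g y k =>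
    lt_of_le_of_ne (hl g.1 x y (a k.1.2) k.1.1) k.2
  have p' := p.mono (R' := fun x _ y => l x = l y) fun _ _ _ k => k.2
  have b (k : ℕ) : (L A).Rg (L A) (fun x _ y => l x = l y) (pw x0 k) ∧
      (L A).Rg (L A) (fun x _ y => l x < l y) (pw x k - pw x0 k) := by
    induction k with
    | zero => exact ⟨GC.Lo.rg_id.mono fun _ _ _ k => by rw [k.2], by simpa using GC.Lo.Rg.zero⟩
    | succ k ih =>
      refine ⟨p'.comp ih.1 fun _ _ _ _ _ => Eq.trans, ?_⟩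
      rw [show pw x (k + 1) - pw x0 (k + 1) = (x - x0) ≫ (pw x k - pw x0 k) +
        x0 ≫ (pw x k - pw x0 k) + (x - x0) ≫ pw x0 k by simp [pw_succ]; abel]
      exact ((q.comp ih.2 fun _ _ _ _ _ => lt_trans).add (p'.comp ih.2
        fun _ _ _ _ _ => Eq.trans_lt)).add (q.comp ih.1 fun _ _ _ _ _ => lt_of_lt_of_eq)
  have e : pw x0 m = 0 := ((b m).1.and (R' := fun x _ y => l x < l y)
    (by simpa [hm] using (b m).2.neg)).eq_zero fun _ _ _ k => k.2.ne k.1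
  refine GC.tri l (by rw [geom_left x0 m, e, sub_zero]) (by rw [geom_right x0 m, e, sub_zero])
    (by simpa using q.neg) (.sum _ fun k _ => (b k).1.mono fun _ _ _ => le_of_eq) ?_
  obtain ⟨T, ⟨d, n⟩, hT⟩ := hT (L A).s
  have key (d : ℕ) : (SZ σ).Nl (SZ σ).nt (.fst Γ Zi) (T.R (ω := ω) d) m fun _ => True := by
    induction d with
    | succ d ih => exact Twr.nl_succ hc (ok hs.k0).hz ih
    | zero =>
      let _ : MulAction (Γ × Zi) (Tm ω Y) := MulAction.compHom _ (MonoidHom.fst Γ Zi)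
      refine fun A L n _ h1 h2 => GC.nil_hom (ok hs.k0).hz Twr.R.uniq
        (fun g => Twr.R.smul hc g.1) (fun τ k => gd_fr hs (D := stabilizer Γ τ)
          (Cl.le (s := LH) (fun g k => congrArg Tm.y k) (hY τ.y)) ?_) h1 h2
      rw [← show stabilizer (Γ × Zi) τ = (stabilizer Γ τ).prod ⊤ from
        Subgroup.ext fun g => ⟨fun b => ⟨b, trivial⟩, fun b => b.1⟩]
      exact fr_pth Twr.R.uniq (fun g => Twr.R.smul hc g.1) τ _
  refine key d A ((L A).map fun y => ⟨y, 0⟩) x0 (GC.Lo.on_true _) (p.map (L A).on_s (L A).on_s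
    fun x g y k k' o => ?_) (by rw [pw_succ, e, comp_zero])
  have t : ω g.1 + 0 = 1 := by rw [show ω g.1 = 1 from o.1.2]; rfl
  refine ⟨?_, t, n x k, T.sBx g.1 _ (hc g.1) (n y k')⟩
  exact show T.Le (x, 0) (g.1 • y, ω g.1 + 0) from t ▸ hT g.1 x y (a o.1.2) o.1.1 o.2

theorem kop_line (ω : Ch Γ) (h : ∀ g, ω g = 0 → ∀ c, P.χ c g = 0) : K1Zero (TwZ σ) := by
  by_cases z : ∃ g, ω g ≠ 0
  swap
  · exact kop_flat P hs hL hY fun g => h g (by_contra fun k => z ⟨g, k⟩)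
  obtain ⟨ω', t, c, d⟩ := ω.norm z
  have e (g i) : P.χ i g = ω' g * P.χ i t :=
    ω'.line c (χ := ⟨P.χ i, P.mul i⟩) (fun g k => h g ((d g).1 k) i) g
  obtain ⟨Q, hQ⟩ := P.comap ω'.ker.subtype fun _ _ => rfl
  refine k1_fh hs.k0 ω' c (kop_flat Q (hs.comap _) (hL.comap _ fun _ _ => rfl)
    (fun y => Cl.map (s := LH) ω'.ker.subtype_injective.injOn ?_ (hY y))
    fun g i => (hQ i g).trans (h g ((d g).1 g.2) i)) (kop_gd P hs hL hY e)
    (kop_gd P hs hL hY (s := fun i => -P.χ i t) fun g i => by rw [e g i]; simp [Ch.neg])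
  rintro _ ⟨g, k, rfl⟩
  exact k

end Line

section Eng

variable {C : Type u} [Category.{v} C] [Preadditive C] {G : Type w} [Group G]

/-- Vanishing over an order with towers and small point stabilisers. -/
theorem k1_op [HasBinaryBiproducts C] [HasZeroObject C] {σ : Act G C} {Y : Type w'} [Preorder Y]
    [MulAction G Y] {κ : Type} [Fintype κ] (P : Op G Y κ) (hs : Sw σ) (hL : Lcd Y σ)
    (hY : ∀ y : Y, LocHyper (stabilizer G y)) : K1Zero (TwZ σ) :=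
  k1_fib hs.k0 Finset.univ G σ (fun c => ⟨P.χ c, P.mul c⟩) (fun _ k i => k i (Finset.mem_univ i))
    fun H _ j a ω b => by
    let _ : MulAction H Y := MulAction.compHom Y j
    obtain ⟨Q, hQ⟩ := P.comap j fun _ _ => rfl
    refine kop_line Q (hs.comap j) (hL.comap j fun _ _ => rfl)
      (fun y => Cl.map (s := LH) a.injOn ?_ (hY y)) ω fun g k c => (hQ c g).trans (b g k c)
    rintro _ ⟨g, k, rfl⟩
    exact k

end Eng

end Pool.Agent.Lib.MP_5d3e93_al.Bg
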