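import Pool.Agent.Lib.MP_5d3e93_al.LC
import Pool.Agent.Lib.MP_5d3e93_al.Bg.Defs

/-! Control relations as used in located categories. -/

namespace Pool.Agent.Lib.MP_5d3e93_al.Bg

universe w w'

/-- Control relations of the degree one kit. -/
def Nv.nr {G : Type w} {Y : Type w'} [Group G] [MulAction G Y] (ν : Nv G Y) : Nr G Y :=
  ⟨ν.n, ν.mono, ν.refl, ν.trans, ν.smul⟩

end Pool.Agent.Lib.MP_5d3e93_al.Bg
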