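import Pool.Agent.Lib.MP_5d3e93_al.PrB
import Pool.Agent.Lib.MP_5d3e93_al.Bg.Nr

/-! Transport of controlled triviality along functors, filtrations and lifts. -/

open CategoryTheory Limits

namespace Pool.Agent.Lib.MP_5d3e93_al.Bg

universe w w' w'' v u

open GC GC.CF GC.Lo

variable {C : Type u} [Category.{v} C] [Preadditive C] {G : Type w} [Group G]

theorem tq_fun {Γ : Type*} [Group Γ] {D : Type*} [Category D] [Preadditive D] {S' : GC Γ D}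
    {S : GC G C} {Φ' : S'.CF} {Φ : S.CF} (F : D ⥤ C) [F.Additive] (p : Γ →* G)
    (hs : ∀ (g : Γ) {A B : D} (f : A ⟶ B), S'.Sup {g} f → S.Sup {p g} (F.map f))
    (hc : ∀ (r : ℕ) {A B : D} (f : A ⟶ B), Φ'.Ct r f → Φ.Ct r (F.map f)) {r : ℕ} {A B : D}
    {f : A ⟶ B} (h : Φ'.Tq r f) : Φ.Tq r (F.map f) := by
  have h1 {A B : D} {f : A ⟶ B} (k : S'.Sup {1} f) : S.Sup {1} (F.map f) := by
    simpa using hs 1 f k
  have hi {r : ℕ} {g : Γ} {A B : D} {f : A ⟶ B} (h : Φ'.HI r g f) : Φ.HI r (p g) (F.map f) := by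
    obtain ⟨a, b, f', c, d, e, e'⟩ := h
    exact ⟨hs _ _ a, hc _ _ b, F.map f', by simpa using hs _ _ c, hc _ _ d,
      by rw [← F.map_comp, e, F.map_id], by rw [← F.map_comp, e', F.map_id]⟩
  let a (A B : D) : F.obj (S'.sum A B) ⟶ S.sum (F.obj A) (F.obj B) :=
    F.map (S'.fst A B) ≫ S.inl _ _ + F.map (S'.snd A B) ≫ S.inr _ _
  let b (A B : D) : S.sum (F.obj A) (F.obj B) ⟶ F.obj (S'.sum A B) :=
    S.fst _ _ ≫ F.map (S'.inl A B) + S.snd _ _ ≫ F.map (S'.inr A B)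
  have ab (A B : D) : a A B ≫ b A B = 𝟙 _ := by
    have := congrArg F.map (S'.total A B)
    rw [F.map_add, F.map_comp, F.map_comp, F.map_id] at this
    simpa [a, b] using this
  have ba (A B : D) : b A B ≫ a A B = 𝟙 _ := by
    simp [a, b, ← F.map_comp_assoc, S.total]
  have s1 (A B : D) : S.Sup {1} (a A B) := ((h1 fst1).mul1 inl1).add ((h1 snd1).mul1 inr1)
  have s2 (A B : D) : S.Sup {1} (b A B) := (fst1.mul1 (h1 inl1)).add (snd1.mul1 (h1 inr1))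
  have c1 (A B : D) : Φ.Ct 0 (a A B) :=
    Φ.add (Φ.c0 (hc _ _ Φ'.fst) Φ.inl) (Φ.c0 (hc _ _ Φ'.snd) Φ.inr)
  have c2 (A B : D) : Φ.Ct 0 (b A B) :=
    Φ.add (Φ.c0 Φ.fst (hc _ _ Φ'.inl)) (Φ.c0 Φ.snd (hc _ _ Φ'.inr))
  have ha (A B : D) : Φ.HI 0 1 (a A B) :=
    hi_mk (s1 _ _) (s2 _ _) (c1 _ _) (c2 _ _) (ab _ _) (ba _ _)
  have hb (A B : D) : Φ.HI 0 1 (b A B) :=
    hi_mk (s2 _ _) (s1 _ _) (c2 _ _) (c1 _ _) (ba _ _) (ab _ _)
  have e {A B A' B' : D} (x : A ⟶ A') (y : A ⟶ B') (z : B ⟶ B') : F.map (S'.blk x y 0 z) =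
      a A B ≫ S.blk (F.map x) (F.map y) 0 (F.map z) ≫ b A' B' := by
    simp [a, b, GC.blk, add_assoc]
  have key {r : ℕ} {A B : D} {f : A ⟶ B} (h : Φ'.Tq0 r f) : Φ.Tq0 r (F.map f) := by
    induction h with
    | one h => exact .one (by simpa using hi h)
    | hom E h =>
      rw [e, F.map_zero, F.map_id]
      exact .c0' (ha ..) ((Tq0.hom _ (hi h)).c0 (hb ..))
    | upper h =>
      rw [e, F.map_id, F.map_id]
      exact .c0' (ha ..) ((Tq0.upper (hc _ _ h)).c0 (hb ..))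
    | comp _ _ h1 h2 => exact F.map_comp .. ▸ h1.comp h2
  obtain ⟨E, h⟩ := h
  refine ⟨F.obj E, ?_⟩
  have := (Tq0.c0' (hb ..) (key h)).c0 (ha ..)
  rw [e, F.map_zero, F.map_id] at this
  simpa [reassoc_of% ba, ba] using this

/-- No control. -/
def cfT (S : GC G C) : S.CF := ⟨fun _ _ _ _ => True, fun _ _ => trivial, trivial,
  fun _ _ => trivial, fun _ => trivial, fun _ _ => trivial, trivial, trivial, trivial, trivial,
  trivial, fun _ _ => trivial⟩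

theorem tq_of_tr {S : GC G C} {A B : C} {f : A ⟶ B} (h : S.Tr ⊤ f) : (cfT S).Tq 0 f := by
  have hi {g : G} {A B : C} {f : A ⟶ B} (h : S.HIso g f) : (cfT S).HI 0 g f :=
    ⟨h.1, trivial, h.2.imp fun _ k => ⟨k.1, trivial, k.2⟩⟩
  have key {A B : C} {f : A ⟶ B} (h : S.Tr0 ⊤ f) : (cfT S).Tq0 0 f := by
    induction h with
    | one h => exact .one (hi h)
    | hom D _ h => exact .hom D (hi h)
    | upper h => exact .upper trivial
    | comp _ _ h1 h2 => exact h1.comp h2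
  exact h.imp fun _ => key

theorem tq_map {S : GC G C} {X Y : Type*} [MulAction G X] [MulAction G Y] {Ω : X → Prop}
    {Ω' : Y → Prop} {ν : Nr G X} {ν' : Nr G Y} (φ : X → Y) (k : ∀ x, Ω x → Ω' (φ x))
    (k' : ∀ r x (g : G) y, Ω x → Ω y → ν.n r x (g • y) → ν'.n r (φ x) (g • φ y)) {r : ℕ}
    {P Q : S.LO X Ω} {f : P ⟶ Q} (h : (S.lc Ω ν).Tq r f) :
    (S.lc Ω' ν').Tq r (A := P.mv φ P.on k) (B := Q.mv φ Q.on k) f := by
  let F : S.LO X Ω ⥤ S.LO Y Ω' := ⟨fun P => P.mv φ P.on k, fun f => f, fun _ => rfl,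
    fun _ _ => rfl⟩
  have : F.Additive := ⟨rfl⟩
  exact tq_fun (S' := S.lg X Ω) (S := S.lg Y Ω') F (.id G) (fun _ _ _ _ a => a)
    (fun r A B f a => Rg.map a A.on B.on (k' r)) h

theorem ci_tri {S : GC G C} {Φ : S.CF} {A B A' B' : C} {u : S.sum A B ⟶ S.sum A' B'}
    (h : Φ.CI 0 u) (z2 : ∀ f : B ⟶ A', Φ.Ct 0 f → f = 0) (z4 : ∀ f : B' ⟶ A, Φ.Ct 0 f → f = 0)
    (h1 : ∀ a : A ⟶ A', Φ.CI 0 a → Φ.Tq 0 a) (h2 : ∀ a : B ⟶ B', Φ.CI 0 a → Φ.Tq 0 a) :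
    Φ.Tq 0 u := by
  obtain ⟨h1', v, h2', h3, h4⟩ := h
  have e1 : u = S.blk (S.inl _ _ ≫ u ≫ S.fst _ _) (S.inl _ _ ≫ u ≫ S.snd _ _) 0
      (S.inr _ _ ≫ u ≫ S.snd _ _) := by
    apply S.hom_ext <;> apply S.hom_ext' <;> simp [z2 _ (Φ.c0' Φ.inr (Φ.c0 h1' Φ.fst))]
  have e2 : v = S.blk (S.inl _ _ ≫ v ≫ S.fst _ _) (S.inl _ _ ≫ v ≫ S.snd _ _) 0
      (S.inr _ _ ≫ v ≫ S.snd _ _) := by
    apply S.hom_ext <;> apply S.hom_ext' <;> simp [z4 _ (Φ.c0' Φ.inr (Φ.c0 h2' Φ.fst))]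
  have c1 := Φ.c0' Φ.inl (Φ.c0 h1' Φ.fst)
  have c2 := Φ.c0' Φ.inr (Φ.c0 h1' Φ.snd)
  have c3 := Φ.c0' Φ.inl (Φ.c0 h2' Φ.fst)
  have c4 := Φ.c0' Φ.inr (Φ.c0 h2' Φ.snd)
  have c5 := Φ.c0' Φ.inl (Φ.c0 h1' Φ.snd)
  generalize S.inl _ _ ≫ u ≫ S.fst _ _ = a, S.inr _ _ ≫ u ≫ S.snd _ _ = d,
    S.inl _ _ ≫ u ≫ S.snd _ _ = b at e1 c1 c2 c5
  generalize S.inl _ _ ≫ v ≫ S.fst _ _ = a', S.inr _ _ ≫ v ≫ S.snd _ _ = d',
    S.inl _ _ ≫ v ≫ S.snd _ _ = b' at e2 c3 c4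
  subst e1 e2
  have f1 : a ≫ a' = 𝟙 _ := by simpa using congrArg (S.inl _ _ ≫ · ≫ S.fst _ _) h3
  have : S.blk a b 0 d = S.blk a 0 0 d ≫ S.blk (𝟙 _) (a' ≫ b) 0 (𝟙 _) := by
    simp [reassoc_of% f1]
  rw [this]
  exact ((h1 a ⟨c1, a', c3, f1, by simpa using congrArg (S.inl _ _ ≫ · ≫ S.fst _ _) h4⟩).bd
    (h2 d ⟨c2, d', c4, by simpa using congrArg (S.inr _ _ ≫ · ≫ S.snd _ _) h3,
      by simpa using congrArg (S.inr _ _ ≫ · ≫ S.snd _ _) h4⟩)).comp (Tq.upper (Φ.c0 c3 c5))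

theorem tq_empty {S : GC G C} {X : Type*} [MulAction G X] {Ω : X → Prop} {ν : Nr G X} {r : ℕ}
    {P Q : S.LO X Ω} {u : P ⟶ Q} (hP : P.L.On fun _ => False) (hQ : Q.L.On fun _ => False)
    (h : (S.lc Ω ν).CI r u) : (S.lc Ω ν).Tq r u := by
  obtain ⟨c1, v, c2, c3⟩ := h
  exact .hom (hi_mk ((Rg.on c1 hP hQ fun _ _ _ a _ _ => a).sup fun _ _ _ a => a.elim)
    ((Rg.on c2 hQ hP fun _ _ _ a _ _ => a).sup fun _ _ _ a => a.elim) c1 c2 c3.1 c3.2)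

theorem tq_filt {S : GC G C} (hz : ∃ Z : C, 𝟙 Z = 0) {X J : Type*} [MulAction G X] {Ω : X → Prop}
    {ν : Nr G X} (φ : X → J) (l : J → ℤ)
    (h1 : ∀ x (g : G) y, ν.n 0 x (g • y) → φ x = φ y ∨ l (φ y) < l (φ x))
    (h2 : ∀ (j : J) (P Q : S.LO X Ω) (u : P ⟶ Q), P.L.On (φ · = j) → Q.L.On (φ · = j) →
      (S.lc Ω ν).CI 0 u → (S.lc Ω ν).Tq 0 u) {P Q : S.LO X Ω} {u : P ⟶ Q}
    (h : (S.lc Ω ν).CI 0 u) : (S.lc Ω ν).Tq 0 u := by
  classical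
  suffices ∀ t : Finset J, ∀ {P Q : S.LO X Ω} {u : P ⟶ Q}, (S.lc Ω ν).CI 0 u →
      P.L.On (φ · ∈ t) → Q.L.On (φ · ∈ t) → (S.lc Ω ν).Tq 0 u from
    this ((P.L.s ∪ Q.L.s).image φ) h
      (P.L.on_s.mono fun x k => Finset.mem_image_of_mem _ (Finset.mem_union_left _ k))
      (Q.L.on_s.mono fun x k => Finset.mem_image_of_mem _ (Finset.mem_union_right _ k))
  intro t
  induction t using Finset.induction_on_max_value l with
  | empty => exact fun h a b => tq_empty (a.mono (by simp)) (b.mono (by simp)) h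
  | insert a t _ m ih =>
    intro P Q u h hP hQ
    obtain ⟨P1, P2, σ, a1, a2, a3, a4⟩ := lo_split (ν := ν) hz P (φ · = a)
    obtain ⟨Q1, Q2, τ, b1, b2, b3, b4⟩ := lo_split (ν := ν) hz Q (φ · = a)
    have a5 : P2.L.On (φ · ∈ t) := ((a4 _ hP).2.and a3).mono fun x k => by simpa [k.2] using k.1
    have b5 : Q2.L.On (φ · ∈ t) := ((b4 _ hQ).2.and b3).mono fun x k => by simpa [k.2] using k.1
    have z (x : X) (g : G) (y : X) (p : φ x ∈ t ∧ ¬ φ x = a) (q : φ y = a) : ¬ ν.n 0 x (g • y) :=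
      fun k => (h1 x g y k).elim (fun e => p.2 (e.trans q)) fun e => (m _ p.1).not_gt (q ▸ e)
    exact Tq.of_conj h (.hom a1) (.hom b1) (s := 0) (t := 0) fun w hw => ci_tri hw
      (fun f k => ct_zero k (a5.and a3) b2 z) (fun f k => ct_zero k (b5.and b3) a2 z)
      (fun f => h2 a _ _ f a2 b2) fun f k => ih k a5 b5

section Lift

open Tw

variable [HasBinaryBiproducts C] {Z : Type w'}

/-- Located summands in the twisted category. -/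
noncomputable def lo (σ : Act G C) {A : C} (d : Ld Z A) : (SZ σ).Lo Z ⟨A⟩ where
  e x := emb (d.e x)
  s := d.fin.choose
  out x k := by rw [d.fin.choose_spec.1 x k, emb_zero]
  spl x := by
    obtain ⟨B, i, r, a, b⟩ := d.spl x
    exact .inr ⟨⟨B⟩, emb i, emb r, .of_cp (cpt_sg ..) rfl, .of_cp (cpt_sg ..) rfl,
      by rw [emb_comp, a, emb_id], by rw [emb_comp, b]⟩
  orth x y k := by rw [emb_comp, d.orth x y k, emb_zero]
  total := (map_sum (AddMonoidHom.mk' (emb (A := ⟨A⟩) (B := ⟨A⟩)) emb_add) ..).symm.trans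
    ((congrArg emb d.fin.choose_spec.2).trans (emb_id _))

omit [HasBinaryBiproducts C] in
theorem emb_inj {ρ : Act G C} {A B : Tw ρ} {f g : A.as ⟶ B.as} (h : emb f = emb g) : f = g := by
  have := congrArg (co 1) h
  rw [emb, emb, co_sg, co_sg] at this
  exact (cancel_mono _).1 this

theorem ex_emb {ρ : Act G C} {A B : Tw ρ} {f : A ⟶ B} (h : (twGC ρ).Sup {1} f) :
    ∃ a, emb a = f :=
  ⟨co 1 f ≫ eqToHom (Functor.congr_obj ρ.one B.as), by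
    rw [emb, Category.assoc, eqToHom_trans, eqToHom_refl, Category.comp_id]
    exact h.cp_eq⟩

theorem ex_ld [HasZeroObject C] {σ : Act G C} {A : TwZ σ} (L : (SZ σ).Lo Z A) :
    ∃ d : Ld Z A.as, ∀ x, (lo σ d).e x = L.e x := by
  choose e he using fun x => ex_emb (L.spl x).deg
  refine ⟨⟨e, ⟨L.s, fun x k => emb_inj (by rw [he, L.out x k, emb_zero]), emb_inj ?_⟩, fun x => ?_,
    fun x y k => emb_inj (by rw [← emb_comp, he, he, L.orth x y k, emb_zero])⟩, he⟩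
  · refine (map_sum (AddMonoidHom.mk' (emb (A := A) (B := A)) emb_add) ..).trans ?_
    rw [emb_id, ← L.total]
    exact Finset.sum_congr rfl fun x _ => he x
  · obtain ⟨O, k⟩ := HasZeroObject.zero (C := C)
    obtain ⟨B, i, r, a, b, c, d⟩ := (L.spl x).split ⟨⟨O⟩, by
      rw [← emb_id, k.eq_of_src (𝟙 _) 0, emb_zero]⟩
    obtain ⟨i, rfl⟩ := ex_emb a
    obtain ⟨r, rfl⟩ := ex_emb b
    exact ⟨B.as, i, r, emb_inj (by rw [← emb_comp, c, emb_id]), emb_inj (by rw [← emb_comp, d, he])⟩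

variable [Preorder Z] [MulAction G Z] {σ : Act G C}
variable {hm : ∀ (g : G) (x y : Z), x ≤ y → g • x ≤ g • y} {A B : TwZ (Lc.act σ hm)}

omit [Preorder Z] [MulAction G Z] in
theorem lo_sg {A B : C} (d : Ld Z A) (d' : Ld Z B) (g : G × Zi) (a : A ⟶ (σ.F g.1).obj B) (x y) :
    (lo σ d).e x ≫ Tw.sg (ρ := σ.comap (.fst G Zi)) (A := ⟨A⟩) (B := ⟨B⟩) g a ≫ (lo σ d').e y =
      Tw.sg (ρ := σ.comap (.fst G Zi)) (A := ⟨A⟩) (B := ⟨B⟩) g
        (d.e x ≫ a ≫ (σ.F g.1).map (d'.e y)) :=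
  (congrArg _ (sg_emb ..)).trans (emb_sg ..)

theorem rg_fgt (f : A ⟶ B) : (lo σ A.as.d).Rg (lo σ B.as.d) (fun x g y => x ≤ g.1 • y)
    ((fgt σ hm (.fst G Zi)).map f) := by
  induction f using ind' with
  | h0 => exact Functor.map_zero (fgt σ hm (.fst G Zi)) A B ▸ Rg.zero
  | h1 a b c d => exact (fgt σ hm (.fst G Zi)).map_add ▸ c.add d
  | h2 g a =>
    intro x y
    refine ((congrArg (fun k => _ ≫ k ≫ _) (fgm_sg g a)).trans (lo_sg _ _ g a.1 x y)).symm ▸ ?_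
    by_cases k : x ≤ g.1 • y
    · exact .of_cp (cpt_sg ..) k
    · have : A.as.d.e x ≫ a.1 ≫ (σ.F g.1).map (B.as.d.e (g.1⁻¹ • g.1 • y)) = 0 := a.2 x _ k
      rw [inv_smul_smul] at this
      exact ((congrArg (Tw.sg (ρ := σ.comap (.fst G Zi)) (A := ⟨A.as.A⟩) (B := ⟨B.as.A⟩) g)
        this).trans (sg_zero g)).symm ▸ GC.Sup.zero

theorem fgt_full {f : (⟨A.as.A⟩ : TwZ σ) ⟶ ⟨B.as.A⟩}
    (h : (lo σ A.as.d).Rg (lo σ B.as.d) (fun x g y => x ≤ g.1 • y) f) :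
    ∃ f' : A ⟶ B, (fgt σ hm (.fst G Zi)).map f' = f := by
  refine ((SZ σ).sup_top f).induction
    (P := fun k => ∃ f' : A ⟶ B, (fgt σ hm (.fst G Zi)).map f' = k) ⟨0, Functor.map_zero ..⟩ ?_
      fun g _ => ⟨Tw.sg g ⟨co g f, fun x y k => ?_⟩, fgm_sg ..⟩
  · rintro _ _ ⟨a, rfl⟩ ⟨b, rfl⟩
    exact ⟨a + b, Functor.map_add _⟩
  · have a := h.cp g x (g.1⁻¹ • y) g (by simpa using k)
    have b := lo_sg (σ := σ) A.as.d B.as.d g (co g f) x (g.1⁻¹ • y)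
    have c := (cpt_sg g _).symm.trans ((congrArg (cpt g) b).symm.trans a)
    exact (co_sg g _).symm.trans ((congrArg (co g) c).trans (map_zero _))

end Lift

section Push

open Tw

variable [HasBinaryBiproducts C] {ρ : Act G C} {Γ : Type w'} [Group Γ] {j : Γ →* G} {Z : Type w''}
variable {X Y : Tw (ρ.comap j)} {L : (twGC (ρ.comap j)).Lo Z X} {M : (twGC (ρ.comap j)).Lo Z Y}
variable {L' : (twGC ρ).Lo Z (up j X)} {M' : (twGC ρ).Lo Z (up j Y)} {R : Z → Γ → Z → Prop}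
variable (hL : ∀ x, push j (L.e x) = L'.e x) (hM : ∀ x, push j (M.e x) = M'.e x)
include hL hM

theorem push_e (f : X ⟶ Y) (x y : Z) :
    push j (L.e x ≫ f ≫ M.e y) = L'.e x ≫ push j f ≫ M'.e y := by
  rw [push_comp, push_comp, hL, hM]

theorem push_rg {f : X ⟶ Y} (h : L.Rg M R f) :
    L'.Rg M' (fun x g y => ∃ γ, R x γ y ∧ j γ = g) (push j f) := fun x y =>
  push_e hL hM f x y ▸ sup_push' (h x y)

theorem push_rg_zero {f : X ⟶ Y} (h : L.Rg M R f) (k : ∀ x y, Set.InjOn j {γ | R x γ y})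
    (e : push j f = 0) : f = 0 := by
  refine Rg.eq_zero (L := L) (M := M) (R := fun _ _ _ => False) (fun x y => ?_) fun _ _ _ => id
  rw [push_zero (k x y) (h x y) ((push_e hL hM f x y).trans (by rw [e, zero_comp, comp_zero]; rfl))]
  exact .zero

theorem push_rg_lift {f : up j X ⟶ up j Y}
    (h : L'.Rg M' (fun x g y => ∃ γ, R x γ y ∧ j γ = g) f) : ∃ f', L.Rg M R f' ∧ push j f' = f := by
  choose t t1 t2 using fun x y => push_lift (X := X) (Y := Y) (Ω := {γ | R x γ y}) _ (h x y)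
  refine ⟨∑ x ∈ L'.s, ∑ y ∈ M'.s, L.e x ≫ t x y ≫ M.e y,
    Rg.sum _ fun x _ => Rg.sum _ fun y _ x' y' => ?_, ?_⟩
  · by_cases b : x' = x
    · by_cases c : y = y'
      · subst b c
        simp only [Category.assoc]
        exact Sup.one_comp (L.spl _).deg.cp_eq (Sup.one_comp (L.spl _).deg.cp_eq
          (Sup.comp_one (t1 x' y) ((M.spl _).deg.mul1 (M.spl _).deg).cp_eq))
      · simp only [Category.assoc, M.orth y y' c, comp_zero]
        exact .zero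
    · simp only [Category.assoc, reassoc_of% L.orth x' x b, zero_comp]
      exact .zero
  · have e (x y) : push j (L.e x ≫ t x y ≫ M.e y) = L'.e x ≫ f ≫ M'.e y := by
      rw [push_e hL hM, show push j (t x y) = _ from t2 x y]
      simp [reassoc_of% L'.idem x, M'.idem y]
    simp only [map_sum, e]
    simp only [← Preadditive.comp_sum, M'.total, Category.comp_id,
      ← Preadditive.sum_comp, L'.total, Category.id_comp]

end Push

theorem tq_lift [HasBinaryBiproducts C] [HasZeroObject C] {σ : Act G C} (hs : Sw σ)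
    {Γ : Type w} [Group Γ] (j : Γ →* G) {Z : Type w'} [Preorder Z] [MulAction Γ Z] [Nonempty Z]
    (hm : ∀ (g : Γ) (x y : Z), x ≤ y → g • x ≤ g • y) (hK : K1Zero (TwZ (Lc.act (σ.comap j) hm)))
    {Y : Type w''} [MulAction (G × Zi) Y] {ν : Nr (G × Zi) Y} (φ : Z → Y) (ψ : Y → Z)
    (h1 : ∀ x (γ : Γ) (z : Zi) y, x ≤ γ • y → ν.n 0 (φ x) ((j γ, z) • φ y))
    (h2 : ∀ x (g : G × Zi) y, ν.n 0 (φ x) (g • φ y) → ∃ γ, j γ = g.1 ∧ x ≤ γ • y)
    (h3 : ∀ (x : Z) (γ γ' : Γ) (y : Z), x ≤ γ • y → x ≤ γ' • y → j γ = j γ' → γ = γ')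
    {α : Y → Prop} (h4 : ∀ y, α y → ν.n 0 y (φ (ψ y)) ∧ ν.n 0 (φ (ψ y)) y)
    {P Q : (SZ σ).LO Y fun _ => True} {u : P ⟶ Q} (hP : P.L.On α) (hQ : Q.L.On α)
    (h : ((SZ σ).lc _ ν).CI 0 u) : ((SZ σ).lc _ ν).Tq 0 u := by
  let p : Γ × Zi →* G × Zi := j.prodMap (.id Zi)
  let F0 : TwZ (Lc.act (σ.comap j) hm) ⥤ Tw ((σ.comap (.fst G Zi)).comap p) :=
    fgt (σ.comap j) hm (.fst Γ Zi)
  have : F0.Additive := ⟨map_add fgm _ _⟩
  let F : TwZ (Lc.act (σ.comap j) hm) ⥤ (SZ σ).LO Y fun _ => True :=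
    ⟨fun A => ⟨⟨A.as.A⟩, (lo σ A.as.d).map φ, on_true _⟩, fun f => Tw.push p (F0.map f),
      fun A => (F0 ⋙ Tw.pushF p).map_id A, (F0 ⋙ Tw.pushF p).map_comp⟩
  have : F.Additive := ⟨(F0 ⋙ Tw.pushF p).map_add⟩
  let L (A : TwZ (Lc.act (σ.comap j) hm)) : (twGC _).Lo Z (F0.obj A) := lo (σ.comap j) A.as.d
  let L' (A : TwZ (Lc.act (σ.comap j) hm)) : (twGC _).Lo Z (Tw.up p (F0.obj A)) := lo σ A.as.d
  have e (A x) : Tw.push p ((L A).e x) = (L' A).e x := push_emb _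
  have rg {A B} (f : A ⟶ B) : (L A).Rg (L B) (fun x g y => x ≤ g.1 • y) (F0.map f) := rg_fgt f
  have ct {A B} (f : A ⟶ B) : ((SZ σ).lc _ ν).Ct 0 (F.map f) :=
    Rg.map (push_rg (e A) (e B) (rg f)) (on_true _) (on_true _) (by
      rintro x _ y - - ⟨γ, k, rfl⟩
      exact h1 x γ.1 γ.2 y k)
  have zr {A B} (f : A ⟶ B) (k : F.map f = 0) : f = 0 :=
    fgt_zero (push_rg_zero (e A) (e B) (rg f) (fun x y a b c d l =>
      Prod.ext (h3 x _ _ y b d (Prod.ext_iff.1 l).1) (Prod.ext_iff.1 l).2) k)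
  have fl {A B} (f : F.obj A ⟶ F.obj B)
      (k : (L' A).Rg (L' B) (fun x g y => ν.n 0 (φ x) (g • φ y)) f) : ∃ f', F.map f' = f := by
    obtain ⟨f0, a, b⟩ := push_rg_lift (R := fun x g y => x ≤ g.1 • y) (e A) (e B)
      (k.mono fun x g y a => by
        obtain ⟨γ, b, c⟩ := h2 x g y a
        exact ⟨(γ, g.2), c, Prod.ext b rfl⟩)
    obtain ⟨f', c⟩ := fgt_full (A := A) (B := B) a
    exact ⟨f', (congrArg (Tw.push p) c).trans b⟩
  obtain ⟨d, hd⟩ := ex_ld (P.L.map ψ)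
  obtain ⟨d', hd'⟩ := ex_ld (Q.L.map ψ)
  let A : TwZ (Lc.act (σ.comap j) hm) := ⟨⟨P.A.as, d⟩⟩
  let B : TwZ (Lc.act (σ.comap j) hm) := ⟨⟨Q.A.as, d'⟩⟩
  have m {P Q : (SZ σ).LO Y fun _ => True} (hP : P.L.On α) (hQ : Q.L.On α) {d : Ld Z P.A.as}
      {d' : Ld Z Q.A.as} (hd : ∀ x, (lo σ d).e x = (P.L.map ψ).e x)
      (hd' : ∀ x, (lo σ d').e x = (Q.L.map ψ).e x) {f : P ⟶ Q} (k : ((SZ σ).lc _ ν).Ct 0 f) :
      (lo σ d).Rg (lo σ d') (fun x g y => ν.n 0 (φ x) (g • φ y)) f := fun x y => by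
    have := Rg.map (φ := ψ) (ψ := ψ) (R' := fun x g y => ν.n 0 (φ x) (g • φ y)) k hP hQ
      (fun x g y a b c => ν.trans (ν.trans (h4 x a).2 c) (ν.smul g (h4 y b).1)) x y
    rwa [← hd, ← hd'] at this
  have i {P : (SZ σ).LO Y fun _ => True} (hP : P.L.On α) {d : Ld Z P.A.as}
      (hd : ∀ x, (lo σ d).e x = (P.L.map ψ).e x) : ((SZ σ).lc _ ν).HI 0 1 (A := P)
        (B := ⟨P.A, (lo σ d).map φ, on_true _⟩) (𝟙 P.A) ∧ ((SZ σ).lc _ ν).HI 0 1 (B := P)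
        (A := ⟨P.A, (lo σ d).map φ, on_true _⟩) (𝟙 P.A) := by
    have a : P.L.Rg (lo σ d) (fun x g y => ν.n 0 x (g • φ y)) (𝟙 P.A) := fun x y => by
      have := ((rg_id (L := P.L)).on (R' := fun x g y => ν.n 0 x (g • φ (ψ y))) hP hP
        fun x g y a _ c => by rw [c.1, ← c.2, one_smul]; exact (h4 x a).1).mapr (φ := ψ)
          (R' := fun x g y => ν.n 0 x (g • φ y)) (fun _ _ _ => id) x y
      rwa [← hd] at this
    have b : (lo σ d).Rg P.L (fun x g y => ν.n 0 (φ x) (g • y)) (𝟙 P.A) := fun x y => by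
      have := ((rg_id (L := P.L)).on (R' := fun x g y => ν.n 0 (φ (ψ x)) (g • y)) hP hP
        fun x g y a _ c => by rw [c.1, ← c.2, one_smul]; exact (h4 x a).2).mapl (φ := ψ)
          (R' := fun x g y => ν.n 0 (φ x) (g • y)) (fun _ _ _ => id) x y
      rwa [← hd] at this
    have c := Category.id_comp (𝟙 P.A)
    have o := id1 (S := SZ σ) (A := P.A)
    exact ⟨hi_mk o o (a.mapr fun _ _ _ => id) (b.mapl fun _ _ _ => id) c c,
      hi_mk o o (b.mapl fun _ _ _ => id) (a.mapr fun _ _ _ => id) c c⟩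
  obtain ⟨c1, v, c2, c3, c4⟩ := h
  obtain ⟨u', a⟩ := fl (A := A) (B := B) u (m hP hQ hd hd' c1)
  obtain ⟨v', b⟩ := fl (A := B) (B := A) v (m hQ hP hd' hd c2)
  have hs' := (hs.comap j).act hm
  have hW := W_of_inj (ρ := Lc.act (σ.comap j) hm) hs'.k0 (j := .id Γ) Function.injective_id hK
  rw [MonoidHom.range_eq_top.2 Function.surjective_id, Subgroup.top_prod_top] at hW
  have q {A B} {x : A ⟶ B} {y : B ⟶ A} (k : F.map x ≫ F.map y = 𝟙 _) : x ≫ y = 𝟙 A :=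
    sub_eq_zero.1 (zr _ (by rw [F.map_sub, F.map_comp, k, F.map_id, sub_self]))
  have s (g : Γ × Zi) {A B} (f : A ⟶ B) (k : (SZ (Lc.act (σ.comap j) hm)).Sup {g} f) :
      (SZ σ).Sup {p g} (Tw.push p (F0.map f)) := by
    have : F0.map f = _ := (congrArg F0.map k.cp_eq.symm).trans (fgm_sg g (Tw.co g f))
    rw [← Set.image_singleton]
    exact sup_push' (j := p) (this ▸ .of_cp (Tw.cpt_sg ..) rfl)
  have t := tq_fun (S := (SZ σ).lg Y _) (Φ := (SZ σ).lc _ ν) F p s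
    (fun r A B f _ => CF.mono _ (ct f) (Nat.zero_le r)) (tq_of_tr (hW A B u' ⟨sup_top _ _, v',
      sup_top _ _, q (by rw [a, b]; exact c3), q (by rw [a, b]; exact c4)⟩))
  rw [a] at t
  have := (Tq.c0' (i hP hd).1 t).c0 (i hQ hd').2
  exact (congrArg _ ((Category.comp_id (_ : P.A ⟶ Q.A)).trans (Category.id_comp _))).mp this

end Pool.Agent.Lib.MP_5d3e93_al.Bg
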