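import Pool.Agent.Lib.MP_5d3e93_al.Db
import Pool.Agent.Lib.MP_5d3e93_al.Bg.Lat

/-! The lattice with shift of a finitely generated linear group. -/

open MulAction

namespace Pool.Agent.Lib.MP_5d3e93_al.Bg

universe w v u

/-- The integers as a lattice with a shift. -/
def Bl.int : Bl (ULift.{v} ℤ) where
  n := 1
  pos := one_pos
  π := ⟨⟨fun x => ⟨x.down - 1⟩, fun x => ⟨x.down + 1⟩, fun x => by simp, fun x => by simp⟩,
    fun {a b} => show a.down - 1 ≤ b.down - 1 ↔ a.down ≤ b.down by omega⟩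
  cov x := x.down
  le x := show x.down - 1 ≤ x.down by omega
  mono _ _ h := h
  mod x y := max_add_min x.down y.down
  sh _ := rfl
  arch x y := by
    suffices ∀ m : ℕ, ∀ π : ULift.{v} ℤ ≃o ULift.{v} ℤ, (∀ z, (π z).down = z.down - 1) →
        ((π ^ m) x).down = x.down - m from
      ⟨(x.down - y.down).toNat, (this _ _ fun _ => rfl).trans_le (by omega)⟩
    intro m π h
    induction m with
    | zero => simp
    | succ m ih =>
      rw [pow_succ', RelIso.mul_apply, h, ih]
      omega

theorem ex_lat {k : Type u} {K : Type v} [Field k] [Field K] [Algebra k K] {n : Type} [Fintype n]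
    [DecidableEq n] {G : Type w} [Group G] [Group.FG G] (φ : G →* GL n K) :
    ∃ (X : Type v) (_ : Lattice X) (_ : Nonempty X) (_ : MulAction G X) (B : Bl X), B.Ac G ∧
      ∀ x : X, Module.Finite k (Submodule.span k
        ((fun g => (φ g : Matrix n n K)) '' stabilizer G x)) := by
  obtain h | ⟨X, _, _, _, _, π, cov, χ, N, h0, h1, h2, h3, h4, h5, h6, h7, h8, h9⟩ :=
    Dl.exists_bld (k := k) φ
  · let _ : MulAction G (ULift.{v} ℤ) :=
      { smul _ x := x, one_smul _ := rfl, mul_smul _ _ _ := rfl }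
    exact ⟨ULift ℤ, inferInstance, inferInstance, inferInstance, Bl.int,
      ⟨fun _ _ _ a => a, fun _ _ => rfl, fun _ _ => rfl⟩, fun x =>
        Submodule.finiteDimensional_of_le (Submodule.span_mono (Set.image_subset_range ..))⟩
  · obtain ⟨X', _, _, _, B, a, b⟩ := ex_bl π cov χ N h0 h1 h2 h3 h4 h5 h6 h7 h8
    exact ⟨X', _, ‹_›, _, B, a, fun z => (b z).elim fun x c => h9 x _ c⟩

end Pool.Agent.Lib.MP_5d3e93_al.Bg
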