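import Pool.Agent.Lib.MP_5d3e93_al.PrS
import Pool.Agent.Lib.MP_5d3e93_al.Bg.LinA

/-! From lattices with a shift to linear groups. -/

open CategoryTheory MulAction

namespace Pool.Agent.Lib.MP_5d3e93_al.Bg

universe w w' v u

theorem lin_of_lat {C : Type u} [Category.{v} C] [Preadditive C] [Limits.HasBinaryBiproducts C]
    {G : Type w} [Group G] {σ : Act G C} (hs : Sw σ) {k : Type*} {K : Type w'} [Field k] [Field K]
    [Algebra k K] {n : ℕ} (φ : G →* GL (Fin n) K)
    (h : ∀ N : Subgroup G, Module.Finite k (Submodule.span k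
      ((fun g => (φ g : Matrix (Fin n) (Fin n) K)) '' N)) → LocHyper N)
    (hl : ∀ {Γ : Type w} [Group Γ] {τ : Act Γ C}, Sw τ → ∀ {X : Type w'} [Lattice X] [Nonempty X]
      (B : Bl X) [MulAction Γ X] [B.Ac Γ], (∀ x : X, LocHyper (stabilizer Γ x)) →
        K1Zero (TwZ τ)) : K1Zero (TwZ σ) := by
  refine K1_loc hs.k0 fun H a => ?_
  have := (Group.fg_iff_subgroup_fg H).2 a
  obtain ⟨X, _, _, _, B, b, c⟩ := ex_lat (k := k) (φ.comp H.subtype)
  refine hl (hs.comap _) B fun x => Cl.map (s := LH) H.subtype_injective.injOn le_rfl (h _ ?_)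
  rw [Subgroup.coe_map, Set.image_image]
  exact c x

end Pool.Agent.Lib.MP_5d3e93_al.Bg
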