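import Pool.Agent.Lib.MP_5d3e93_al.Bg.TowA

/-! Towers for orders with unique factorisation over shuffles. -/

namespace Pool.Agent.Lib.MP_5d3e93_al.Bg

universe w w' w''

open Finset Filter

variable {Γ : Type w} [Group Γ] {Y : Type w'} [Preorder Y] [MulAction Γ Y] {κ : Type}

/-- The trivial tower. -/
def twNil (χ : κ → Γ → ℤ) (s : κ → ℤ) (Y : Type w') [MulAction Γ Y] : Twr χ s Y where
  Le := Eq
  Bx _ _ := True
  Bk _ q r := r = q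
  refl _ := rfl
  trans := Eq.trans
  sLe _ _ _ _ _ e := by rw [e]
  sBx _ _ _ _ _ _ := trivial
  mono _ := trivial
  ex e _ _ _ := ⟨_, e, rfl⟩
  bk e := ⟨e, by rw [e], trivial⟩
  un a b _ _ := a.symm.trans b
  u0 a b _ _ _ _ _ := a.symm.trans b

variable [LinearOrder κ] [Fintype κ] {ℓ : κ → ℕ}

theorem TwA.mid {t : κ → ℚ} {p q r : κ × ℤ → κ × ℤ → Prop} (e : TwA t p r) (hp : Wd ℓ p)
    (hq : Wd ℓ q) (hr : Wd ℓ r) (a : Sb p q) (b : Sb q r) : TwA t p q ∧ TwA t q r :=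
  ⟨.of hp hq fun x y l u => ⟨a x y l, fun z => (e x y u).2 (b x y l z)⟩,
    .of hq hr fun x y l u => ⟨b x y l, fun z => a x y l ((e x y u).2 z)⟩⟩

/-- The tower in a direction with decreasing rates. -/
def Wp.twr (P : Wp Γ Y ℓ) {s : κ → ℤ} {t : κ → ℚ} (ht : Antitone t)
    (hs : Y → ∀ c, (s c : ℚ) = t c * ℓ c) (N : ℤ) : Twr P.χ s Y where
  Le p q := p.1 ≤ q.1 ∧ TwA t (P.bf p.1) (P.bf q.1)
  Bx d p := Sb (twT ℓ t (P.bf p.1) (p.2 + N)) (P.bf p.1) ∧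
    Sb (P.bf p.1) (twT ℓ t (P.bf p.1) (p.2 + N + d))
  Bk d q r := ((r.1 ≤ q.1 ∧ TwA t (P.bf r.1) (P.bf q.1)) ∧ r.2 = q.2 ∧
    Sb (twT ℓ t (P.bf r.1) (r.2 + N)) (P.bf r.1) ∧
      Sb (P.bf r.1) (twT ℓ t (P.bf r.1) (r.2 + N + d))) ∧
    ∀ u, Wd ℓ u → Sb u (P.bf q.1) → Sb u (twT ℓ t (P.bf q.1) (q.2 + N + d)) → Sb u (P.bf r.1)
  refl _ := ⟨le_rfl, fun _ _ _ => Iff.rfl⟩
  trans a b := ⟨a.1.trans b.1, fun x y u => (a.2 x y u).trans (b.2 x y u)⟩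
  sLe g m _ p q e := ⟨P.hm g _ _ e.1, fun x y u => by
    obtain ⟨c, x, rfl⟩ := TwS.ex (fun c => P.χ c g) x
    obtain ⟨c', y, rfl⟩ := TwS.ex (fun c => P.χ c g) y
    rw [P.smul, P.smul]
    exact e.2 _ _ u⟩
  sBx g m hg d p e := by
    have a1 : TwS (fun c => P.χ c g) (P.bf p.1) (P.bf (g • p.1)) := P.smul g p.1
    have a2 := a1.tt (t := t) (u := m) (P.wd _) (P.wd _) fun c => by
      rw [hg, Int.cast_mul, hs p.1, mul_assoc]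
    simp only [add_assoc] at e ⊢
    exact ⟨e.1.tw_s (a2 _) a1, e.2.tw_s a1 (a2 _)⟩
  mono e := ⟨e.1, e.2.tw_tr (twT_mono ht (by push_cast; omega))⟩
  ex {d p q} e e2 a b := by
    obtain ⟨u, hu, u1, u2, u3⟩ := (P.wd q.1).meet ((P.wd q.1).tw_t t (q.2 + N + d))
      ((P.wd q.1).tw_t t (q.2 + N)) b.1 (twT_mono ht (by omega))
    have a2 := a.2
    rw [e.2.tt (P.wd _) (P.wd _), show p.2 + N + (d + 1 : ℕ) = q.2 + N + d by push_cast; omega] at a2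
    have a3 := u3 _ (P.wd p.1) (P.mono e.1) a2
    obtain ⟨y, y1, y2, rfl⟩ := P.fac e.1 hu a3 u1
    obtain ⟨m1, m2⟩ := e.2.mid (P.wd _) hu (P.wd _) a3 u1
    refine ⟨(y, q.2), ⟨y1, m1⟩, ⟨⟨y2, m2⟩, rfl, ?_⟩, u3⟩
    rw [m2.tt hu (P.wd _)]
    exact ⟨u3 _ ((P.wd q.1).tw_t t _) b.1 (twT_mono ht (by omega)), u2⟩
  bk e := e.1
  un {d x r r' z} a b e e' := by
    have k : ∀ {r : Y × ℤ}, TwA t (P.bf r.1) (P.bf z.1) → r.2 = z.2 →
        Sb (P.bf r.1) (twT ℓ t (P.bf r.1) (r.2 + N + d)) →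
        Sb (P.bf r.1) (twT ℓ t (P.bf z.1) (z.2 + N + d)) := fun u v w => by
      rwa [u.tt (P.wd _) (P.wd _), v] at w
    exact Prod.ext (P.uniq a.1 e.1.1.1 b.1 e'.1.1.1 (Sb.antisymm (P.wd _) (P.wd _)
      (e'.2 _ (P.wd _) (P.mono e.1.1.1) (k e.1.1.2 e.1.2.1 e.1.2.2.2))
      (e.2 _ (P.wd _) (P.mono e'.1.1.1) (k e'.1.1.2 e'.1.2.1 e'.1.2.2.2))))
      (e.1.2.1.trans e'.1.2.1.symm)
  u0 {x r r' z} a b c d e e' f := by
    simp only [Nat.cast_zero, add_zero] at e e'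
    refine Prod.ext (P.uniq a.1 c.1 b.1 d.1 ?_) f
    rw [Sb.antisymm (P.wd _) ((P.wd _).tw_t t _) e.2 e.1,
      Sb.antisymm (P.wd _) ((P.wd _).tw_t t _) e'.2 e'.1, c.2.tt (P.wd _) (P.wd _),
      d.2.tt (P.wd _) (P.wd _), f]

theorem Wp.tw_sum (P : Wp Γ Y ℓ) (A : Finset (κ × κ)) (hA : ∀ p ∈ A, p.1 < p.2) {g : Γ} {x y : Y}
    (h : x ≤ g • y) (e : ∀ p ∈ A, ℓ p.2 * P.χ p.1 g - ℓ p.1 * P.χ p.2 g ≤ 0) :
    ∑ p ∈ A, twH ℓ (P.bf x) p.1 p.2 ≤ ∑ p ∈ A, twH ℓ (P.bf y) p.1 p.2 ∧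
      (∑ p ∈ A, twH ℓ (P.bf x) p.1 p.2 = ∑ p ∈ A, twH ℓ (P.bf y) p.1 p.2 → ∀ p ∈ A,
        ℓ p.2 * P.χ p.1 g - ℓ p.1 * P.χ p.2 g = 0 ∧
          ∀ a b, P.bf x (p.1, a) (p.2, b) ↔ P.bf (g • y) (p.1, a) (p.2, b)) := by
  have a1 : ∀ p ∈ A, _ := fun p hp => (P.mono h).tw_h (P.wd _) (P.wd _) (hA p hp)
  have a2 := TwS.h (k := fun c => P.χ c g) (P.smul g y) (P.wd _) (P.wd _)
  have a3 : ∀ p ∈ A, twH ℓ (P.bf x) p.1 p.2 ≤ twH ℓ (P.bf y) p.1 p.2 := fun p hp => by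
    have := a1 p hp
    have := e p hp
    have := a2 p.1 p.2
    omega
  refine ⟨sum_le_sum a3, fun u p hp => ?_⟩
  have := (sum_eq_sum_iff_of_le a3).1 u p hp
  have := a1 p hp
  have := e p hp
  have := a2 p.1 p.2
  exact ⟨by omega, (P.mono h).tw_eq (P.wd _) (P.wd _) (hA p hp) (by omega)⟩

theorem Wp.op (P : Wp Γ Y ℓ) : Nonempty (Op Γ Y κ) := by
  refine ⟨⟨P.χ, P.mul, P.hm, ⟨fun y => ∑ p : κ × κ with p.1 < p.2, twH ℓ (P.bf y) p.1 p.2,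
    fun g x y hg h => ?_⟩, fun s => ?_⟩⟩
  · obtain ⟨a, b⟩ := P.tw_sum {p | p.1 < p.2} (fun p hp => (mem_filter.1 hp).2) h
      fun p _ => by simp [hg]
    refine ⟨a, fun u => P.uniq le_rfl h h le_rfl ?_⟩
    have := TwA.of (t := fun _ => 0) (P.wd x) (P.wd (g • y)) fun c d l _ =>
      (b u (c.1, d.1) (by simpa using l)).2 c.2 d.2
    funext c d
    exact propext (this c d rfl)
  · obtain ⟨t, ht⟩ : ∃ t : κ → ℚ, ∀ c, t c = s c / ℓ c := ⟨_, fun _ => rfl⟩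
    have hs : Y → ∀ c, (s c : ℚ) = t c * ℓ c := fun y c => by
      rw [ht, div_mul_cancel₀ _ (by exact_mod_cast ((P.wd y).pos c).ne')]
    have k1 : Y → ∀ c c', ((ℓ c' * s c - ℓ c * s c' : ℤ) : ℚ) = ℓ c * ℓ c' * (t c - t c') :=
      fun y c c' => by push_cast; rw [hs y c, hs y c']; ring
    have k2 : Y → ∀ c c', (0 : ℚ) < ℓ c * ℓ c' := fun y c c' => by
      exact_mod_cast Nat.mul_pos ((P.wd y).pos c) ((P.wd y).pos c')
    have key := fun (g : Γ) (x y : Y) (hg : ∀ c, P.χ c g = s c) (h : x ≤ g • y) =>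
      P.tw_sum {p | p.1 < p.2 ∧ t p.1 ≤ t p.2} (fun p hp => (mem_filter.1 hp).2.1) h
        fun p hp => by
          rw [hg, hg, ← Int.cast_nonpos (R := ℚ), k1 x]
          exact mul_nonpos_of_nonneg_of_nonpos (k2 x _ _).le (sub_nonpos.2 (mem_filter.1 hp).2.2)
    refine ⟨fun y => ∑ p : κ × κ with p.1 < p.2 ∧ t p.1 ≤ t p.2, twH ℓ (P.bf y) p.1 p.2,
      fun g x y hg h => (key g x y hg h).1, fun A => ?_⟩
    by_cases an : Antitone t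
    · obtain ⟨N, hN⟩ := ((eventually_all_finset A).2 fun y _ => (P.wd y).tw_bot an).exists
      obtain ⟨M, hM, l⟩ := (((eventually_all_finset A).2 fun y _ => (P.wd y).tw_top an).and
        (eventually_ge_atTop N)).exists
      refine ⟨P.twr an hs N, ⟨(M - N).toNat, fun y hy => ⟨?_, ?_⟩⟩, fun g x y hg h u =>
        ⟨h, .of (P.wd _) (P.wd _) fun c d l v =>
          ((key g x y hg h).2 u (c.1, d.1) (by simpa using ⟨l, v.le⟩)).2 c.2 d.2⟩⟩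
      · simpa using hN y hy
      · rw [show ((y, 0) : Y × ℤ).2 + N + (M - N).toNat = M by simp only; omega]
        exact hM y hy
    · refine ⟨twNil P.χ s Y, ⟨0, fun _ _ => trivial⟩, fun g x y hg h u => (an fun c d l => ?_).elim⟩
      refine not_lt.1 fun v => ?_
      have := ((key g x y hg h).2 u (c, d)
        (by simpa using ⟨l.lt_of_ne fun z => v.ne (by rw [z]), v.le⟩)).1
      rw [hg, hg, ← Int.cast_eq_zero (α := ℚ), k1 x] at this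
      exact (mul_neg_of_pos_of_neg (k2 x c d) (sub_neg.2 v)).ne this

end Pool.Agent.Lib.MP_5d3e93_al.Bg
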