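import Pool.Agent.Lib.MP_5d3e93_al.Bg.Fac
import Pool.Agent.Lib.MP_5d3e93_al.Bg.Tow
import Pool.Agent.Lib.MP_5d3e93_al.Bg.Opi

/-! Families of words with fixed numbers of letters lift to numbered words. -/

open MulAction

namespace Pool.Agent.Lib.MP_5d3e93_al.Bg

universe w w'

variable {X : Type w'} [Lattice X] {B : Bl X} {G : Type w} [Group G] [MulAction G X] {N : ℕ}

theorem YL.le_mk {ℓ : Fin N → ℕ} {x z : Cw B fun c : {c // 0 < ℓ c} => ℓ c} :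
    (⟨ℓ, x⟩ : YL B N).le ⟨ℓ, z⟩ ↔ ∃ k, x.le (z.sh k) := by
  refine ⟨?_, fun ⟨k, h⟩ => .inr ⟨ℓ, x, z, k, rfl, rfl, h⟩⟩
  rintro (h | ⟨ℓ', x', z', k, a, b, h⟩)
  · exact (lt_irrefl _ h).elim
  · cases a
    cases b
    exact ⟨k, h⟩

theorem YL.le_l {x z : YL B N} (h : x.le z) : x.ℓ = z.ℓ ∨ ∑ c, z.ℓ c < ∑ c, x.ℓ c := by
  obtain h | ⟨ℓ, x', z', k, rfl, rfl, -⟩ := h
  exacts [.inr h, .inl rfl]

theorem Cw.act_eq [B.Ac G] {κ : Type} {ℓ : κ → ℕ} (x : Cw B ℓ) (g : G) (k : κ → ℤ) :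
    (x.act g 0).sh k = x.act g k :=
  Cw.ext (funext fun ν => by simp [Cw.sh, Cw.act]) (funext fun ν => by simp [Cw.sh, Cw.act])

theorem Cw.le_act_iff [B.Ac G] {κ : Type} [LinearOrder κ] {ℓ : κ → ℕ} {x y : Cw B ℓ} {g : G}
    {k : κ → ℤ} : x.le ((y.act g 0).sh k) ↔ x.le (y.act g k) := by rw [Cw.act_eq]

theorem words_lift [B.Ac G] {J : Type} [Finite J] {A : Set J} (hA : A.Nonempty)
    (y0 : J → YL B N) : ∃ (Γ : Type w) (_ : Group Γ) (j : Γ →* G) (Z : Type w') (_ : Preorder Z)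
      (_ : MulAction Γ Z) (_ : Nonempty Z) (κ : Type) (_ : Fintype κ) (_ : Op Γ Z κ)
      (φ : Z → J → YL B N) (ψ : (J → YL B N) → Z),
      (∀ x (γ : Γ) y, x ≤ γ • y → ∀ L ∈ A, (φ x L).le (j γ • φ y L)) ∧
      (∀ x (g : G) y, (∀ L ∈ A, (φ x L).le (g • φ y L)) → ∃ γ, j γ = g ∧ x ≤ γ • y) ∧
      (∀ (x : Z) (γ γ' : Γ) (y : Z), x ≤ γ • y → x ≤ γ' • y → j γ = j γ' → γ = γ') ∧
      (∀ y, (∀ L ∈ A, (y L).ℓ = (y0 L).ℓ) → ∀ L ∈ A, φ (ψ y) L = y L) ∧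
      ∀ z : Z, ∃ x : X, Set.InjOn j (stabilizer Γ z) ∧
        (stabilizer Γ z).map j ≤ stabilizer G x := by
  classical
  have := Fintype.ofFinite A
  let κ (i : A) : Type := {c // 0 < (y0 i).ℓ c}
  let Z (i : A) : Type w' := Cw B fun c : κ i => (y0 i).ℓ c
  let Γ : Type w := G × Multiplicative (∀ i, κ i → ℤ)
  let p (i : A) : Γ →* G × Multiplicative (κ i → ℤ) := (MonoidHom.id G).prodMap
    (AddMonoidHom.toMultiplicative (Pi.evalAddMonoidHom (fun i => κ i → ℤ) i))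
  let _ (i : A) : MulAction Γ (Z i) := MulAction.compHom _ (p i)
  have e (γ : Γ) (y : ∀ i, Z i) (i) : (γ • y) i = (y i).act γ.1 (γ.2.toAdd i) := rfl
  have P (i : A) : Op Γ (Z i) (κ i) :=
    ((Cw.wp B (fun c : κ i => (y0 i).ℓ c) G).some.op.some.comap (p i) fun _ _ => rfl).choose
  choose ψ hψ using fun (y : J → YL B N) (i : A) => show ∃ x : Z i,
      (y i).ℓ = (y0 i).ℓ → (⟨_, x⟩ : YL B N) = y i by
    by_cases k : (y i).ℓ = (y0 i).ℓ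
    · generalize y i = a at k
      obtain ⟨ℓ, x⟩ := a
      obtain rfl : ℓ = _ := k
      exact ⟨x, fun _ => rfl⟩
    · exact ⟨(y0 i).x, fun l => (k l).elim⟩
  refine ⟨Γ, inferInstance, .fst .., ∀ i, Z i, inferInstance, inferInstance, ⟨fun i => (y0 i).x⟩,
    _, inferInstance, (Op.pi P).some, fun x L => if h : L ∈ A then ⟨_, x ⟨L, h⟩⟩ else y0 L, ψ,
    fun x γ y k L h => ?_, fun x g y k => ?_, fun x γ γ' y a b c => ?_, fun y k L h => ?_,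
    fun z => ?_⟩
  · simp only [dif_pos h]
    exact YL.le_mk.2 ⟨γ.2.toAdd ⟨L, h⟩, Cw.le_act_iff.2 (k ⟨L, h⟩)⟩
  · choose s hs using fun i : A => show ∃ s, (x i).le (((y i).act g 0).sh s) by
      have := k i i.2
      simp only [dif_pos i.2] at this
      exact YL.le_mk.1 this
    exact ⟨(g, .ofAdd s), rfl, fun i => Cw.le_act_iff.1 (hs i)⟩
  · obtain ⟨g, s⟩ := γ
    obtain ⟨g', s'⟩ := γ'
    obtain rfl : g = g' := c
    exact Prod.ext rfl (Multiplicative.toAdd.injective (funext fun i => Cw.sh_uniq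
      (z := (y i).act g 0) (Cw.le_act_iff.2 (a i)) (Cw.le_act_iff.2 (b i))))
  · simp only [dif_pos h]
    exact hψ y ⟨L, h⟩ (k L h)
  · obtain ⟨i, h⟩ := hA
    obtain ⟨c⟩ := (z ⟨i, h⟩).ne
    have s (γ : Γ) (k : γ ∈ stabilizer Γ z) (i) := Cw.stab ((e γ z i).symm.trans (congrFun k i))
    refine ⟨(z ⟨i, h⟩).U (c, 0), fun a k b l m => Prod.ext m (Multiplicative.toAdd.injective
      (funext fun i => (s a k i).1.trans (s b l i).1.symm)), ?_⟩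
    rintro _ ⟨γ, k, rfl⟩
    exact (s γ k _).2 _

end Pool.Agent.Lib.MP_5d3e93_al.Bg
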