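import Pool.Agent.Lib.MP_5d3e93_al.Bg.Kop
import Pool.Agent.Lib.MP_5d3e93_al.Bg.Lft
import Pool.Agent.Lib.MP_5d3e93_al.Bg.Nr
import Pool.Agent.Lib.MP_5d3e93_al.Bg.WLi

/-! Vanishing for isomorphisms that are monotone for some of the word orders. -/

open CategoryTheory Limits MulAction

namespace Pool.Agent.Lib.MP_5d3e93_al.Bg

universe w w' v u

variable {C : Type u} [Category.{v} C] [Preadditive C] {G : Type w} [Group G]

theorem lcd_act [HasZeroObject C] (σ : Act G C) {Z : Type w'} [Preorder Z] [MulAction G Z]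
    (hm : ∀ (g : G) (x y : Z), x ≤ y → g • x ≤ g • y) : Lcd Z (Lc.act σ hm) := by
  let _ : MulAction G Unit := { smul _ x := x, one_smul _ := rfl, mul_smul _ _ _ := rfl }
  obtain ⟨L, h⟩ := (lcd_unit (σ := σ) ()).act hm
  refine ⟨fun A => ⟨fun z => (L A).e ((), z), ?_, fun z => (L A).spl _, fun x y k =>
    (L A).orth _ _ fun l => k (congrArg Prod.snd l)⟩, fun g A B f x y k => h g A B f _ _ fun l =>
      k l.2⟩
  obtain ⟨s, a, b⟩ := (L A).fin
  refine ⟨s.map (Equiv.punitProd Z).toEmbedding, fun x k => a _ fun l =>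
    k (Finset.mem_map.2 ⟨_, l, rfl⟩), ?_⟩
  rw [Finset.sum_map]
  exact b

theorem loc_words [HasBinaryBiproducts C] [HasZeroObject C] {σ : Act G C} (hs : Sw σ)
    {X : Type w'} [Lattice X] (B : Bl X) [MulAction G X] [B.Ac G] [MulAction (G × Zi) X]
    [B.Ac (G × Zi)] (hj : ∀ (g : G × Zi) (x : X), g • x = g.1 • x)
    (hX : ∀ x : X, LocHyper (stabilizer G x)) {N : ℕ} {J : Type} [Finite J] {A : Set J}
    (hA : A.Nonempty) {P Q : (SZ σ).LO (J → YL B N) fun _ => True} {u : P ⟶ Q}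
    (h : ((SZ σ).lc _ ((YL.pf B (G × Zi) N J).cap A).nr).CI 0 u) :
    ((SZ σ).lc _ ((YL.pf B (G × Zi) N J).cap A).nr).Tq 0 u := by
  classical
  have := Fintype.ofFinite A
  have e (g : G × Zi) (y : YL B N) : g • y = g.1 • y := congrArg (YL.mk y.ℓ)
    (Cw.ext (funext fun _ => hj ..) (funext fun _ => hj ..))
  refine tq_filt (ok hs.k0).hz (fun x (L : A) => (x L).ℓ) (fun t => (∑ L, ∑ c, t L c : ℕ))
    (fun x g y k => ?_) (fun t P Q u a b c => ?_) h
  · have k' (L : A) : (x L).ℓ = (y L).ℓ ∨ ∑ c, (y L).ℓ c < ∑ c, (x L).ℓ c :=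
      YL.le_l (z := g • y L) (k L L.2)
    by_cases l : ∀ L : A, (x L).ℓ = (y L).ℓ
    · exact .inl (funext l)
    · obtain ⟨L, l⟩ := not_forall.1 l
      exact .inr (Int.ofNat_lt.2 (Finset.sum_lt_sum (fun L _ => (k' L).elim
        (fun m => (congrArg (∑ c, · c) m).ge) le_of_lt) ⟨L, Finset.mem_univ _, (k' L).resolve_left l⟩))
  by_cases k : ∃ y0 : J → YL B N, (fun L : A => (y0 L).ℓ) = t
  swap
  · exact tq_empty (fun x _ => a x fun l => k ⟨x, l⟩) (fun x _ => b x fun l => k ⟨x, l⟩) c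
  obtain ⟨y0, rfl⟩ := k
  obtain ⟨Γ, _, j, Z, _, _, _, κ, _, O, φ, ψ, h1, h2, h3, h4, h5⟩ := words_lift (G := G) hA y0
  refine tq_lift hs j O.hm (k1_op O ((hs.comap j).act _) (lcd_act _ _) fun z => ?_) φ ψ
    (fun x γ z y k L l => ?_) (fun x g y k => h2 x g.1 y fun L l => ?_) h3 (fun y k => ?_) a b c
  · obtain ⟨x, p, q⟩ := h5 z
    exact Cl.map (s := LH) p q (hX x)
  · exact (congrArg (φ x L).le (e (j γ, z) (φ y L))).mpr (h1 x γ y k L l)
  · exact (congrArg (φ x L).le (e g (φ y L))).mp (k L l)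
  · have k' := h4 y fun L l => congrFun k ⟨L, l⟩
    exact ⟨fun L l => (congrArg (y L).le (k' L l)).mpr (YL.le_rf _),
      fun L l => (congrArg (YL.le · (y L)) (k' L l)).mpr (YL.le_rf _)⟩

end Pool.Agent.Lib.MP_5d3e93_al.Bg
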