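import Pool.Agent.Lib.MP_5d3e93_al.QC

/-! One-sided splitting of a controlled isomorphism. -/

open CategoryTheory Limits MulAction

namespace Pool.Agent.Lib.MP_5d3e93_al.Bg

universe w w' w'' v u

variable {C : Type u} [Category.{v} C] [Preadditive C] {G : Type w} [Group G]

theorem split1 {S : GC G C} {Φ : S.CF} {r s t : ℕ} {P1 P2 Q0 Q1 Q2 : C}
    {u : S.sum P1 P2 ⟶ S.sum Q0 (S.sum Q1 Q2)} {v : S.sum Q0 (S.sum Q1 Q2) ⟶ S.sum P1 P2}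
    (hu : Φ.Ct r u) (hv : Φ.Ct r v) (e1 : u ≫ v = 𝟙 _) (e2 : v ≫ u = 𝟙 _)
    (z1 : S.inr _ _ ≫ u ≫ S.snd _ _ ≫ S.fst _ _ = 0)
    (z4 : S.inr _ _ ≫ S.inr _ _ ≫ v ≫ S.fst _ _ = 0) {Ob : C → Prop}
    (h0 : ∀ e : Q0 ⟶ Q0, Φ.Ct (10 * r) e → e ≫ e = e → ∃ D E, Ob D ∧ Ob E ∧ Φ.So s e D E)
    (h1 : ∀ D E, Ob D → Ob E → ∀ w : S.sum P1 D ⟶ S.sum E Q1, Φ.CI (5 * r + s) w → Φ.Tq t w)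
    (h2 : ∀ D E, Ob D → Ob E → ∀ w : S.sum P2 D ⟶ S.sum E Q2, Φ.CI (5 * r + s) w → Φ.Tq t w)
    (h3 : ∀ D E D' E', Ob D → Ob E → Ob D' → Ob E' →
      ∀ w : S.sum Q0 (S.sum D D') ⟶ S.sum E E', Φ.CI s w → Φ.Tq t w) :
    Φ.Tq (3 * t + 6 * r) u := by
  obtain ⟨a, b, m, c, d, rfl, ha, hb, hm, hc, hd⟩ : ∃ a b m c d, u = S.blk a
      (b ≫ S.inl Q1 Q2 + m ≫ S.inr Q1 Q2) c (d ≫ S.inr Q1 Q2) ∧ Φ.Ct r a ∧ Φ.Ct r b ∧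
      Φ.Ct r m ∧ Φ.Ct r c ∧ Φ.Ct r d := by
    refine ⟨S.inl _ _ ≫ u ≫ S.fst _ _, S.inl _ _ ≫ u ≫ S.snd _ _ ≫ S.fst _ _,
      S.inl _ _ ≫ u ≫ S.snd _ _ ≫ S.snd _ _,
      S.inr _ _ ≫ u ≫ S.fst _ _, S.inr _ _ ≫ u ≫ S.snd _ _ ≫ S.snd _ _, ?_,
      Φ.c0' Φ.inl (Φ.c0 hu Φ.fst), Φ.c0' Φ.inl (Φ.c0 hu (Φ.c0 Φ.snd Φ.fst)),
      Φ.c0' Φ.inl (Φ.c0 hu (Φ.c0 Φ.snd Φ.snd)),
      Φ.c0' Φ.inr (Φ.c0 hu Φ.fst), Φ.c0' Φ.inr (Φ.c0 hu (Φ.c0 Φ.snd Φ.snd))⟩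
    apply S.hom_ext <;> apply S.hom_ext' <;> simp <;> apply S.hom_ext' <;> simp [z1]
  obtain ⟨a', c', b', m', d', rfl, ha', hb', hm', hc', hd'⟩ : ∃ a' c' b' m' d', v = S.blk a' c'
      (S.fst Q1 Q2 ≫ b') (S.fst Q1 Q2 ≫ m' + S.snd Q1 Q2 ≫ d') ∧ Φ.Ct r a' ∧ Φ.Ct r b' ∧
      Φ.Ct r m' ∧ Φ.Ct r c' ∧ Φ.Ct r d' := by
    refine ⟨S.inl _ _ ≫ v ≫ S.fst _ _, S.inl _ _ ≫ v ≫ S.snd _ _,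
      S.inl _ _ ≫ S.inr _ _ ≫ v ≫ S.fst _ _, S.inl _ _ ≫ S.inr _ _ ≫ v ≫ S.snd _ _,
      S.inr _ _ ≫ S.inr _ _ ≫ v ≫ S.snd _ _, ?_,
      Φ.c0' Φ.inl (Φ.c0 hv Φ.fst), Φ.c0' Φ.inl (Φ.c0' Φ.inr (Φ.c0 hv Φ.fst)),
      Φ.c0' Φ.inl (Φ.c0' Φ.inr (Φ.c0 hv Φ.snd)),
      Φ.c0' Φ.inl (Φ.c0 hv Φ.snd), Φ.c0' Φ.inr (Φ.c0' Φ.inr (Φ.c0 hv Φ.snd))⟩
    apply S.hom_ext <;> apply S.hom_ext' <;> simp <;> apply S.hom_ext <;> simp [z4]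
  have f3 : c ≫ a' = 0 := by simpa using congrArg (S.inr _ _ ≫ · ≫ S.fst _ _) e1
  have f4 : c ≫ c' + d ≫ d' = 𝟙 _ := by simpa using congrArg (S.inr _ _ ≫ · ≫ S.snd _ _) e1
  have g5 : b' ≫ m + m' ≫ d = 0 := by
    simpa using congrArg (S.inl _ _ ≫ S.inr _ _ ≫ · ≫ S.snd _ _ ≫ S.snd _ _) e2
  have g7 : d' ≫ d = 𝟙 _ := by
    simpa using congrArg (S.inr _ _ ≫ S.inr _ _ ≫ · ≫ S.snd _ _ ≫ S.snd _ _) e2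
  have f5 : c ≫ c' = 𝟙 _ - d ≫ d' := eq_sub_of_add_eq f4
  have g6 : b' ≫ m = -(m' ≫ d) := eq_neg_of_add_eq_zero_left g5
  have x1 : Φ.Ct (r + r) (m ≫ d') := Φ.comp hm hd'
  have x2 : Φ.Ct (r + r) (S.fst Q1 Q2 ≫ m' ≫ c) := Φ.c0' Φ.fst (Φ.comp hm' hc)
  have key : Φ.Tq (3 * t) (S.blk (𝟙 P1) (-(m ≫ d')) 0 (𝟙 P2) ≫ S.blk a
      (b ≫ S.inl Q1 Q2 + m ≫ S.inr Q1 Q2) c (d ≫ S.inr Q1 Q2) ≫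
      S.blk (𝟙 Q0) 0 (S.fst Q1 Q2 ≫ m' ≫ c) (𝟙 _)) := by
    refine GC.CF.split (r := 5 * r) (s := s) (Ob := Ob)
      (v := S.blk (𝟙 Q0) 0 (-(S.fst Q1 Q2 ≫ m' ≫ c)) (𝟙 _) ≫ S.blk a' c'
        (S.fst Q1 Q2 ≫ b') (S.fst Q1 Q2 ≫ m' + S.snd Q1 Q2 ≫ d') ≫
        S.blk (𝟙 P1) (m ≫ d') 0 (𝟙 P2))
      (Φ.comp' (Φ.blk Φ.id (Φ.neg x1) Φ.zero Φ.id) (Φ.comp hu (Φ.blk Φ.id Φ.zero x2 Φ.id))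
        (by omega))
      (Φ.comp' (Φ.blk Φ.id Φ.zero (Φ.neg x2) Φ.id) (Φ.comp hv (Φ.blk Φ.id x1 Φ.zero Φ.id))
        (by omega)) ?_ ?_ ?_ ?_ ?_ ?_ (fun e he => h0 e (Φ.mono he (by omega))) h1 h2 h3
    · have k : S.blk (𝟙 Q0) 0 (S.fst Q1 Q2 ≫ m' ≫ c) (𝟙 _) ≫
          S.blk (𝟙 Q0) 0 (-(S.fst Q1 Q2 ≫ m' ≫ c)) (𝟙 (S.sum Q1 Q2)) = 𝟙 _ := by simp
      simp only [Category.assoc]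
      rw [reassoc_of% k, reassoc_of% e1]
      simp
    · have k : S.blk (𝟙 P1) (m ≫ d') 0 (𝟙 P2) ≫ S.blk (𝟙 P1) (-(m ≫ d')) 0 (𝟙 P2) = 𝟙 _ := by
        simp
      simp only [Category.assoc]
      rw [reassoc_of% k, reassoc_of% e2]
      simp
    · simp
    · simp [g7]
    · simp [reassoc_of% f3, reassoc_of% g6, f5]
    · simp
  exact (((GC.CF.Tq.lower x2).cancel_right (by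
    simpa only [Category.assoc] using (GC.CF.Tq.upper (Φ.neg x1)).cancel_left key)).mono
      (by omega))

end Pool.Agent.Lib.MP_5d3e93_al.Bg
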