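import Pool.Agent.Lib.MP_5d3e93_al.E1
import Pool.Agent.Lib.MP_5d3e93_al.Bg.Nr
import Pool.Agent.Lib.MP_5d3e93_al.Bg.Lft
import Pool.Agent.Lib.MP_5d3e93_al.Bg.Spl

/-! Mayer-Vietoris induction over boxes of formal locations. -/

open CategoryTheory Limits MulAction

namespace Pool.Agent.Lib.MP_5d3e93_al.Bg

open GC GC.Lo GC.CF

universe w w' w'' v u

variable {C : Type u} [Category.{v} C] [Preadditive C] {G : Type w} [Group G]

theorem mvLo {h R r p q t a o : ℕ} (hr : r + R < h) (hq : q ≤ p + 1) (ho : o % 2 = 1)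
    (ht : t ≤ 2 * q * h + R) (ha : t ≤ a ∨ (p + q) * h ≤ a) (k : a + r < o * h) :
    t + r < o * h := by
  rcases ha with ha | ha
  · omega
  · have : p + q < o := lt_of_mul_lt_mul_right (by omega : (p + q) * h < o * h) (Nat.zero_le h)
    have : (2 * q + 1) * h ≤ o * h := Nat.mul_le_mul_right _ (by omega)
    rw [add_mul, one_mul] at this
    omega

theorem mvHi {h R r p q t a o : ℕ} (hr : r + R < h) (hq : q ≤ p + 1) (ho : o % 2 = 1)
    (ht : 2 * p * h ≤ t + R) (ha : a ≤ t ∨ a ≤ (p + q) * h) (k : o * h + r < a) :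
    o * h + r < t := by
  rcases ha with ha | ha
  · omega
  · have : o < p + q := lt_of_mul_lt_mul_right (by omega : o * h < (p + q) * h) (Nat.zero_le h)
    have : (o + 1) * h ≤ 2 * p * h := Nat.mul_le_mul_right _ (by omega)
    rw [add_mul, one_mul] at this
    omega

/-- Boxes of formal locations. -/
def mvRn {n : ℕ} {W : Type w'} (h R : ℕ) (p q : Fin n → ℕ) (y : Pt n W) : Prop :=
  ∀ j, 2 * p j * h ≤ y.t j + R ∧ y.t j ≤ 2 * q j * h + R

theorem mvAdm {n h R r s : ℕ} {p q t t' a a' : Fin n → ℕ} (hr : r + R < h) (hs : s ≤ r)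
    (hq : ∀ j, q j ≤ p j + 1) (ht : ∀ j, t j ≤ 2 * q j * h + R) (ht' : ∀ j, 2 * p j * h ≤ t' j + R)
    (ha : ∀ j, t j ≤ a j ∨ (p j + q j) * h ≤ a j) (ha' : ∀ j, a' j ≤ t' j ∨ a' j ≤ (p j + q j) * h)
    {L} (k : Adm h r a a' L) : Adm h s t t' L := by
  refine Adm.of (r := r) (t := t) (t' := t') ⟨fun i m j => (k.1 i m j).imp
    (mvLo hr (hq j) (by omega) (ht j) (ha j)) (mvHi hr (hq j) (by omega) (ht' j) (ha' j)),
    fun i m => ?_⟩ (fun _ => by omega) fun _ => by omega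
  obtain ⟨j, b, c⟩ := k.2 i m
  have e1 : lv h i = (4 * i + 1) * h + 2 * h := by unfold lv; ring
  have e2 : lv h i + 2 * h = (4 * i + 5) * h := by unfold lv; ring
  have := mvHi (o := 4 * i + 1) hr (hq j) (by omega) (ht' j) (ha' j) (by omega)
  exact ⟨j, by omega, e2 ▸ mvLo (o := 4 * i + 5) hr (hq j) (by omega) (ht j) (ha j) (e2 ▸ c)⟩

theorem mvMul {a c h r : ℕ} (hr : r < h) (k : a * h < c * h) : a * h + r < c * h := by
  have : (a + 1) * h ≤ c * h := Nat.mul_le_mul_right _ (lt_of_mul_lt_mul_right k (Nat.zero_le h))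
  rw [add_mul, one_mul] at this
  omega

theorem mvAdm0 {n h r : ℕ} {b : Fin n → ℕ} (hr : r < h) {L}
    (k : Adm h 0 (fun j => b j * h) (fun j => b j * h) L) :
    Adm h r (fun j => b j * h) (fun j => b j * h) L := by
  refine ⟨fun i m j => (k.1 i m j).imp (mvMul hr) (mvMul hr), fun i m => ?_⟩
  obtain ⟨j, c, d⟩ := k.2 i m
  refine ⟨j, ?_, ?_⟩
  · simp only [← add_mul, lv, add_zero] at c ⊢
    exact mvMul hr c
  · simp only [← add_mul, lv, add_zero] at d ⊢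
    exact mvMul hr d

theorem mvCI {S : GC G C} {Φ : S.CF} {r s : ℕ} {A B : C} {u : A ⟶ B} (h : Φ.CI r u) (e : r ≤ s) :
    Φ.CI s u := by
  obtain ⟨h1, v, h2, h3⟩ := h
  exact ⟨Φ.mono h1 e, v, Φ.mono h2 e, h3⟩

theorem mvRes {S : GC G C} {X : Type*} [MulAction G X] {Ω Ω' : X → Prop} {ν : Nr G X} {r t : ℕ}
    (k : ∀ x, Ω' x → Ω x)
    (H : ∀ (D E : S.LO X Ω') (u : D ⟶ E), (S.lc Ω' ν).CI r u → (S.lc Ω' ν).Tq t u)
    {D E : S.LO X Ω} {u : D ⟶ E} (hu : (S.lc Ω ν).CI r u) (hD : D.L.On Ω') (hE : E.L.On Ω') :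
    (S.lc Ω ν).Tq t u :=
  tq_inc k (fun _ _ _ => id) (H (D.inc hD) (E.inc hE) u hu)

theorem mvBd {S : GC (G × Zi) C} (hc : S.Central) {X : Type*} [MulAction (G × Zi) X]
    (hX : ∀ (z : Zi) (x : X), ((1 : G), z) • x = x) {Ω : X → Prop} {ν : Nr (G × Zi) X} {r s : ℕ}
    (H : ∀ (D E : S.LO X Ω) (u : D ⟶ E), (S.lc Ω ν).CI r u → (S.lc Ω ν).Tq s u)
    {A : S.LO X Ω} (e : A ⟶ A) (h : (S.lc Ω ν).Ct r e) (he : e ≫ e = e) :
    ∃ D E, (S.lc Ω ν).So (5 * r + 9 * s) e D E := by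
  classical
  obtain ⟨F, hF, -, h3⟩ := (S.sup_top (A := A.A) (B := A.A) e).finite
  obtain ⟨j, hj⟩ := (hF.biUnion (t := fun g : G × Zi => (g.2.toAdd.support : Set ℕ))
    fun _ _ => Finset.finite_toSet _).exists_notMem
  let Z : Zg (G × Zi) := ⟨⊤, fun g => g.2.toAdd j, fun a _ b _ => by simp⟩
  obtain ⟨f, f', a1, a2, a3, a4, a5⟩ := hc (Multiplicative.ofAdd (Finsupp.single j 1))
  let c : (S.lg _ Ω).Cz Z 1 := ⟨fun X => f X.A, fun X => f' X.A,
    fun X => (a1 X.A).ge1 (Z := Z) trivial (by simp [Z]),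
    fun X => (a1 X.A).le1 (Z := Z) trivial (by simp [Z]),
    fun X => (a2 X.A).ge1 (Z := Z) trivial (by simp [Z]),
    fun X => (a2 X.A).le1 (Z := Z) trivial (by simp [Z]), fun X => a3 X.A, fun X => a4 X.A,
    fun k => a5 k, fun {X Y} (k : X.A ⟶ Y.A) => by
      have := congrArg (fun k => f' X.A ≫ k ≫ f' Y.A) (a5 k)
      change f' X.A ≫ k = k ≫ f' Y.A
      simpa [reassoc_of% a4, a3] using this.symm⟩
  have q (X : S.LO _ Ω) (z : Zi) (k : X.A ⟶ X.A) (b : S.Sup {(1, z)} k)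
      (b' : ∀ x, X.L.e x ≫ k = k ≫ X.L.e x) : (S.lc _ ν).Ct 0 (A := X) (B := X) k :=
    fun x y => by
      by_cases m : x = y
      · refine (((X.L.spl x).deg.cp_eq |> Sup.one_comp) (b.comp_one (X.L.spl y).deg.cp_eq)).mono ?_
        rintro _ rfl
        change ν.n 0 x (_ • y)
        rw [hX, m]
        exact Nr.refl _ _ _
      · rw [reassoc_of% b', X.L.orth x y m, Limits.comp_zero]
        exact .zero
  have hq : (S.lc _ ν).Cq c := fun X =>
    ⟨q X _ _ (a1 _) fun x => (a5 _).symm, q X _ _ (a2 _) fun x => (c.nψ (A := X) (B := X) _).symm⟩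
  exact CF.boundary hq (fun _ => trivial) (A := A) (e := e)
    (h3.mono fun g hg => ⟨trivial, by
      by_contra k
      exact hj (Set.mem_biUnion hg (by simpa using k))⟩) h he (H _ _ _)

section
variable {S : GC (G × Zi) C} {W : Type w'} [MulAction (G × Zi) W] {n : ℕ}
  {P : Pf (G × Zi) W (Finset (Fin (n + 1)))}

theorem mvBase (hloc : ∀ A : Set (Finset (Fin (n + 1))), A.Nonempty →
      ∀ (D E : S.LO W fun _ => True) (u : D ⟶ E), (S.lc _ (P.cap A).nr).CI 0 u →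
        (S.lc _ (P.cap A).nr).Tq 0 u) {h R r : ℕ} (hr : 1 ≤ r) (hh : r + R < h)
    {p q : Fin n → ℕ} (hp : ∀ j, p j ≤ q j) (hq : ∀ j, q j ≤ p j + 1)
    (D E : S.LO (Pt n W) (mvRn h R p q)) (u : D ⟶ E) (hu : (S.lc _ (P.nv h).nr).CI r u) :
    (S.lc _ (P.nv h).nr).Tq (8 * r) u := by
  let b : Fin n → ℕ := fun j => (p j + q j) * h
  have b1 (j) : 2 * p j * h ≤ b j ∧ b j ≤ 2 * p j * h + h ∧ b j ≤ 2 * q j * h ∧
      2 * q j * h ≤ b j + h := by
    have := hp j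
    have := hq j
    refine ⟨Nat.mul_le_mul_right _ (by omega), ?_, Nat.mul_le_mul_right _ (by omega), ?_⟩
    · rw [← Nat.succ_mul]; exact Nat.mul_le_mul_right _ (by omega)
    · rw [← Nat.succ_mul]; exact Nat.mul_le_mul_right _ (by omega)
  let φ : ℕ → Pt n W → Pt n W := fun m x =>
    ⟨fun j => max (x.t j - m) (min (b j) (x.t j + m)), x.w⟩
  let ψ : W → Pt n W := fun x => ⟨b, x⟩
  have f0 (x) : φ 0 x = x := Pt.ext (funext fun j => by simp only [φ]; omega) rfl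
  have f1 (m x) (a : mvRn h R p q x) : mvRn h R p q (φ m x) := fun j => by
    have := a j
    have := b1 j
    simp only [φ]
    omega
  have f2 (x) (a : mvRn h R p q x) : φ (2 * h) x = ψ x.w := Pt.ext (funext fun j => by
    have := a j
    have := b1 j
    simp only [φ, ψ]
    omega) rfl
  have f3 (x : W) (_ : True) : mvRn h R p q (ψ x) := fun j => by
    have := b1 j
    simp only [ψ]
    omega
  rw [← zero_add (8 * r)]
  refine tq_mv D.on E.on hu φ (fun x _ => by rw [f0]; exact ⟨Nr.refl _ _ _, Nr.refl _ _ _⟩) f1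
    (fun m x g y a a' c => ⟨fun j => ?_, fun L k => c.2 L (mvAdm hh le_rfl hq (fun j => (a j).2)
      (fun j => (a' j).1) (fun j => ?_) (fun j => ?_) k)⟩)
    (fun m x a => ⟨⟨fun j => ?_, fun _ _ => P.refl ..⟩, fun j => ?_, fun _ _ => P.refl ..⟩)
    (2 * h) ?_
  · have : y.t j ≤ x.t j + r := c.1 j
    change max _ _ ≤ max _ _ + r
    omega
  · change _ ≤ max _ _ ∨ b j ≤ max _ _
    omega
  · change max (y.t j - m) _ ≤ y.t j ∨ max _ _ ≤ b j
    omega
  · change max _ _ ≤ max _ _ + r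
    omega
  · change max _ _ ≤ max _ _ + r
    omega
  obtain ⟨c1, v, c2, c3⟩ := hu
  have hA : {L | Adm h 0 b b L}.Nonempty := by
    classical
    refine ⟨Finset.univ.filter fun i => ∀ j, b j ≠ lv h i, fun i m j => ?_, fun i m => ?_⟩
    · have := (Finset.mem_filter.1 m).2 j
      omega
    · simp only [Finset.mem_filter, Finset.mem_univ, true_and, not_forall, not_not] at m
      obtain ⟨j, m⟩ := m
      exact ⟨j, by omega, by omega⟩
  have g1 (x) (g : G × Zi) (y) (a : mvRn h R p q x) (a' : mvRn h R p q y)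
      (c : (P.nv h).nr.n r x (g • y)) : (P.cap {L | Adm h 0 b b L}).nr.n 0 x.w (g • y.w) :=
    fun L k => c.2 L (mvAdm hh le_rfl hq (fun j => (a j).2) (fun j => (a' j).1)
      (fun j => .inr le_rfl) (fun j => .inr le_rfl) (mvAdm0 (by omega) k))
  have g2 (s x) (g : G × Zi) (y) (_ : True) (_ : True)
      (c : (P.cap {L | Adm h 0 b b L}).nr.n s x (g • y)) : (P.nv h).nr.n s (ψ x) (g • ψ y) :=
    ⟨fun j => Nat.le_add_right _ _, fun L k =>
      c L (k.of (fun _ => Nat.le_add_right _ _) fun _ => Nat.le_add_right _ _)⟩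
  have k := tq_map ψ f3 g2
    (hloc _ hA (D.mv Pt.w D.on fun _ _ => trivial) (E.mv Pt.w E.on fun _ _ => trivial) u
      ⟨Rg.map c1 D.on E.on g1, v, Rg.map c2 E.on D.on g1, c3⟩)
  have a (D : S.LO (Pt n W) (mvRn h R p q)) :
      (D.L.map (φ (2 * h))).Rg ((D.L.map Pt.w).map ψ) dg (𝟙 D.A) ∧
      ((D.L.map Pt.w).map ψ).Rg (D.L.map (φ (2 * h))) dg (𝟙 D.A) :=
    ⟨(rg_id.map (R' := fun x g y => dg x g (ψ y)) D.on D.on fun x g y a _ c =>
        ⟨c.1, c.2 ▸ f2 x a⟩).mapr fun _ _ _ => id,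
      (rg_id.map (R' := fun x g y => dg (ψ x) g y) D.on D.on fun x g y a _ c =>
        ⟨c.1, c.2 ▸ (f2 x a).symm⟩).mapl fun _ _ _ => id⟩
  have a1 : (S.lc _ (P.nv h).nr).HI 0 1 (A := D.mv (φ (2 * h)) D.on (f1 _))
      (B := (D.mv Pt.w D.on fun _ _ => trivial).mv ψ (LO.on _) f3) (𝟙 D.A) :=
    hi_dg (a D).1 (a D).2 (Category.id_comp _) (Category.id_comp _)
  have a2 : (S.lc _ (P.nv h).nr).HI 0 1 (B := E.mv (φ (2 * h)) E.on (f1 _))
      (A := (E.mv Pt.w E.on fun _ _ => trivial).mv ψ (LO.on _) f3) (𝟙 E.A) :=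
    hi_dg (a E).2 (a E).1 (Category.id_comp _) (Category.id_comp _)
  have := Tq.c0' a1 (k.c0 a2)
  convert this using 1
  exact ((Category.id_comp _).trans (Category.comp_id _)).symm

theorem mvInd (hz : ∃ Z : C, 𝟙 Z = 0) (hc : S.Central)
    (hW : ∀ (z : Zi) (x : W), ((1 : G), z) • x = x)
    (hloc : ∀ A : Set (Finset (Fin (n + 1))), A.Nonempty →
      ∀ (D E : S.LO W fun _ => True) (u : D ⟶ E), (S.lc _ (P.cap A).nr).CI 0 u →
        (S.lc _ (P.cap A).nr).Tq 0 u) (k : ℕ) : ∀ r, 1 ≤ r → ∃ T, 8 * r ≤ T ∧ ∀ R h, T ≤ R →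
      2 * R < h → ∀ p q : Fin n → ℕ, (∀ j, p j ≤ q j) → ∑ j, (q j - p j) < k →
        ∀ (D E : S.LO (Pt n W) (mvRn h R p q)) (u : D ⟶ E),
          (S.lc _ (P.nv h).nr).CI r u → (S.lc _ (P.nv h).nr).Tq T u := by
  induction k with
  | zero => exact fun r _ => ⟨_, le_rfl, fun _ _ _ _ _ _ _ a => by omega⟩
  | succ k ih =>
    intro r hr
    obtain ⟨T1, t1, ih1⟩ := ih (10 * r) (by omega)
    obtain ⟨s, hs⟩ : ∃ s, s = 5 * (10 * r) + 9 * T1 := ⟨_, rfl⟩
    obtain ⟨T2, t2, ih2⟩ := ih (5 * r + s) (by omega)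
    refine ⟨3 * T2 + 6 * r, by omega, fun R h hR hh p q hp hk A B u hu => ?_⟩
    by_cases hq : ∀ j, q j ≤ p j + 1
    · exact (mvBase hloc hr (by omega) hp hq A B u hu).mono (by omega)
    obtain ⟨j, hj⟩ := not_forall.1 hq
    obtain ⟨c, c0⟩ : ∃ c, c = p j + 1 := ⟨_, rfl⟩
    let p' : Fin n → ℕ := Function.update p j c
    let q' : Fin n → ℕ := Function.update q j c
    have u1 (i) : (i = j ∧ p' i = c ∧ q' i = c) ∨ (i ≠ j ∧ p' i = p i ∧ q' i = q i) := by
      by_cases m : i = j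
      · subst m; simp [p', q']
      · simp [p', q', m]
    have u2 (a b : Fin n → ℕ) (ha : a = p ∨ a = p') (hb : b = q ∨ b = q') (m : a = p' ∨ b = q') :
        (∀ i, a i ≤ b i) ∧ ∑ i, (b i - a i) < k ∧
          ∀ x : Pt n W, mvRn h R a b x → mvRn h R p q x := by
      have v1 (i) : p i ≤ a i ∧ a i ≤ b i ∧ b i ≤ q i := by
        have := hp i
        have := u1 i
        rcases ha with rfl | rfl <;> rcases hb with rfl | rfl <;>
          rcases u1 i with ⟨rfl, _⟩ | _ <;> omega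
      refine ⟨fun i => (v1 i).2.1, lt_of_lt_of_le (Finset.sum_lt_sum (fun i _ => ?_)
        ⟨j, Finset.mem_univ _, ?_⟩) (Nat.lt_succ_iff.1 hk), fun x a' i => ?_⟩
      · have := v1 i
        omega
      · have := v1 j
        have := u1 j
        rcases m with rfl | rfl <;> omega
      · have := a' i
        have := Nat.mul_le_mul_right h (Nat.mul_le_mul_left 2 (v1 i).1)
        have := Nat.mul_le_mul_right h (Nat.mul_le_mul_left 2 (v1 i).2.2)
        omega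
    obtain ⟨x1, x2, x3⟩ := u2 p' q (.inr rfl) (.inl rfl) (.inl rfl)
    obtain ⟨y1, y2, y3⟩ := u2 p q' (.inl rfl) (.inr rfl) (.inr rfl)
    obtain ⟨z1, z2, z3⟩ := u2 p' q' (.inr rfl) (.inr rfl) (.inl rfl)
    have hi (D : S.LO (Pt n W) (mvRn h R p q)) (a : D.L.On fun x => 2 * c * h ≤ x.t j + R) :
        D.L.On (mvRn h R p' q) := (D.on.and a).mono fun x a i => by
      have := a.1 i
      rcases u1 i with ⟨rfl, e, -⟩ | ⟨-, e, -⟩ <;> rw [e] <;> omega
    have lo (D : S.LO (Pt n W) (mvRn h R p q)) (a : D.L.On fun x => x.t j ≤ 2 * c * h + R) :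
        D.L.On (mvRn h R p q') := (D.on.and a).mono fun x a i => by
      have := a.1 i
      rcases u1 i with ⟨rfl, -, e⟩ | ⟨-, -, e⟩ <;> rw [e] <;> omega
    obtain ⟨P1, P2, σ, h1, h2, h3, -⟩ := lo_split (ν := (P.nv h).nr) hz A
      fun x => 2 * c * h ≤ x.t j
    obtain ⟨Q0, Q', τ, h4, h5, h6, -⟩ := lo_split (ν := (P.nv h).nr) hz B
      fun x => 2 * c * h ≤ x.t j + r ∧ x.t j < 2 * c * h + r
    obtain ⟨Q1, Q2, τ', h7, h8, h9, h10⟩ := lo_split (ν := (P.nv h).nr) hz Q'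
      fun x => 2 * c * h + r ≤ x.t j
    have h11 : Q2.L.On fun x => x.t j + r < 2 * c * h :=
      ((h10 _ h6).2.and h9).mono fun x a => by omega
    refine Tq.of_conj hu (.hom h1) (.hom (h4.c0 (hi_id.bd h7))) (s := 0)
      (t := 3 * T2 + 6 * r) fun w hw => ?_
    obtain ⟨c1, v, c2, c3, c4⟩ := hw
    refine split1 (r := r) (s := s) c1 c2 c3 c4
      (ct_zero (CF.c0' _ (CF.inr _) (CF.c0 _ c1 (CF.c0 _ (CF.snd _) (CF.fst _)))) h3 h8
        fun x g y a b m => ?_)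
      (ct_zero (CF.c0' _ (CF.inr _) (CF.c0' _ (CF.inr _) (CF.c0 _ c2 (CF.fst _)))) h11 h2
        fun x g y a b m => ?_)
      (Ob := fun D => D.L.On fun x => 2 * c * h ≤ x.t j + R ∧ x.t j ≤ 2 * c * h + R)
      (fun e a b => ?_)
      (fun D E a b w m => mvRes x3 (ih2 R h (by omega) hh _ _ x1 x2) m (hi _ ?_) (hi _ ?_))
      (fun D E a b w m => mvRes y3 (ih2 R h (by omega) hh _ _ y1 y2) m (lo _ ?_) (lo _ ?_))
      (fun D E D' E' a b a' b' w m => mvRes y3 (ih2 R h (by omega) hh _ _ y1 y2)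
        (mvCI m (by omega)) (lo _ ?_) (lo _ ?_))
    · have : y.t j ≤ x.t j + _ := m.1 j
      omega
    · have : y.t j ≤ x.t j + _ := m.1 j
      omega
    · have o : Q0.L.On (mvRn h R p' q') := ((hi _ (h5.mono fun _ k => by omega)).and
        (lo _ (h5.mono fun _ k => by omega))).mono fun x a i => ⟨(a.1 i).1, (a.2 i).2⟩
      obtain ⟨D, E, m⟩ := mvBd hc (fun z x => Pt.ext rfl (hW z x.w))
        (ih1 R h (by omega) hh _ _ z1 z2) (A := Q0.inc o) e a b
      have o' (x : Pt n W) (a : mvRn h R p' q' x) :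
          2 * c * h ≤ x.t j + R ∧ x.t j ≤ 2 * c * h + R := by
        have := a j
        simpa [p', q'] using this
      exact ⟨D.inc (D.on.mono z3), E.inc (E.on.mono z3), D.on.mono o', E.on.mono o', hs ▸ m⟩
    · exact (h2.mono fun _ k => by omega).add (a.mono fun _ k => k.1)
    · exact (b.mono fun _ k => k.1).add (h8.mono fun _ k => by omega)
    · exact (h3.mono fun _ k => by omega).add (a.mono fun _ k => k.2)
    · exact (b.mono fun _ k => k.2).add (h11.mono fun _ k => by omega)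
    · exact (h5.mono fun _ k => by omega).add
        ((a.mono fun _ k => k.2).add (a'.mono fun _ k => k.2))
    · exact (b.mono fun _ k => k.2).add (b'.mono fun _ k => k.2)

end

theorem mv_one {S : GC (G × Zi) C} (hz : ∃ Z : C, 𝟙 Z = 0) (hc : S.Central) {W : Type w'}
    [MulAction (G × Zi) W] (hW : ∀ (z : Zi) (x : W), ((1 : G), z) • x = x) {n : ℕ}
    (P : Pf (G × Zi) W (Finset (Fin (n + 1))))
    (hloc : ∀ A : Set (Finset (Fin (n + 1))), A.Nonempty →
      ∀ (D E : S.LO W fun _ => True) (u : D ⟶ E), (S.lc _ (P.cap A).nr).CI 0 u →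
        (S.lc _ (P.cap A).nr).Tq 0 u) (M r : ℕ) :
    ∃ h, 2 ≤ h ∧ ∀ (D E : S.LO (Pt n W) fun y => ∀ j, y.t j ≤ M * h) (u : D ⟶ E),
      (S.lc _ (P.nv h).nr).CI r u → S.Tr ⊤ (A := D.A) u := by
  obtain ⟨T, -, H⟩ := mvInd hz hc hW hloc (∑ _j : Fin n, (M - 0) + 1) (r + 1) (by omega)
  refine ⟨2 * T + 2, by omega, fun D E u hu => ?_⟩
  have k (x : Pt n W) (a : ∀ j, x.t j ≤ M * (2 * T + 2)) :
      mvRn (2 * T + 2) T (fun _ => 0) (fun _ => M) x := fun j => by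
    have := a j
    simp only [mul_assoc]
    omega
  have := (H T _ le_rfl (by omega) _ _ (fun _ => Nat.zero_le _) (Nat.lt_succ_self _)
    (D.inc (D.on.mono k)) (E.inc (E.on.mono k)) u (mvCI hu (Nat.le_succ r))).tr
  exact tr_of_lg (P := D.inc (D.on.mono k)) this

end Pool.Agent.Lib.MP_5d3e93_al.Bg
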