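import Pool.Agent.Lib.MP_5d3e93_al.QT

/-! The torsion of a controlled self homotopy equivalence of a complex graded by parity. -/

open CategoryTheory

set_option linter.unusedSectionVars false

namespace Pool.Agent.Lib.MP_5d3e93_al.Bg

universe w v u

section Par
variable {C : Type u} [Category.{v} C] [Preadditive C] {X P : C} {π x y : X ⟶ X}

/-- Odd endomorphisms. -/
def TfO (π x : X ⟶ X) : Prop := π ≫ x = x - x ≫ π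

/-- Even endomorphisms. -/
def TfE (π x : X ⟶ X) : Prop := π ≫ x = x ≫ π

theorem TfO.zero : TfO π 0 := by simp [TfO]

theorem TfO.add (a : TfO π x) (b : TfO π y) : TfO π (x + y) := by
  unfold TfO at *
  simp only [Preadditive.add_comp, Preadditive.comp_add, a, b]
  abel

theorem TfO.neg (a : TfO π x) : TfO π (-x) := by
  unfold TfO at *
  simp only [Preadditive.neg_comp, Preadditive.comp_neg, a]
  abel

theorem TfO.sub (a : TfO π x) (b : TfO π y) : TfO π (x - y) := by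
  rw [sub_eq_add_neg]
  exact a.add b.neg

theorem TfE.zero : TfE π 0 := by simp [TfE]

theorem TfE.id : TfE π (𝟙 X) := by simp [TfE]

theorem TfE.add (a : TfE π x) (b : TfE π y) : TfE π (x + y) := by
  unfold TfE at *
  simp only [Preadditive.add_comp, Preadditive.comp_add, a, b]

theorem TfE.sub (a : TfE π x) (b : TfE π y) : TfE π (x - y) := by
  unfold TfE at *
  simp only [Preadditive.sub_comp, Preadditive.comp_sub, a, b]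

theorem TfE.ee (a : TfE π x) (b : TfE π y) : TfE π (x ≫ y) := by
  unfold TfE at *
  rw [reassoc_of% a, b, Category.assoc]

theorem TfO.oo (a : TfO π x) (b : TfO π y) : TfE π (x ≫ y) := by
  unfold TfO TfE at *
  rw [reassoc_of% a]
  simp [b]

theorem TfO.oe (a : TfO π x) (b : TfE π y) : TfO π (x ≫ y) := by
  unfold TfO TfE at *
  rw [reassoc_of% a]
  simp [b]

theorem TfE.eo (a : TfE π x) (b : TfO π y) : TfO π (x ≫ y) := by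
  unfold TfO TfE at *
  rw [reassoc_of% a]
  simp [b]

theorem tf_fix {d s N : X ⟶ X} (dd : d ≫ d = 0) (h : d ≫ s + s ≫ d = 𝟙 X + N) (nn : N ≫ N = 0) :
    d ≫ (s ≫ (𝟙 X - N)) + (s ≫ (𝟙 X - N)) ≫ d = 𝟙 X := by
  have c : N ≫ d = d ≫ N := by
    have a := congrArg (· ≫ d) h
    have b := congrArg (d ≫ ·) h
    simp only [Preadditive.add_comp, Preadditive.comp_add, Category.assoc, dd, reassoc_of% dd,
      Limits.comp_zero, Limits.zero_comp, add_zero, zero_add, Category.id_comp,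
      Category.comp_id] at a b
    exact add_left_cancel (a.symm.trans b)
  calc _ = (d ≫ s + s ≫ d) ≫ (𝟙 X - N) := by simp [c]; abel
    _ = 𝟙 X := by rw [h]; simp [nn]

theorem tf_dsd {d s : X ⟶ X} (dd : d ≫ d = 0) (h : d ≫ s + s ≫ d = 𝟙 X) : d ≫ s ≫ d = d := by
  simpa [dd] using congrArg (· ≫ d) h

theorem tf_sq {d s : X ⟶ X} (dd : d ≫ d = 0) (h : d ≫ s + s ≫ d = 𝟙 X) :
    d ≫ (s ≫ d ≫ s) + (s ≫ d ≫ s) ≫ d = 𝟙 X ∧ (s ≫ d ≫ s) ≫ s ≫ d ≫ s = 0 := by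
  have a := tf_dsd dd h
  have b : d ≫ s ≫ s ≫ d = 0 := by
    have k := congrArg (fun t => t ≫ s ≫ d) h
    simp only [Preadditive.add_comp, Category.assoc, a, Category.id_comp] at k
    exact left_eq_add.1 ((add_comm _ _).trans k).symm
  exact ⟨by simpa [a, reassoc_of% a] using h, by simp [reassoc_of% b]⟩

/-- A decomposition of an object into two copies of `P`. -/
structure TfS (X P : C) where
  j : P ⟶ X
  p : X ⟶ P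
  j' : P ⟶ X
  p' : X ⟶ P
  jp : j ≫ p = 𝟙 P
  jp' : j' ≫ p' = 𝟙 P
  z : j ≫ p' = 0
  z' : j' ≫ p = 0
  tot : p' ≫ j' = 𝟙 X - p ≫ j

namespace TfS

attribute [reassoc] jp jp' z z' tot

variable (σ : TfS X P)

theorem inv {τ : X ⟶ X} (h : τ ≫ τ = 𝟙 X) (o : TfO (σ.p ≫ σ.j) τ) :
    (σ.j ≫ τ ≫ σ.p') ≫ σ.j' ≫ τ ≫ σ.p = 𝟙 P ∧ (σ.j' ≫ τ ≫ σ.p) ≫ σ.j ≫ τ ≫ σ.p' = 𝟙 P := by
  have a : σ.j ≫ τ ≫ σ.p = 0 := by
    simpa [σ.jp, σ.jp_assoc] using congrArg (fun t => σ.j ≫ t ≫ σ.p) o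
  have b : σ.p ≫ σ.j ≫ τ ≫ σ.p' = τ ≫ σ.p' := by
    simpa [σ.z] using congrArg (· ≫ σ.p') o
  exact ⟨by simp [σ.tot_assoc, reassoc_of% h, σ.jp, a], by simp [b, reassoc_of% h, σ.jp']⟩

theorem conj {τ τ' a : X ⟶ X} (h : τ ≫ a = a ≫ τ') (e : TfE (σ.p ≫ σ.j) a) :
    (σ.j ≫ τ ≫ σ.p') ≫ σ.j' ≫ a ≫ σ.p' = (σ.j ≫ a ≫ σ.p) ≫ σ.j ≫ τ' ≫ σ.p' := by
  have b : σ.p ≫ σ.j ≫ a ≫ σ.p' = 0 := by simpa [σ.z] using congrArg (· ≫ σ.p') e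
  have c : σ.j ≫ a ≫ σ.p ≫ σ.j = σ.j ≫ a := by
    simpa [σ.jp_assoc] using (congrArg (σ.j ≫ ·) e).symm
  simp [σ.tot_assoc, b, reassoc_of% c, reassoc_of% h]

end TfS

end Par

variable {G : Type w} [Group G] {C : Type u} [Category.{v} C] [Preadditive C] {S : GC G C}
variable {X P Z : C}

theorem tf_unip {j : P ⟶ X} {p : X ⟶ P} (e : j ≫ p = 𝟙 P) (x : X ⟶ Z) (y : Z ⟶ X)
    (h : y ≫ p ≫ j ≫ x = 0) : S.Tr ⊤ (j ≫ (𝟙 X + x ≫ y) ≫ p) := by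
  have := GC.Tr.cyc (S := S) (H := ⊤) (X := -(j ≫ x)) (Y := y ≫ p) (S.sup_top _) (S.sup_top _)
    (by simpa [h] using GC.Tr.id)
  simpa [e] using this

/-- Two contractions with square zero give the same torsion. -/
theorem TfS.two (σ : TfS X P) {d s s' : X ⟶ X} (dd : d ≫ d = 0) (h : d ≫ s + s ≫ d = 𝟙 X)
    (h' : d ≫ s' + s' ≫ d = 𝟙 X) (ss : s ≫ s = 0) (ss' : s' ≫ s' = 0) (od : TfO (σ.p ≫ σ.j) d)
    (os : TfO (σ.p ≫ σ.j) s) (os' : TfO (σ.p ≫ σ.j) s') : ∃ a a' : P ⟶ P, S.Tr ⊤ a ∧ S.Tr ⊤ a' ∧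
      (σ.j ≫ (d + s) ≫ σ.p') ≫ a' = a ≫ σ.j ≫ (d + s') ≫ σ.p' := by
  have a := tf_dsd dd h
  have a' := tf_dsd dd h'
  have e : 𝟙 X + d ≫ s ≫ d ≫ (s' - s) = s ≫ d + d ≫ s' := by
    rw [reassoc_of% a, ← h, Preadditive.comp_sub]
    abel
  have c : d ≫ (s' - s) ≫ d = 0 := by simp [a, a']
  have k : d ≫ (s' - s) ≫ σ.p ≫ σ.j ≫ d = 0 := by
    have := congrArg (· ≫ d) (od.oo (os'.sub os))
    simp only [Category.assoc, c, Limits.comp_zero] at this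
    exact this.symm
  refine ⟨_, _, tf_unip σ.jp d (s ≫ d ≫ (s' - s)) ?_, tf_unip σ.jp' d (s ≫ d ≫ (s' - s)) ?_,
    σ.conj ?_ (.add .id (od.oo (os.oe (od.oo (os'.sub os)))))⟩
  · simp only [Category.assoc, k, Limits.comp_zero]
  · simp only [Category.assoc, σ.tot_assoc, Preadditive.sub_comp (𝟙 X), Category.id_comp]
    rw [Preadditive.comp_sub (s' - s), Preadditive.comp_sub d, c, k]
    simp
  · rw [e]
    simp [a, a', reassoc_of% dd, reassoc_of% ss, dd, ss']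

variable {e : P ⟶ P}

variable (S) in
/-- The two halves of a mapping cone. -/
def tfs (ee : e ≫ e = e) : TfS (S.sum P P) P where
  j := e ≫ S.inl P P + (𝟙 P - e) ≫ S.inr P P
  p := S.fst P P ≫ e + S.snd P P ≫ (𝟙 P - e)
  j' := (𝟙 P - e) ≫ S.inl P P + e ≫ S.inr P P
  p' := S.fst P P ≫ (𝟙 P - e) + S.snd P P ≫ e
  jp := by simp [ee]
  jp' := by simp [ee]
  z := by simp [ee]
  z' := by simp [ee]
  tot := by apply S.hom_ext <;> simp [reassoc_of% ee]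

theorem tfs_pj (ee : e ≫ e = e) : (tfs S ee).p ≫ (tfs S ee).j = S.blk e 0 0 (𝟙 P - e) := by
  apply S.hom_ext <;> simp [tfs, reassoc_of% ee]

theorem tf_blkO (ee : e ≫ e = e) {a b c d : P ⟶ P} (ha : TfO e a) (hb : TfE e b) (hc : TfE e c)
    (hd : TfO e d) : TfO ((tfs S ee).p ≫ (tfs S ee).j) (S.blk a b c d) := by
  unfold TfO TfE at *
  rw [tfs_pj]
  simp [S.blk_sub, ha, hb, hc, hd]

theorem tf_blkE (ee : e ≫ e = e) {b : P ⟶ P} (hb : TfO e b) :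
    TfE ((tfs S ee).p ≫ (tfs S ee).j) (S.blk 0 b 0 0) := by
  unfold TfO TfE at *
  rw [tfs_pj]
  simp [hb]

/-- The torsion of the cone of `U` is a controlled isomorphism with the class of `1 + W`. -/
theorem tf_core (Φ : S.CF) {D U V h k L W W' : P ⟶ P} (ce : Φ.Ct 0 e) (cD : Φ.Ct 0 D)
    (cU : Φ.Ct 1 U) (cV : Φ.Ct 1 V) (ch : Φ.Ct 2 h) (ck : Φ.Ct 2 k) (se : S.Sup {1} e)
    (sD : S.Sup {1} D) (ee : e ≫ e = e) (DD : D ≫ D = 0) (DU : D ≫ U = U ≫ D)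
    (DV : D ≫ V = V ≫ D) (UV : D ≫ h + h ≫ D = 𝟙 P - U ≫ V) (VU : D ≫ k + k ≫ D = 𝟙 P - V ≫ U)
    (oD : TfO e D) (eU : TfE e U) (eV : TfE e V) (oh : TfO e h) (ok : TfO e k) (oL : TfO e L)
    (hL : U = 𝟙 P + W + (D ≫ L + L ≫ D)) (eW : e ≫ W = W) (We : W ≫ e = W) (eW' : e ≫ W' = W')
    (W'e : W' ≫ e = W') (WD : W ≫ D = 0) (DW' : D ≫ W' = 0) (W'D : W' ≫ D = 0)
    (WW' : (𝟙 P + W) ≫ (𝟙 P + W') = 𝟙 P) (W'W : (𝟙 P + W') ≫ (𝟙 P + W) = 𝟙 P) :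
    ∃ θ a a' : P ⟶ P, Φ.CI 20 θ ∧ S.Tr ⊤ a ∧ S.Tr ⊤ a' ∧ θ ≫ a' = a ≫ (𝟙 P + W) := by
  let σ := tfs S ee
  have z : S.blk (0 : P ⟶ P) (0 : P ⟶ P) (0 : P ⟶ P) (0 : P ⟶ P) = 0 := by simp [GC.blk]
  obtain ⟨d, hd⟩ : ∃ d, d = S.blk (-D) U 0 D := ⟨_, rfl⟩
  obtain ⟨N, hN⟩ : ∃ N, N = S.blk (0 : P ⟶ P) (U ≫ k - h ≫ U) 0 (0 : P ⟶ P) := ⟨_, rfl⟩
  obtain ⟨s, hs⟩ : ∃ s, s = S.blk (-h) 0 V k ≫ (𝟙 _ - N) := ⟨_, rfl⟩
  have dd : d ≫ d = 0 := by simp [hd, DD, DU, z]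
  have od : TfO (σ.p ≫ σ.j) d := hd ▸ tf_blkO ee oD.neg eU .zero oD
  have cd : Φ.Ct 1 d := hd ▸ Φ.blk (Φ.neg (Φ.mono cD (by omega))) cU Φ.zero (Φ.mono cD (by omega))
  have os : TfO (σ.p ≫ σ.j) s := hs ▸ (tf_blkO ee oh.neg .zero eV ok).oe
    (.sub .id (hN ▸ tf_blkE ee ((eU.eo ok).sub (oh.oe eU))))
  have cs : Φ.Ct 5 s := hs ▸ Φ.comp (Φ.blk (Φ.neg ch) Φ.zero (Φ.mono cV (by omega)) ck)
    (Φ.sub Φ.id (hN ▸ Φ.blk Φ.zero (Φ.sub (Φ.comp cU ck) (Φ.comp' ch cU le_rfl)) Φ.zero Φ.zero))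
  have ds : d ≫ s + s ≫ d = 𝟙 _ := by
    rw [hs]
    refine tf_fix dd ?_ (by simp [hN, z])
    rw [hd, hN, ← S.blk_id, S.blk_comp, S.blk_comp, S.blk_add, S.blk_add]
    congr 1
    · rw [add_zero, eq_add_of_sub_eq UV.symm]
      simp
      abel
    · simp
      abel
    · simp [DV]
    · rw [add_zero, eq_add_of_sub_eq VU.symm]
      simp
      abel
  obtain ⟨h1, h2⟩ := tf_sq dd ds
  have o1 := os.oe (od.oo os)
  have c1 : Φ.Ct 11 (d + s ≫ d ≫ s) := Φ.add (Φ.mono cd (by omega)) (Φ.comp cs (Φ.comp cd cs))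
  generalize s ≫ d ≫ s = t at h1 h2 o1 c1
  have ce' := Φ.sub Φ.id ce
  have ci : Φ.CI 20 (σ.j ≫ (d + t) ≫ σ.p') := by
    obtain ⟨a, b⟩ := σ.inv (τ := d + t) (by simp [dd, h2, ← h1]; abel) (od.add o1)
    exact ⟨Φ.c0' (Φ.add (Φ.c0 ce Φ.inl) (Φ.c0 ce' Φ.inr)) (Φ.mono (Φ.c0 c1
        (Φ.add (Φ.c0 Φ.fst ce') (Φ.c0 Φ.snd ce))) (by omega)), _,
      Φ.c0' (Φ.add (Φ.c0 ce' Φ.inl) (Φ.c0 ce Φ.inr)) (Φ.mono (Φ.c0 c1
        (Φ.add (Φ.c0 Φ.fst ce) (Φ.c0 Φ.snd ce'))) (by omega)), a, b⟩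
  obtain ⟨b, hb⟩ : ∃ b, b = S.blk (𝟙 P) L 0 (𝟙 P) := ⟨_, rfl⟩
  obtain ⟨b', hb'⟩ : ∃ b, b = S.blk (𝟙 P) (-L) 0 (𝟙 P) := ⟨_, rfl⟩
  obtain ⟨d0, hd0⟩ : ∃ d, d = S.blk (-D) (𝟙 P + W) 0 D := ⟨_, rfl⟩
  obtain ⟨s0, hs0⟩ : ∃ s, s = S.blk (0 : P ⟶ P) 0 (𝟙 P + W') (0 : P ⟶ P) := ⟨_, rfl⟩
  have bb : b ≫ b' = 𝟙 _ := by simp [hb, hb']
  have bb' : b' ≫ b = 𝟙 _ := by simp [hb, hb']
  have b1 : b = 𝟙 _ + (S.fst P P ≫ L) ≫ S.inr P P := by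
    rw [hb]
    apply S.hom_ext <;> simp
  have eb : TfE (σ.p ≫ σ.j) b := by
    have : b = 𝟙 _ + S.blk 0 L 0 0 := by rw [hb, ← S.blk_id, S.blk_add]; simp
    exact this ▸ .add .id (tf_blkE ee oL)
  have eb' : TfE (σ.p ≫ σ.j) b' := by
    have : b' = 𝟙 _ + S.blk 0 (-L) 0 0 := by rw [hb', ← S.blk_id, S.blk_add]; simp
    exact this ▸ .add .id (tf_blkE ee oL.neg)
  have db : d ≫ b = b ≫ d0 := by
    rw [hd, hb, hd0, hL, S.blk_comp, S.blk_comp]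
    congr 1 <;> simp
    abel
  have db' : b' ≫ d = d0 ≫ b' := by
    simpa [bb, reassoc_of% bb'] using congrArg (fun t => b' ≫ t ≫ b') db
  have ds0 : d0 ≫ s0 + s0 ≫ d0 = 𝟙 _ := by
    rw [hd0, hs0, ← S.blk_id, S.blk_comp, S.blk_comp, S.blk_add, WW', W'W]
    congr 1 <;> simp [DW', W'D]
  have ss0 : s0 ≫ s0 = 0 := by simp [hs0, z]
  have os0 : TfO (σ.p ≫ σ.j) s0 := hs0 ▸ tf_blkO ee .zero .zero
    (.add .id (eW'.trans W'e.symm)) .zero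
  obtain ⟨a, a', ta, ta', e1⟩ := σ.two (S := S) (s' := b ≫ s0 ≫ b') dd h1 (by
      rw [reassoc_of% db, Category.assoc, Category.assoc, db', ← Preadditive.comp_add,
        ← Category.assoc d0, ← Category.assoc s0, ← Preadditive.add_comp, ds0, Category.id_comp, bb])
    h2 (by simp [reassoc_of% bb', reassoc_of% ss0]) od o1 (eb.eo (os0.oe eb'))
  have e2 := σ.conj (τ := d + b ≫ s0 ≫ b') (τ' := d0 + s0) (a := b) (by simp [db, bb']) eb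
  have t1 : S.Tr ⊤ (σ.j ≫ b ≫ σ.p) := b1 ▸ tf_unip σ.jp _ _ (by simp [σ, tfs, reassoc_of% ee])
  have t2 : S.Tr ⊤ (σ.j' ≫ b ≫ σ.p') := b1 ▸ tf_unip σ.jp' _ _ (by simp [σ, tfs, reassoc_of% ee])
  have De : D ≫ e = D - e ≫ D := by rw [oD]; abel
  have e3 : (σ.j ≫ (d0 + s0) ≫ σ.p') ≫ (𝟙 P - (D - e ≫ D - e ≫ D)) = 𝟙 P + W := by
    have : σ.j ≫ (d0 + s0) ≫ σ.p' = 𝟙 P + W + (D - e ≫ D - e ≫ D) := by
      simp [σ, tfs, hd0, hs0, De, ee, reassoc_of% ee, eW, We, eW', W'e]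
      abel
    rw [this]
    simp [reassoc_of% De, DD, WD, reassoc_of% We]
  have t3 : S.Tr ⊤ (𝟙 P - (D - e ≫ D - e ≫ D)) := by
    have n := (sD.sub (se.mul1 sD)).sub (se.mul1 sD)
    refine .one ⟨GC.id1.sub n, 𝟙 P + (D - e ≫ D - e ≫ D), by simpa using GC.id1.add n, ?_, ?_⟩ <;>
      simp [reassoc_of% De, DD]
  refine ⟨_, a ≫ σ.j ≫ b ≫ σ.p, a' ≫ (σ.j' ≫ b ≫ σ.p') ≫ _, ci, ta.comp t1,
    ta'.comp (t2.comp t3), ?_⟩
  rw [← Category.assoc, e1, Category.assoc a, Category.assoc a, ← Category.assoc _ _ (𝟙 P - _), e2,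
    Category.assoc _ _ (𝟙 P - _), e3]

end Pool.Agent.Lib.MP_5d3e93_al.Bg
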