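import Pool.Agent.Lib.MP_5d3e93_al.Tens
import Pool.Agent.Lib.MP_5d3e93_al.Bg.Nr
import Pool.Agent.Lib.MP_5d3e93_al.Bg.TrfA

/-! The transfer along a finite contractible complex with a controlled homotopy action. -/

open CategoryTheory Limits MulAction Matrix

namespace Pool.Agent.Lib.MP_5d3e93_al.Bg

universe w w' w'' v u

variable {C : Type u} [Category.{v} C] [Preadditive C] {G : Type w} [Group G]

/-- A finite sum of copies of an object. -/
structure TfP (S : GC G C) (A : C) (T : Type w'') [Fintype T] where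
  P : C
  i : T → (A ⟶ P)
  r : T → (P ⟶ A)
  si : ∀ x, S.Sup {1} (i x)
  sr : ∀ x, S.Sup {1} (r x)
  ir : ∀ x, i x ≫ r x = 𝟙 A
  orth : ∀ x y, x ≠ y → i x ≫ r y = 0
  tot : ∑ x, r x ≫ i x = 𝟙 P

namespace TfP

variable {S : GC G C} {A : C} {T : Type w''} [Fintype T]

theorem nonempty (hz : ∃ Z : C, 𝟙 Z = 0) : Nonempty (TfP S A T) := by
  obtain ⟨P, i, r, h1, h2, h3, h4, h5⟩ := S.orth hz (Fin (Fintype.card T)) fun _ => A
  let e := Fintype.equivFin T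
  exact ⟨P, fun x => i (e x), fun x => r (e x), fun x => h1 _, fun x => h2 _, fun x => h3 _,
    fun x y h => h4 _ _ (e.injective.ne h), (Equiv.sum_comp e fun x => r x ≫ i x).trans h5⟩

variable [DecidableEq T] (F : TfP S A T) (M N : Matrix T T ℤ) (x y : A ⟶ A)

theorem ir_comp {Z : C} (p q : T) (f : A ⟶ Z) : F.i p ≫ F.r q ≫ f = if p = q then f else 0 := by
  split_ifs with h
  · rw [h, reassoc_of% F.ir q]
  · rw [reassoc_of% F.orth p q h, zero_comp]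

theorem ir_ite (p q : T) : F.i p ≫ F.r q = if p = q then 𝟙 A else 0 := by
  simpa using F.ir_comp p q (𝟙 A)

/-- The tensor product of a matrix and an endomorphism. -/
def tn : F.P ⟶ F.P := ∑ p, ∑ q, M p q • (F.r p ≫ x ≫ F.i q)

theorem entry (p q : T) : F.i p ≫ F.tn M x ≫ F.r q = M p q • x := by
  simp [tn, Preadditive.sum_comp, Preadditive.comp_sum, F.ir_comp, F.ir_ite, comp_ite]

omit [DecidableEq T] in
theorem ext {f g : F.P ⟶ F.P} (h : ∀ p q, F.i p ≫ f ≫ F.r q = F.i p ≫ g ≫ F.r q) : f = g := by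
  rw [← Category.id_comp f, ← Category.id_comp g, ← Category.comp_id f, ← Category.comp_id g,
    ← F.tot]
  simp only [Preadditive.sum_comp, Preadditive.comp_sum, Category.assoc]
  exact Finset.sum_congr rfl fun q _ => Finset.sum_congr rfl fun p _ => by
    rw [reassoc_of% h p q]

theorem tn_mul : F.tn M x ≫ F.tn N y = F.tn (M * N) (x ≫ y) := F.ext fun p q => by
  rw [entry, ← Category.id_comp (F.tn N y), ← F.tot, mul_apply, Finset.sum_smul]
  simp only [Preadditive.sum_comp, Preadditive.comp_sum, Category.assoc]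
  refine Finset.sum_congr rfl fun k _ => ?_
  rw [entry, reassoc_of% F.entry M x p k]
  simp [smul_smul, mul_comm]

theorem tn_one : F.tn 1 (𝟙 A) = 𝟙 _ := F.ext fun p q => by
  rw [entry, Category.id_comp, ir_ite, one_apply]
  split_ifs <;> simp

theorem tn_add : F.tn (M + N) x = F.tn M x + F.tn N x := F.ext fun p q => by
  simp [entry, add_smul]

theorem tn_sub : F.tn (M - N) x = F.tn M x - F.tn N x := F.ext fun p q => by
  simp [entry, sub_smul]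

omit [DecidableEq T] in
theorem tn_zero : F.tn 0 x = 0 := by simp [tn]

/-- The tensor product as an additive map. -/
def tnH : (A ⟶ A) →+ (F.P ⟶ F.P) :=
  AddMonoidHom.mk' (F.tn M) fun a b => F.ext fun p q => by simp [entry]

/-- The tensor product with a family of matrices. -/
noncomputable def ph (φ : G → Matrix T T ℤ) : (A ⟶ A) →+ (F.P ⟶ F.P) := S.ex fun g => F.tnH (φ g)

theorem ph_cp (φ : G → Matrix T T ℤ) (g : G) : F.ph φ (S.cp g x) = F.tn (φ g) (S.cp g x) :=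
  GC.ex_cp _ _ _

omit [DecidableEq T] in
theorem tn_sup {X : Set G} (h : S.Sup X x) : S.Sup X (F.tn M x) :=
  .sum _ fun p _ => .sum _ fun q _ g hg => by
    rw [map_zsmul, GC.Sup.one_comp (F.sr p).cp_eq (h.comp_one (F.si q).cp_eq) g hg, smul_zero]

/-- The summands as locations. -/
def lo : S.Lo T F.P where
  e q := F.r q ≫ F.i q
  s := Finset.univ
  out _ h := (h (Finset.mem_univ _)).elim
  spl q := .inr ⟨A, F.i q, F.r q, F.si q, F.sr q, F.ir q, rfl⟩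
  orth p q h := by rw [Category.assoc, reassoc_of% F.orth p q h, zero_comp, comp_zero]
  total := F.tot

theorem tn_rg {Y : Type w'} (loc : T → Y) {R : Y → G → Y → Prop} {g : G} (h : S.Sup {g} x)
    (k : ∀ p q, M p q ≠ 0 → R (loc p) g (loc q)) :
    (F.lo.map loc).Rg (F.lo.map loc) R (F.tn M x) := by
  refine GC.Lo.Rg.map (R := fun p a q => R (loc p) a (loc q)) (fun p q => ?_) F.lo.on_true
    F.lo.on_true fun _ _ _ _ _ a => a
  change S.Sup _ ((F.r p ≫ F.i p) ≫ F.tn M x ≫ F.r q ≫ F.i q)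
  rw [Category.assoc, reassoc_of% F.entry M x p q]
  by_cases z : M p q = 0
  · simpa [z] using GC.Sup.zero
  · refine .one_comp (F.sr p).cp_eq (GC.Sup.comp_one (fun a ha => ?_) (F.si q).cp_eq)
    rw [map_zsmul, h a fun e => ha (e ▸ k p q z), smul_zero]

theorem tn_odd {ev : T → Prop} [DecidablePred ev] (h : ∀ p q, (ev p ↔ ev q) → M p q = 0) :
    TfO (F.tn (diagonal fun p => if ev p then 1 else 0) (𝟙 A)) (F.tn M x) := by
  rw [TfO, tn_mul, tn_mul, Category.id_comp, Category.comp_id, ← tn_sub]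
  congr 1
  ext p q
  by_cases a : ev p <;> by_cases b : ev q <;> simp [a, b, h p q]

theorem tn_even {ev : T → Prop} [DecidablePred ev] (h : ∀ p q, ¬ (ev p ↔ ev q) → M p q = 0) :
    TfE (F.tn (diagonal fun p => if ev p then 1 else 0) (𝟙 A)) (F.tn M x) := by
  rw [TfE, tn_mul, tn_mul, Category.id_comp, Category.comp_id]
  congr 1
  ext p q
  by_cases a : ev p <;> by_cases b : ev q <;> simp [a, b, h p q]

theorem tr_rank (ε b : T → ℤ) (h : b ⬝ᵥ ε = 1)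
    (k : S.Tr ⊤ (𝟙 _ + F.tn (vecMulVec ε b) (x - 𝟙 A))) : S.Tr ⊤ x := by
  have e1 : (∑ q, b q • F.i q) ≫ ∑ p, ε p • F.r p = 𝟙 A := by
    rw [← one_zsmul (𝟙 A), ← h, dotProduct, Finset.sum_smul]
    simp [Preadditive.sum_comp, Preadditive.comp_sum, F.ir_ite, smul_smul, mul_comm]
  have e2 : (∑ p, ε p • F.r p) ≫ (x - 𝟙 A) ≫ ∑ q, b q • F.i q =
      F.tn (vecMulVec ε b) (x - 𝟙 A) := by
    simp only [tn, vecMulVec_apply, Preadditive.sum_comp, Preadditive.comp_sum,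
      Preadditive.zsmul_comp, Preadditive.comp_zsmul, smul_smul, Finset.smul_sum]
    rw [Finset.sum_comm]
    simp only [mul_comm]
  have := GC.Tr.cyc (S := S) (H := ⊤) (X := -((x - 𝟙 A) ≫ ∑ q, b q • F.i q))
    (Y := ∑ p, ε p • F.r p) (S.sup_top _) (S.sup_top _)
    (by rwa [Preadditive.comp_neg, e2, sub_neg_eq_add])
  rw [Preadditive.neg_comp, Category.assoc, e1] at this
  simpa using this

section
variable {Y : Type w'} [MulAction G Y] {ν : Nv G Y} {Ω : Y → Prop} {B : Set G} (D : Td ν Ω B T)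

theorem ph_d : F.tn D.d (𝟙 A) ≫ F.ph D.φ x = F.ph D.φ x ≫ F.tn D.d (𝟙 A) :=
  GC.ind_all (S := S) (P := fun x => F.tn D.d (𝟙 A) ≫ F.ph D.φ x = F.ph D.φ x ≫ F.tn D.d (𝟙 A)) x
    (by simp) (fun a b ha hb => by simp [ha, hb]) fun g => by simp [ph_cp, tn_mul, D.dφ]

theorem ph_pi : F.ph D.φ x ≫ F.tn (vecMulVec D.ε D.b) (𝟙 A) = F.tn (vecMulVec D.ε D.b) x :=
  GC.ind_all (S := S) (P := fun x => F.ph D.φ x ≫ F.tn (vecMulVec D.ε D.b) (𝟙 A) =
    F.tnH (vecMulVec D.ε D.b) x) x (by simp) (fun a b ha hb => by simp [ha, hb]) fun g => by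
      rw [ph_cp, tn_mul, mul_vecMulVec, D.φε, Category.comp_id]
      rfl

theorem ph_even [DecidablePred D.ev] :
    TfE (F.tn (diagonal fun p => if D.ev p then 1 else 0) (𝟙 A)) (F.ph D.φ x) :=
  GC.ind_all (S := S) (P := fun x => TfE _ (F.ph D.φ x)) x (by simpa using TfE.zero)
    (fun a b ha hb => by simpa using ha.add hb) fun g => by
      rw [ph_cp]
      exact F.tn_even _ _ (D.evφ g)

variable {x y}

theorem ph_rg (h : S.Sup B x) : (F.lo.map D.loc).Rg (F.lo.map D.loc)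
    (fun a g b => ν.n 1 a (g • b)) (F.ph D.φ x) :=
  h.induction (P := fun x => (F.lo.map D.loc).Rg (F.lo.map D.loc) _ (F.ph D.φ x))
    (by simpa using GC.Lo.Rg.zero) (fun a b ha hb => by simpa using ha.add hb) fun g hg => by
      rw [ph_cp]
      exact F.tn_rg _ _ _ (.of_cp (S.cp_same g x) rfl) (D.cφ g hg)

theorem ph_mul [DecidablePred D.ev] (h : S.Sup B x) (k : S.Sup B y) : ∃ K : F.P ⟶ F.P,
    (F.lo.map D.loc).Rg (F.lo.map D.loc) (fun a g b => ν.n 2 a (g • b)) K ∧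
      TfO (F.tn (diagonal fun p => if D.ev p then 1 else 0) (𝟙 A)) K ∧
      F.tn D.d (𝟙 A) ≫ K + K ≫ F.tn D.d (𝟙 A) = F.ph D.φ (x ≫ y) - F.ph D.φ x ≫ F.ph D.φ y := by
  let Q : (A ⟶ A) → (A ⟶ A) → Prop := fun x y => ∃ K : F.P ⟶ F.P,
    (F.lo.map D.loc).Rg (F.lo.map D.loc) (fun a g b => ν.n 2 a (g • b)) K ∧
      TfO (F.tn (diagonal fun p => if D.ev p then 1 else 0) (𝟙 A)) K ∧
      F.tn D.d (𝟙 A) ≫ K + K ≫ F.tn D.d (𝟙 A) = F.ph D.φ (x ≫ y) - F.ph D.φ x ≫ F.ph D.φ y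
  refine h.induction (P := fun x => Q x y) ⟨0, .zero, .zero, by simp⟩ ?_ fun g hg =>
    k.induction (P := fun y => Q (S.cp g x) y) ⟨0, .zero, .zero, by simp⟩ ?_ fun g' hg' => ?_
  · rintro a b ⟨K, a1, a2, a3⟩ ⟨K', b1, b2, b3⟩
    refine ⟨K + K', a1.add b1, a2.add b2, ?_⟩
    simp only [Preadditive.add_comp, Preadditive.comp_add, map_add]
    rw [add_add_add_comm, a3, b3]
    abel
  · rintro a b ⟨K, a1, a2, a3⟩ ⟨K', b1, b2, b3⟩
    refine ⟨K + K', a1.add b1, a2.add b2, ?_⟩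
    simp only [Preadditive.add_comp, Preadditive.comp_add, map_add]
    rw [add_add_add_comm, a3, b3]
    abel
  · have e := S.cp_comp (S.cp_same g x) (S.cp_same g' y)
    refine ⟨F.tn (D.H g g') (S.cp g x ≫ S.cp g' y), F.tn_rg _ _ _ (.of_cp e rfl) (D.cH g hg g' hg'),
      F.tn_odd _ _ fun p q a => (D.od p q a).2.2.2 g g', ?_⟩
    rw [← e, ph_cp, e, ph_cp, ph_cp, tn_mul, tn_mul, tn_mul, Category.id_comp, Category.comp_id,
      ← tn_add, ← tn_sub, D.φφ]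

theorem ph_inv [DecidablePred D.ev] (h : S.Sup B x) (k : S.Sup B y) (e : x ≫ y = 𝟙 A) :
    ∃ K : F.P ⟶ F.P, (F.lo.map D.loc).Rg (F.lo.map D.loc) (fun a g b => ν.n 2 a (g • b)) K ∧
      TfO (F.tn (diagonal fun p => if D.ev p then 1 else 0) (𝟙 A)) K ∧
      F.tn D.d (𝟙 A) ≫ K + K ≫ F.tn D.d (𝟙 A) = 𝟙 _ - F.ph D.φ x ≫ F.ph D.φ y := by
  obtain ⟨K, a1, a2, a3⟩ := F.ph_mul D h k
  refine ⟨F.tn D.η (𝟙 A) + K, (F.tn_rg _ _ _ GC.id1 fun p q a => ?_).add a1,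
    (F.tn_odd _ _ fun p q a => (D.od p q a).2.1).add a2, ?_⟩
  · rw [one_smul]
    exact ν.mono (D.cd p q (.inr a)) (by omega)
  · simp only [Preadditive.add_comp, Preadditive.comp_add]
    rw [add_add_add_comm, a3, e, ← S.cp_id, ph_cp, S.cp_id, tn_mul, tn_mul, Category.id_comp,
      ← tn_add, ← D.φ1, tn_sub, tn_one]
    abel

theorem pi_inv (e : x ≫ y = 𝟙 A) : (𝟙 _ + F.tn (vecMulVec D.ε D.b) (x - 𝟙 A)) ≫
    (𝟙 _ + F.tn (vecMulVec D.ε D.b) (y - 𝟙 A)) = 𝟙 _ := by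
  simp only [Preadditive.add_comp, Preadditive.comp_add, Category.id_comp, Category.comp_id]
  rw [tn_mul, vecMulVec_mul_vecMulVec, D.bε, one_smul]
  change _ + F.tnH _ _ + (F.tnH _ _ + F.tnH _ _) = _
  rw [add_assoc, ← map_add, ← map_add]
  simp [e]
  abel

theorem pi_fix [DecidablePred D.ev] (x : A ⟶ A) :
    F.tn (diagonal fun p => if D.ev p then 1 else 0) (𝟙 A) ≫ F.tn (vecMulVec D.ε D.b) x =
      F.tn (vecMulVec D.ε D.b) x ∧ F.tn (vecMulVec D.ε D.b) x ≫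
        F.tn (diagonal fun p => if D.ev p then 1 else 0) (𝟙 A) = F.tn (vecMulVec D.ε D.b) x ∧
      F.tn D.d (𝟙 A) ≫ F.tn (vecMulVec D.ε D.b) x = 0 ∧
        F.tn (vecMulVec D.ε D.b) x ≫ F.tn D.d (𝟙 A) = 0 := by
  simp only [tn_mul, Category.id_comp, Category.comp_id]
  refine ⟨congrArg (F.tn · x) ?_, congrArg (F.tn · x) ?_, ?_, ?_⟩
  · ext p q
    by_cases a : D.ev p <;> simp [a, vecMulVec_apply, D.evε p]
  · ext p q
    by_cases a : D.ev q <;> simp [a, vecMulVec_apply, D.evε q]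
  · rw [mul_vecMulVec, D.dε, zero_vecMulVec, tn_zero]
  · rw [vecMulVec_mul, D.bd, vecMulVec_zero, tn_zero]

theorem ph_htpy (x : A ⟶ A) : F.ph D.φ x = 𝟙 _ + F.tn (vecMulVec D.ε D.b) (x - 𝟙 A) +
    (F.tn D.d (𝟙 A) ≫ (F.ph D.φ x - 𝟙 _) ≫ F.tn D.κ (𝟙 A) +
      ((F.ph D.φ x - 𝟙 _) ≫ F.tn D.κ (𝟙 A)) ≫ F.tn D.d (𝟙 A)) := by
  have a : F.tn D.d (𝟙 A) ≫ (F.ph D.φ x - 𝟙 _) = (F.ph D.φ x - 𝟙 _) ≫ F.tn D.d (𝟙 A) := by
    simp [F.ph_d x D]
  have b : F.tn (vecMulVec D.ε D.b) (x - 𝟙 A) =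
      F.tn (vecMulVec D.ε D.b) x - F.tn (vecMulVec D.ε D.b) (𝟙 A) := map_sub (F.tnH _) _ _
  rw [reassoc_of% a, Category.assoc, ← Preadditive.comp_add, tn_mul, tn_mul, Category.id_comp,
    ← tn_add, ← D.con, tn_sub, tn_one, b]
  simp [F.ph_pi x D]

end

end TfP

theorem tr_of_td {S : GC G C} (hz : ∃ Z : C, 𝟙 Z = 0) {Y : Type w'} [MulAction G Y] {ν : Nv G Y}
    {Ω : Y → Prop} {F : Set G} {T : Type w''} [Fintype T] [DecidableEq T] (D : Td ν Ω F T)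
    (hT : ∀ (P Q : S.LO Y Ω) (θ : P ⟶ Q), (S.lc Ω ν.nr).CI 20 θ → S.Tr ⊤ (A := P.A) θ)
    {A : C} {u v : A ⟶ A} (hu : S.Sup F u) (hv : S.Sup F v) (e1 : u ≫ v = 𝟙 A)
    (e2 : v ≫ u = 𝟙 A) : S.Tr ⊤ u := by
  classical
  obtain ⟨M⟩ := TfP.nonempty (S := S) (A := A) (T := T) hz
  let P : S.LO Y Ω := ⟨M.P, M.lo.map D.loc, M.lo.on_true.map fun q _ => D.on q⟩
  obtain ⟨h, h1, h2, h3⟩ := M.ph_inv D hu hv e1
  obtain ⟨k, k1, k2, k3⟩ := M.ph_inv D hv hu e2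
  obtain ⟨a1, a2, -, a4⟩ := M.pi_fix D (u - 𝟙 A)
  obtain ⟨b1, b2, b3, b4⟩ := M.pi_fix D (v - 𝟙 A)
  have ce := M.tn_rg (diagonal fun p => if D.ev p then 1 else 0) (𝟙 A) D.loc
    (R := fun a g b => ν.n 0 a (g • b)) GC.id1 fun p q a => by
      obtain rfl : p = q := by_contra fun n => a (diagonal_apply_ne _ n)
      rw [one_smul]
      exact ν.refl _ _
  have cd := M.tn_rg D.d (𝟙 A) D.loc (R := fun a g b => ν.n 0 a (g • b)) GC.id1 fun p q a => by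
    rw [one_smul]
    exact D.cd p q (.inl a)
  have ee : M.tn (diagonal fun p => if D.ev p then 1 else 0) (𝟙 A) ≫
      M.tn (diagonal fun p => if D.ev p then 1 else 0) (𝟙 A) =
      M.tn (diagonal fun p => if D.ev p then 1 else 0) (𝟙 A) := by
    rw [M.tn_mul, Category.id_comp, diagonal_mul_diagonal]
    congr 2
    ext p
    split_ifs <;> simp
  have dd : M.tn D.d (𝟙 A) ≫ M.tn D.d (𝟙 A) = 0 := by rw [M.tn_mul, D.dd, M.tn_zero]
  obtain ⟨θ, a, a', c, ta, ta', e⟩ := tf_core (S := S.lg Y Ω) (P := P) (S.lc Ω ν.nr) ce cd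
    (M.ph_rg D hu) (M.ph_rg D hv) h1 k1 (M.tn_sup _ _ GC.id1) (M.tn_sup _ _ GC.id1) ee dd
    (M.ph_d u D) (M.ph_d v D) h3 k3 (M.tn_odd _ _ fun p q a => (D.od p q a).1) (M.ph_even u D)
    (M.ph_even v D) h2 k2
    (((M.ph_even u D).sub .id).eo (M.tn_odd _ _ fun p q a => (D.od p q a).2.2.1))
    (M.ph_htpy D u) a1 a2 b1 b2 a4 b3 b4 (M.pi_inv D e1) (M.pi_inv D e2)
  have t := (hT P P θ c).comp (GC.tr_of_lg ta')
  have e' : (θ : M.P ⟶ M.P) ≫ (a' : M.P ⟶ M.P) =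
      (a : M.P ⟶ M.P) ≫ (𝟙 M.P + M.tn (vecMulVec D.ε D.b) (u - 𝟙 A)) := e
  exact M.tr_rank u D.ε D.b D.bε ((GC.tr_of_lg ta).cancel_left (e' ▸ t))

end Pool.Agent.Lib.MP_5d3e93_al.Bg
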