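import Pool.Agent.Lib.MP_5d3e93_al.Bg.Loc
import Pool.Agent.Lib.MP_5d3e93_al.Bg.Mv
import Pool.Agent.Lib.MP_5d3e93_al.Bg.Trf
import Pool.Agent.Lib.MP_5d3e93_al.Bg.Geo
import Pool.Agent.Lib.MP_5d3e93_al.Bg.Lin
import Pool.Agent.Lib.MP_5d3e93_al.De

/-! Vanishing for actions on lattices with a shift and for linear groups. -/

open CategoryTheory Limits MulAction

namespace Pool.Agent.Lib.MP_5d3e93_al.Bg

universe w w' v u

variable {C : Type u} [Category.{v} C] [Preadditive C] {G : Type w} [Group G]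
variable [HasBinaryBiproducts C] [HasZeroObject C] {σ : Act G C} (hs : Sw σ)
include hs

theorem k1_lat {X : Type w'} [Lattice X] [Nonempty X] (B : Bl X) [MulAction G X] [hB : B.Ac G]
    (hX : ∀ x : X, LocHyper (stabilizer G x)) : K1Zero (TwZ σ) := by
  refine K1_of_W' hs.k0 (Subgroup.subtype_injective ⊥) (hs.av (⊥ : Subgroup G) 1 inferInstance _)
    ((ok hs.k0).W ?_)
  rintro A u ⟨-, v, -, e, e'⟩
  let _ : MulAction (G × Zi) X := MulAction.compHom X (MonoidHom.fst G Zi)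
  have : B.Ac (G × Zi) := ⟨fun g => hB.hm g.1, fun g => hB.hπ g.1, fun g => hB.hc g.1⟩
  obtain ⟨h, a, b⟩ := mv_one (ok hs.k0).hz (ok hs.k0).hc (W := Finset (Fin (B.n + 1)) → YL B (B.n + 2))
    (fun z x => funext fun L => one_smul G (x L)) (YL.pf B (G × Zi) (B.n + 2) _)
    (fun A k D E u => loc_words hs B (fun _ _ => rfl) hX k) (4 * B.n + 6) 20
  obtain ⟨T, _, _, ⟨D⟩⟩ := B.td (((SZ σ).fin u).union ((SZ σ).fin v)) a
  exact tr_of_td (ok hs.k0).hz D b (fun g k => by_contra fun l => k (.inl l))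
    (fun g k => by_contra fun l => k (.inr l)) e e'

theorem k1_lin {k : Type*} {K : Type w'} [Field k] [Field K] [Algebra k K] {n : ℕ}
    (φ : G →* GL (Fin n) K) (h : ∀ N : Subgroup G, Module.Finite k (Submodule.span k
      ((fun g => (φ g : Matrix (Fin n) (Fin n) K)) '' N)) → LocHyper N) : K1Zero (TwZ σ) :=
  lin_of_lat hs φ h fun hs _ _ _ B _ _ hX => k1_lat hs B hX

end Pool.Agent.Lib.MP_5d3e93_al.Bg
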