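import Pool.Agent.Lib.MP_5d3e93_al.Bg.Opi

/-! Orders with directed families of towers. -/

namespace Pool.Agent.Lib.MP_5d3e93_al.Bg

universe w w' w''

variable {Γ : Type w} [Group Γ] {κ : Type}

/-- Directed families of towers with a common order. -/
structure Tq (χ : κ → Γ → ℤ) (s : κ → ℤ) (Y : Type w') [MulAction Γ Y] where
  T : ℤ → Twr χ s Y
  le : ∀ N N' {p q}, (T N).Le p q → (T N').Le p q
  lo : ∀ {N d p}, (T (N + 1)).Bx d p → (T N).Bx (d + 1) p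
  ex : ∀ p, ∃ N d, (T N).Bx d p
  sBk : ∀ N (g : Γ) (m : ℤ), (∀ c, χ c g = m * s c) → ∀ {d q r}, (T N).Bk d q r →
    (T N).Bk d (g • q.1, m + q.2) (g • r.1, m + r.2)
  cp : ∀ {N d p q q' r r'}, (T N).Le q q' → q'.2 = q.2 → (T N).Bk d q r → (T N).Bk d q' r' →
    (T N).Le p r → (T N).Le p r' → (T N).Le r r'
  pot : ∀ N d, ∃ (μ : Y × ℤ → ℤ) (M : ℕ), (∀ p, (T N).Bx d p → |μ p| ≤ M) ∧
    ∀ p q, (T N).Le p q → q.2 = p.2 → p = q ∨ μ p < μ q

/-- Orders with potentials and directed families of towers in all directions. -/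
structure Oq (Γ : Type w) [Group Γ] (Y : Type w') [Preorder Y] [MulAction Γ Y] (κ : Type) where
  χ : κ → Γ → ℤ
  mul : ∀ c a b, χ c (a * b) = χ c a + χ c b
  hm : ∀ (g : Γ) (x y : Y), x ≤ y → g • x ≤ g • y
  flat : ∃ l : Y → ℤ, ∀ (g : Γ) x y, (∀ c, χ c g = 0) → x ≤ g • y →
    l x ≤ l y ∧ (l x = l y → x = g • y)
  line : ∀ s : κ → ℤ, ∃ l : Y × ℤ → ℤ,
    (∀ (g : Γ) (m : ℤ), (∀ c, χ c g = m * s c) → ∀ p : Y × ℤ, l (g • p.1, m + p.2) = l p) ∧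
    (∀ p q : Y × ℤ, p.1 ≤ q.1 → q.2 = p.2 ∨ q.2 = p.2 + 1 → l p ≤ l q) ∧
    ((∀ p q : Y × ℤ, p.1 ≤ q.1 → q.2 = p.2 + 1 → l p < l q) ∨ ∃ T : Tq χ s Y,
      ∀ p q : Y × ℤ, p.1 ≤ q.1 → q.2 = p.2 ∨ q.2 = p.2 + 1 → l p = l q → (T.T 0).Le p q)

variable {Y : Type w'} [MulAction Γ Y] {χ : κ → Γ → ℤ} {s : κ → ℤ}

theorem Tq.box (T : Tq χ s Y) {N N' : ℤ} {d d' : ℕ} (h : N' ≤ N) (k : N + d ≤ N' + d') {p}
    (a : (T.T N).Bx d p) : (T.T N').Bx d' p := by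
  obtain ⟨j, rfl⟩ : ∃ j : ℕ, N = N' + j := ⟨(N - N').toNat, by omega⟩
  refine (T.T N').mono' (show d + j ≤ d' by omega) ?_
  clear h k
  induction j generalizing d with
  | zero => simpa using a
  | succ j ih =>
    rw [Nat.cast_succ, ← add_assoc] at a
    rw [show d + (j + 1) = d + 1 + j by omega]
    exact ih (T.lo a)

theorem Tq.two (T : Tq χ s Y) (p q : Y × ℤ) :
    ∃ n : ℕ, (T.T (-n)).Bx (2 * n) p ∧ (T.T (-n)).Bx (2 * n) q := by
  obtain ⟨N, d, a⟩ := T.ex p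
  obtain ⟨N', d', b⟩ := T.ex q
  exact ⟨N.natAbs + d + N'.natAbs + d', T.box (by omega) (by omega) a,
    T.box (by omega) (by omega) b⟩

/-- Restriction of a tower. -/
def Twr.cmp (T : Twr χ s Y) {Γ' : Type w''} [Group Γ'] [MulAction Γ' Y] (j : Γ' →* Γ)
    (hj : ∀ (g : Γ') (y : Y), g • y = j g • y) : Twr (fun c g => χ c (j g)) s Y :=
  ⟨T.Le, T.Bx, T.Bk, T.refl, T.trans, fun g m h _ _ k => by rw [hj, hj]; exact T.sLe _ m h k,
    fun g m h _ _ k => by rw [hj]; exact T.sBx _ m h k, T.mono, T.ex, T.bk, T.un, T.u0⟩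

/-- The product of families of towers. -/
def Tq.pi {I : Type} [Fintype I] {Z : I → Type w'} [∀ i, MulAction Γ (Z i)] {κ : I → Type}
    {χ : ∀ i, κ i → Γ → ℤ} {s : (Σ i, κ i) → ℤ} (T : ∀ i, Tq (χ i) (fun c => s ⟨i, c⟩) (Z i)) :
    Tq (fun c : Σ i, κ i => χ c.1 c.2) s (∀ i, Z i) where
  T N := Twr.pi fun i => (T i).T N
  le N N' _ _ h i := (T i).le N N' (h i)
  lo h i := (T i).lo (h i)
  ex p := by
    choose n h using fun i => (T i).two (p.1 i, p.2) (p.1 i, p.2)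
    refine ⟨-(Finset.univ.sup n : ℕ), 2 * Finset.univ.sup n, fun i => ?_⟩
    have := Finset.le_sup (f := n) (Finset.mem_univ i)
    exact (T i).box (by omega) (by omega) (h i).1
  sBk N g m h _ _ _ k := ⟨fun i => (T i).sBk N g m (fun c => h ⟨i, c⟩) (k.1 i),
    congrArg (m + ·) k.2⟩
  cp a e b b' c c' i := (T i).cp (a i) e (b.1 i) (b'.1 i) (c i) (c' i)
  pot N d := by
    choose μ M h1 h2 using fun i => (T i).pot N d
    refine ⟨fun p => ∑ i, μ i (p.1 i, p.2), ∑ i, M i, fun p a =>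
      (Finset.abs_sum_le_sum_abs ..).trans ?_, fun p q a e => ?_⟩
    · push_cast
      exact Finset.sum_le_sum fun i _ => h1 i _ (a i)
    · have k := fun i => h2 i _ _ (a i) e
      by_cases c : ∀ i, p.1 i = q.1 i
      · exact .inl (Prod.ext (funext c) e.symm)
      obtain ⟨i, c⟩ := not_forall.1 c
      exact .inr (Finset.sum_lt_sum (fun i _ => (k i).elim (fun u => (congrArg _ u).le) le_of_lt)
        ⟨i, Finset.mem_univ i, (k i).resolve_left fun u => c (congrArg Prod.fst u)⟩)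

variable [Preorder Y]

theorem Oq.comap (P : Oq Γ Y κ) {Γ' : Type w''} [Group Γ'] [MulAction Γ' Y] (j : Γ' →* Γ)
    (hj : ∀ (g : Γ') (y : Y), g • y = j g • y) :
    ∃ Q : Oq Γ' Y κ, ∀ c g, Q.χ c g = P.χ c (j g) := by
  refine ⟨⟨fun c g => P.χ c (j g), fun c a b => by rw [map_mul, P.mul], fun g x y h => ?_, ?_,
    fun s => ?_⟩, fun _ _ => rfl⟩
  · rw [hj, hj]
    exact P.hm _ _ _ h
  · obtain ⟨l, hl⟩ := P.flat
    exact ⟨l, fun g x y h k => by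
      rw [hj] at k ⊢
      exact hl _ _ _ h k⟩
  · obtain ⟨l, h1, h2, h3⟩ := P.line s
    refine ⟨l, fun g m h p => by rw [hj]; exact h1 _ m h p, h2, h3.imp_right fun ⟨T, h⟩ =>
      ⟨⟨fun N => (T.T N).cmp j hj, T.le, T.lo, T.ex, fun N g m k _ _ _ a => ?_, T.cp, T.pot⟩, h⟩⟩
    rw [hj, hj]
    exact T.sBk N _ m k a

theorem Oq.pi {I : Type} [Fintype I] {Z : I → Type w'} [∀ i, Preorder (Z i)]
    [∀ i, MulAction Γ (Z i)] {κ : I → Type} (P : ∀ i, Oq Γ (Z i) (κ i)) :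
    Nonempty (Oq Γ (∀ i, Z i) (Σ i, κ i)) := by
  classical
  refine ⟨⟨fun c => (P c.1).χ c.2, fun c => (P c.1).mul c.2,
    fun g x y h i => (P i).hm g _ _ (h i), ?_, fun s => ?_⟩⟩
  · choose l hl using fun i => (P i).flat
    refine ⟨fun y => ∑ i, l i (y i), fun g x y h k => ?_⟩
    have h1 := fun i => hl i g (x i) (y i) (fun c => h ⟨i, c⟩) (k i)
    exact ⟨Finset.sum_le_sum fun i _ => (h1 i).1, fun e => funext fun i => (h1 i).2
      ((Finset.sum_eq_sum_iff_of_le fun i _ => (h1 i).1).1 e i (Finset.mem_univ i))⟩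
  · choose l h1 h2 h3 using fun i => (P i).line fun c => s ⟨i, c⟩
    have k (p q : (∀ i, Z i) × ℤ) (a : p.1 ≤ q.1) (e : q.2 = p.2 ∨ q.2 = p.2 + 1) (i) :=
      h2 i (p.1 i, p.2) (q.1 i, q.2) (a i) e
    refine ⟨fun p => ∑ i, l i (p.1 i, p.2), fun g m h p => Finset.sum_congr rfl fun i _ =>
      h1 i g m (fun c => h ⟨i, c⟩) (p.1 i, p.2), fun p q a e =>
        Finset.sum_le_sum fun i _ => k p q a e i, ?_⟩
    by_cases c : ∃ i, ∀ p q : Z i × ℤ, p.1 ≤ q.1 → q.2 = p.2 + 1 → l i p < l i q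
    · obtain ⟨i, c⟩ := c
      exact .inl fun p q a e => Finset.sum_lt_sum (fun i _ => k p q a (.inr e) i)
        ⟨i, Finset.mem_univ i, c _ _ (a i) e⟩
    · choose T h using fun i => (h3 i).resolve_left fun u => c ⟨i, u⟩
      exact .inr ⟨Tq.pi T, fun p q a e u i => h i _ _ (a i) e
        ((Finset.sum_eq_sum_iff_of_le fun i _ => k p q a e i).1 u i (Finset.mem_univ i))⟩

end Pool.Agent.Lib.MP_5d3e93_al.Bg
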