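import Pool.Agent.Lib.MP_5d3e93_al.PrB
import Pool.Agent.Lib.MP_5d3e93_al.TreeMain

/-! Swindles for a family of subgroups, and tame subgroups. -/

open CategoryTheory Limits

namespace Pool.Agent.Lib.MP_5d3e93_al

universe w w' v u

variable {G : Type w} [Group G] {C : Type u} [Category.{v} C] [Preadditive C]
variable {σ : Act G C} {P Q : G → Prop}

theorem Swd.mono (h : Swd σ P) (k : ∀ g, Q g → P g) : Swd σ Q := by
  obtain ⟨Φ, b, i, r, i', r', c, d, e⟩ := h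
  exact ⟨Φ, b, i, r, i', r', c, d, fun g l => e g (k g l)⟩

theorem Swd.comap (h : Swd σ P) {Γ : Type*} [Group Γ] (j : Γ →* G) :
    Swd (σ.comap j) fun g => P (j g) := by
  obtain ⟨Φ, b, i, r, i', r', c, d, e⟩ := h
  exact ⟨Φ, b, i, r, i', r', c, d, fun g l => e (j g) l⟩

theorem Swd.act (h : Swd σ P) {Z : Type w'} [Preorder Z] [MulAction G Z]
    (hm : ∀ (g : G) (x y : Z), x ≤ y → g • x ≤ g • y) : Swd (Lc.act σ hm) P := by
  obtain ⟨Φ, b, i, r, i', r', c, d, e⟩ := h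
  have n1 {A B : C} (f : A ⟶ B) : f ≫ i B = i A ≫ Φ.map f := by
    obtain ⟨d1, d2, -, -⟩ := d A B f
    rw [← Category.comp_id (Φ.map f), ← c]
    simp [reassoc_of% d1, reassoc_of% d2]
  have n2 {A B : C} (f : A ⟶ B) : Φ.map f ≫ r B = r A ≫ f := by
    obtain ⟨d1, -, d3, -⟩ := d A B f
    rw [← Category.id_comp (Φ.map f), ← c]
    simp [d1, d3]
  have n3 {A B : C} (f : A ⟶ B) : Φ.map f ≫ i' B = i' A ≫ Φ.map f := by
    obtain ⟨-, -, d3, d4⟩ := d A B f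
    conv_rhs => rw [← Category.comp_id (Φ.map f), ← c]
    simp [reassoc_of% d3, reassoc_of% d4]
  have n4 {A B : C} (f : A ⟶ B) : Φ.map f ≫ r' B = r' A ≫ Φ.map f := by
    obtain ⟨-, d2, -, d4⟩ := d A B f
    conv_lhs => rw [← Category.id_comp (Φ.map f), ← c]
    simp [d2, d4]
  refine ⟨Lc.ind Φ b id ⟨Function.bijective_id, fun _ _ => id⟩, Lc.ind_add ..,
    fun X => ⟨i X.A, Lc.mn_diag fun _ => n1 _⟩, fun X => ⟨r X.A, Lc.mn_diag fun _ => n2 _⟩,
    fun X => ⟨i' X.A, Lc.mn_diag fun _ => n3 _⟩, fun X => ⟨r' X.A, Lc.mn_diag fun _ => n4 _⟩,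
    fun X => Lc.ext (c X.A), fun X Y f => ?_, fun g k => ?_⟩
  · obtain ⟨d1, d2, d3, d4⟩ := d _ _ f.1
    exact ⟨Lc.ext d1, Lc.ext d2, Lc.ext d3, Lc.ext d4⟩
  · obtain ⟨e1, e2⟩ := e g k
    have := σ.additive g
    have e3 : (Lc.act σ hm).F g ⋙ Lc.ind Φ b id ⟨Function.bijective_id, fun _ _ => id⟩ =
        Lc.ind Φ b id ⟨Function.bijective_id, fun _ _ => id⟩ ⋙ (Lc.act σ hm).F g :=
      Lc.ind_congr (f := (g⁻¹ • ·)) (f' := (g⁻¹ • ·)) e1 rfl inferInstance (Lc.inv_ok hm g)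
        inferInstance (Lc.inv_ok hm g)
    exact ⟨e3, fun X => ⟨Lc.heq_of (Functor.congr_obj e3 X).symm rfl (e2 X.A).1,
      Lc.heq_of (Functor.congr_obj e3 X).symm (Functor.congr_obj e3 X).symm (e2 X.A).2⟩⟩

open Classical in
theorem obs_swd {S : Type w'} [MulAction G S] (ρ : Act G C) (s : S) :
    Swd (Obs.act S ρ) fun g => g • s = s := by
  refine ⟨Obs.swF s, inferInstance, _, _, _, _, Obs.sw_total s, fun _ _ => Obs.sw_nat s,
    fun g hg => ?_⟩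
  have e (X : Obs S C) : (fun p : X.ι × ℕ => ((X.π p.1).map (g • ·)).cv s p.2 (X.τ p.1)) =
      fun p => ((X.π p.1).cv s p.2 (X.τ p.1)).map (g • ·) := funext fun p => Spx.ext (by
    simp [Spx.map, Spx.cv, Finsupp.mapDomain_add, Finsupp.mapDomain_smul, show g • s = s from hg])
  refine ⟨Functor.hext (fun X => ?_) fun X Y f => Obs.heq_of (e X) (e Y) fun p q => ?_, fun A =>
    ⟨Obs.heq_of (e A).symm rfl fun p q => ?_, Obs.heq_of (e A).symm (e A).symm fun p q => ?_⟩⟩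
  · change Obs.mk .. = Obs.mk ..
    congr 1
    exact e X
  all_goals have := ρ.additive g
  · exact ((apply_ite (ρ.F g).map ..).trans (by rw [Functor.map_zero]; rfl)).symm
  all_goals
    refine (apply_dite (ρ.F g).map ..).trans ?_
    simp only [Functor.map_zero, eqToHom_map]
    rfl

/-- Tame subgroups: descent along intersections with conjugates ends in the family. -/
def Tame (σ : Act G C) (D : Subgroup G) : Prop :=
  Acc (fun D₁ D : Subgroup G => ∃ t, ¬ Swd σ (· ∈ D ⊔ Subgroup.zpowers t) ∧ D₁ = cj D t) D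

theorem Tame.swd {D : Subgroup G} (h : Tame σ D) : Swd σ (· ∈ D) := by
  induction h with
  | intro D _ ih =>
  by_contra k
  have e : D = cj D 1 := Subgroup.ext fun g => by simp [mem_cj]
  exact k (ih D ⟨1, by simpa using k, e⟩)

theorem Tame.tr {Γ : Type*} [Group Γ] {C' : Type*} [Category C'] [Preadditive C'] {τ : Act Γ C'}
    (j : Γ →* G) (hj : ∀ P, Swd σ P → Swd τ fun g => P (j g)) {D : Subgroup G} (h : Tame σ D) :
    ∀ D' : Subgroup Γ, D'.map j ≤ D → Tame τ D' := by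
  induction h with
  | intro D _ ih =>
  refine fun D' a => ⟨_, ?_⟩
  rintro _ ⟨t, b, rfl⟩
  refine ih (cj D (j t)) ⟨j t, fun c => b ((hj _ c).mono fun g k => ?_), rfl⟩ _ ?_
  · refine (show D' ⊔ Subgroup.zpowers t ≤ (D ⊔ Subgroup.zpowers (j t)).comap j from sup_le
      (Subgroup.map_le_iff_le_comap.1 (a.trans le_sup_left)) ?_) k
    exact Subgroup.zpowers_le.2 (Subgroup.mem_sup_right (Subgroup.mem_zpowers _))
  · rintro _ ⟨g, k, rfl⟩
    obtain ⟨k, l⟩ := mem_cj.1 k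
    exact mem_cj.2 ⟨a ⟨g, k, rfl⟩, a ⟨_, l, by simp⟩⟩

theorem Tame.comap {D : Subgroup G} (h : Tame σ D) {Γ : Type*} [Group Γ] (j : Γ →* G)
    {D' : Subgroup Γ} (k : D'.map j ≤ D) : Tame (σ.comap j) D' :=
  h.tr j (fun _ a => a.comap j) _ k

theorem Tame.le {D D' : Subgroup G} (h : Tame σ D) (k : D' ≤ D) : Tame σ D' :=
  h.tr (.id G) (fun _ a => a) _ (by simpa)

open Submodule in
theorem tame_of_span {k R : Type*} [Field k] [Ring R] [Algebra k R] (ψ : G →* R)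
    (h : ∀ N : Subgroup G, Module.Finite k (span k (ψ '' N)) →
      ∀ t ∈ Subgroup.normalizer (N : Set G), Swd σ (· ∈ N ⊔ Subgroup.zpowers t))
    (D : Subgroup G) (hD : Module.Finite k (span k (ψ '' D))) : Tame σ D := by
  generalize e : Module.finrank k (span k (ψ '' D)) = m
  induction m using Nat.strong_induction_on generalizing D with
  | _ m ih =>
  refine ⟨_, ?_⟩
  rintro _ ⟨t, b, rfl⟩
  have le : span k (ψ '' cj D t) ≤ span k (ψ '' D) :=
    span_mono (Set.image_mono fun _ a => a.1)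
  have := finiteDimensional_of_le le
  obtain l | l := le.lt_or_eq
  · exact ih _ (e ▸ finrank_lt_finrank_of_lt l) _ this rfl
  set A := span k (ψ '' D) with hA
  have m1 {a b : R} (p : a ∈ A) (q : b ∈ A) : a * b ∈ A := by
    have := mul_mem_mul p q
    rw [span_mul_span] at this
    refine span_mono ?_ this
    rintro _ ⟨_, ⟨x, r, rfl⟩, _, ⟨y, s, rfl⟩, rfl⟩
    exact ⟨x * y, mul_mem r s, map_mul ..⟩
  let c : R →ₗ[k] R := (LinearMap.mulRight k (ψ t)).comp (LinearMap.mulLeft k (ψ t⁻¹))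
  have c1 (g : G) : c (ψ g) = ψ (t⁻¹ * g * t) := by simp [c]
  have c2 : ∀ a ∈ A, c a ∈ A := fun a p => by
    rw [← l] at p
    refine (show span k (ψ '' cj D t) ≤ A.comap c from span_le.2 ?_) p
    rintro _ ⟨g, q, rfl⟩
    exact show c (ψ g) ∈ A from c1 g ▸ subset_span ⟨_, (mem_cj.1 q).2, rfl⟩
  have c3 : Function.Injective c := fun a b p => by
    have := congrArg (fun x => ψ t * x * ψ t⁻¹) p
    simpa [c, mul_assoc, ← map_mul, ← mul_assoc (ψ t) (ψ t⁻¹)] using this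
  have c4 (a) (p : c a ∈ A) : a ∈ A := by
    obtain ⟨b, q⟩ := LinearMap.surjective_of_injective (f := c.restrict c2)
      (fun a b p => Subtype.ext (c3 (congrArg Subtype.val p))) ⟨_, p⟩
    exact c3 (congrArg Subtype.val q) ▸ b.2
  let N : Subgroup G := ⟨⟨⟨{g | ψ g ∈ A ∧ ψ g⁻¹ ∈ A}, fun p q =>
    ⟨by rw [map_mul]; exact m1 p.1 q.1, by rw [mul_inv_rev, map_mul]; exact m1 q.2 p.2⟩⟩,
    ⟨subset_span ⟨1, one_mem _, rfl⟩, subset_span ⟨_, inv_mem (one_mem _), rfl⟩⟩⟩,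
    fun p => ⟨p.2, by rw [inv_inv]; exact p.1⟩⟩
  have n1 : span k (ψ '' N) ≤ A := span_le.2 (by rintro _ ⟨g, p, rfl⟩; exact p.1)
  have n2 : D ≤ N := fun g p => ⟨subset_span ⟨g, p, rfl⟩, subset_span ⟨_, inv_mem p, rfl⟩⟩
  have n3 (g : G) : (t⁻¹ * g * t)⁻¹ = t⁻¹ * g⁻¹ * t := by group
  refine (b ((h N (finiteDimensional_of_le n1) t (Subgroup.mem_normalizer_iff''.2 fun g =>
    ⟨fun p => ⟨c1 g ▸ c2 _ p.1, ?_⟩, fun p => ⟨c4 _ (c1 g ▸ p.1), c4 _ ?_⟩⟩)).mono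
      fun g p => sup_le_sup_right n2 _ p)).elim
  · rw [n3, ← c1]
    exact c2 _ p.2
  · rw [c1, ← n3]
    exact p.2

variable [HasBinaryBiproducts C]

theorem Swd.k0 (h : Swd σ P) : K0Zero C := by
  obtain ⟨Φ, b, i, r, i', r', c, d, -⟩ := h
  have (A D : C) : Nonempty (A ⊞ Φ.obj A ⊞ D ≅ Φ.obj A ⊞ D) := by
    obtain ⟨d1, d2, d3, d4⟩ := d _ _ (𝟙 A)
    simp only [CategoryTheory.Functor.map_id, Category.id_comp] at d1 d2 d3 d4
    exact ⟨(biprod.associator ..).symm ≪≫ biprod.mapIso ⟨biprod.desc (i A) (i' A),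
      biprod.lift (r A) (r' A), by ext <;> simp [d1, d2, d3, d4], by simp [c]⟩ (.refl _)⟩
  intro A B
  obtain ⟨a⟩ := this A (Φ.obj B)
  obtain ⟨b⟩ := this B (Φ.obj A)
  exact ⟨_, ⟨a ≪≫ biprod.braiding .. ≪≫ b.symm ≪≫ biprod.mapIso (.refl _) (biprod.braiding ..)⟩⟩

theorem Swd.k1 {D : Subgroup G} (h : Swd σ (· ∈ D)) : K1Zero (TwZ (σ.comap D.subtype)) := by
  obtain ⟨Φ, b, i, r, i', r', c, d, e⟩ := h
  exact k1_sw Φ (fun g => (e _ g.1.2).1) i r i' r' c (d _ _) fun g => (e _ g.1.2).2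

theorem Tame.gd {D : Subgroup G} (h : Tame σ D) {Ω : Set (G × Zi)} (k : Fr (D.prod ⊤) Ω) :
    (SZ σ).Gd (SZ σ).nt Ω := by
  refine GC.nil (P := .univ) (fun _ _ _ _ => trivial)
    (GC.acc_of (fun D' D => D' = D.prod ⊤) ?_ h _ rfl) Ω k (Set.subset_univ _)
  rintro _ D rfl g - - f
  refine ⟨_, ⟨g.1, fun a => f ((W_of_K1 a.k0 a.k1).gd.mono ?_), rfl⟩, cj_prod ..⟩
  rintro _ ⟨x, p, y, q, rfl⟩
  exact ⟨mul_mem (mul_mem (Subgroup.mem_sup_left p.1) (Subgroup.mem_sup_right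
    (Subgroup.mem_zpowers _))) (Subgroup.mem_sup_left q.1), trivial⟩

end Pool.Agent.Lib.MP_5d3e93_al
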