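import Pool.Agent.Lib.MP_5d3e93_al.Bg.Main
import Pool.Agent.Lib.MP_5d3e93_al.Bg.ROp

/-! Vanishing for linear groups, relative to a family. -/

open CategoryTheory Limits MulAction

namespace Pool.Agent.Lib.MP_5d3e93_al.Bg

open GC GC.CF GC.Lo

universe w w' w'' v u

variable {C : Type u} [Category.{v} C] [Preadditive C] {G : Type w} [Group G]

theorem tq_rlift [HasBinaryBiproducts C] [HasZeroObject C] {σ : Act G C} {P₀ : G → Prop}
    (hs : Swd σ P₀)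
    {Γ : Type w} [Group Γ] (j : Γ →* G) {Z : Type w'} [Preorder Z] [MulAction Γ Z] [Nonempty Z]
    (hm : ∀ (g : Γ) (x y : Z), x ≤ y → g • x ≤ g • y) (hK : K1Zero (TwZ (Lc.act (σ.comap j) hm)))
    {Y : Type w''} [MulAction (G × Zi) Y] {ν : Nr (G × Zi) Y} (φ : Z → Y) (ψ : Y → Z)
    (h1 : ∀ x (γ : Γ) (z : Zi) y, x ≤ γ • y → ν.n 0 (φ x) ((j γ, z) • φ y))
    (h2 : ∀ x (g : G × Zi) y, ν.n 0 (φ x) (g • φ y) → ∃ γ, j γ = g.1 ∧ x ≤ γ • y)
    (h3 : ∀ (x : Z) (γ γ' : Γ) (y : Z), x ≤ γ • y → x ≤ γ' • y → j γ = j γ' → γ = γ')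
    {α : Y → Prop} (h4 : ∀ y, α y → ν.n 0 y (φ (ψ y)) ∧ ν.n 0 (φ (ψ y)) y)
    {P Q : (SZ σ).LO Y fun _ => True} {u : P ⟶ Q} (hP : P.L.On α) (hQ : Q.L.On α)
    (h : ((SZ σ).lc _ ν).CI 0 u) : ((SZ σ).lc _ ν).Tq 0 u := by
  let p : Γ × Zi →* G × Zi := j.prodMap (.id Zi)
  let F0 : TwZ (Lc.act (σ.comap j) hm) ⥤ Tw ((σ.comap (.fst G Zi)).comap p) :=
    fgt (σ.comap j) hm (.fst Γ Zi)
  have : F0.Additive := ⟨map_add fgm _ _⟩
  let F : TwZ (Lc.act (σ.comap j) hm) ⥤ (SZ σ).LO Y fun _ => True :=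
    ⟨fun A => ⟨⟨A.as.A⟩, (lo σ A.as.d).map φ, on_true _⟩, fun f => Tw.push p (F0.map f),
      fun A => (F0 ⋙ Tw.pushF p).map_id A, (F0 ⋙ Tw.pushF p).map_comp⟩
  have : F.Additive := ⟨(F0 ⋙ Tw.pushF p).map_add⟩
  let L (A : TwZ (Lc.act (σ.comap j) hm)) : (twGC _).Lo Z (F0.obj A) := lo (σ.comap j) A.as.d
  let L' (A : TwZ (Lc.act (σ.comap j) hm)) : (twGC _).Lo Z (Tw.up p (F0.obj A)) := lo σ A.as.d
  have e (A x) : Tw.push p ((L A).e x) = (L' A).e x := push_emb _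
  have rg {A B} (f : A ⟶ B) : (L A).Rg (L B) (fun x g y => x ≤ g.1 • y) (F0.map f) := rg_fgt f
  have ct {A B} (f : A ⟶ B) : ((SZ σ).lc _ ν).Ct 0 (F.map f) :=
    Rg.map (push_rg (e A) (e B) (rg f)) (on_true _) (on_true _) (by
      rintro x _ y - - ⟨γ, k, rfl⟩
      exact h1 x γ.1 γ.2 y k)
  have zr {A B} (f : A ⟶ B) (k : F.map f = 0) : f = 0 :=
    fgt_zero (push_rg_zero (e A) (e B) (rg f) (fun x y a b c d l =>
      Prod.ext (h3 x _ _ y b d (Prod.ext_iff.1 l).1) (Prod.ext_iff.1 l).2) k)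
  have fl {A B} (f : F.obj A ⟶ F.obj B)
      (k : (L' A).Rg (L' B) (fun x g y => ν.n 0 (φ x) (g • φ y)) f) : ∃ f', F.map f' = f := by
    obtain ⟨f0, a, b⟩ := push_rg_lift (R := fun x g y => x ≤ g.1 • y) (e A) (e B)
      (k.mono fun x g y a => by
        obtain ⟨γ, b, c⟩ := h2 x g y a
        exact ⟨(γ, g.2), c, Prod.ext b rfl⟩)
    obtain ⟨f', c⟩ := fgt_full (A := A) (B := B) a
    exact ⟨f', (congrArg (Tw.push p) c).trans b⟩
  obtain ⟨d, hd⟩ := ex_ld (P.L.map ψ)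
  obtain ⟨d', hd'⟩ := ex_ld (Q.L.map ψ)
  let A : TwZ (Lc.act (σ.comap j) hm) := ⟨⟨P.A.as, d⟩⟩
  let B : TwZ (Lc.act (σ.comap j) hm) := ⟨⟨Q.A.as, d'⟩⟩
  have m {P Q : (SZ σ).LO Y fun _ => True} (hP : P.L.On α) (hQ : Q.L.On α) {d : Ld Z P.A.as}
      {d' : Ld Z Q.A.as} (hd : ∀ x, (lo σ d).e x = (P.L.map ψ).e x)
      (hd' : ∀ x, (lo σ d').e x = (Q.L.map ψ).e x) {f : P ⟶ Q} (k : ((SZ σ).lc _ ν).Ct 0 f) :
      (lo σ d).Rg (lo σ d') (fun x g y => ν.n 0 (φ x) (g • φ y)) f := fun x y => by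
    have := Rg.map (φ := ψ) (ψ := ψ) (R' := fun x g y => ν.n 0 (φ x) (g • φ y)) k hP hQ
      (fun x g y a b c => ν.trans (ν.trans (h4 x a).2 c) (ν.smul g (h4 y b).1)) x y
    rwa [← hd, ← hd'] at this
  have i {P : (SZ σ).LO Y fun _ => True} (hP : P.L.On α) {d : Ld Z P.A.as}
      (hd : ∀ x, (lo σ d).e x = (P.L.map ψ).e x) : ((SZ σ).lc _ ν).HI 0 1 (A := P)
        (B := ⟨P.A, (lo σ d).map φ, on_true _⟩) (𝟙 P.A) ∧ ((SZ σ).lc _ ν).HI 0 1 (B := P)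
        (A := ⟨P.A, (lo σ d).map φ, on_true _⟩) (𝟙 P.A) := by
    have a : P.L.Rg (lo σ d) (fun x g y => ν.n 0 x (g • φ y)) (𝟙 P.A) := fun x y => by
      have := ((rg_id (L := P.L)).on (R' := fun x g y => ν.n 0 x (g • φ (ψ y))) hP hP
        fun x g y a _ c => by rw [c.1, ← c.2, one_smul]; exact (h4 x a).1).mapr (φ := ψ)
          (R' := fun x g y => ν.n 0 x (g • φ y)) (fun _ _ _ => id) x y
      rwa [← hd] at this
    have b : (lo σ d).Rg P.L (fun x g y => ν.n 0 (φ x) (g • y)) (𝟙 P.A) := fun x y => by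
      have := ((rg_id (L := P.L)).on (R' := fun x g y => ν.n 0 (φ (ψ x)) (g • y)) hP hP
        fun x g y a _ c => by rw [c.1, ← c.2, one_smul]; exact (h4 x a).2).mapl (φ := ψ)
          (R' := fun x g y => ν.n 0 (φ x) (g • y)) (fun _ _ _ => id) x y
      rwa [← hd] at this
    have c := Category.id_comp (𝟙 P.A)
    have o := id1 (S := SZ σ) (A := P.A)
    exact ⟨hi_mk o o (a.mapr fun _ _ _ => id) (b.mapl fun _ _ _ => id) c c,
      hi_mk o o (b.mapl fun _ _ _ => id) (a.mapr fun _ _ _ => id) c c⟩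
  obtain ⟨c1, v, c2, c3, c4⟩ := h
  obtain ⟨u', a⟩ := fl (A := A) (B := B) u (m hP hQ hd hd' c1)
  obtain ⟨v', b⟩ := fl (A := B) (B := A) v (m hQ hP hd' hd c2)
  have hs' := (hs.comap j).act hm
  have hW := W_of_inj (ρ := Lc.act (σ.comap j) hm) hs'.k0 (j := .id Γ) Function.injective_id hK
  rw [MonoidHom.range_eq_top.2 Function.surjective_id, Subgroup.top_prod_top] at hW
  have q {A B} {x : A ⟶ B} {y : B ⟶ A} (k : F.map x ≫ F.map y = 𝟙 _) : x ≫ y = 𝟙 A :=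
    sub_eq_zero.1 (zr _ (by rw [F.map_sub, F.map_comp, k, F.map_id, sub_self]))
  have s (g : Γ × Zi) {A B} (f : A ⟶ B) (k : (SZ (Lc.act (σ.comap j) hm)).Sup {g} f) :
      (SZ σ).Sup {p g} (Tw.push p (F0.map f)) := by
    have : F0.map f = _ := (congrArg F0.map k.cp_eq.symm).trans (fgm_sg g (Tw.co g f))
    rw [← Set.image_singleton]
    exact sup_push' (j := p) (this ▸ .of_cp (Tw.cpt_sg ..) rfl)
  have t := tq_fun (S := (SZ σ).lg Y _) (Φ := (SZ σ).lc _ ν) F p s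
    (fun r A B f _ => CF.mono _ (ct f) (Nat.zero_le r)) (tq_of_tr (hW A B u' ⟨sup_top _ _, v',
      sup_top _ _, q (by rw [a, b]; exact c3), q (by rw [a, b]; exact c4)⟩))
  rw [a] at t
  have := (Tq.c0' (i hP hd).1 t).c0 (i hQ hd').2
  exact (congrArg _ ((Category.comp_id (_ : P.A ⟶ Q.A)).trans (Category.id_comp _))).mp this

theorem rloc_words [HasBinaryBiproducts C] [HasZeroObject C] {σ : Act G C}
    (hs : Swd σ (· ∈ (⊥ : Subgroup G)))
    {X : Type w'} [Lattice X] (B : Bl X) [MulAction G X] [B.Ac G] [MulAction (G × Zi) X]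
    [B.Ac (G × Zi)] (hj : ∀ (g : G × Zi) (x : X), g • x = g.1 • x)
    (hX : ∀ x : X, Tame σ (stabilizer G x)) {N : ℕ} {J : Type} [Finite J] {A : Set J}
    (hA : A.Nonempty) {P Q : (SZ σ).LO (J → YL B N) fun _ => True} {u : P ⟶ Q}
    (h : ((SZ σ).lc _ ((YL.pf B (G × Zi) N J).cap A).nr).CI 0 u) :
    ((SZ σ).lc _ ((YL.pf B (G × Zi) N J).cap A).nr).Tq 0 u := by
  classical
  have := Fintype.ofFinite A
  have e (g : G × Zi) (y : YL B N) : g • y = g.1 • y := congrArg (YL.mk y.ℓ)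
    (Cw.ext (funext fun _ => hj ..) (funext fun _ => hj ..))
  refine tq_filt (ok hs.k0).hz (fun x (L : A) => (x L).ℓ) (fun t => (∑ L, ∑ c, t L c : ℕ))
    (fun x g y k => ?_) (fun t P Q u a b c => ?_) h
  · have k' (L : A) : (x L).ℓ = (y L).ℓ ∨ ∑ c, (y L).ℓ c < ∑ c, (x L).ℓ c :=
      YL.le_l (z := g • y L) (k L L.2)
    by_cases l : ∀ L : A, (x L).ℓ = (y L).ℓ
    · exact .inl (funext l)
    · obtain ⟨L, l⟩ := not_forall.1 l
      exact .inr (Int.ofNat_lt.2 (Finset.sum_lt_sum (fun L _ => (k' L).elim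
        (fun m => (congrArg (∑ c, · c) m).ge) le_of_lt) ⟨L, Finset.mem_univ _, (k' L).resolve_left l⟩))
  by_cases k : ∃ y0 : J → YL B N, (fun L : A => (y0 L).ℓ) = t
  swap
  · exact tq_empty (fun x _ => a x fun l => k ⟨x, l⟩) (fun x _ => b x fun l => k ⟨x, l⟩) c
  obtain ⟨y0, rfl⟩ := k
  obtain ⟨Γ, _, j, Z, _, _, _, κ, _, O, φ, ψ, h1, h2, h3, h4, h5⟩ := words_lift (G := G) hA y0
  refine tq_rlift hs j O.hm (k1_rop O ((hs.bot j).act _) (lcd_act _ _) fun z => ?_) φ ψ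
    (fun x γ z y k L l => ?_) (fun x g y k => h2 x g.1 y fun L l => ?_) h3 (fun y k => ?_) a b c
  · obtain ⟨x, -, q⟩ := h5 z
    exact (hX x).tr j (fun _ a => (a.comap j).act _) _ q
  · exact (congrArg (φ x L).le (e (j γ, z) (φ y L))).mpr (h1 x γ y k L l)
  · exact (congrArg (φ x L).le (e g (φ y L))).mp (k L l)
  · have k' := h4 y fun L l => congrFun k ⟨L, l⟩
    exact ⟨fun L l => (congrArg (y L).le (k' L l)).mpr (YL.le_rf _),
      fun L l => (congrArg (YL.le · (y L)) (k' L l)).mpr (YL.le_rf _)⟩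

theorem k1_rlat [HasBinaryBiproducts C] [HasZeroObject C] {σ : Act G C}
    (hs : Swd σ (· ∈ (⊥ : Subgroup G))) {X : Type w'} [Lattice X] [Nonempty X] (B : Bl X)
    [MulAction G X] [hB : B.Ac G]
    (hX : ∀ x : X, Tame σ (stabilizer G x)) : K1Zero (TwZ σ) := by
  refine K1_of_W' hs.k0 (Subgroup.subtype_injective ⊥) hs.k1 ((ok hs.k0).W ?_)
  rintro A u ⟨-, v, -, e, e'⟩
  let _ : MulAction (G × Zi) X := MulAction.compHom X (MonoidHom.fst G Zi)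
  have : B.Ac (G × Zi) := ⟨fun g => hB.hm g.1, fun g => hB.hπ g.1, fun g => hB.hc g.1⟩
  obtain ⟨h, a, b⟩ := mv_one (ok hs.k0).hz (ok hs.k0).hc (W := Finset (Fin (B.n + 1)) → YL B (B.n + 2))
    (fun z x => funext fun L => one_smul G (x L)) (YL.pf B (G × Zi) (B.n + 2) _)
    (fun A k D E u => rloc_words hs B (fun _ _ => rfl) hX k) (4 * B.n + 6) 20
  obtain ⟨T, _, _, ⟨D⟩⟩ := B.td (((SZ σ).fin u).union ((SZ σ).fin v)) a
  exact tr_of_td (ok hs.k0).hz D b (fun g k => by_contra fun l => k (.inl l))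
    (fun g k => by_contra fun l => k (.inr l)) e e'

theorem k1_rlin [HasBinaryBiproducts C] [HasZeroObject C] {σ : Act G C} {k : Type*} {K : Type w'}
    [Field k] [Field K] [Algebra k K] {n : ℕ} (φ : G →* GL (Fin n) K)
    (h : ∀ N : Subgroup G, Module.Finite k (Submodule.span k
      ((fun g => (φ g : Matrix (Fin n) (Fin n) K)) '' N)) →
      ∀ t ∈ Subgroup.normalizer (N : Set G), Swd σ (· ∈ N ⊔ Subgroup.zpowers t)) :
    K1Zero (TwZ σ) := by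
  have a := tame_of_span (k := k) ((Units.coeHom _).comp φ) h
  have b : Swd σ (· ∈ (⊥ : Subgroup G)) := (a ⊥ (Module.Finite.span_of_finite k
    ((Set.finite_singleton 1).image _))).swd
  refine K1_loc b.k0 fun H c => ?_
  have := (Group.fg_iff_subgroup_fg H).2 c
  obtain ⟨X, _, _, _, B, d, e⟩ := ex_lat (k := k) (φ.comp H.subtype)
  refine k1_rlat (b.bot _) B fun x => (a _ ?_).comap _ le_rfl
  rw [Subgroup.coe_map, Set.image_image]
  exact e x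

end Pool.Agent.Lib.MP_5d3e93_al.Bg
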