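import Pool.Agent.Lib.MP_5d3e93_al.Bg.Lat
import Pool.Agent.Lib.MP_5d3e93_al.Bg.Cmp

/-! Words that number a refined chain. -/

namespace Pool.Agent.Lib.MP_5d3e93_al.Bg

universe w w'

theorem rp_add {μ : ℤ → ℤ} (hm : Monotone μ) (hs : Function.Surjective μ) (m : ℕ) (a : ℤ) :
    μ (a + m) ≤ μ a + m := by
  induction m with
  | zero => simp
  | succ m ih =>
    obtain ⟨b, e⟩ := hs (μ (a + m) + 1)
    have h1 : a + m < b := lt_of_not_ge fun h => by have := hm h; omega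
    have h2 := hm (show a + (m + 1 : ℕ) ≤ b by push_cast; omega)
    push_cast at h2 ⊢
    omega

theorem rp_lin {μ : ℤ → ℤ} (h : ∀ a, μ (a + 1) = μ a + 1) (a : ℤ) : μ a = a + μ 0 := by
  induction a using Int.induction_on with
  | zero => simp
  | succ i ih => rw [h, ih]; ring
  | pred i ih => have := h (-i - 1); rw [sub_add_cancel] at this; omega

theorem rp_shift {μ : ℤ → ℤ} (hm : Monotone μ) (hs : Function.Surjective μ) {l : ℕ} (hl : 0 < l)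
    (h : ∀ a, μ (a + l) = μ a + l) (a : ℤ) : μ a = a + μ 0 := by
  refine rp_lin (fun a => ?_) a
  obtain ⟨m, rfl⟩ := Nat.exists_eq_add_one_of_ne_zero hl.ne'
  have h1 := rp_add hm hs 1 a
  have h2 := rp_add hm hs m (a + 1)
  have h3 := h a
  rw [show a + 1 + m = a + (m + 1 : ℕ) by push_cast; ring] at h2
  push_cast at h1 h2 h3
  omega

/-- Numbering of a periodic set of integers. -/
theorem rp_enum {p : ℤ → Prop} {n : ℕ} (hn : 0 < n) (h : ∀ i, p (i + n) ↔ p i) :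
    ∃ (l : ℕ) (e : ℤ → ℤ), (0 < l → StrictMono e ∧ (∀ a, e (a + l) = e a + n) ∧ ∀ a, p (e a)) ∧
      ∀ i, p i → 0 < l ∧ ∃ a, e a = i := by
  classical
  by_cases h0 : ∃ i, p i
  swap
  · exact ⟨0, id, fun k => absurd k (lt_irrefl _), fun i k => absurd ⟨i, k⟩ h0⟩
  have : Nonempty {i // p i} := h0.elim fun i k => ⟨⟨i, k⟩⟩
  have : NoMaxOrder {i // p i} := ⟨fun i => ⟨⟨i + n, (h i).2 i.2⟩, show (i : ℤ) < i + n by omega⟩⟩
  have : NoMinOrder {i // p i} := ⟨fun i => ⟨⟨i - n, (h _).1 (by simpa using i.2)⟩,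
    show (i : ℤ) - n < i by omega⟩⟩
  let := LinearLocallyFiniteOrder.succOrder {i // p i}
  let := LinearLocallyFiniteOrder.predOrder {i // p i}
  obtain ⟨φ⟩ : Nonempty ({i // p i} ≃o ℤ) := ⟨orderIsoIntOfLinearSuccPredArch⟩
  let τ : ℤ → ℤ := fun a => φ ⟨φ.symm a + n, (h _).2 (φ.symm a).2⟩
  have t1 : StrictMono τ := fun a b k => φ.strictMono
    (show ((φ.symm a : ℤ) + n) < φ.symm b + n from Int.add_lt_add_right (φ.symm.strictMono k) _)
  have t2 : Function.Surjective τ := fun b =>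
    ⟨φ ⟨φ.symm b - n, (h _).1 (by simpa using (φ.symm b).2)⟩, by simp [τ]⟩
  have t3 := rp_lin (μ := τ) fun a => le_antisymm (rp_add t1.monotone t2 1 a) (t1 (lt_add_one a))
  have t4 : ∀ a, (φ.symm (a + τ 0) : ℤ) = φ.symm a + n := fun a => by rw [← t3]; simp [τ]
  have t5 : StrictMono fun a => (φ.symm a : ℤ) := fun a b k => φ.symm.strictMono k
  have t6 : 0 < τ 0 := t5.lt_iff_lt.1 (by have := t4 0; rw [zero_add] at this; omega)
  refine ⟨(τ 0).toNat, fun a => φ.symm a, fun _ => ⟨t5, fun a => ?_, fun a => (φ.symm a).2⟩,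
    fun i k => ⟨by omega, φ ⟨i, k⟩, by simp⟩⟩
  rw [Int.toNat_of_nonneg t6.le]
  exact t4 a

/-- The block of an index. -/
theorem rp_sig {β : ℤ → ℤ} {n : ℕ} (hn : 0 < n) (hm : Monotone β) (h : ∀ s, β (s + n) = β s + n) :
    ∃ σ : ℤ → ℤ, ∀ i s, σ i ≤ s ↔ i ≤ β s := by
  have h1 : ∀ (m : ℕ) s, β (s + m * n) = β s + m * n := fun m s => by
    induction m with
    | zero => simp
    | succ m ih => rw [show s + (m + 1 : ℕ) * (n : ℤ) = s + m * n + n by push_cast; ring, h, ih]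
                   push_cast; ring
  have h2 : ∀ m : ℕ, (m : ℤ) ≤ m * n := fun m => by nlinarith
  have h3 : ∀ i, ∃ t, i ≤ β t ∧ ∀ s, i ≤ β s → t ≤ s := fun i => by
    refine Int.exists_least_of_bdd ⟨-((β 0 - i).toNat + 1 : ℕ) * n, fun s k => ?_⟩
      ⟨0 + (i - β 0).toNat * n, ?_⟩
    · by_contra g
      have h4 := h1 ((β 0 - i).toNat + 1) s
      have h5 := hm (show s + ((β 0 - i).toNat + 1 : ℕ) * (n : ℤ) ≤ 0 by linarith)
      have h6 := h2 ((β 0 - i).toNat + 1)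
      omega
    · have h6 := h2 (i - β 0).toNat
      rw [h1]; omega
  choose σ s1 s2 using h3
  exact ⟨σ, fun i s => ⟨fun k => (s1 i).trans (hm k), s2 i s⟩⟩

variable {X : Type w'} [Lattice X] {B : Bl X} {k ρ : X → X} {w v : ℤ → X}

namespace Bl

variable {N : ℕ} {K : ℕ → X → X} {x z : YL B N}

theorem rp_K (hK : B.Ks N K) {c c' : ℕ} (h : c ≤ c') (y : X) : K c y ≤ K c' y :=
  monotone_nat_of_le_succ (f := fun c => K c y) (fun c => hK.step c y) h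

theorem rp_top (hk : B.Ko k) (hw : B.Chn w) (i : ℤ) : mem k w i ≤ w i :=
  sup_le (hw.mono (by omega)) (hk.le _)

theorem rp_le1 (hK : B.Ks N K) (hw : B.Chn w) {c c' : ℕ} {i i' : ℤ} (h : c ≤ c') (h' : i ≤ i') :
    mem (K c) w i ≤ mem (K c') w i' :=
  sup_le_sup (hw.mono (by omega)) ((rp_K hK h _).trans ((hK.ko c').mono (hw.mono h')))

theorem rp_le2 (hk : B.Ko k) (hw : B.Chn w) (k' : X → X) {i i' : ℤ} (h : i < i') :
    mem k w i ≤ mem k' w i' :=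
  (rp_top hk hw i).trans ((hw.mono (by omega)).trans le_sup_left)

theorem rp_pi (hk : B.Ko k) (hw : B.Chn w) (i : ℤ) : B.π (mem k w (i + B.n)) = mem k w i := by
  rw [mem, mem, map_sup, add_sub_right_comm, hw.per, ← hk.pi, hw.per]

theorem rp_sat (hK : B.Ks N K) (hw : B.Chn w) {c : ℕ} (hc : c ≤ N) (i : ℤ) :
    ∃ c' < N, ∃ i', mem (K c') w i' ≠ mem (K (c' + 1)) w i' ∧
      mem (K (c' + 1)) w i' = mem (K c) w i := by
  let P : X → Prop := fun y => ∃ c' < N, ∃ i', mem (K c') w i' ≠ mem (K (c' + 1)) w i' ∧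
    mem (K (c' + 1)) w i' = y
  have h1 : ∀ i, ∀ c ≤ N, P (mem (K c) w i) ∨ mem (K c) w i = w (i - 1) := fun i c hc => by
    induction c with
    | zero =>
      refine Or.inr (sup_eq_left.2 ((hK.bot _).trans ?_))
      have h := hw.per (i - B.n)
      rw [sub_add_cancel] at h
      exact h.trans_le (hw.mono (by have := B.pos; omega))
    | succ c ih =>
      by_cases e : mem (K c) w i = mem (K (c + 1)) w i
      · exact e ▸ ih (by omega)
      · exact Or.inl ⟨c, hc, i, e, rfl⟩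
  have h2 : ∀ i, P (w i) := fun i => by
    by_contra g
    have h3 : ∀ m : ℕ, w (i - m) = w i := fun m => by
      induction m with
      | zero => simp
      | succ m ih =>
        have h4 := h1 (i - m) N le_rfl
        rw [mem, hK.top, sup_eq_right.2 (hw.mono (by omega)), ih] at h4
        rw [h4.resolve_left g]; congr 1; push_cast; ring
    have h4 := hw.per (i - B.n)
    have h5 := B.sh (w i)
    have := B.pos
    rw [sub_add_cancel, h3] at h4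
    rw [h4] at h5
    omega
  exact (h1 i c hc).elim id fun e => e ▸ h2 _

theorem ex_rep (hK : B.Ks N K) (hw : B.Chn w) : ∃ x : YL B N, Rep K w x := by
  have h : ∀ c : Fin N, ∀ i, mem (K c) w (i + B.n) ≠ mem (K (c + 1)) w (i + B.n) ↔
      mem (K c) w i ≠ mem (K (c + 1)) w i := fun c i => by
    rw [← rp_pi (hK.ko _) hw i, ← rp_pi (hK.ko _) hw i, B.π.injective.ne_iff]
  choose l e h1 h2 using fun c : Fin N =>
    rp_enum (p := fun i => mem (K c) w i ≠ mem (K (c + 1)) w i) B.pos (h c)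
  refine ⟨⟨l, fun ν => mem (K (ν.1 + 1)) w (e ν.1 ν.2), fun ν => mem (K ν.1) w (e ν.1 ν.2),
    ?_, fun ν => (rp_le1 hK hw (by omega) le_rfl).lt_of_ne ((h1 _ ν.1.2).2.2 _), ?_,
    fun c a => rp_le2 (hK.ko _) hw _ ((h1 _ c.2).1 (lt_add_one a)), fun c a => ?_, fun c a => ?_,
    fun ν => ?_⟩, fun c => e c, fun c => (h1 _ c.2).1, fun c => (h1 _ c.2).2.1,
    fun _ _ => ⟨rfl, rfl⟩, fun c i g => ⟨(h2 c i g).1, (h2 c i g).2⟩⟩
  · obtain ⟨c, hc, i, g, -⟩ := rp_sat hK hw le_rfl 0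
    exact ⟨⟨⟨c, hc⟩, (h2 ⟨c, hc⟩ i g).1⟩⟩
  · rintro ⟨c, a⟩ ⟨c', a'⟩ g
    rcases lt_trichotomy (e c a) (e c' a') with t | t | t
    · exact Or.inl (rp_le2 (hK.ko _) hw _ t)
    · rcases lt_trichotomy c c' with r | rfl | r
      · exact Or.inl (rp_le1 hK hw r t.le)
      · exact absurd (congrArg _ ((h1 _ c.2).1.injective t)) g
      · exact Or.inr (rp_le1 hK hw r t.ge)
    · exact Or.inr (rp_le2 (hK.ko _) hw _ t)
  · show B.π (mem _ w (e c (a + l c))) = _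
    rw [(h1 _ c.2).2.1, rp_pi (hK.ko _) hw]
  · show B.π (mem _ w (e c (a + l c))) = _
    rw [(h1 _ c.2).2.1, rp_pi (hK.ko _) hw]
  · obtain ⟨c, hc, i, g, t⟩ := rp_sat hK hw ν.1.1.2.le (e ν.1 ν.2)
    obtain ⟨r, a, rfl⟩ := h2 ⟨c, hc⟩ i g
    exact ⟨(⟨⟨c, hc⟩, r⟩, a), t⟩

/-- Blocks of all colours. -/
theorem rp_core (hK : B.Ks N K) (hρ : B.Ko ρ) (j : ℕ) (lo : ∀ c ≤ j, ∀ z, K c z ≤ K c (ρ z))
    (hi : ∀ c, j ≤ c → ∀ z, ρ z ≤ K c (ρ z)) (hw : B.Chn w) (hv : B.Chn v) (h : Push ρ w v)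
    (e : ∀ c ≤ N, B.E (K c) v ≤ B.E (K c) w) :
    ∃ σ : ℕ → ℤ → ℤ, (∀ c c' i i', c ≤ c' → i ≤ i' → σ c i ≤ σ c' i') ∧
      (∀ c i, σ c (i + B.n) = σ c i + B.n) ∧ ∀ c < N, ∀ s, ∃ T : Finset ℤ,
        (∀ i, i ∈ T ↔ σ c i = s) ∧ B.cov (mem (K (c + 1)) v s) - B.cov (mem (K c) v s) =
          ∑ i ∈ T, (B.cov (mem (K (c + 1)) w i) - B.cov (mem (K c) w i)) ∧
        ∀ i ∈ T, K (c + 1) (w i) ≤ K (c + 1) (v s) ∧ w i ⊓ mem (K c) v s ≤ mem (K c) w i := by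
  obtain ⟨a, b, ma, mb, ab, pa, pb, hab⟩ := ex_ab hρ hw hv h
  obtain ⟨σa, ha⟩ := rp_sig B.pos ma pa
  obtain ⟨σb, hb⟩ := rp_sig B.pos mb pb
  have per : ∀ {β σ : ℤ → ℤ}, (∀ s, β (s + B.n) = β s + B.n) → (∀ i s, σ i ≤ s ↔ i ≤ β s) →
      ∀ i, σ (i + B.n) = σ i + B.n := fun {β σ} p q i => eq_of_forall_ge_iff fun s => by
    have h1 := p (s - B.n)
    rw [sub_add_cancel] at h1
    have h2 := q i (s - B.n)
    rw [q]
    omega
  have blk : ∀ {β σ : ℤ → ℤ}, (∀ i s, σ i ≤ s ↔ i ≤ β s) →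
      ∀ s i, i ∈ Finset.Ioc (β (s - 1)) (β s) ↔ σ i = s := fun {β σ} q s i => by
    rw [Finset.mem_Ioc, ← q, ← not_le, ← q]
    omega
  refine ⟨fun c => if c + 1 ≤ j then σb else σa, fun c c' i i' r t => ?_, fun c i => ?_,
    fun c hc s => ?_⟩
  · have h1 := t.trans ((ha i' _).1 le_rfl)
    dsimp only
    split_ifs
    · exact (hb _ _).2 (t.trans ((hb i' _).1 le_rfl))
    · exact (hb _ _).2 (h1.trans (ab _))
    · omega
    · exact (ha _ _).2 h1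
  · dsimp only
    split_ifs
    exacts [per pb hb i, per pa ha i]
  · dsimp only
    split_ifs with g
    · obtain ⟨h1, h2⟩ := blk_lo (hK.ko c) hρ hw hv mb ab pb hab (lo c (by omega)) (e c hc.le) s
      obtain ⟨h3, -⟩ := blk_lo (hK.ko (c + 1)) hρ hw hv mb ab pb hab (lo _ g) (e _ hc) s
      refine ⟨_, blk hb s, ?_, fun i t => ⟨(lo _ g _).trans ((hK.ko _).mono ?_), h2 i t⟩⟩
      · rw [← sub_sub_sub_cancel_right _ _ (B.cov (v (s - 1))), h1, h3, ← Finset.sum_sub_distrib]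
        simp only [sub_sub_sub_cancel_right]
      · rw [hab]; exact (hρ.mono (hw.mono (Finset.mem_Ioc.1 t).2)).trans le_sup_right
    · obtain ⟨h1, h2⟩ := blk_hi (hK.ko c) hρ hw hv ma pa hab (hi c (by omega)) (e c hc.le) s
      obtain ⟨h3, -⟩ := blk_hi (hK.ko (c + 1)) hρ hw hv ma pa hab (hi _ (by omega)) (e _ hc) s
      refine ⟨_, blk ha s, ?_, fun i t => ⟨(hK.ko _).mono ?_, h2 i t⟩⟩
      · rw [← sub_sub_sub_cancel_left _ _ (B.cov (v s)), h1, h3, ← Finset.sum_sub_distrib]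
        simp only [sub_sub_sub_cancel_left]
      · rw [hab]; exact (hw.mono (Finset.mem_Ioc.1 t).2).trans le_sup_left

theorem rep_le (hK : B.Ks N K) (hρ : B.Ko ρ) (j : ℕ) (lo : ∀ c ≤ j, ∀ z, K c z ≤ K c (ρ z))
    (hi : ∀ c, j ≤ c → ∀ z, ρ z ≤ K c (ρ z)) (hw : B.Chn w) (hv : B.Chn v) (h : Push ρ w v)
    (e : ∀ c ≤ N, B.E (K c) v ≤ B.E (K c) w) (a : Rep K w x) (b : Rep K v z) : x.le z := by
  obtain ⟨σ, s1, s2, s3⟩ := rp_core hK hρ j lo hi hw hv h e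
  obtain ⟨l, x⟩ := x
  obtain ⟨l', z⟩ := z
  obtain ⟨f, a1, a2, a3, a4⟩ := a
  obtain ⟨f', b1, b2, b3, b4⟩ := b
  dsimp only at f f' a1 a2 a3 a4 b1 b2 b3 b4
  have g0 : ∀ c i, 0 ≤ B.cov (mem (K (c + 1)) w i) - B.cov (mem (K c) w i) := fun c i =>
    sub_nonneg.2 (B.mono.monotone (rp_le1 hK hw (by omega) le_rfl))
  have up : ∀ (c : {c // 0 < l c}) a, ∃ r a', f' ⟨c, r⟩ a' = σ c (f c a) := fun c a => by
    obtain ⟨T, t1, t2, -⟩ := s3 c c.1.2 (σ c (f c a))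
    refine b4 c _ fun q => ?_
    have h1 := Finset.single_le_sum (fun i _ => g0 c i) ((t1 (f c a)).2 rfl)
    have h2 := B.mono (x.lt (c, a))
    rw [← t2, q, ← (a3 c a).1, ← (a3 c a).2] at h1
    omega
  have dn : ∀ (c : {c // 0 < l' c}) a', ∃ r a, f' c a' = σ c (f ⟨c, r⟩ a) := fun c a' => by
    obtain ⟨T, t1, t2, -⟩ := s3 c c.1.2 (f' c a')
    have h2 := B.mono (z.lt (c, a'))
    rw [← (b3 c a').1, ← (b3 c a').2] at t2
    obtain ⟨i, h3, h4⟩ := Finset.exists_ne_zero_of_sum_ne_zero (t2.symm.trans_ne (by omega))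
    obtain ⟨r, a, rfl⟩ := a4 c i fun q => h4 (by rw [q, sub_self])
    exact ⟨r, a, ((t1 _).1 h3).symm⟩
  have mu : ∀ c (r : 0 < l c) (r' : 0 < l' c), ∃ μ : ℤ → ℤ, Monotone μ ∧ μ.Surjective ∧
      (∀ a, μ (a + l c) = μ a + l' c) ∧ ∀ a, f' ⟨c, r'⟩ (μ a) = σ c (f ⟨c, r⟩ a) := by
    intro c r r'
    choose μ hμ using fun a => (up ⟨c, r⟩ a).2
    refine ⟨μ, fun a a' q => (b1 ⟨c, r'⟩).le_iff_le.1 ?_, fun a' => ?_,
      fun a => (b1 ⟨c, r'⟩).injective ?_, hμ⟩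
    · rw [hμ, hμ]; exact s1 _ _ _ _ le_rfl ((a1 _).monotone q)
    · obtain ⟨_, a, q⟩ := dn ⟨c, r'⟩ a'
      exact ⟨a, (b1 ⟨c, r'⟩).injective ((hμ a).trans q.symm)⟩
    · rw [hμ, a2 ⟨c, r⟩, s2, b2 ⟨c, r'⟩, hμ]
  have ll : ∀ c, l' c ≤ l c := fun c => by
    rcases (l' c).eq_zero_or_pos with r' | r'
    · omega
    · obtain ⟨μ, m1, m2, m3, -⟩ := mu c (dn ⟨c, r'⟩ 0).1 r'
      have := rp_add m1 m2 (l c) 0
      have := m3 0
      omega
  rcases (Finset.sum_le_sum fun c (_ : c ∈ Finset.univ) => ll c).lt_or_eq with q | q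
  · exact Or.inl q
  obtain rfl : l' = l := funext fun c =>
    (Finset.sum_eq_sum_iff_of_le fun c _ => ll c).1 q c (Finset.mem_univ c)
  have hk : ∀ c : {c // 0 < l' c}, ∃ k, ∀ a, f' c (a - k) = σ c (f c a) := fun c => by
    obtain ⟨μ, m1, m2, m3, m4⟩ := mu c c.2 c.2
    exact ⟨-μ 0, fun a => by rw [sub_neg_eq_add, ← rp_shift m1 m2 c.2 m3, m4]⟩
  choose k hk using hk
  have zD : ∀ c a, (z.sh k).D (c, a) = mem (K c) v (σ c (f c a)) := fun c a =>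
    (b3 c _).1.trans (by rw [hk])
  have zU : ∀ c a, (z.sh k).U (c, a) = mem (K (c + 1)) v (σ c (f c a)) := fun c a =>
    (b3 c _).2.trans (by rw [hk])
  refine Or.inr ⟨l', x, z, k, rfl, rfl, ?_, ?_⟩
  · rintro ⟨c, a⟩ ⟨c', a'⟩ r t
    have h1 : f c a ≤ f c' a' := le_of_not_gt fun g => by
      refine (x.lt (c, a)).not_ge (t.trans ((x.lt (c', a')).le.trans ?_))
      rw [(a3 c a).1, (a3 c' a').2]
      exact rp_le2 (hK.ko _) hw _ g
    rw [Cw.bf, zU, zD]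
    exact rp_le1 hK hv r (s1 _ _ _ _ r.le h1)
  · rintro ⟨c, a⟩
    obtain ⟨T, t1, t2, t3⟩ := s3 c c.1.2 (σ c (f c a))
    obtain ⟨t4, t5⟩ := t3 _ ((t1 (f c a)).2 rfl)
    refine B.per_of (x.lt _).le ((z.sh k).lt _).le ?_ ?_ ?_ <;>
      rw [(a3 c a).1, (a3 c a).2] <;> simp only [zU, zD]
    · exact sup_le (le_sup_left.trans le_sup_left) (t4.trans (le_sup_right.trans le_sup_right))
    · exact (inf_le_inf_right _ (rp_top (hK.ko _) hw _)).trans t5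
    · rw [t2, Finset.sum_eq_single_of_mem _ ((t1 (f c a)).2 rfl) fun i t g => ?_]
      by_contra y
      obtain ⟨_, a', rfl⟩ := a4 c i fun q => y (by rw [q, sub_self])
      have h1 := (b1 c).injective ((hk c a').trans (((t1 _).1 t).trans (hk c a).symm))
      exact g (congrArg _ (by omega))

theorem Rep.smul {G : Type w} [Group G] [MulAction G X] [B.Ac G] (g : G) (a : Rep K w x) :
    Rep (fun c z => g • K c (g⁻¹ • z)) (fun i => g • w i) (g • x) := by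
  have hm := Bl.Ac.hm (B := B) (G := G)
  have h : ∀ c i, mem (fun z => g • K c (g⁻¹ • z)) (fun i => g • w i) i = g • mem (K c) w i := by
    intro c i
    simp only [mem, inv_smul_smul]
    refine le_antisymm (sup_le (hm _ _ _ le_sup_left) (hm _ _ _ le_sup_right)) ?_
    rw [← smul_inv_smul g (g • w (i - 1) ⊔ _)]
    refine hm _ _ _ (sup_le ?_ ?_)
    · simpa using hm g⁻¹ _ _ (le_sup_left : g • w (i - 1) ≤ _ ⊔ g • K c (w i))
    · simpa using hm g⁻¹ _ _ (le_sup_right : g • K c (w i) ≤ g • w (i - 1) ⊔ _)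
  obtain ⟨e, h1, h2, h3, h4⟩ := a
  refine ⟨e, h1, h2, fun c a => ?_, fun c i t => h4 c i fun r => t (by rw [h, h, r])⟩
  rw [h, h, ← (h3 c a).1, ← (h3 c a).2]
  exact ⟨congrArg (fun t => g • x.x.D (c, t)) (sub_zero a),
    congrArg (fun t => g • x.x.U (c, t)) (sub_zero a)⟩

theorem Rep.congr {K' : ℕ → X → X} (h : ∀ c ≤ N, mem (K c) w = mem (K' c) v) (a : Rep K w x) :
    Rep K' v x := by
  obtain ⟨e, h1, h2, h3, h4⟩ := a
  refine ⟨e, h1, h2, fun c a => ?_, fun c i => ?_⟩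
  · rw [← h _ c.1.2.le, ← h _ c.1.2]; exact h3 c a
  · rw [← h _ c.2.le, ← h _ c.2]; exact h4 c i

end Bl

end Pool.Agent.Lib.MP_5d3e93_al.Bg
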