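import Pool.Agent.Lib.MP_5d3e93_al.Bg.Dat
import Pool.Agent.Lib.MP_5d3e93_al.Lq.Def2

/-! Invariant transfer data from controlled retractions of a flag complex. -/

namespace Pool.Agent.Lib.MP_5d3e93_al.Bg

universe w w'

open Finsupp

variable {V : Type w'} (K : Fg V)

/-- The nonempty simplices. -/
def Fg.tfB : Type w' := {l : List V // K.Sx l ∧ l ≠ []}

/-- Chains on nonempty simplices as chains on lists. -/
noncomputable def Fg.tfI : (K.tfB →₀ ℤ) →ₗ[ℤ] (List V →₀ ℤ) := lmapDomain ℤ ℤ Subtype.val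

/-- Restriction to the nonempty simplices. -/
noncomputable def Fg.tfP : (List V →₀ ℤ) →ₗ[ℤ] (K.tfB →₀ ℤ) :=
  lcomapDomain (R := ℤ) Subtype.val Subtype.val_injective

variable {K}

theorem tfa_P (c : List V →₀ ℤ) (p : K.tfB) : K.tfP c p = c p.1 := rfl

theorem tfa_I (p : K.tfB) : K.tfI (single p 1) = single p.1 1 := mapDomain_single

theorem tfa_nil : K.tfP (single [] 1) = 0 := by
  ext p
  rw [tfa_P]
  exact single_eq_of_ne p.2.2

theorem tfa_one (p : K.tfB) : K.tfP (single p.1 1) = single p 1 := by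
  classical
  ext q
  rw [tfa_P, single_apply, single_apply]
  exact if_congr Subtype.ext_iff.symm rfl rfl

theorem tfa_IP {P : List V → Prop} {k : ℕ} {c : List V →₀ ℤ} (hc : c ∈ K.Cn P k) :
    K.tfI (K.tfP c) = c - c [] • single [] 1 := by
  have := dat_map (K.tfI ∘ₗ K.tfP - LinearMap.id +
      (lapply (R := ℤ) ([] : List V)).smulRight (single ([] : List V) (1 : ℤ))) ⊥
    (fun m hm _ _ => by
      by_cases e : m = []
      · subst e
        simp [tfa_nil]
      · have a := tfa_one (K := K) ⟨m, hm, e⟩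
        have b := tfa_I (K := K) ⟨m, hm, e⟩
        simp only at a b
        simp [a, b, single_eq_of_ne' e]) hc
  simp only [Submodule.mem_bot, LinearMap.add_apply, LinearMap.sub_apply, LinearMap.comp_apply,
    LinearMap.id_apply, LinearMap.smulRight_apply, lapply_apply] at this
  rw [← sub_eq_zero, ← this]
  abel

theorem tfa_map {B M : Type*} [AddCommGroup M] (T : (B →₀ ℤ) →ₗ[ℤ] M) (N : Submodule ℤ M)
    (h : ∀ p, T (single p 1) ∈ N) (c : B →₀ ℤ) : T c ∈ N := by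
  induction c using Finsupp.induction_linear with
  | zero => rw [map_zero]; exact N.zero_mem
  | add a b ha hb => rw [map_add]; exact N.add_mem ha hb
  | single p n =>
    rw [show single p n = n • single p (1 : ℤ) by simp, map_smul]
    exact N.smul_mem _ (h p)

theorem tfa_ext {B M : Type*} [AddCommGroup M] {T T' : (B →₀ ℤ) →ₗ[ℤ] M}
    (h : ∀ p, T (single p 1) = T' (single p 1)) (c : B →₀ ℤ) : T c = T' c := by
  rw [← sub_eq_zero, ← LinearMap.sub_apply, ← Submodule.mem_bot ℤ]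
  exact tfa_map _ _ (fun p => by simp [h p]) c

variable {G : Type w} [Group G] [MulAction G V] {Y : Type w'} [MulAction G Y]

variable (K) in
/-- Invariant transfer data on all the nonempty simplices. -/
theorem Fg.tf (hty : ∀ (g : G) x, K.ty (g • x) = K.ty x)
    (hadj : ∀ (g : G) x y, K.adj x y → K.adj (g • x) (g • y)) {ρ : Y → Y → Prop}
    {F : Set G} {N : ℕ} {Q : Set V} (hQ : Q.Finite) (dU : K.Dm Set.univ) {Λ : Type}
    (A A' : Λ → List V → Set V) (loc : List V → Y) {n : List V → List V → Prop}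
    (n0 : ∀ l, n l l) (n1 : ∀ {a b c}, n a b → n b c → n a c)
    (n2 : ∀ a b, n a b → ρ (loc a) (loc b))
    (h1 : ∀ i l, K.Sx l → l ≠ [] → (∀ x ∈ l, x ∈ A i l) ∧ A' i l ⊆ A i l ∧ A' i l ⊆ Q ∧
      K.Dm (A i l) ∧ K.Dm (A' i l) ∧ ((∀ x ∈ l, x ∈ Q) → A i l ⊆ Q))
    (h2 : ∀ i l l', K.Sx l → l'.Sublist l → A i l' ⊆ A i l ∧ A' i l' ⊆ A' i l)
    (h3 : ∀ l, K.Sx l → l ≠ [] → ∃ i, ∀ m m', K.Sx m → m ≠ [] → K.Sx m' → m' ≠ [] →
      n l m → (∀ x ∈ m', x ∈ A i m) → n l m')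
    (h4 : ∀ g ∈ F, ∀ l, K.Sx l → l ≠ [] → ρ (loc (l.map (g • ·))) (g • loc l))
    (h5 : ∀ l, K.Sx l → l.length ≤ N) :
    Nonempty (Lq.Tf G ρ F N) := by
  classical
  have := dat_fin (K := K) hQ
  obtain ⟨κ, hκ⟩ := dat_κ dU
  obtain ⟨sub, η, hη⟩ := dat_η (n := n) n0 n1 A A' h1 h2 h3
  have sx : ∀ (g : G) l, K.Sx l → K.Sx (l.map (g • ·)) := fun g l h =>
    List.pairwise_map.2 (h.imp fun a => ⟨hadj g _ _ a.1, by rw [hty, hty]; exact a.2⟩)
  have η0 : η (single [] 1) = 0 := dat_zero (hη [] List.Pairwise.nil).1 fun m _ e p => by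
    rcases p.1 with rfl | a
    · simp at e
    · exact a.1 rfl
  have κ0 := hκ [] List.Pairwise.nil (by simp)
  rw [dat_nil, map_zero, add_zero] at κ0
  have κ1 := fun p : K.tfB => hκ p.1 p.2.1 (by simp)
  let _ : MulAction G K.tfB :=
    { smul := fun g p => ⟨p.1.map (g • ·), sx g _ p.2.1, by simpa using p.2.2⟩
      one_smul := fun p => Subtype.ext (show p.1.map ((1 : G) • ·) = p.1 by simp)
      mul_smul := fun g h p => Subtype.ext
        (show p.1.map ((g * h) • ·) = (p.1.map (h • ·)).map (g • ·) by simp [mul_smul]) }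
  have sv : ∀ (g : G) (p : K.tfB), (g • p).1 = p.1.map (g • ·) := fun _ _ => rfl
  have lp : ∀ p : K.tfB, 0 < p.1.length := fun p => List.length_pos_iff.2 p.2.2
  have fT : {p : K.tfB | ∀ x ∈ p.1, x ∈ Q}.Finite :=
    (Set.finite_range fun q : K.datT Q => (⟨q.1, q.2.1, q.2.2.1⟩ : K.tfB)).subset
      fun p a => ⟨⟨p.1, p.2.1, p.2.2, a⟩, rfl⟩
  have dI : ∀ {P k c}, c ∈ K.Cn P k → dC (K.tfI (K.tfP c)) = dC c := fun a => by
    rw [tfa_IP a, map_sub, map_smul, dat_nil, smul_zero, sub_zero]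
  have aI : ∀ (g : G) c, K.tfI (mapDomain (g • ·) c) = datA V g (K.tfI c) := fun g c => by
    simp only [tfI, datA, lmapDomain_apply, ← mapDomain_comp]
    rfl
  have aP : ∀ (g : G) {P k c}, c ∈ K.Cn P k →
      K.tfP (datA V g c) = mapDomain (g • ·) (K.tfP c) := fun g P k c a => by
    have := dat_map (K.tfP ∘ₗ datA V g - lmapDomain ℤ ℤ (g • ·) ∘ₗ K.tfP) ⊥ (fun m hm _ _ => by
      simp only [Submodule.mem_bot, LinearMap.sub_apply, LinearMap.comp_apply, datA_single,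
        lmapDomain_apply, sub_eq_zero]
      by_cases e : m = []
      · subst e
        simp [tfa_nil]
      · obtain ⟨p, rfl⟩ : ∃ p : K.tfB, p.1 = m := ⟨⟨m, hm, e⟩, rfl⟩
        rw [tfa_one, mapDomain_single, ← sv, tfa_one]) a
    simpa only [Submodule.mem_bot, LinearMap.sub_apply, LinearMap.comp_apply,
      lmapDomain_apply, sub_eq_zero] using this
  have a0 : ∀ (g : G) c, datA V g c [] = c [] := fun g c => by
    have := mapDomain_apply (f := List.map fun x : V => g • x)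
      (List.map_injective_iff.2 (MulAction.injective g)) c []
    exact this
  refine ⟨{
    B := K.tfB
    deg := fun p => p.1.length - 1
    loc := fun p => loc p.1
    d := K.tfP ∘ₗ dC ∘ₗ K.tfI
    η := K.tfP ∘ₗ η ∘ₗ K.tfI
    κ := K.tfP ∘ₗ κ ∘ₗ K.tfI
    ε := lapply [] ∘ₗ dC ∘ₗ K.tfI
    b := K.tfP (κ (single [] 1))
    T := fT.toFinset
    deg_smul := fun g p => by rw [sv, List.length_map]
    dd := fun c => ?_
    d_smul := fun g c => ?_
    ε_smul := fun g c => ?_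
    deg_d := fun p q a => ?_
    deg_η := fun p q a => ?_
    deg_κ := fun p q a => ?_
    deg_ε := fun p a => ?_
    deg_b := fun q a => ?_
    εd := fun c => ?_
    εb := ?_
    con := fun c => ?_
    dom := fun c => ?_
    T_d := fun p a q b => ?_
    T_deg := fun p _ => ?_
    cd := fun p q a => ?_
    cη := fun p q a => ?_
    cg := fun g hg p => h4 g hg _ p.2.1 p.2.2 }⟩
  · refine tfa_ext (T := (K.tfP ∘ₗ dC ∘ₗ K.tfI) ∘ₗ K.tfP ∘ₗ dC ∘ₗ K.tfI) (T' := 0) (fun p => ?_) c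
    simp only [LinearMap.comp_apply, tfa_I, dI (dat_sub p.2.1), dd, map_zero, LinearMap.zero_apply]
  · refine tfa_ext (T := (K.tfP ∘ₗ dC ∘ₗ K.tfI) ∘ₗ lmapDomain ℤ ℤ (g • ·))
      (T' := lmapDomain ℤ ℤ (g • ·) ∘ₗ K.tfP ∘ₗ dC ∘ₗ K.tfI) (fun p => ?_) c
    simp only [LinearMap.comp_apply, lmapDomain_apply, aI, tfa_I, datA_d, aP g (dat_sub p.2.1)]
  · simp only [LinearMap.comp_apply, lapply_apply, aI, datA_d, a0]
  · simp only [LinearMap.comp_apply, tfa_I, mem_support_iff, tfa_P] at a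
    have := (dat_supp (dat_sub p.2.1) a).2.2.2
    have := lp q
    omega
  · simp only [LinearMap.comp_apply, tfa_I, mem_support_iff, tfa_P] at a
    have := (dat_supp (hη _ p.2.1).1 a).2.1
    have := lp p
    omega
  · simp only [LinearMap.comp_apply, tfa_I, mem_support_iff, tfa_P] at a
    have := (dat_supp (κ1 p).1 a).2.1
    have := lp p
    omega
  · simp only [LinearMap.comp_apply, tfa_I, lapply_apply]
    by_contra k
    have := (dat_supp (dat_sub p.2.1) k).2.1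
    exact a this.symm
  · simp only [mem_support_iff, tfa_P] at a
    rw [(dat_supp κ0.1 a).2.1]
    rfl
  · refine tfa_ext (T := (lapply [] ∘ₗ dC ∘ₗ K.tfI) ∘ₗ K.tfP ∘ₗ dC ∘ₗ K.tfI) (T' := 0)
      (fun p => ?_) c
    simp only [LinearMap.comp_apply, tfa_I, dI (dat_sub p.2.1), dd, map_zero, LinearMap.zero_apply]
  · simp only [LinearMap.comp_apply, dI κ0.1, ← κ0.2, lapply_apply, single_eq_same]
  · refine tfa_ext (T := LinearMap.id - (lapply [] ∘ₗ dC ∘ₗ K.tfI).smulRight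
      (K.tfP (κ (single [] 1)))) (T' := (K.tfP ∘ₗ dC ∘ₗ K.tfI) ∘ₗ (K.tfP ∘ₗ κ ∘ₗ K.tfI) +
        (K.tfP ∘ₗ κ ∘ₗ K.tfI) ∘ₗ (K.tfP ∘ₗ dC ∘ₗ K.tfI)) (fun p => ?_) c
    simp only [LinearMap.comp_apply, LinearMap.sub_apply, LinearMap.add_apply, LinearMap.id_apply,
      LinearMap.smulRight_apply, lapply_apply, tfa_I, dI (κ1 p).1, tfa_IP (dat_sub p.2.1),
      map_sub, map_smul]
    rw [← add_sub_assoc, ← map_add, ← (κ1 p).2, tfa_one]
  · have := tfa_map (LinearMap.id - (K.tfP ∘ₗ dC ∘ₗ K.tfI) ∘ₗ (K.tfP ∘ₗ η ∘ₗ K.tfI) -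
        (K.tfP ∘ₗ η ∘ₗ K.tfI) ∘ₗ (K.tfP ∘ₗ dC ∘ₗ K.tfI))
        (supported ℤ ℤ (fT.toFinset : Set K.tfB)) (fun p => by
      simp only [LinearMap.comp_apply, LinearMap.sub_apply, LinearMap.id_apply, tfa_I,
        dI (hη _ p.2.1).1, tfa_IP (dat_sub p.2.1), map_sub, map_smul, η0, smul_zero,
        sub_zero]
      rw [← tfa_one, ← map_sub, ← map_sub, mem_supported]
      intro q a
      rw [Finset.mem_coe, mem_support_iff, tfa_P] at a
      exact fT.mem_toFinset.2 (dat_supp (hη _ p.2.1).2 a).2.2.2) c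
    exact Finset.coe_subset.1 ((mem_supported ℤ _).1 this)
  · simp only [LinearMap.comp_apply, tfa_I, mem_support_iff, tfa_P] at b
    exact fT.mem_toFinset.2 fun x hx =>
      fT.mem_toFinset.1 a x ((dat_supp (dat_sub p.2.1) b).2.2.1.subset hx)
  · have := h5 _ p.2.1
    have := lp p
    omega
  · simp only [LinearMap.comp_apply, tfa_I, mem_support_iff, tfa_P] at a
    exact n2 _ _ (sub _ _ p.2.1 (dat_supp (dat_sub p.2.1) a).2.2.1 q.2.2)
  · simp only [LinearMap.comp_apply, tfa_I, mem_support_iff, tfa_P] at a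
    exact n2 _ _ ((dat_supp (hη _ p.2.1).1 a).2.2.1.resolve_left q.2.2).2

end Pool.Agent.Lib.MP_5d3e93_al.Bg
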