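import Pool.Agent.Lib.MP_5d3e93_al.Bg.Geo
import Pool.Agent.Lib.MP_5d3e93_al.Bg.TfA

/-! Invariant transfer data from the building. -/

namespace Pool.Agent.Lib.MP_5d3e93_al.Bg

universe w w'

variable {X : Type w'} [Lattice X] {B : Bl X} {G : Type w} [Group G] [MulAction G X]

theorem tfb_len {l : List B.Vx} (hl : B.fg.Sx l) : l.length ≤ B.n := by
  classical
  have a : (l.map fun z => B.cov z.1).Nodup :=
    List.pairwise_map.2 (hl.imp fun a => a.2.ne)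
  have b := Finset.card_le_card (s := (l.map fun z => B.cov z.1).toFinset)
    (t := Finset.Ico (0 : ℤ) B.n) fun x hx => by
      obtain ⟨z, -, rfl⟩ := List.mem_map.1 (List.mem_toFinset.1 hx)
      exact Finset.mem_Ico.2 z.2
  rw [List.toFinset_card_of_nodup a] at b
  simpa using b

variable (B)

/-- Transfer data on all the simplices of the building. -/
theorem Bl.tf [Nonempty X] [B.Ac G] {F : Set G} (hF : F.Finite) {h : ℕ} (hh : 2 ≤ h) :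
    Nonempty (Lq.Tf G (fun x y => ((YL.pf B G (B.n + 2) (Finset (Fin (B.n + 1)))).nv h).n 1 x y ∧
      (∀ j, x.t j ≤ (4 * B.n + 6) * h) ∧ ∀ j, y.t j ≤ (4 * B.n + 6) * h) F B.n) := by
  have hG : B.Ac G := inferInstance
  obtain ⟨ρ, hρ⟩ := B.ex_fl hF
  obtain ⟨w, hw⟩ := B.ex_chn (G := G)
  obtain ⟨x₀⟩ := ‹Nonempty X›
  have hn : (0 : ℤ) < B.n := by exact_mod_cast B.pos
  obtain ⟨v₀⟩ : Nonempty B.Vx := ⟨⟨(B.π ^ (B.cov x₀ / B.n)) x₀, by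
    rw [B.cov_zpow, mul_comm, ← Int.emod_def]
    exact ⟨Int.emod_nonneg _ hn.ne', Int.emod_lt_of_pos _ hn⟩⟩⟩
  obtain ⟨Y, hY⟩ : ∃ Y : List B.Vx → Finset (Fin (B.n + 1)) → YL B (B.n + 2), ∀ l L,
      B.fg.Sx l → l ≠ [] → Bl.Rep (geoK B ρ h L) (w l) (Y l L) := by
    have : ∀ l L, ∃ y : YL B (B.n + 2), B.fg.Sx l → l ≠ [] → Bl.Rep (geoK B ρ h L) (w l) y := by
      intro l L
      by_cases c : B.fg.Sx l ∧ l ≠ []
      · exact (Bl.ex_rep (hρ.geo_ks L) (hw l c.1 c.2).1).imp fun _ a _ _ => a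
      · exact (Bl.ex_rep (hρ.geo_ks (h := h) L) (hw [v₀] (List.pairwise_singleton _ _)
          (List.cons_ne_nil _ _)).1).imp fun _ _ a b => absurd ⟨a, b⟩ c
    choose Y hY using this
    exact ⟨Y, hY⟩
  have qs : ∀ k x y, ρ k x = x → ρ k y = y → ρ k (x ⊔ y) = x ⊔ y := fun k x y a b =>
    le_antisymm ((hρ.ko k).le _) (sup_le (a.ge.trans ((hρ.ko k).mono le_sup_left))
      (b.ge.trans ((hρ.ko k).mono le_sup_right)))
  have qz : ∀ k x (m : ℤ), ρ k x = x → ρ k ((B.π ^ m) x) = (B.π ^ m) x := fun k x m a => by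
    rw [geo_zpow (hρ.ko k), a]
  have ql : ∀ (i : Fin (B.n + 1)) y, ρ ((4 * B.n + 5) * h) (ρ (lv h i) y) = ρ (lv h i) y :=
    fun i y => le_antisymm ((hρ.ko _).le _) (hρ.geo_hi (by have := geo_lv (h := h) i; omega) y)
  have az : ∀ k l z (m : ℤ), (∃ x ∈ B.Orb l, ∃ y ∈ B.Orb l, z = x ⊔ ρ k y) →
      ∃ x ∈ B.Orb l, ∃ y ∈ B.Orb l, (B.π ^ m) z = x ⊔ ρ k y := by
    rintro k l _ m ⟨x, a, y, b, rfl⟩
    exact ⟨_, geo_orb a m, _, geo_orb b m, by rw [map_sup, geo_zpow (hρ.ko k)]⟩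
  have o0 : ∀ {l : List B.Vx} {x}, x ∈ l → x.1 ∈ B.Orb l := fun a => ⟨_, a, 0, by simp⟩
  have om : ∀ (v : ℤ → X) j, geoT B ρ h v j ≤ (4 * B.n + 6) * h := fun v j =>
    geoT_le (Or.inr (by nlinarith))
  refine B.fg.tf (fun g x => hG.hc g x.1) (B.adj_smul)
    (Q := {z | z.1 ∈ {z | ρ ((4 * B.n + 5) * h) z = z}}) ?_
    (B.dm (A := Set.univ) ⟨x₀, trivial⟩ (fun _ _ _ _ => trivial) fun _ _ _ => trivial)
    (fun (i : Fin (B.n + 1)) l => {z | z.1 ∈ {z | ∃ x ∈ B.Orb l, ∃ y ∈ B.Orb l,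
      z = x ⊔ ρ (lv h i) y}})
    (fun i l => {z | z.1 ∈ {z | ∃ y ∈ B.Orb l, z = ρ (lv h i) y}})
    (fun l => ⟨geoT B ρ h (w l), Y l⟩)
    (n := fun l m => ((YL.pf B G (B.n + 2) (Finset (Fin (B.n + 1)))).nv h).n 0
      ⟨geoT B ρ h (w l), Y l⟩ ⟨geoT B ρ h (w m), Y m⟩)
    (fun _ => Nv.refl _ _ _) (fun a b => Nv.trans _ a b)
    (fun _ _ a => ⟨Nv.mono _ a zero_le_one, om _, om _⟩) ?_ ?_ ?_ ?_ ?_
  · exact ((hρ.fin _).preimage Subtype.val_injective.injOn).subset fun z a => ⟨a, z.2⟩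
  · intro i l hl ne
    obtain ⟨x₁, m₁⟩ := List.exists_mem_of_ne_nil l ne
    refine ⟨fun x a => ⟨_, o0 a, _, o0 a, (sup_eq_left.2 ((hρ.ko _).le _)).symm⟩, ?_, ?_,
      B.dm ⟨_, _, o0 m₁, _, o0 m₁, rfl⟩ ?_ fun z a m => az _ l z m a,
      B.dm ⟨_, _, o0 m₁, rfl⟩ ?_ ?_, ?_⟩
    · rintro z ⟨y, a, e⟩
      obtain ⟨m, b⟩ := B.arch y (ρ (lv h i) y)
      exact ⟨_, geo_orb a m, y, a, e.trans (sup_eq_right.2 (by rwa [zpow_natCast])).symm⟩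
    · rintro z ⟨y, -, e⟩
      change ρ _ z.1 = z.1
      rw [e, ql]
    · rintro _ ⟨x, a, y, b, rfl⟩ _ ⟨x', a', y', b', rfl⟩
      exact ⟨_, (geo_chain hl (hρ.ko 0).mono a a').1, _, (geo_chain hl (hρ.ko 0).mono b b').1, by
        rw [← (geo_chain hl (hρ.ko _).mono b b').2, sup_sup_sup_comm]⟩
    · rintro _ ⟨y, b, rfl⟩ _ ⟨y', b', rfl⟩
      exact ⟨_, (geo_chain hl (hρ.ko 0).mono b b').1, (geo_chain hl (hρ.ko _).mono b b').2⟩
    · rintro _ ⟨y, b, rfl⟩ m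
      exact ⟨_, geo_orb b m, (geo_zpow (hρ.ko _) m y).symm⟩
    · rintro c z ⟨_, ⟨x, a, m, rfl⟩, y, -, e⟩
      change ρ _ z.1 = z.1
      rw [e]
      exact qs _ _ _ (qz _ _ m (c x a)) (ql i y)
  · intro i l l' _ s
    have o : B.Orb l' ⊆ B.Orb l := fun _ ⟨x, a, b⟩ => ⟨x, s.subset a, b⟩
    exact ⟨fun _ ⟨x, a, y, b, e⟩ => ⟨x, o a, y, o b, e⟩, fun _ ⟨y, b, e⟩ => ⟨y, o b, e⟩⟩
  · intro l _ _
    obtain ⟨i, hi⟩ := geo_gap (h := h) (geoT B ρ h (w l))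
    refine ⟨i, fun m m' hm ne hm' ne' a b => ?_⟩
    obtain ⟨c, r, -⟩ := hw m hm ne
    obtain ⟨c', r', -⟩ := hw m' hm' ne'
    have p : Bl.Push (ρ (lv h i)) (w m) (w m') := fun s => by
      obtain ⟨x, d, k, e⟩ : w m' s ∈ B.Orb m' := r' ▸ Set.mem_range_self s
      obtain ⟨x', d', y', e', f⟩ := az _ m _ k (b x d)
      rw [← r] at d' e'
      obtain ⟨s₁, rfl⟩ := d'
      obtain ⟨s₂, rfl⟩ := e'
      exact ⟨s₁, s₂, e.trans f⟩
    have t₁ : ∀ j, geoT B ρ h (w m) j ≤ geoT B ρ h (w l) j := a.1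
    have t₂ := hρ.geo_push (h := h) c c' p
    refine ⟨fun j => (t₂ j).trans (t₁ j), fun L (ad : Adm h 0 (geoT B ρ h (w l))
      (geoT B ρ h (w m')) L) => ?_⟩
    have iL : i ∈ L := by
      by_contra d
      obtain ⟨j, e⟩ := ad.2 i d
      have := t₁ j
      have := t₂ j
      exact hi j (by omega)
    exact YL.le_tr (a.2 L (ad.of (fun _ => le_rfl) t₂))
      (hρ.geo_rep hh c c' iL p (ad.of t₁ fun _ => le_rfl) (hY m L hm ne) (hY m' L hm' ne'))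
  · intro g hg l hl ne
    obtain ⟨c, -, e⟩ := hw l hl ne
    have hl' : B.fg.Sx (l.map (g • ·)) := List.Pairwise.map _ (fun x y a =>
      ⟨B.adj_smul g x y a.1, (hG.hc g x.1).trans_lt (a.2.trans_eq (hG.hc g y.1).symm)⟩) hl
    have ne' : l.map (g • ·) ≠ [] := by simpa using ne
    have c' := (hw _ hl' ne').1
    have y' := fun L => hY _ L hl' ne'
    refine ⟨?_, om _, om _⟩
    change (∀ j, geoT B ρ h (w l) j ≤ geoT B ρ h (w (l.map (g • ·))) j + 1) ∧ ∀ L,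
      Adm h 1 (geoT B ρ h (w (l.map (g • ·)))) (geoT B ρ h (w l)) L →
        (Y (l.map (g • ·)) L).le (g • Y l L)
    rw [e g] at c' y' ⊢
    exact ⟨hρ.geo_t_smul hg _, fun L ad => hρ.geo_rep_smul hh hg c c' ad (y' L) (hY l L hl ne)⟩
  · exact fun l hl => tfb_len hl

end Pool.Agent.Lib.MP_5d3e93_al.Bg
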