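import Pool.Agent.Lib.MP_5d3e93_al.Bg.Shf

/-! Heights and straight shuffles. -/

namespace Pool.Agent.Lib.MP_5d3e93_al.Bg

open Finset Filter

variable {κ : Type} {ℓ : κ → ℕ} {q q' r r' : κ × ℤ → κ × ℤ → Prop} {k : κ → ℤ}

/-- The last letter of colour `c` up to `ν`. -/
noncomputable def twF (r : κ × ℤ → κ × ℤ → Prop) (ν : κ × ℤ) (c : κ) : ℤ :=
  Classical.epsilon fun z => ∀ a, a ≤ z ↔ (c, a) = ν ∨ r (c, a) ν

theorem Wd.tw_le (h : Wd ℓ r) (ν : κ × ℤ) (c : κ) (a : ℤ) :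
    a ≤ twF r ν c ↔ (c, a) = ν ∨ r (c, a) ν := by
  obtain ⟨f, hf⟩ := h.ex_last
  exact Classical.epsilon_spec (p := fun z => ∀ a, a ≤ z ↔ (c, a) = ν ∨ r (c, a) ν)
    ⟨f ν c, hf ν c⟩ a

theorem Wd.tw_asy (h : Wd ℓ r) {a b : κ × ℤ} (x : r a b) (y : r b a) : False :=
  h.irr _ (h.trans x y)

theorem Wd.tw_lt (h : Wd ℓ r) {c : κ} {a b : ℤ} : r (c, a) (c, b) ↔ a < b := by
  have key : ∀ a b : ℤ, a < b → r (c, a) (c, b) := fun a b e =>
    Int.leInduction (motive := fun b _ => r (c, a) (c, b)) (h.idx c a)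
      (fun n _ ih => h.trans ih (h.idx c n)) b e
  refine ⟨fun e => by_contra fun l => ?_, key a b⟩
  rcases (not_lt.1 l).eq_or_lt with rfl | l
  exacts [h.irr _ e, h.tw_asy e (key _ _ l)]

/-- `r'` is `r` renumbered by `k`. -/
def TwS (k : κ → ℤ) (r r' : κ × ℤ → κ × ℤ → Prop) : Prop :=
  ∀ c a c' a', r' (c, a + k c) (c', a' + k c') ↔ r (c, a) (c', a')

theorem TwS.ex (k : κ → ℤ) (a : κ × ℤ) : ∃ c x, a = (c, x + k c) :=
  ⟨a.1, a.2 - k a.1, by simp⟩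

theorem TwS.f (e : TwS k r r') (h : Wd ℓ r) (h' : Wd ℓ r') (c' : κ) (a : ℤ) (c : κ) :
    twF r' (c', a + k c') c = twF r (c', a) c + k c := by
  refine eq_of_forall_le_iff fun b => ?_
  obtain ⟨b, rfl⟩ : ∃ b', b = b' + k c := ⟨b - k c, by ring⟩
  rw [h'.tw_le, add_le_add_iff_right, h.tw_le, e]
  refine or_congr_left ⟨fun x => ?_, fun x => ?_⟩
  · obtain ⟨rfl, y⟩ := Prod.mk.inj x
    rw [add_right_cancel y]
  · obtain ⟨rfl, rfl⟩ := Prod.mk.inj x
    rfl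

theorem Wd.tw_s (h : Wd ℓ r) : TwS (fun c => ℓ c) r r := h.per

theorem tw_sum {F : ℤ → ℤ} {L : ℕ} {e : ℤ} (h : ∀ a, F (a + L) = F a + e) (k : ℤ) :
    ∑ a ∈ range L, F (a + k) = ∑ a ∈ range L, F a + k * e := by
  have st : ∀ k : ℤ, ∑ a ∈ range L, F (a + (k + 1)) = ∑ a ∈ range L, F (a + k) + e := fun k => by
    have a1 := sum_range_succ (fun a : ℕ => F (a + k)) L
    have a2 := sum_range_succ' (fun a : ℕ => F (a + k)) L
    have a3 := h k
    simp only [Nat.cast_add, Nat.cast_one, Nat.cast_zero, zero_add, add_assoc, add_comm (1 : ℤ) k]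
      at a1 a2
    rw [add_comm k] at a3
    linarith
  induction k using Int.induction_on with
  | zero => simp
  | succ n ih => rw [st, ih]; ring
  | pred n ih =>
    have := st (-n - 1)
    rw [sub_add_cancel, ih] at this
    linarith

/-- The height of a pair of colours. -/
noncomputable def twH (ℓ : κ → ℕ) (r : κ × ℤ → κ × ℤ → Prop) (c c' : κ) : ℤ :=
  ∑ a ∈ range (ℓ c'), twF r (c', a) c

theorem TwS.h (e : TwS k r r') (h : Wd ℓ r) (h' : Wd ℓ r') (c c' : κ) :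
    twH ℓ r' c c' = twH ℓ r c c' + (ℓ c' * k c - ℓ c * k c') := by
  have a1 : ∀ a : ℤ, twF r' (c', a) c = twF r (c', a + -k c') c + k c := fun a => by
    rw [← e.f h h', neg_add_cancel_right]
  have a2 := tw_sum (F := fun a => twF r (c', a) c) (fun a => h.tw_s.f h h c' a c) (-k c')
  simp only [twH, a1, sum_add_distrib, a2, sum_const, card_range, nsmul_eq_mul]
  ring

variable [LinearOrder κ]

theorem Sb.tw_tr (a : Sb q r) (b : Sb r r') : Sb q r' := fun x y l e => b x y l (a x y l e)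

theorem Sb.tw_s (a : Sb r q) (e : TwS k r r') (e' : TwS k q q') : Sb r' q' := fun x y l => by
  obtain ⟨c, x, rfl⟩ := TwS.ex k x
  obtain ⟨c', y, rfl⟩ := TwS.ex k y
  rw [e, e']
  exact a _ _ l

theorem Sb.tw_f (e : Sb r r') (h : Wd ℓ r) (h' : Wd ℓ r') {c c' : κ} (l : c < c') (a : ℤ) :
    twF r (c', a) c ≤ twF r' (c', a) c :=
  (h'.tw_le _ _ _).2 (((h.tw_le _ _ _).1 le_rfl).imp_right (e _ _ l))

theorem Sb.tw_h (e : Sb r r') (h : Wd ℓ r) (h' : Wd ℓ r') {c c' : κ} (l : c < c') :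
    twH ℓ r c c' ≤ twH ℓ r' c c' := sum_le_sum fun a _ => e.tw_f h h' l a

theorem Sb.tw_eq (e : Sb r r') (h : Wd ℓ r) (h' : Wd ℓ r') {c c' : κ} (l : c < c')
    (x : twH ℓ r c c' = twH ℓ r' c c') (a b : ℤ) : r (c, a) (c', b) ↔ r' (c, a) (c', b) := by
  have a1 := (sum_eq_sum_iff_of_le (s := range (ℓ c')) (f := fun a : ℕ => twF r (c', a) c)
    (g := fun a : ℕ => twF r' (c', a) c) fun a _ => e.tw_f h h' l a).1 x
  have a2 : Function.Periodic (fun b => twF r' (c', b) c - twF r (c', b) c) (ℓ c') := fun b => by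
    simp only [h.tw_s.f h h, h'.tw_s.f h' h', add_sub_add_right_eq_sub]
  obtain ⟨y, hy, a3⟩ := a2.exists_mem_Ico₀ (by exact_mod_cast h.pos c') b
  obtain ⟨y, rfl⟩ := Int.eq_ofNat_of_zero_le hy.1
  rw [a1 y (mem_range.2 (by exact_mod_cast hy.2)), sub_self, sub_eq_zero] at a3
  have a4 := h.tw_le (c', b) c a
  have n : (c, a) ≠ (c', b) := fun z => l.ne (Prod.mk.inj z).1
  rwa [← a3, h'.tw_le, or_iff_right n, or_iff_right n, iff_comm] at a4

/-- The relations agree on letters whose colours have the same rate. -/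
def TwA (t : κ → ℚ) (r r' : κ × ℤ → κ × ℤ → Prop) : Prop :=
  ∀ a b, t a.1 = t b.1 → (r a b ↔ r' a b)

theorem TwA.of {t : κ → ℚ} (h : Wd ℓ r) (h' : Wd ℓ r')
    (e : ∀ a b, a.1 < b.1 → t a.1 = t b.1 → (r a b ↔ r' a b)) : TwA t r r' := by
  rintro ⟨c, a⟩ ⟨c', b⟩ x
  rcases lt_trichotomy c c' with l | rfl | l
  · exact e _ _ l x
  · rw [h.tw_lt, h'.tw_lt]
  · have n : (c, a) ≠ (c', b) := fun z => l.ne' (Prod.mk.inj z).1
    have := e (c', b) (c, a) l x.symm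
    exact ⟨fun y => (h'.tot _ _ n).resolve_right fun z => h.tw_asy y (this.2 z),
      fun y => (h.tot _ _ n).resolve_right fun z => h'.tw_asy y (this.1 z)⟩

variable [Fintype κ] {t : κ → ℚ} {m m' : ℤ}

/-- The position of a letter on a line of slope `m`. -/
noncomputable def twP (ℓ : κ → ℕ) (t : κ → ℚ) (r : κ × ℤ → κ × ℤ → Prop) (m : ℤ) (ν : κ × ℤ) : ℚ :=
  (∑ c with t c = t ν.1, (twF r ν c : ℚ)) / (∑ c with t c = t ν.1, (ℓ c : ℚ)) - m * t ν.1

omit [LinearOrder κ] in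
theorem Wd.tw_pos (h : Wd ℓ r) (t : κ → ℚ) (c' : κ) : 0 < ∑ c with t c = t c', (ℓ c : ℚ) :=
  sum_pos (fun c _ => by exact_mod_cast h.pos c) ⟨c', by simp⟩

omit [LinearOrder κ] in
theorem TwS.p (e : TwS k r r') (h : Wd ℓ r) (h' : Wd ℓ r') (w : ℚ → ℚ)
    (hk : ∀ c, (k c : ℚ) = w (t c) * ℓ c) (m : ℤ) (c : κ) (a : ℤ) :
    twP ℓ t r' m (c, a + k c) = twP ℓ t r m (c, a) + w (t c) := by
  have a1 : ∑ c' with t c' = t c, (k c' : ℚ) = w (t c) * ∑ c' with t c' = t c, (ℓ c' : ℚ) := by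
    rw [mul_sum]
    exact sum_congr rfl fun c' x => by rw [hk, (mem_filter.1 x).2]
  simp only [twP, e.f h h', Int.cast_add, sum_add_distrib, a1, add_div,
    mul_div_cancel_right₀ _ (h.tw_pos t c).ne']
  ring

omit [LinearOrder κ] in
theorem Wd.tw_plt (h : Wd ℓ r) {a b : κ × ℤ} (x : t a.1 = t b.1) (y : r a b) :
    twP ℓ t r m a < twP ℓ t r m b := by
  simp only [twP, x]
  refine sub_lt_sub_right (div_lt_div_of_pos_right (sum_lt_sum (fun c _ => ?_)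
    ⟨b.1, by simp, ?_⟩) (h.tw_pos t _)) _
  · refine Int.cast_le.2 ((h.tw_le _ _ _).2 (Or.inr ?_))
    rcases (h.tw_le a c _).1 le_rfl with z | z
    exacts [by rw [z]; exact y, h.trans z y]
  · refine Int.cast_lt.2 (lt_of_lt_of_le (not_le.1 fun z => ?_) ((h.tw_le b b.1 b.2).2 (Or.inl rfl)))
    rcases (h.tw_le a b.1 b.2).1 z with z | z
    exacts [h.irr a (by rwa [← show b = a from z] at y ⊢), h.tw_asy y z]

omit [LinearOrder κ] in
theorem TwA.p (e : TwA t r r') (h : Wd ℓ r) (h' : Wd ℓ r') : twP ℓ t r = twP ℓ t r' := by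
  funext m ν
  have : ∑ c with t c = t ν.1, (twF r ν c : ℚ) = ∑ c with t c = t ν.1, (twF r' ν c : ℚ) :=
    sum_congr rfl fun c x => congrArg Int.cast (eq_of_forall_le_iff fun a => by
      rw [h.tw_le, e (c, a) ν (mem_filter.1 x).2, ← h'.tw_le])
  rw [twP, twP, this]

/-- The straight shuffle of slope `m`. -/
def twT (ℓ : κ → ℕ) (t : κ → ℚ) (r : κ × ℤ → κ × ℤ → Prop) (m : ℤ) (a b : κ × ℤ) : Prop :=
  twP ℓ t r m a < twP ℓ t r m b ∨ twP ℓ t r m a = twP ℓ t r m b ∧ a.1 < b.1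

theorem TwA.tt (e : TwA t r r') (h : Wd ℓ r) (h' : Wd ℓ r') : twT ℓ t r = twT ℓ t r' := by
  funext m a b
  rw [twT, twT, e.p h h']

theorem twT_irr (a : κ × ℤ) : ¬twT ℓ t r m a a := fun x =>
  x.elim (lt_irrefl _) fun y => lt_irrefl _ y.2

theorem twT_iff {a b : κ × ℤ} (l : a.1 < b.1) :
    twT ℓ t r m a b ↔ twP ℓ t r m a ≤ twP ℓ t r m b := by
  rw [twT, and_iff_left l, le_iff_lt_or_eq]

theorem Wd.tw_a (h : Wd ℓ r) (m : ℤ) : TwA t (twT ℓ t r m) r := by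
  refine fun a b x => ⟨fun y => ?_, fun y => Or.inl (h.tw_plt x y)⟩
  have n : a ≠ b := by
    rintro rfl
    exact twT_irr a y
  have l : twP ℓ t r m a ≤ twP ℓ t r m b := Or.elim y le_of_lt fun u => u.1.le
  exact (h.tot a b n).resolve_right fun z => l.not_gt (h.tw_plt x.symm z)

theorem TwS.tt (e : TwS k r r') (h : Wd ℓ r) (h' : Wd ℓ r') {u : ℤ}
    (hk : ∀ c, (k c : ℚ) = u * t c * ℓ c) (m : ℤ) : TwS k (twT ℓ t r m) (twT ℓ t r' (u + m)) := by
  have a1 : ∀ c a, twP ℓ t r' (u + m) (c, a + k c) = twP ℓ t r m (c, a) := fun c a => by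
    rw [e.p h h' (fun x => u * x) hk]
    simp only [twP, Int.cast_add]
    ring
  intro c a c' a'
  simp only [twT, a1]

omit [LinearOrder κ] in
theorem Wd.tw_per (h : Wd ℓ r) (c : κ) (a : ℤ) :
    twP ℓ t r m (c, a + ℓ c) = twP ℓ t r m (c, a) + 1 :=
  h.tw_s.p h h (fun _ => 1) (fun _ => by simp) m c a

omit [LinearOrder κ] in
theorem Wd.tw_mul (h : Wd ℓ r) (c : κ) (n : ℤ) :
    twP ℓ t r m (c, n * ℓ c) = twP ℓ t r m (c, 0) + n := by
  induction n using Int.induction_on with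
  | zero => simp
  | succ n ih => rw [add_one_mul, h.tw_per, ih]; push_cast; ring
  | pred n ih =>
    have := h.tw_per (t := t) (m := m) c ((-n - 1) * ℓ c)
    rw [← add_one_mul, sub_add_cancel, ih] at this
    push_cast at this ⊢
    linarith

theorem Wd.tw_t (h : Wd ℓ r) (t : κ → ℚ) (m : ℤ) : Wd ℓ (twT ℓ t r m) where
  pos := h.pos
  irr := twT_irr
  trans := by
    rintro a b c (x | x) (y | y)
    exacts [Or.inl (x.trans y), Or.inl (y.1 ▸ x), Or.inl (x.1 ▸ y),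
      Or.inr ⟨x.1.trans y.1, x.2.trans y.2⟩]
  tot a b n := by
    rcases lt_trichotomy a.1 b.1 with l | l | l
    · exact (le_or_gt _ _).imp (twT_iff l).2 Or.inl
    · exact (h.tot a b n).imp (h.tw_a m _ _ (congrArg t l)).2 (h.tw_a m _ _ (congrArg t l.symm)).2
    · exact (lt_or_ge _ _).imp Or.inl (twT_iff l).2
  idx c a := (h.tw_a m (c, a) (c, a + 1) rfl).2 (h.idx c a)
  per c a c' a' := by simp only [twT, h.tw_per, add_lt_add_iff_right, add_left_inj]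
  arch ν c := by
    obtain ⟨n, x⟩ := exists_int_lt (twP ℓ t r m ν - twP ℓ t r m (c, 0))
    obtain ⟨n', y⟩ := exists_int_gt (twP ℓ t r m ν - twP ℓ t r m (c, 0))
    exact ⟨⟨n * ℓ c, Or.inl (by rw [h.tw_mul]; linarith)⟩,
      n' * ℓ c, Or.inl (by rw [h.tw_mul]; linarith)⟩

omit [LinearOrder κ] in
theorem twP_eq (m : ℤ) (a : κ × ℤ) : twP ℓ t r m a = twP ℓ t r 0 a - m * t a.1 := by simp [twP]

theorem twT_mono (ht : Antitone t) (l : m ≤ m') : Sb (twT ℓ t r m) (twT ℓ t r m') := fun a b x => by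
  rw [twT_iff x, twT_iff x, twP_eq m, twP_eq m, twP_eq m', twP_eq m']
  have a1 : (m : ℚ) ≤ m' := by exact_mod_cast l
  intro y
  nlinarith [ht x.le]

omit [LinearOrder κ] in
theorem Wd.tw_bd (h : Wd ℓ r) (t : κ → ℚ) (c c' : κ) : ∃ C : ℚ, ∀ a b, r (c, a) (c', b) →
    twP ℓ t r 0 (c, a) - twP ℓ t r 0 (c', b) ≤ C := by
  obtain ⟨u, hu⟩ : ∃ u : ℤ → ℚ, ∀ b,
    u b = twP ℓ t r 0 (c, twF r (c', b) c) - twP ℓ t r 0 (c', b) := ⟨_, fun _ => rfl⟩
  have a2 : Function.Periodic u (ℓ c') := fun b => by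
    rw [hu, hu, h.tw_s.f h h, h.tw_per, h.tw_per, add_sub_add_right_eq_sub]
  obtain ⟨C, hC⟩ := ((Set.finite_Ico (0 : ℤ) (ℓ c')).image u).bddAbove
  refine ⟨C, fun a b x => ?_⟩
  obtain ⟨y, hy, a3⟩ := a2.exists_mem_Ico₀ (by exact_mod_cast h.pos c') b
  refine le_trans ?_ (a3.le.trans (hC ⟨y, hy, rfl⟩))
  rw [hu]
  refine sub_le_sub_right ?_ _
  rcases ((h.tw_le _ _ _).2 (Or.inr x)).eq_or_lt with z | z
  · rw [← z]
  · exact (h.tw_plt (a := (c, a)) (b := (c, twF r (c', b) c)) rfl (h.tw_lt.2 z)).le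

theorem tw_ev {P : ℤ → κ × ℤ → κ × ℤ → Prop} {F : Filter ℤ}
    (h : ∀ c c', c < c' → ∀ᶠ m in F, ∀ a b, P m (c, a) (c', b)) :
    ∀ᶠ m in F, ∀ a b, a.1 < b.1 → P m a b := by
  have : ∀ᶠ m in F, ∀ c c', c < c' → ∀ a b, P m (c, a) (c', b) :=
    eventually_all.2 fun c => eventually_all.2 fun c' => eventually_imp_distrib_left.2 (h c c')
  exact this.mono fun m x a b l => x _ _ l _ _

theorem Wd.tw_top (h : Wd ℓ r) (ht : Antitone t) : ∀ᶠ m in atTop, Sb r (twT ℓ t r m) := by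
  refine tw_ev (P := fun m a b => r a b → twT ℓ t r m a b) fun c c' l => ?_
  rcases (ht l.le).eq_or_lt with x | x
  · exact .of_forall fun m a b => (h.tw_a m (c, a) (c', b) x.symm).2
  · obtain ⟨C, hC⟩ := h.tw_bd t c c'
    obtain ⟨n, hn⟩ := exists_int_gt (C / (t c - t c'))
    filter_upwards [eventually_ge_atTop n] with m hm a b y
    rw [twT_iff l, twP_eq m, twP_eq m]
    rw [div_lt_iff₀ (sub_pos.2 x)] at hn
    have a1 : (n : ℚ) ≤ m := by exact_mod_cast hm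
    nlinarith [hC a b y]

theorem Wd.tw_bot (h : Wd ℓ r) (ht : Antitone t) : ∀ᶠ m in atBot, Sb (twT ℓ t r m) r := by
  refine tw_ev (P := fun m a b => twT ℓ t r m a b → r a b) fun c c' l => ?_
  rcases (ht l.le).eq_or_lt with x | x
  · exact .of_forall fun m a b => (h.tw_a m (c, a) (c', b) x.symm).1
  · obtain ⟨C, hC⟩ := h.tw_bd t c' c
    obtain ⟨n, hn⟩ := exists_int_lt (-C / (t c - t c'))
    filter_upwards [eventually_le_atBot n] with m hm a b y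
    refine (h.tot _ _ fun z => l.ne (Prod.mk.inj z).1).resolve_right fun z => ?_
    rw [twT_iff l, twP_eq m, twP_eq m] at y
    rw [lt_div_iff₀ (sub_pos.2 x)] at hn
    have a1 : (m : ℚ) ≤ n := by exact_mod_cast hm
    nlinarith [hC b a z]

end Pool.Agent.Lib.MP_5d3e93_al.Bg
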