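import Pool.Agent.Lib.MP_5d3e93_al.Bg.Tow
import Pool.Agent.Lib.MP_5d3e93_al.Bg.Oq

/-! Directed families of towers for orders with unique factorisation over shuffles. -/

namespace Pool.Agent.Lib.MP_5d3e93_al.Bg

universe w w' w''

open Finset Filter

variable {Γ : Type w} [Group Γ] {Y : Type w'} [Preorder Y] [MulAction Γ Y] {κ : Type}
variable {ℓ : κ → ℕ} {r r' u : κ × ℤ → κ × ℤ → Prop} {k : κ → ℤ}

theorem TwS.tq_inv (e : TwS k r r') : TwS (fun c => -k c) r' r := fun c a c' a' => by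
  rw [← e, neg_add_cancel_right, neg_add_cancel_right]

theorem Wd.tq_sh (h : Wd ℓ u) (k : κ → ℤ) :
    Wd ℓ fun a b => u (a.1, a.2 + k a.1) (b.1, b.2 + k b.1) where
  pos := h.pos
  irr _ := h.irr _
  trans := h.trans
  tot a b n := h.tot _ _ fun e => n (by
    obtain ⟨c, i⟩ := a
    obtain ⟨c', j⟩ := b
    obtain ⟨rfl, x⟩ := Prod.mk.inj e
    simpa using x)
  idx c a := by simpa only [add_right_comm a 1] using h.idx c (a + k c)
  per c a c' a' := by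
    simpa only [add_right_comm a (ℓ c), add_right_comm a' (ℓ c')] using h.per c _ c' _
  arch ν c := by
    obtain ⟨⟨a, x⟩, b, y⟩ := h.arch (ν.1, ν.2 + k ν.1) c
    exact ⟨⟨a - k c, by simpa using x⟩, b - k c, by simpa using y⟩

variable [Fintype κ] {t : κ → ℚ}

theorem Wd.tq_mul (h : Wd ℓ r) (m : ℤ) (c : κ) (a n : ℤ) :
    twP ℓ t r m (c, a + n * ℓ c) = twP ℓ t r m (c, a) + n := by
  induction n using Int.induction_on with
  | zero => simp
  | succ n ih => rw [add_one_mul, ← add_assoc, h.tw_per, ih]; push_cast; ring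
  | pred n ih =>
    have := h.tw_per (t := t) (m := m) c (a + (-n - 1) * ℓ c)
    rw [add_assoc, ← add_one_mul, sub_add_cancel, ih] at this
    push_cast at this ⊢
    linarith

theorem tq_int (t : κ → ℚ) (d : ℕ) : ∃ (v : ℤ) (j : κ → ℤ), d ≤ v ∧ ∀ c, (j c : ℚ) = v * t c := by
  choose e he using fun c => dvd_prod_of_mem (fun c => (t c).den) (mem_univ c)
  have p : 0 < ∏ c, (t c).den := prod_pos fun c _ => (t c).den_pos
  refine ⟨(d * ∏ c, (t c).den : ℕ), fun c => d * e c * (t c).num,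
    by exact_mod_cast Nat.le_mul_of_pos_right d p, fun c => ?_⟩
  rw [he c]
  push_cast
  rw [← Rat.mul_den_eq_num]
  ring

variable [LinearOrder κ]

theorem Wd.tq_far (h : Wd ℓ r) {v : ℤ} {j : κ → ℤ} (hj : ∀ c, (j c : ℚ) = v * t c) (m : ℤ) :
    TwS (fun c => j c * ℓ c) (twT ℓ t r m) (twT ℓ t r (m + v)) := by
  have a (c a) : twP ℓ t r (m + v) (c, a + j c * ℓ c) = twP ℓ t r m (c, a) := by
    rw [h.tq_mul, twP_eq (m + v), twP_eq m, hj]
    push_cast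
    ring
  intro c x c' y
  simp only [twT, a]

theorem Wp.tq_eq (P : Wp Γ Y ℓ) {x y : Y} (h : x ≤ y)
    (e : ∀ c c', c < c' → twH ℓ (P.bf x) c c' = twH ℓ (P.bf y) c c') : x = y := by
  refine P.uniq le_rfl h h le_rfl ?_
  have := TwA.of (t := fun _ => 0) (P.wd x) (P.wd y) fun c d l _ =>
    (P.mono h).tw_eq (P.wd _) (P.wd _) l (e _ _ l) c.2 d.2
  funext c d
  exact propext (this c d rfl)

/-- The family of towers in a direction with decreasing rates. -/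
def Wp.tq (P : Wp Γ Y ℓ) {s : κ → ℤ} (ht : Antitone t)
    (hs : Y → ∀ c, (s c : ℚ) = t c * ℓ c) : Tq P.χ s Y where
  T N := P.twr ht hs N
  le _ _ _ _ h := h
  lo {N d p} h := ⟨(twT_mono ht (by omega)).tw_tr h.1, h.2.tw_tr (twT_mono ht (by
    push_cast; omega))⟩
  ex p := by
    obtain ⟨N, hN⟩ := ((P.wd p.1).tw_bot ht).exists
    obtain ⟨M, hM, l⟩ := (((P.wd p.1).tw_top ht).and (eventually_ge_atTop N)).exists
    refine ⟨N - p.2, (M - N).toNat, ?_, ?_⟩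
    · rwa [add_sub_cancel]
    · rwa [show p.2 + (N - p.2) + (M - N).toNat = M by omega]
  sBk N g m hg d q r h := by
    refine ⟨⟨(P.twr ht hs N).sLe g m hg h.1.1, congrArg (m + ·) h.1.2.1,
      (P.twr ht hs N).sBx g m hg h.1.2.2⟩, fun u hu a b => ?_⟩
    have a1 (y) : TwS (fun c => P.χ c g) (P.bf y) (P.bf (g • y)) := P.smul g y
    have a2 := (a1 q.1).tt (t := t) (u := m) (P.wd _) (P.wd _) (fun c => by
      rw [hg, Int.cast_mul, hs q.1, mul_assoc]) (q.2 + N + d)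
    have a3 : TwS (fun c => P.χ c g)
      (fun a b => u (a.1, a.2 + P.χ a.1 g) (b.1, b.2 + P.χ b.1 g)) u := fun _ _ _ _ => Iff.rfl
    simp only [add_assoc] at a2 b
    refine (h.2 _ (hu.tq_sh fun c => P.χ c g) (a.tw_s a3.tq_inv (a1 _).tq_inv) ?_).tw_s a3 (a1 _)
    rw [add_assoc]
    exact b.tw_s a3.tq_inv a2.tq_inv
  cp {N d p q q' r r'} a e b b' c c' := by
    have A : TwA t (P.bf r.1) (P.bf q'.1) := fun x y u => (b.1.1.2 x y u).trans (a.2 x y u)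
    have l := b.1.1.1.trans a.1
    have B := b.1.2.2.2
    rw [A.tt (P.wd _) (P.wd _), b.1.2.1, ← e] at B
    obtain ⟨y, y1, y2, y3⟩ := P.fac c'.1 (P.wd r.1) (P.mono c.1) (b'.2 _ (P.wd _) (P.mono l) B)
    rw [P.uniq y1 (y2.trans b'.1.1.1) c.1 l y3] at y2
    exact ⟨y2, fun x y u => (A x y u).trans (b'.1.1.2 x y u).symm⟩
  pot N d := by
    obtain ⟨v, j, hv, hj⟩ := tq_int t d
    refine ⟨fun p => ∑ z : κ × κ with z.1 < z.2, (twH ℓ (P.bf p.1) z.1 z.2 -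
      twH ℓ (twT ℓ t (P.bf p.1) (p.2 + N)) z.1 z.2), (∑ z : κ × κ with z.1 < z.2,
        (ℓ z.2 * (j z.1 * ℓ z.1) - ℓ z.1 * (j z.2 * ℓ z.2))).natAbs, fun p h => ?_,
      fun p q h e => ?_⟩
    · have w := P.wd p.1
      rw [abs_of_nonneg (sum_nonneg fun z k => sub_nonneg.2
        (h.1.tw_h (w.tw_t t _) w (mem_filter.1 k).2))]
      refine (sum_le_sum fun z k => ?_).trans Int.le_natAbs
      have a := (h.2.tw_tr (twT_mono (m' := p.2 + N + v) ht (by omega))).tw_h w (w.tw_t t _)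
        (mem_filter.1 k).2
      rw [(w.tq_far hj _).h (w.tw_t t _) (w.tw_t t _)] at a
      omega
    · have a (z) (k : z ∈ ({z | z.1 < z.2} : Finset (κ × κ))) : twH ℓ (P.bf p.1) z.1 z.2 -
          twH ℓ (twT ℓ t (P.bf q.1) (q.2 + N)) z.1 z.2 ≤ twH ℓ (P.bf q.1) z.1 z.2 -
          twH ℓ (twT ℓ t (P.bf q.1) (q.2 + N)) z.1 z.2 :=
        sub_le_sub_right ((P.mono h.1).tw_h (P.wd _) (P.wd _) (mem_filter.1 k).2) _
      simp only [h.2.tt (P.wd _) (P.wd _), ← e]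
      exact (sum_le_sum a).eq_or_lt.imp_left fun u => Prod.ext (P.tq_eq h.1 fun c c' l =>
        sub_left_inj.1 ((sum_eq_sum_iff_of_le a).1 u (c, c') (by simpa using l))) e.symm

theorem Wp.oq (P : Wp Γ Y ℓ) : Nonempty (Oq Γ Y κ) := by
  have sm (g y) := TwS.h (k := fun c => P.χ c g) (P.smul g y) (P.wd _) (P.wd _)
  refine ⟨⟨P.χ, P.mul, P.hm, ⟨fun y => ∑ p : κ × κ with p.1 < p.2, twH ℓ (P.bf y) p.1 p.2,
    fun g x y hg h => ?_⟩, fun s => ?_⟩⟩
  · obtain ⟨a, b⟩ := P.tw_sum {p | p.1 < p.2} (fun p hp => (mem_filter.1 hp).2) h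
      fun p _ => by simp [hg]
    refine ⟨a, fun u => P.uniq le_rfl h h le_rfl ?_⟩
    have := TwA.of (t := fun _ => 0) (P.wd x) (P.wd (g • y)) fun c d l _ =>
      (b u (c.1, d.1) (by simpa using l)).2 c.2 d.2
    funext c d
    exact propext (this c d rfl)
  obtain ⟨t, ht⟩ : ∃ t : κ → ℚ, ∀ c, t c = s c / ℓ c := ⟨_, fun _ => rfl⟩
  have hs : Y → ∀ c, (s c : ℚ) = t c * ℓ c := fun y c => by
    rw [ht, div_mul_cancel₀ _ (by exact_mod_cast ((P.wd y).pos c).ne')]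
  have k1 : Y → ∀ c c', ((ℓ c' * s c - ℓ c * s c' : ℤ) : ℚ) = ℓ c * ℓ c' * (t c - t c') :=
    fun y c c' => by push_cast; rw [hs y c, hs y c']; ring
  have k2 : Y → ∀ c c', (0 : ℚ) < ℓ c * ℓ c' := fun y c c' => by
    exact_mod_cast Nat.mul_pos ((P.wd y).pos c) ((P.wd y).pos c')
  let o (p : Y × ℤ) (z : κ × κ) : ℤ :=
    twH ℓ (P.bf p.1) z.1 z.2 - p.2 * (ℓ z.2 * s z.1 - ℓ z.1 * s z.2)
  let A : Finset (κ × κ) := {z | z.1 < z.2 ∧ t z.1 ≤ t z.2}
  have k3 (y : Y) (z) (k : z ∈ A) : ℓ z.2 * s z.1 - ℓ z.1 * s z.2 ≤ 0 := by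
    rw [← Int.cast_nonpos (R := ℚ), k1 y]
    exact mul_nonpos_of_nonneg_of_nonpos (k2 y _ _).le (sub_nonpos.2 (mem_filter.1 k).2.2)
  have k4 (p q : Y × ℤ) (h : p.1 ≤ q.1) (z) (k : z ∈ A) :=
    (P.mono h).tw_h (P.wd _) (P.wd _) (mem_filter.1 k).2.1
  have k5 (p q : Y × ℤ) (h : p.1 ≤ q.1) (e : q.2 = p.2 ∨ q.2 = p.2 + 1) (z) (k : z ∈ A) :
      o p z ≤ o q z := by
    have := k3 p.1 z k
    have := k4 p q h z k
    rcases e with e | e <;> simp only [o, e, add_one_mul] <;> omega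
  refine ⟨fun p => ∑ z ∈ A, o p z, fun g m hg p => sum_congr rfl fun z _ => ?_,
    fun p q h e => sum_le_sum (k5 p q h e), ?_⟩
  · simp only [o, sm, hg]
    ring
  by_cases an : Antitone t
  · refine .inr ⟨P.tq an hs, fun p q h e u => ⟨h, .of (P.wd _) (P.wd _) fun c d l v =>
      (P.mono h).tw_eq (P.wd _) (P.wd _) l ?_ c.2 d.2⟩⟩
    have a := (sum_eq_sum_iff_of_le (k5 p q h e)).1 u (c.1, d.1) (by simpa [A] using ⟨l, v.le⟩)
    have b : (ℓ d.1 * s c.1 - ℓ c.1 * s d.1 : ℤ) = 0 := by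
      rw [← Int.cast_eq_zero (α := ℚ), k1 p.1, v, sub_self, mul_zero]
    simpa [o, b] using a
  · refine .inl fun p q h e => ?_
    obtain ⟨c, d, l, v⟩ : ∃ c d, c ≤ d ∧ t c < t d := by simpa [Antitone] using an
    have m : (c, d) ∈ A := by simpa [A] using ⟨l.lt_of_ne fun z => v.ne (by rw [z]), v.le⟩
    refine sum_lt_sum (k5 p q h (.inr e)) ⟨_, m, ?_⟩
    have a : (ℓ d * s c - ℓ c * s d : ℤ) < 0 := by
      rw [← Int.cast_lt_zero (R := ℚ), k1 p.1]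
      exact mul_neg_of_pos_of_neg (k2 p.1 c d) (sub_neg.2 v)
    have := k4 p q h _ m
    simp only [o, e, add_one_mul] at *
    omega

end Pool.Agent.Lib.MP_5d3e93_al.Bg
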